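import Pool.Agent.Lib.H22M.Defs

/-!
# Project H22M, NL: lemmas on `l2`
-/

open MeasureTheory Filter Topology Finset
open scoped ComplexConjugate ENNReal InnerProductSpace

namespace Pool.Agent.Lib.H22M

section

variable {Y : Type*} [MeasurableSpace Y] {m : Measure Y}

theorem l2_congr {f g : Y → ℂ} (h : ∀ᵐ y ∂m, f y = g y) : l2 m f = l2 m g := by
  unfold l2
  congr 1
  refine integral_congr_ae ?_
  filter_upwards [h] with y hy
  rw [hy]

theorem l2_sq (f : Y → ℂ) : l2 m f ^ 2 = ∫ y, ‖f y‖ ^ 2 ∂m :=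
  Real.sq_sqrt (integral_nonneg fun _ => by positivity)

theorem l2_eq_norm_toLp {f : Y → ℂ} (hf : MemLp f 2 m) : l2 m f = ‖hf.toLp f‖ := by
  have h1 : ‖hf.toLp f‖ ^ 2 = ∫ y, ‖f y‖ ^ 2 ∂m := by
    have h2 : (∫ y, ⟪hf.toLp f y, hf.toLp f y⟫_ℂ ∂m) = ((‖hf.toLp f‖ ^ 2 : ℝ) : ℂ) := by
      rw [← L2.inner_def, inner_self_eq_norm_sq_to_K]
      push_cast
      rfl
    have h3 : (∫ y, ⟪hf.toLp f y, hf.toLp f y⟫_ℂ ∂m) = ((∫ y, ‖f y‖ ^ 2 ∂m : ℝ) : ℂ) := by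
      have h4 : ((∫ y, ‖f y‖ ^ 2 ∂m : ℝ) : ℂ) = ∫ y, ((‖f y‖ ^ 2 : ℝ) : ℂ) ∂m :=
        integral_ofReal.symm
      rw [h4]
      refine integral_congr_ae ?_
      filter_upwards [hf.coeFn_toLp] with y hy
      rw [hy, inner_self_eq_norm_sq_to_K]
      push_cast
      rfl
    rw [h3] at h2
    exact_mod_cast h2.symm
  rw [l2, ← h1, Real.sqrt_sq (norm_nonneg _)]

theorem l2_eq_norm [IsFiniteMeasure m] {f : Y → ℂ} (hf : BM f) :
    l2 m f = ‖(hf.memLp (m := m) 2).toLp f‖ := l2_eq_norm_toLp _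

theorem l2_add_le_memLp {f g : Y → ℂ} (hf : MemLp f 2 m) (hg : MemLp g 2 m) :
    l2 m (fun y => f y + g y) ≤ l2 m f + l2 m g := by
  have h1 : l2 m (fun y => f y + g y) = ‖(hf.add hg).toLp (f + g)‖ := l2_eq_norm_toLp _
  rw [h1, l2_eq_norm_toLp hf, l2_eq_norm_toLp hg, MemLp.toLp_add]
  exact norm_add_le _ _

theorem l2_add_le [IsFiniteMeasure m] {f g : Y → ℂ} (hf : BM f) (hg : BM g) :
    l2 m (fun y => f y + g y) ≤ l2 m f + l2 m g :=
  l2_add_le_memLp (hf.memLp 2) (hg.memLp 2)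

theorem l2_const [IsProbabilityMeasure m] (c : ℂ) : l2 m (fun _ => c) = ‖c‖ := by
  unfold l2
  simp [Real.sqrt_sq (norm_nonneg c)]

theorem l2_le_of_bound [IsProbabilityMeasure m] {f : Y → ℂ} (C : ℝ) (hC : 0 ≤ C)
    (h : ∀ᵐ y ∂m, ‖f y‖ ≤ C) : l2 m f ≤ C := by
  unfold l2
  rw [Real.sqrt_le_left hC]
  have h1 : ∀ᵐ y ∂m, ‖f y‖ ^ 2 ≤ C ^ 2 := by
    filter_upwards [h] with y hy
    exact pow_le_pow_left₀ (norm_nonneg _) hy 2
  calc ∫ y, ‖f y‖ ^ 2 ∂m ≤ ∫ _y, C ^ 2 ∂m := by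
        apply integral_mono_of_nonneg (Eventually.of_forall fun y => by positivity)
          (integrable_const _) h1
    _ = C ^ 2 := by simp

theorem norm_integral_mul_conj_le_memLp {f g : Y → ℂ} (hf : MemLp f 2 m) (hg : MemLp g 2 m) :
    ‖∫ y, f y * conj (g y) ∂m‖ ≤ l2 m f * l2 m g := by
  have h1 : ∫ y, f y * conj (g y) ∂m = ⟪hg.toLp g, hf.toLp f⟫_ℂ := by
    rw [L2.inner_def]
    refine integral_congr_ae ?_
    filter_upwards [hf.coeFn_toLp, hg.coeFn_toLp] with y h1 h2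
    rw [h1, h2, RCLike.inner_apply]
  rw [h1, l2_eq_norm_toLp hf, l2_eq_norm_toLp hg, mul_comm]
  exact norm_inner_le_norm _ _

theorem norm_integral_mul_conj_le [IsFiniteMeasure m] {f g : Y → ℂ} (hf : BM f) (hg : BM g) :
    ‖∫ y, f y * conj (g y) ∂m‖ ≤ l2 m f * l2 m g :=
  norm_integral_mul_conj_le_memLp (hf.memLp 2) (hg.memLp 2)

theorem norm_integral_le_l2 [IsProbabilityMeasure m] {f : Y → ℂ} (hf : BM f) :
    ‖∫ y, f y ∂m‖ ≤ l2 m f := by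
  have h := norm_integral_mul_conj_le (m := m) hf (BM.const 1)
  simpa [l2_const] using h

theorem l2_map {Ω : Type*} [MeasurableSpace Ω] {ρ : Measure Ω} {π : Ω → Y}
    (hπ : Measurable π) {f : Y → ℂ} (hf : Measurable f) :
    l2 (ρ.map π) f = l2 ρ (fun ω => f (π ω)) := by
  unfold l2
  rw [integral_map hπ.aemeasurable]
  exact (hf.norm.pow_const 2).aestronglyMeasurable

end

end Pool.Agent.Lib.H22M
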