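import Pool.Agent.Lib.H22M.P1

/-!
# Project H22M, chunk P5: finite type data from an invariant subspace
-/

open MeasureTheory Filter Topology Finset
open scoped ComplexConjugate

namespace Pool.Agent.Lib.H22M

section

variable {K M : Type*}
  [Group K] [TopologicalSpace K] [IsTopologicalGroup K] [CompactSpace K] [T2Space K]
  [SecondCountableTopology K] [MeasurableSpace K] [BorelSpace K]
  [TopologicalSpace M] [CompactSpace M] [T2Space M] [SecondCountableTopology M]
  [MeasurableSpace M] [BorelSpace M] [MulAction K M] [ContinuousSMul K M]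

omit [TopologicalSpace K] [IsTopologicalGroup K] [CompactSpace K] [T2Space K]
  [SecondCountableTopology K] [MeasurableSpace K] [BorelSpace K] [Group K] [MulAction K M]
  [ContinuousSMul K M] [T2Space M] [SecondCountableTopology M] in
theorem p5_basis (muM : Measure M) [IsProbabilityMeasure muM] [muM.IsOpenPosMeasure]
    (V : Submodule ℂ C(M, ℂ)) (hfin : FiniteDimensional ℂ V) :
    ∃ (n : ℕ) (G : Fin n → C(M, ℂ)), (∀ i, G i ∈ V) ∧
      (∀ i j, ∫ u, G i u * conj (G j u) ∂muM = if i = j then 1 else 0) ∧
      ∀ h ∈ V, ∀ u, h u = ∑ j, (∫ v, h v * conj (G j v) ∂muM) * G j u := by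
  classical
  set T : C(M, ℂ) →L[ℂ] Lp ℂ 2 muM := ContinuousMap.toLp 2 muM ℂ with hT
  have hinj : Function.Injective T := ContinuousMap.toLp_injective muM
  set W : Submodule ℂ (Lp ℂ 2 muM) := V.map (T : C(M, ℂ) →ₗ[ℂ] Lp ℂ 2 muM) with hW
  have hWf : FiniteDimensional ℂ W := inferInstance
  let e := stdOrthonormalBasis ℂ W
  have hex : ∀ i, ∃ g ∈ V, T g = (e i : Lp ℂ 2 muM) := fun i => (e i).2
  choose G hGV hGe using hex
  have hin : ∀ f g : C(M, ℂ), inner ℂ (T f) (T g) = ∫ u, g u * conj (f u) ∂muM := fun f g =>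
    ContinuousMap.inner_toLp (μ := muM) (𝕜 := ℂ) f g
  refine ⟨_, G, hGV, ?_, ?_⟩
  · intro i j
    rw [← hin (G j) (G i), hGe, hGe, ← Submodule.coe_inner,
      orthonormal_iff_ite.mp e.orthonormal]
    by_cases hij : i = j
    · rw [if_pos hij, if_pos hij.symm]
    · rw [if_neg hij, if_neg (Ne.symm hij)]
  · intro h hh u
    have hw : T h ∈ W := ⟨h, hh, rfl⟩
    have h1 := e.sum_repr' ⟨T h, hw⟩
    have h2 : T h = T (∑ j, (∫ v, h v * conj (G j v) ∂muM) • G j) := by
      rw [map_sum]
      have h3 := congrArg (Subtype.val) h1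
      rw [Submodule.coe_sum] at h3
      change _ = T h at h3
      refine h3.symm.trans (Finset.sum_congr rfl (fun j _ => ?_))
      rw [map_smul, hGe, ← hin (G j) h, Submodule.coe_smul, Submodule.coe_inner, hGe]
    have h4 := hinj h2
    have h5 := congrArg (fun f : C(M, ℂ) => f u) h4
    simpa [ContinuousMap.sum_apply] using h5

variable (K) in
/-- Proof. `muM` has full support (`isOpenPosMeasure_of_invariant`), so the linear map
`C(M, ℂ) → Lp ℂ 2 muM` (`ContinuousMap.toLp`) is injective; let `W` be the image of `V`, a finite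
dimensional subspace, `e_1, …, e_n` an orthonormal basis of `W` (`stdOrthonormalBasis`), `G_i ∈ V` with
class `e_i`. Orthonormality: `∫ G_i conj G_j = ⟪e_j, e_i⟫ = δ_ij`. For `k : K` and `i` let `h' ∈ V` with
`h' u = G_i (k u)`; its class is `∑_j ⟪e_j, h'⟫ e_j`, so `h' = ∑_j D k i j G_j` in `C(M, ℂ)`
(injectivity), where `D k i j = ∫ G_i (k u) conj (G_j u) dmuM(u)`. `D` is measurable (even continuous) in
`k`: the integrand is continuous in `(k, u)` (`StronglyMeasurable.integral_prod_right` or
`continuous_parametric_integral_of_continuous`). `unit`: `∑_j D k i j conj (D k i' j)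
= ∫ G_i (k u) conj (G_i' (k u)) du = ∫ G_i conj G_i' = δ_ii'` by orthonormality and the invariance of
`muM`. Every `h ∈ V` is `∑_i ⟪e_i, h⟫ G_i`. -/
theorem exists_ftd [MulAction.IsPretransitive K M] (muM : Measure M)
    [IsProbabilityMeasure muM] [SMulInvariantMeasure K M muM] (V : Submodule ℂ C(M, ℂ))
    (hfin : FiniteDimensional ℂ V)
    (hV : ∀ (g : K), ∀ h ∈ V, ∃ h' ∈ V, ∀ u, h' u = h (g • u)) :
    ∃ (n : ℕ) (G : Fin n → M → ℂ) (D : K → Fin n → Fin n → ℂ), FTD muM G D ∧
      ∀ h ∈ V, ∃ x : Fin n → ℂ, ∀ u, h u = ∑ i, x i * G i u := by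
  have := isOpenPosMeasure_of_invariant K muM
  obtain ⟨n, G, hGV, horth, hexp⟩ := p5_basis muM V hfin
  have hmul : ∀ f g : C(M, ℂ), Integrable (fun u => f u * conj (g u)) muM := by
    intro f g
    apply Continuous.integrable_of_hasCompactSupport
    · fun_prop
    · exact HasCompactSupport.of_compactSpace _
  have hrel : ∀ (k : K) (u : M) (i : Fin n), G i (k • u)
      = ∑ j, (∫ v, G i (k • v) * conj (G j v) ∂muM) * G j u := by
    intro k u i
    obtain ⟨h', hh', he⟩ := hV k (G i) (hGV i)
    rw [← he u, hexp h' hh' u]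
    refine Finset.sum_congr rfl (fun j _ => ?_)
    congr 1
    refine integral_congr_ae (Eventually.of_forall fun v => ?_)
    simp only [he v]
  refine ⟨n, fun i => G i, fun k i j => ∫ v, G i (k • v) * conj (G j v) ∂muM, ?_, ?_⟩
  · refine ⟨fun i => (G i).continuous, ?_, hrel, horth, ?_⟩
    · intro i j
      have hc : Continuous fun k : K => ∫ v in Set.univ, G i (k • v) * conj (G j v) ∂muM := by
        apply continuous_parametric_integral_of_continuous (f := fun (k : K) (v : M) =>
          G i (k • v) * conj (G j v)) ?_ isCompact_univ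
        simp only [Function.uncurry_def]
        fun_prop
      have h2 := hc.measurable
      simpa using h2
    · intro k i i'
      have h1 : ∫ v, G i (k • v) * conj (G i' (k • v)) ∂muM = if i = i' then 1 else 0 := by
        rw [← horth i i']
        exact integral_smul_eq_self (μ := muM) (fun v => G i v * conj (G i' v)) (g := k)
      rw [← h1]
      set A : Fin n → ℂ := fun j => ∫ v, G i (k • v) * conj (G j v) ∂muM with hA
      set B : Fin n → ℂ := fun j => ∫ v, G i' (k • v) * conj (G j v) ∂muM with hB
      have h2 : ∀ v, G i (k • v) * conj (G i' (k • v))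
          = ∑ j, ∑ j', (A j * conj (B j')) * (G j v * conj (G j' v)) := by
        intro v
        rw [hrel k v i, hrel k v i', map_sum, Finset.sum_mul_sum]
        refine Finset.sum_congr rfl (fun j _ => Finset.sum_congr rfl (fun j' _ => ?_))
        rw [map_mul]
        ring
      rw [integral_congr_ae (Eventually.of_forall h2)]
      rw [integral_finsetSum _ (fun j _ => integrable_finsetSum _
        (fun j' _ => (hmul (G j) (G j')).const_mul _))]
      refine Finset.sum_congr rfl (fun j _ => ?_)
      rw [integral_finsetSum _ (fun j' _ => (hmul (G j) (G j')).const_mul _)]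
      simp only [integral_const_mul, horth]
      simp [hA, hB]
  · intro h hh
    exact ⟨_, hexp h hh⟩

end

end Pool.Agent.Lib.H22M
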