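import Pool.Agent.Lib.H22M.P4
import Pool.Agent.Lib.H22M.P5
import Pool.Agent.Lib.H22M.NL

/-!
# Project H22M, chunk P6: density of the functions of finite type
-/

open MeasureTheory Filter Topology Finset
open scoped ComplexConjugate

namespace Pool.Agent.Lib.H22M

section

variable {Z K M : Type*} [CommGroup Z] [TopologicalSpace Z] [IsTopologicalGroup Z]
  [CompactSpace Z] [T2Space Z] [SecondCountableTopology Z] [MeasurableSpace Z] [BorelSpace Z]
  [Group K] [TopologicalSpace K] [IsTopologicalGroup K] [CompactSpace K] [T2Space K]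
  [SecondCountableTopology K] [MeasurableSpace K] [BorelSpace K]
  [TopologicalSpace M] [CompactSpace M] [T2Space M] [SecondCountableTopology M]
  [MeasurableSpace M] [BorelSpace M] [MulAction K M] [ContinuousSMul K M]

/-- Finite sums of products, with an arbitrary finite index type. -/
def p6Rep (F : C(Z × M, ℂ)) : Prop :=
  ∃ (ι : Type) (_ : Fintype ι) (p : ι → C(Z, ℂ)) (r : ι → C(M, ℂ)),
    ∀ y : Z × M, F y = ∑ j, p j y.1 * r j y.2

variable (Z M) in
/-- The star subalgebra of the finite sums of products. -/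
def p6Alg : StarSubalgebra ℂ C(Z × M, ℂ) where
  carrier := {F | p6Rep F}
  mul_mem' := by
    rintro F F' ⟨ι, hι, p, r, h⟩ ⟨ι', hι', p', r', h'⟩
    refine ⟨ι × ι', inferInstance, fun j => p j.1 * p' j.2, fun j => r j.1 * r' j.2, fun y => ?_⟩
    rw [ContinuousMap.mul_apply, h, h', Finset.sum_mul_sum, Fintype.sum_prod_type]
    refine Finset.sum_congr rfl fun i _ => Finset.sum_congr rfl fun j _ => ?_
    simp only [ContinuousMap.mul_apply]
    ring
  add_mem' := by
    rintro F F' ⟨ι, hι, p, r, h⟩ ⟨ι', hι', p', r', h'⟩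
    refine ⟨ι ⊕ ι', inferInstance, Sum.elim p p', Sum.elim r r', fun y => ?_⟩
    rw [ContinuousMap.add_apply, h, h', Fintype.sum_sum_type]
    simp
  algebraMap_mem' := by
    intro c
    refine ⟨Unit, inferInstance, fun _ => algebraMap ℂ C(Z, ℂ) c, fun _ => 1, fun y => ?_⟩
    simp
  star_mem' := by
    rintro F ⟨ι, hι, p, r, h⟩
    refine ⟨ι, hι, fun j => star (p j), fun j => star (r j), fun y => ?_⟩
    rw [ContinuousMap.star_apply, h, star_sum]
    refine Finset.sum_congr rfl fun j _ => ?_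
    simp [mul_comm]

omit [SecondCountableTopology M] [MeasurableSpace M] [BorelSpace M] in
theorem p6_sep {u v : M} (h : u ≠ v) : ∃ r : C(M, ℂ), r u ≠ r v := by
  obtain ⟨f, hf0, hf1, _⟩ := exists_continuous_zero_one_of_isClosed (s := {u}) (t := {v})
    isClosed_singleton isClosed_singleton (by simpa using h)
  refine ⟨⟨fun x => (f x : ℂ), by fun_prop⟩, ?_⟩
  have h0 : f u = 0 := hf0 rfl
  have h1 : f v = 1 := hf1 rfl
  simp [h0, h1]

theorem p6_BM {X : Type*} [TopologicalSpace X] [CompactSpace X] [MeasurableSpace X]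
    [BorelSpace X] (f : C(X, ℂ)) : BM f :=
  ⟨f.continuous.measurable, ‖f‖, f.norm_coe_le_norm⟩

theorem p6_l2_sum {Y : Type*} [MeasurableSpace Y] {m : Measure Y} [IsFiniteMeasure m] {ι : Type*}
    (s : Finset ι) (f : ι → Y → ℂ) (hf : ∀ i, BM (f i)) :
    l2 m (fun y => ∑ i ∈ s, f i y) ≤ ∑ i ∈ s, l2 m (f i) := by
  classical
  induction s using Finset.induction_on with
  | empty => simp [l2]
  | insert a s ha ih =>
    simp_rw [Finset.sum_insert ha]
    exact (l2_add_le (hf a) (BM.sum s fun i _ => hf i)).trans (by gcongr)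

theorem p6_l2_mono {Y : Type*} [MeasurableSpace Y] {m : Measure Y} [IsFiniteMeasure m]
    {f g : Y → ℂ} (hg : BM g) (h : ∀ y, ‖f y‖ ≤ ‖g y‖) : l2 m f ≤ l2 m g := by
  unfold l2
  apply Real.sqrt_le_sqrt
  apply integral_mono_of_nonneg
  · exact Eventually.of_forall fun y => by positivity
  · exact (hg.memLp 2).integrable_norm_pow (by norm_num)
  · exact Eventually.of_forall fun y => pow_le_pow_left₀ (norm_nonneg _) (h y) 2

theorem p6_l2_const_mul {Y : Type*} [MeasurableSpace Y] {m : Measure Y} (c : ℝ) (hc : 0 ≤ c)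
    (f : Y → ℂ) : l2 m (fun y => (c : ℂ) * f y) = c * l2 m f := by
  unfold l2
  have h : ∀ y, ‖(c : ℂ) * f y‖ ^ 2 = c ^ 2 * ‖f y‖ ^ 2 := by
    intro y
    rw [norm_mul, mul_pow, Complex.norm_real, Real.norm_of_nonneg hc]
  simp_rw [h]
  rw [integral_const_mul, Real.sqrt_mul (by positivity), Real.sqrt_sq hc]

/-- Continuous functions on `Z × M` are uniform limits of sums `∑ p_j(z) r_j(u)`. Proof:
Stone–Weierstrass for the star subalgebra generated by the functions `p(z)` and `r(u)` (Mathlib may have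
it: search for the approximation of continuous functions on products by finite sums; e.g.
`ContinuousMap` product dense results or `exists_finite_sum..`). -/
theorem exists_sum_mul (F : C(Z × M, ℂ)) (δ : ℝ) (hδ : 0 < δ) :
    ∃ (k : ℕ) (p : Fin k → C(Z, ℂ)) (r : Fin k → C(M, ℂ)),
      ∀ y : Z × M, ‖F y - ∑ j, p j y.1 * r j y.2‖ ≤ δ := by
  have hsep : (p6Alg Z M).SeparatesPoints := by
    intro y y' hne
    by_cases h1 : y.1 = y'.1
    · have h2 : y.2 ≠ y'.2 := fun h2 => hne (Prod.ext h1 h2)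
      obtain ⟨r, hr⟩ := p6_sep h2
      refine ⟨_, ⟨r.comp ContinuousMap.snd, ⟨Unit, inferInstance, fun _ => 1, fun _ => r,
        fun y => by simp⟩, rfl⟩, ?_⟩
      simpa using hr
    · obtain ⟨p, hp⟩ := p6_sep h1
      refine ⟨_, ⟨p.comp ContinuousMap.fst, ⟨Unit, inferInstance, fun _ => p, fun _ => 1,
        fun y => by simp⟩, rfl⟩, ?_⟩
      simpa using hp
  have htop := ContinuousMap.starSubalgebra_topologicalClosure_eq_top_of_separatesPoints
    (p6Alg Z M) hsep
  have hF : F ∈ (p6Alg Z M).topologicalClosure := by rw [htop]; trivial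
  have hF' : F ∈ closure ((p6Alg Z M : Set C(Z × M, ℂ))) := hF
  rw [Metric.mem_closure_iff] at hF'
  obtain ⟨G, ⟨ι, hι, p, r, h⟩, hG⟩ := hF' δ hδ
  let e := Fintype.equivFin ι
  refine ⟨Fintype.card ι, fun j => p (e.symm j), fun j => r (e.symm j), fun y => ?_⟩
  rw [Equiv.sum_comp e.symm (fun j => p j y.1 * r j y.2), ← h y, ← dist_eq_norm]
  exact (ContinuousMap.dist_apply_le_dist y).trans hG.le

variable (K) in
/-- Proof. Continuous functions are dense in `L²` (`MemLp.exists_boundedContinuous_eLpNorm_sub_le` or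
`ContinuousMap.toLp_denseRange`), so there is a continuous `F₁` on `Z × M` with `l2 (F - F₁) ≤ δ/3`, and
by `exists_sum_mul` `F₁` is within `δ/3` of `∑_{j < k} p_j(z) r_j(u)`. Let `C ≥ 1` bound all `|p_j|`; by
`exists_invariant_subspace` there are `V_j` and `h_j ∈ V_j` with `l2 muM (r_j - h_j) ≤ δ/(3 C k)`
(`k ≥ 1`). Let `V = ⨆ V_j`, finite dimensional and invariant, and `G, D` from `exists_ftd`,
`h_j = ∑_i x_ji G_i`. Take `b_i z = ∑_j p_j(z) x_ji` (bounded, continuous), so
`ft G b (z, u) = ∑_j p_j(z) h_j(u)`, and the triangle inequality in `L²(lam.prod muM)`. -/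
theorem exists_ft_approx [MulAction.IsPretransitive K M] (lam : Measure Z)
    [IsProbabilityMeasure lam] (muM : Measure M) [IsProbabilityMeasure muM]
    [SMulInvariantMeasure K M muM] (F : Z × M → ℂ) (hF : BM F) (δ : ℝ) (hδ : 0 < δ) :
    ∃ (n : ℕ) (G : Fin n → M → ℂ) (D : K → Fin n → Fin n → ℂ) (b : Fin n → Z → ℂ),
      FTD muM G D ∧ (∀ i, BM (b i)) ∧ l2 (lam.prod muM) (fun y => F y - ft G b y) ≤ δ := by
  let _ : MetricSpace (Z × M) := TopologicalSpace.metrizableSpaceMetric (Z × M)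
  have hmem : MemLp F 2 (lam.prod muM) := hF.memLp 2
  obtain ⟨g, hg, hgm⟩ := hmem.exists_boundedContinuous_eLpNorm_sub_le (by norm_num)
    (ε := ENNReal.ofReal (δ / 3)) (by simpa using hδ)
  have hgB : BM (g : Z × M → ℂ) := ⟨g.continuous.measurable, ‖g‖, g.norm_coe_le_norm⟩
  have h1 : l2 (lam.prod muM) (fun y => F y - g y) ≤ δ / 3 := by
    have h2 := l2_eq_norm_toLp (hmem.sub hgm)
    have h3 : l2 (lam.prod muM) (fun y => F y - g y) = l2 (lam.prod muM) (F - (g : Z × M → ℂ)) :=
      rfl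
    rw [h3, h2, Lp.norm_toLp]
    exact ENNReal.toReal_le_of_le_ofReal (by positivity) hg
  obtain ⟨k, p, r, hpr⟩ := exists_sum_mul (Z := Z) (M := M) g.toContinuousMap (δ / 3)
    (by positivity)
  obtain ⟨C, hC1, hC⟩ : ∃ C : ℝ, 1 ≤ C ∧ ∀ j z, ‖p j z‖ ≤ C := by
    refine ⟨1 + ∑ j, ‖p j‖, ?_, fun j z => ?_⟩
    · have : 0 ≤ ∑ j, ‖p j‖ := Finset.sum_nonneg fun _ _ => norm_nonneg _
      linarith
    · have h2 : ‖p j‖ ≤ ∑ j, ‖p j‖ :=
        Finset.single_le_sum (f := fun j => ‖p j‖) (fun _ _ => norm_nonneg _) (Finset.mem_univ j)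
      have h3 := (p j).norm_coe_le_norm z
      linarith
  have hCpos : 0 < C := by linarith
  choose V hVfin hVinv h hhV hhl using fun j : Fin k =>
    exists_invariant_subspace K muM (r j) (δ / (3 * C * (k + 1))) (by positivity)
  have hfinV : FiniteDimensional ℂ (⨆ j, V j : Submodule ℂ C(M, ℂ)) :=
    Submodule.finiteDimensional_iSup V
  have hinvV : ∀ (g : K), ∀ h ∈ (⨆ j, V j : Submodule ℂ C(M, ℂ)),
      ∃ h' ∈ (⨆ j, V j : Submodule ℂ C(M, ℂ)), ∀ u, h' u = h (g • u) := by
    intro g h hh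
    induction hh using Submodule.iSup_induction' with
    | mem j x hx =>
      obtain ⟨h', hh', hh''⟩ := hVinv j g x hx
      exact ⟨h', Submodule.mem_iSup_of_mem j hh', hh''⟩
    | zero => exact ⟨0, Submodule.zero_mem _, fun u => rfl⟩
    | add x y _ _ hx hy =>
      obtain ⟨x', hx', hx''⟩ := hx
      obtain ⟨y', hy', hy''⟩ := hy
      exact ⟨x' + y', Submodule.add_mem _ hx' hy', fun u => by
        rw [ContinuousMap.add_apply, ContinuousMap.add_apply, hx'', hy'']⟩
  obtain ⟨n, G, D, hFTD, hspan⟩ := exists_ftd K muM (⨆ j, V j) hfinV hinvV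
  choose x hx using fun j => hspan (h j) (Submodule.mem_iSup_of_mem j (hhV j))
  have hbB : ∀ i, BM (fun z => ∑ j, p j z * x j i) := fun i =>
    BM.sum _ fun j _ => (p6_BM (p j)).mul (BM.const _)
  refine ⟨n, G, D, fun i z => ∑ j, p j z * x j i, hFTD, hbB, ?_⟩
  have hft : ∀ y : Z × M, ft G (fun i z => ∑ j, p j z * x j i) y
      = ∑ j, p j y.1 * h j y.2 := by
    intro y
    unfold ft
    simp_rw [hx, Finset.sum_mul, Finset.mul_sum]
    rw [Finset.sum_comm]
    refine Finset.sum_congr rfl fun j _ => Finset.sum_congr rfl fun i _ => ?_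
    ring
  have hrewr : (fun y : Z × M => F y - ft G (fun i z => ∑ j, p j z * x j i) y)
      = fun y => (F y - g y) + ((g y - ∑ j, p j y.1 * r j y.2)
        + ∑ j, p j y.1 * (r j y.2 - h j y.2)) := by
    funext y
    rw [hft]
    simp_rw [mul_sub]
    rw [Finset.sum_sub_distrib]
    ring
  have hB1 : BM (fun y : Z × M => ∑ j, p j y.1 * r j y.2) :=
    BM.sum _ fun j _ => ((p6_BM (p j)).comp measurable_fst).mul
      ((p6_BM (r j)).comp measurable_snd)
  have hB2 : ∀ j : Fin k, BM (fun y : Z × M => p j y.1 * (r j y.2 - h j y.2)) := fun j =>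
    ((p6_BM (p j)).comp measurable_fst).mul
      (((p6_BM (r j)).sub (p6_BM (h j))).comp measurable_snd)
  have h4 : l2 (lam.prod muM) (fun y => g y - ∑ j, p j y.1 * r j y.2) ≤ δ / 3 :=
    l2_le_of_bound _ (by positivity) (Eventually.of_forall hpr)
  have h5 : ∀ j : Fin k, l2 (lam.prod muM) (fun y => p j y.1 * (r j y.2 - h j y.2))
      ≤ C * (δ / (3 * C * (k + 1))) := by
    intro j
    have hd : BM (fun u => r j u - h j u) := (p6_BM (r j)).sub (p6_BM (h j))
    have h6 : l2 (lam.prod muM) (fun y => p j y.1 * (r j y.2 - h j y.2))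
        ≤ l2 (lam.prod muM) (fun y => (C : ℂ) * (r j y.2 - h j y.2)) := by
      apply p6_l2_mono
      · exact (BM.const _).mul (hd.comp measurable_snd)
      · intro y
        rw [norm_mul, norm_mul, Complex.norm_real, Real.norm_of_nonneg hCpos.le]
        gcongr
        exact hC j y.1
    have h7 : l2 (lam.prod muM) (fun y => r j y.2 - h j y.2) = l2 muM (fun u => r j u - h j u) := by
      have h8 := l2_map (ρ := lam.prod muM) measurable_snd hd.1
      rw [← h8]
      congr 1
      rw [Measure.map_snd_prod]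
      simp
    rw [p6_l2_const_mul C hCpos.le, h7] at h6
    exact h6.trans (by gcongr; exact hhl j)
  have h9 : l2 (lam.prod muM) (fun y => ∑ j, p j y.1 * (r j y.2 - h j y.2)) ≤ δ / 3 := by
    calc l2 (lam.prod muM) (fun y => ∑ j, p j y.1 * (r j y.2 - h j y.2))
        ≤ ∑ j, l2 (lam.prod muM) (fun y => p j y.1 * (r j y.2 - h j y.2)) :=
          p6_l2_sum Finset.univ _ hB2
      _ ≤ ∑ _j : Fin k, C * (δ / (3 * C * (k + 1))) := Finset.sum_le_sum fun j _ => h5 j
      _ = k * (C * (δ / (3 * C * (k + 1)))) := by simp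
      _ = (k / (k + 1)) * (δ / 3) := by field_simp
      _ ≤ 1 * (δ / 3) := by
          gcongr
          rw [div_le_one (by positivity)]
          linarith
      _ = δ / 3 := one_mul _
  rw [hrewr]
  calc l2 (lam.prod muM) (fun y => (F y - g y) + ((g y - ∑ j, p j y.1 * r j y.2)
        + ∑ j, p j y.1 * (r j y.2 - h j y.2)))
      ≤ l2 (lam.prod muM) (fun y => F y - g y) + l2 (lam.prod muM)
        (fun y => (g y - ∑ j, p j y.1 * r j y.2) + ∑ j, p j y.1 * (r j y.2 - h j y.2)) :=
        l2_add_le (hF.sub hgB) ((hgB.sub hB1).add (BM.sum _ fun j _ => hB2 j))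
    _ ≤ δ / 3 + (l2 (lam.prod muM) (fun y => g y - ∑ j, p j y.1 * r j y.2)
        + l2 (lam.prod muM) (fun y => ∑ j, p j y.1 * (r j y.2 - h j y.2))) := by
        gcongr
        exact l2_add_le (hgB.sub hB1) (BM.sum _ fun j _ => hB2 j)
    _ ≤ δ / 3 + (δ / 3 + δ / 3) := by gcongr
    _ = δ := by ring

end

end Pool.Agent.Lib.H22M
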