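import Pool.Agent.Lib.H22M.FC

/-!
# Project H22M, chunk SZ: the projection to `Z × Z` of the relative squares
-/

open MeasureTheory Filter Topology Finset
open scoped ComplexConjugate

namespace Pool.Agent.Lib.H22M

theorem sz_meas_char {Z : Type*} [CommGroup Z] [TopologicalSpace Z] [IsTopologicalGroup Z]
    [MeasurableSpace Z] [BorelSpace Z] (χ : PontryaginDual Z) :
    Measurable fun z : Z => ((χ z : Circle) : ℂ) :=
  (continuous_subtype_val.comp (map_continuous χ)).measurable

theorem sz_bm_char {Z M : Type*} [CommGroup Z] [TopologicalSpace Z] [IsTopologicalGroup Z]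
    [MeasurableSpace Z] [BorelSpace Z] [MeasurableSpace M] (χ : PontryaginDual Z) :
    BM fun y : Z × M => ((χ y.1 : Circle) : ℂ) :=
  ⟨(sz_meas_char χ).comp measurable_fst, 1, fun y => by rw [Circle.norm_coe]⟩

section

variable {Z K M : Type*} [CommGroup Z] [TopologicalSpace Z] [IsTopologicalGroup Z]
  [CompactSpace Z] [T2Space Z] [SecondCountableTopology Z] [MeasurableSpace Z] [BorelSpace Z]
  [SMul K M] [MeasurableSpace M] (lam : Measure Z) [lam.IsHaarMeasure] [IsProbabilityMeasure lam]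
  (muM : Measure M) [IsProbabilityMeasure muM] (α : Z) (φ : Z → K)

include lam muM in
/-- A nontrivial character does not take the value `1` at `α`. Proof: if `χ α = 1`, the function
`y ↦ χ y.1` is invariant under the skew product, measurable, so constant almost everywhere by ergodicity
(`Ergodic` gives it for the sets `{y | χ y.1 ∈ B}`, or use the function versions in
`Mathlib/Dynamics/Ergodic/Function.lean`), so `z ↦ χ z` is `lam`-almost everywhere constant `c` with
`|c| = 1`; but `∫ χ dlam = 0` (`Pool.Agent.Lib.CompactAbelian.integral_char_eq_zero`). -/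
theorem char_ne_one (herg : Ergodic (skew (M := M) α φ) (lam.prod muM)) (χ : PontryaginDual Z)
    (hχ : χ ≠ 1) : ((χ α : Circle) : ℂ) ≠ 1 := by
  intro h1
  have hg : Measurable fun y : Z × M => ((χ y.1 : Circle) : ℂ) := (sz_bm_char χ).1
  have hinv : (fun y : Z × M => ((χ y.1 : Circle) : ℂ)) ∘ skew α φ =
      fun y : Z × M => ((χ y.1 : Circle) : ℂ) := by
    funext y
    show ((χ (α * y.1) : Circle) : ℂ) = _
    rw [map_mul, Circle.coe_mul, h1, one_mul]
  obtain ⟨c, hc⟩ := herg.toPreErgodic.ae_eq_const_of_ae_eq_comp hg hinv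
  have h2 : ∫ y : Z × M, ((χ y.1 : Circle) : ℂ) ∂(lam.prod muM) = 0 := by
    have h3 : (lam.prod muM).map Prod.fst = lam := by
      simp
    rw [← Pool.Agent.Lib.CompactAbelian.integral_char_eq_zero lam χ hχ]
    conv_rhs => rw [← h3]
    rw [integral_map measurable_fst.aemeasurable (sz_meas_char χ).aestronglyMeasurable]
  rw [integral_congr_ae hc] at h2
  have h4 : c = 0 := by simpa using h2
  have h5 : ∀ᵐ y ∂(lam.prod muM), False := by
    filter_upwards [hc] with y hy
    rw [h4] at hy
    have h6 : ‖((χ y.1 : Circle) : ℂ)‖ = 1 := Circle.norm_coe _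
    have h7 : ((χ y.1 : Circle) : ℂ) = 0 := hy
    rw [h7] at h6
    simp at h6
  rw [ae_iff] at h5
  simp at h5

include lam muM in
/-- Proof. The function `e y = χ y.1` is bounded and measurable, `e (R y) = χ(α) e y` for all `y`, and
similarly for `e' y = χ' y.1`. If `χ(α)` is not a `p`-th power of an eigenvalue, `eig_zero` gives the
value `0`. If it is `l^p` with an eigenvalue `l`, `eig_pow` gives
`∫ χ(z) χ'(z') dσ = ∫ χ(y.1) χ'(y.1) dm = ∫ χ χ' dlam`, which is `1` if `χ χ' = 1` and `0` otherwise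
(`Pool.Agent.Lib.CompactAbelian.integral_char_eq_zero`). -/
theorem sigmaZ_integral (p q : ℕ) (ρ σ : Measure ((Z × M) × (Z × M)))
    (h : RelSq (lam.prod muM) (skew α φ) p q ρ σ) (χ χ' : PontryaginDual Z) :
    ∫ w, ((χ w.1 : Circle) : ℂ) * ((χ' w.2 : Circle) : ℂ)
        ∂(σ.map (Prod.map (Prod.fst : Z × M → Z) (Prod.fst : Z × M → Z))) =
      open scoped Classical in
      if χ * χ' = 1 ∧ ∃ l : ℂ, IsEigenvalue (lam.prod muM) (skew α φ) l ∧
        l ^ p = ((χ α : Circle) : ℂ) then 1 else 0 := by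
  classical
  have hmeas : Measurable fun w : Z × Z => ((χ w.1 : Circle) : ℂ) * ((χ' w.2 : Circle) : ℂ) :=
    ((sz_meas_char χ).comp measurable_fst).mul ((sz_meas_char χ').comp measurable_snd)
  rw [integral_map (measurable_fst.prodMap measurable_fst).aemeasurable
    hmeas.aestronglyMeasurable]
  have heq : ∀ᵐ y ∂(lam.prod muM), ((χ (skew α φ y).1 : Circle) : ℂ) =
      ((χ α : Circle) : ℂ) * ((χ y.1 : Circle) : ℂ) :=
    Eventually.of_forall fun y => by
      show ((χ (α * y.1) : Circle) : ℂ) = _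
      rw [map_mul, Circle.coe_mul]
  show ∫ z : (Z × M) × (Z × M), ((χ z.1.1 : Circle) : ℂ) * ((χ' z.2.1 : Circle) : ℂ) ∂σ = _
  by_cases hl : ∃ l : ℂ, IsEigenvalue (lam.prod muM) (skew α φ) l ∧
      l ^ p = ((χ α : Circle) : ℂ)
  · obtain ⟨l, hl1, hl2⟩ := hl
    rw [h.eig_pow (fun y => ((χ y.1 : Circle) : ℂ)) l (sz_bm_char χ) hl1
      (by rw [hl2]; exact heq) (fun y => ((χ' y.1 : Circle) : ℂ)) (sz_bm_char χ')]
    have h3 : (lam.prod muM).map Prod.fst = lam := by
      simp
    have h4 : ∫ y : Z × M, ((χ y.1 : Circle) : ℂ) * ((χ' y.1 : Circle) : ℂ) ∂(lam.prod muM) =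
        ∫ z, (((χ * χ') z : Circle) : ℂ) ∂lam := by
      conv_rhs => rw [← h3]
      rw [integral_map measurable_fst.aemeasurable (sz_meas_char (χ * χ')).aestronglyMeasurable]
      refine integral_congr_ae (Eventually.of_forall fun y => ?_)
      show _ = ((χ y.1 * χ' y.1 : Circle) : ℂ)
      rw [Circle.coe_mul]
    rw [h4]
    by_cases hc : χ * χ' = 1
    · rw [if_pos ⟨hc, l, hl1, hl2⟩, hc]
      have h5 : ∀ z : Z, (((1 : PontryaginDual Z) z : Circle) : ℂ) = 1 := fun z => rfl
      simp_rw [h5]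
      simp
    · rw [if_neg (fun h => hc h.1)]
      exact Pool.Agent.Lib.CompactAbelian.integral_char_eq_zero lam _ hc
  · rw [if_neg (fun h => hl h.2)]
    refine ((h.eig_zero (fun y => ((χ y.1 : Circle) : ℂ)) ((χ α : Circle) : ℂ) (sz_bm_char χ)
      (Circle.norm_coe _) heq ?_).2 (fun y => ((χ' y.1 : Circle) : ℂ)) (sz_bm_char χ')).1
    intro l hl1 hl2
    exact hl ⟨l, hl1, hl2⟩

include lam muM in
/-- The projection depends only on `p`. Proof: `sigmaZ_integral` and `measure_ext_char_prod`. -/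
theorem sigmaZ_unique (p q q' : ℕ) (ρ σ ρ' σ' : Measure ((Z × M) × (Z × M)))
    (h : RelSq (lam.prod muM) (skew α φ) p q ρ σ)
    (h' : RelSq (lam.prod muM) (skew α φ) p q' ρ' σ') :
    σ.map (Prod.map (Prod.fst : Z × M → Z) (Prod.fst : Z × M → Z)) =
      σ'.map (Prod.map (Prod.fst : Z × M → Z) (Prod.fst : Z × M → Z)) := by
  have hp := h.prob
  have hp' := h'.prob
  refine measure_ext_char_prod _ _ fun χ χ' => ?_
  rw [sigmaZ_integral lam muM α φ p q ρ σ h χ χ', sigmaZ_integral lam muM α φ p q' ρ' σ' h' χ χ']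

include lam muM in
/-- Proof. By `measure_ext_char_prod` it suffices to compare Fourier coefficients; the translation by
`(α, α)` multiplies the coefficient at `(χ, χ')` by `χ(α) χ'(α)`, which is `1` if `χ χ' = 1`; otherwise
the coefficient is `0` by `sigmaZ_integral`. -/
theorem sigmaZ_invariant (p q : ℕ) (ρ σ : Measure ((Z × M) × (Z × M)))
    (h : RelSq (lam.prod muM) (skew α φ) p q ρ σ) :
    MeasurePreserving (fun w : Z × Z => (α * w.1, α * w.2))
      (σ.map (Prod.map (Prod.fst : Z × M → Z) (Prod.fst : Z × M → Z)))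
      (σ.map (Prod.map (Prod.fst : Z × M → Z) (Prod.fst : Z × M → Z))) := by
  have hp := h.prob
  have ht : Measurable fun w : Z × Z => (α * w.1, α * w.2) :=
    (measurable_fst.const_mul α).prodMk (measurable_snd.const_mul α)
  refine ⟨ht, ?_⟩
  refine measure_ext_char_prod _ _ fun χ χ' => ?_
  have hmeas : Measurable fun w : Z × Z => ((χ w.1 : Circle) : ℂ) * ((χ' w.2 : Circle) : ℂ) :=
    ((sz_meas_char χ).comp measurable_fst).mul ((sz_meas_char χ').comp measurable_snd)
  rw [integral_map ht.aemeasurable hmeas.aestronglyMeasurable]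
  have h1 : ∀ w : Z × Z, ((χ (α * w.1) : Circle) : ℂ) * ((χ' (α * w.2) : Circle) : ℂ) =
      (((χ α : Circle) : ℂ) * ((χ' α : Circle) : ℂ)) *
        (((χ w.1 : Circle) : ℂ) * ((χ' w.2 : Circle) : ℂ)) := by
    intro w
    rw [map_mul, map_mul, Circle.coe_mul, Circle.coe_mul]
    ring
  simp_rw [h1]
  rw [integral_const_mul]
  by_cases hc : χ * χ' = 1
  · have h2 : ((χ α : Circle) : ℂ) * ((χ' α : Circle) : ℂ) = 1 := by
      rw [← Circle.coe_mul]
      have h3 : χ α * χ' α = (χ * χ') α := rfl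
      rw [h3, hc]
      rfl
    rw [h2, one_mul]
  · rw [sigmaZ_integral lam muM α φ p q ρ σ h χ χ', if_neg (fun h => hc h.1), mul_zero]

include lam muM in
/-- The marginals are `lam`: `σ.map fst = lam.prod muM` and `(lam.prod muM).map fst = lam`. -/
theorem sigmaZ_marginals (p q : ℕ) (ρ σ : Measure ((Z × M) × (Z × M)))
    (h : RelSq (lam.prod muM) (skew α φ) p q ρ σ) :
    (σ.map (Prod.map (Prod.fst : Z × M → Z) (Prod.fst : Z × M → Z))).map Prod.fst = lam ∧
      (σ.map (Prod.map (Prod.fst : Z × M → Z) (Prod.fst : Z × M → Z))).map Prod.snd = lam := by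
  have h3 : (lam.prod muM).map Prod.fst = lam := by
    simp
  constructor
  · rw [Measure.map_map measurable_fst (measurable_fst.prodMap measurable_fst)]
    have h4 : (Prod.fst : Z × Z → Z) ∘
        (Prod.map (Prod.fst : Z × M → Z) (Prod.fst : Z × M → Z)) =
        (Prod.fst : Z × M → Z) ∘ (Prod.fst : (Z × M) × (Z × M) → Z × M) := rfl
    rw [h4, ← Measure.map_map measurable_fst measurable_fst, h.fst, h3]
  · rw [Measure.map_map measurable_snd (measurable_fst.prodMap measurable_fst)]
    have h4 : (Prod.snd : Z × Z → Z) ∘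
        (Prod.map (Prod.fst : Z × M → Z) (Prod.fst : Z × M → Z)) =
        (Prod.fst : Z × M → Z) ∘ (Prod.snd : (Z × M) × (Z × M) → Z × M) := rfl
    rw [h4, ← Measure.map_map measurable_fst measurable_snd, h.snd, h3]

end

end Pool.Agent.Lib.H22M
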