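import Pool.Agent.Lib.H22M.FC

/-!
# Project H22M, chunk TG: approximation by trigonometric polynomials
-/

open MeasureTheory Filter Topology Finset
open scoped ComplexConjugate

namespace Pool.Agent.Lib.H22M

/-- `L²` approximation of a bounded measurable function by a trigonometric polynomial. -/
theorem tg_approx {Z : Type*} [CommGroup Z] [TopologicalSpace Z] [IsTopologicalGroup Z]
    [CompactSpace Z] [T2Space Z] [SecondCountableTopology Z] [MeasurableSpace Z] [BorelSpace Z]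
    (lam : Measure Z) [IsProbabilityMeasure lam] (A : Z → ℂ) (hA : BM A)
    (k : ℝ) (hk : 0 < k) :
    ∃ (F : Finset (PontryaginDual Z)) (t : PontryaginDual Z → ℂ),
      ∫ z, ‖A z - ∑ χ ∈ F, t χ * ((χ z : Circle) : ℂ)‖ ^ 2 ∂lam ≤ k ^ 2 := by
  have hmet : TopologicalSpace.MetrizableSpace Z :=
    TopologicalSpace.metrizableSpace_of_t3_secondCountable Z
  obtain ⟨hAm, C, hC⟩ := hA
  have hA2 : MemLp A 2 lam :=
    MemLp.of_bound hAm.aestronglyMeasurable C (Eventually.of_forall hC)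
  obtain ⟨g, hg, hg2⟩ := hA2.exists_boundedContinuous_eLpNorm_sub_le (p := 2) (by norm_num)
    (ε := ENNReal.ofReal (k / 2)) (by simpa using hk)
  have hD2 : MemLp (A - (g : Z → ℂ)) 2 lam := hA2.sub hg2
  rw [hD2.eLpNorm_eq_integral_rpow_norm (by norm_num) (by norm_num)] at hg
  have hI0 : 0 ≤ ∫ z, ‖A z - g z‖ ^ 2 ∂lam := integral_nonneg fun z => by positivity
  have hI : ∫ z, ‖A z - g z‖ ^ 2 ∂lam ≤ (k / 2) ^ 2 := by
    rw [ENNReal.ofReal_le_ofReal_iff (by positivity)] at hg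
    have h1 : ∫ z, ‖(A - (g : Z → ℂ)) z‖ ^ (2 : ENNReal).toReal ∂lam =
        ∫ z, ‖A z - g z‖ ^ 2 ∂lam := by
      refine integral_congr_ae (Eventually.of_forall fun z => ?_)
      simp
    rw [h1] at hg
    have h2 : (∫ z, ‖A z - g z‖ ^ 2 ∂lam) ^ ((2 : ENNReal).toReal)⁻¹ =
        Real.sqrt (∫ z, ‖A z - g z‖ ^ 2 ∂lam) := by
      rw [Real.sqrt_eq_rpow]
      norm_num
    rw [h2] at hg
    calc ∫ z, ‖A z - g z‖ ^ 2 ∂lam = Real.sqrt (∫ z, ‖A z - g z‖ ^ 2 ∂lam) ^ 2 :=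
          (Real.sq_sqrt hI0).symm
      _ ≤ (k / 2) ^ 2 := pow_le_pow_left₀ (Real.sqrt_nonneg _) hg 2
  obtain ⟨F, t, hF⟩ := exists_trigPoly (⟨g, g.continuous⟩ : C(Z, ℂ)) (k / 2) (by positivity)
  refine ⟨F, t, ?_⟩
  have hTc : Continuous fun z => ∑ χ ∈ F, t χ * ((χ z : Circle) : ℂ) :=
    continuous_finsetSum _ fun χ _ => continuous_const.mul (CompactAbelian.continuous_char χ)
  have hint1 : Integrable (fun z => ‖A z - g z‖ ^ 2) lam := by
    have h := hD2.integrable_norm_pow (by norm_num)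
    simpa using h
  calc ∫ z, ‖A z - ∑ χ ∈ F, t χ * ((χ z : Circle) : ℂ)‖ ^ 2 ∂lam
      ≤ ∫ z, (2 * ‖A z - g z‖ ^ 2 + k ^ 2 / 2) ∂lam := by
        refine integral_mono_of_nonneg (Eventually.of_forall fun z => by positivity)
          ((hint1.const_mul 2).add (integrable_const _)) (Eventually.of_forall fun z => ?_)
        have h1 : ‖A z - ∑ χ ∈ F, t χ * ((χ z : Circle) : ℂ)‖ ≤ ‖A z - g z‖ + k / 2 := by
          have h2 : A z - ∑ χ ∈ F, t χ * ((χ z : Circle) : ℂ) =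
              (A z - g z) + (g z - ∑ χ ∈ F, t χ * ((χ z : Circle) : ℂ)) := by ring
          rw [h2]
          exact (norm_add_le _ _).trans (add_le_add le_rfl (hF z))
        have h3 : (0 : ℝ) ≤ ‖A z - ∑ χ ∈ F, t χ * ((χ z : Circle) : ℂ)‖ := norm_nonneg _
        show ‖A z - ∑ χ ∈ F, t χ * ((χ z : Circle) : ℂ)‖ ^ 2 ≤ 2 * ‖A z - g z‖ ^ 2 + k ^ 2 / 2
        nlinarith [sq_nonneg (‖A z - g z‖ - k / 2), norm_nonneg (A z - g z)]
    _ = 2 * ∫ z, ‖A z - g z‖ ^ 2 ∂lam + k ^ 2 / 2 := by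
        rw [integral_add (hint1.const_mul 2) (integrable_const _), integral_const_mul]
        simp
    _ ≤ k ^ 2 := by nlinarith

open scoped Classical in
/-- The quadratic integral of a trigonometric polynomial. -/
theorem tg_quad {Z : Type*} [CommGroup Z] [TopologicalSpace Z] [IsTopologicalGroup Z]
    [CompactSpace Z] [T2Space Z] [SecondCountableTopology Z] [MeasurableSpace Z] [BorelSpace Z]
    (s : Measure (Z × Z)) [IsProbabilityMeasure s]
    (F : Finset (PontryaginDual Z)) (t : PontryaginDual Z → ℂ) (t1 : ℂ)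
    (ht1 : t1 = if (1 : PontryaginDual Z) ∈ F then t 1 else 0)
    (h : ∀ χ ∈ F.erase 1, ∀ χ' : PontryaginDual Z,
        ∫ w, ((χ w.1 : Circle) : ℂ) * conj ((χ' w.2 : Circle) : ℂ) ∂s = 0 ∧
        ∫ w, ((χ' w.1 : Circle) : ℂ) * conj ((χ w.2 : Circle) : ℂ) ∂s = 0) :
    ∫ w, (∑ χ ∈ F, t χ * ((χ w.1 : Circle) : ℂ)) *
      conj (∑ χ ∈ F, t χ * ((χ w.2 : Circle) : ℂ)) ∂s = t1 * conj t1 := by
  have hexp : ∀ w : Z × Z, (∑ χ ∈ F, t χ * ((χ w.1 : Circle) : ℂ)) *
      conj (∑ χ ∈ F, t χ * ((χ w.2 : Circle) : ℂ)) =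
      ∑ χ ∈ F, ∑ χ' ∈ F, (t χ * conj (t χ')) *
        (((χ w.1 : Circle) : ℂ) * conj ((χ' w.2 : Circle) : ℂ)) := by
    intro w
    rw [map_sum, Finset.sum_mul_sum]
    refine Finset.sum_congr rfl fun χ _ => Finset.sum_congr rfl fun χ' _ => ?_
    rw [map_mul]; ring
  have hint : ∀ χ χ' : PontryaginDual Z, Integrable
      (fun w : Z × Z => (t χ * conj (t χ')) *
        (((χ w.1 : Circle) : ℂ) * conj ((χ' w.2 : Circle) : ℂ))) s := by
    intro χ χ'
    refine Continuous.integrable_of_hasCompactSupport ?_ (HasCompactSupport.of_compactSpace _)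
    exact continuous_const.mul (((CompactAbelian.continuous_char χ).comp continuous_fst).mul
      (Complex.continuous_conj.comp ((CompactAbelian.continuous_char χ').comp continuous_snd)))
  simp_rw [hexp]
  rw [integral_finsetSum _ (fun χ _ => integrable_finsetSum _ fun χ' _ => hint χ χ')]
  have hterm : ∀ χ ∈ F, ∫ w, ∑ χ' ∈ F, (t χ * conj (t χ')) *
        (((χ w.1 : Circle) : ℂ) * conj ((χ' w.2 : Circle) : ℂ)) ∂s =
      if χ = 1 then t1 * conj t1 else 0 := by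
    intro χ hχ
    rw [integral_finsetSum _ (fun χ' _ => hint χ χ')]
    by_cases h1 : χ = 1
    · rw [if_pos h1]
      have h2 : ∀ χ' ∈ F, ∫ w, (t χ * conj (t χ')) *
          (((χ w.1 : Circle) : ℂ) * conj ((χ' w.2 : Circle) : ℂ)) ∂s =
          if χ' = 1 then t1 * conj t1 else 0 := by
        intro χ' hχ'
        by_cases h3 : χ' = 1
        · rw [if_pos h3, ht1, if_pos (h1 ▸ hχ), h1, h3]
          have h4 : ∀ z : Z, (((1 : PontryaginDual Z) z : Circle) : ℂ) = 1 := fun z => rfl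
          simp_rw [h4]
          simp
        · rw [if_neg h3, integral_const_mul,
            (h χ' (Finset.mem_erase.mpr ⟨h3, hχ'⟩) χ).2, mul_zero]
      rw [Finset.sum_congr rfl h2, Finset.sum_ite_eq' F (1 : PontryaginDual Z),
        if_pos (h1 ▸ hχ)]
    · rw [if_neg h1]
      refine Finset.sum_eq_zero fun χ' _ => ?_
      rw [integral_const_mul, (h χ (Finset.mem_erase.mpr ⟨h1, hχ⟩) χ').1, mul_zero]
  rw [Finset.sum_congr rfl hterm, Finset.sum_ite_eq' F (1 : PontryaginDual Z)]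
  split_ifs with h1
  · rfl
  · rw [ht1, if_neg h1]; simp

/-- Proof. Let `κ' > 0` with `2 κ' (2 ‖A‖_∞ + κ') ≤ κ` (here `‖A‖_∞` is a bound for `|A|`).
Continuous functions are dense in `L²(lam)` and `exists_trigPoly`: there is a trigonometric polynomial
`T = ∑_{χ ∈ F'} t_χ χ` with `l2 lam (A - T) ≤ κ'`. Let `F = F' \ {1}` and `t_1` the coefficient of the
trivial character (`0` if `1 ∉ F'`). Let `s` be as in the statement. Expanding,
`∫ T(w.1) conj T(w.2) ds = ∑_{χ, χ'} t_χ conj t_χ' ∫ χ(w.1) conj χ'(w.2) ds = |t_1|²`: every term with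
`χ ≠ 1` or `χ' ≠ 1` vanishes by `h`, and the term `χ = χ' = 1` is `|t_1|²`. Next,
`|∫ A(w.1) conj A(w.2) ds - ∫ T(w.1) conj T(w.2) ds| ≤ κ' (‖A‖ + ‖T‖) ≤ κ' (2 ‖A‖_∞ + κ')` by
Cauchy–Schwarz (write `A ⊗ conj A - T ⊗ conj T = (A - T) ⊗ conj A + T ⊗ conj (A - T)`; the marginals of
`s` are `lam`), and `|t_1 - ∫ A dlam| = |∫ (T - A) dlam| ≤ κ'` (`∫ χ dlam = 0` for `χ ≠ 1`), so
`||t_1|² - |∫ A dlam|²| ≤ κ' (2 ‖A‖_∞ + κ')`. -/
theorem trig_bound {Z : Type*} [CommGroup Z] [TopologicalSpace Z] [IsTopologicalGroup Z]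
    [CompactSpace Z] [T2Space Z] [SecondCountableTopology Z] [MeasurableSpace Z] [BorelSpace Z]
    (lam : Measure Z) [lam.IsHaarMeasure] [IsProbabilityMeasure lam] (A : Z → ℂ) (hA : BM A)
    (κ : ℝ) (hκ : 0 < κ) :
    ∃ F : Finset (PontryaginDual Z), 1 ∉ F ∧ ∀ s : Measure (Z × Z), IsProbabilityMeasure s →
      s.map Prod.fst = lam → s.map Prod.snd = lam →
      (∀ χ ∈ F, ∀ χ' : PontryaginDual Z,
        ∫ w, ((χ w.1 : Circle) : ℂ) * conj ((χ' w.2 : Circle) : ℂ) ∂s = 0 ∧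
        ∫ w, ((χ' w.1 : Circle) : ℂ) * conj ((χ w.2 : Circle) : ℂ) ∂s = 0) →
      ‖∫ w, A w.1 * conj (A w.2) ∂s‖ ≤ ‖∫ z, A z ∂lam‖ ^ 2 + κ := by
  classical
  obtain ⟨C, hC0, hC⟩ : ∃ C : ℝ, 0 ≤ C ∧ ∀ y, ‖A y‖ ≤ C := by
    obtain ⟨_, C, hC⟩ := hA
    exact ⟨|C|, abs_nonneg _, fun y => (hC y).trans (le_abs_self _)⟩
  have hAm : Measurable A := hA.1
  set k : ℝ := min 1 (κ / (2 * (2 * C + 1))) with hk
  have hk0 : 0 < k := lt_min one_pos (by positivity)
  have hk1 : 2 * (k * (2 * C + k)) ≤ κ := by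
    have h1 : k ≤ 1 := min_le_left _ _
    have h2 : k * (2 * (2 * C + 1)) ≤ κ := by
      rw [← le_div_iff₀ (by positivity)]
      exact min_le_right _ _
    nlinarith
  obtain ⟨F, t, hF⟩ := tg_approx lam A hA k hk0
  set T : Z → ℂ := fun z => ∑ χ ∈ F, t χ * ((χ z : Circle) : ℂ) with hT
  have hTc : Continuous T :=
    continuous_finsetSum _ fun χ _ => continuous_const.mul (CompactAbelian.continuous_char χ)
  obtain ⟨CT, hCT⟩ : ∃ CT : ℝ, ∀ z, ‖T z‖ ≤ CT := by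
    obtain ⟨CT, hCT⟩ := isCompact_univ.exists_bound_of_continuousOn hTc.continuousOn
    exact ⟨CT, fun z => hCT z (Set.mem_univ _)⟩
  have hTm : Measurable T := hTc.measurable
  set D : Z → ℂ := fun z => A z - T z with hD
  have hDm : Measurable D := hAm.sub hTm
  have hDb : ∀ z, ‖D z‖ ≤ C + CT := fun z =>
    (norm_sub_le _ _).trans (add_le_add (hC z) (hCT z))
  have hF' : ∫ z, ‖D z‖ ^ 2 ∂lam ≤ k ^ 2 := hF
  have hDi : Integrable (fun z => ‖D z‖) lam :=
    Integrable.of_bound hDm.norm.aestronglyMeasurable (C + CT)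
      (Eventually.of_forall fun z => by rw [norm_norm]; exact hDb z)
  have hDi2 : Integrable (fun z => ‖D z‖ ^ 2) lam :=
    Integrable.of_bound (hDm.norm.pow_const 2).aestronglyMeasurable ((C + CT) ^ 2)
      (Eventually.of_forall fun z => by
        rw [Real.norm_of_nonneg (by positivity)]
        exact pow_le_pow_left₀ (norm_nonneg _) (hDb z) 2)
  have hD1 : ∫ z, ‖D z‖ ∂lam ≤ k := by
    have h1 : ∫ z, ‖D z‖ ∂lam ≤ ∫ z, (‖D z‖ ^ 2 / (2 * k) + k / 2) ∂lam := by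
      refine integral_mono hDi ((hDi2.div_const _).add (integrable_const _)) fun z => ?_
      show ‖D z‖ ≤ ‖D z‖ ^ 2 / (2 * k) + k / 2
      rw [div_add_div _ _ (by positivity) (by norm_num), le_div_iff₀ (by positivity)]
      nlinarith [sq_nonneg (‖D z‖ - k)]
    rw [integral_add (hDi2.div_const _) (integrable_const _), integral_div] at h1
    have h2 : ∫ _ : Z, k / 2 ∂lam = k / 2 := by simp
    rw [h2] at h1
    have h3 : (∫ z, ‖D z‖ ^ 2 ∂lam) / (2 * k) ≤ k / 2 := by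
      rw [div_le_div_iff₀ (by positivity) (by norm_num)]
      nlinarith
    linarith
  set t1 : ℂ := if (1 : PontryaginDual Z) ∈ F then t 1 else 0 with ht1
  refine ⟨F.erase 1, Finset.notMem_erase _ _, ?_⟩
  intro s hs hs1 hs2 hort
  -- integrals over the marginals
  have hm1 : ∀ f : Z → ℝ, Measurable f → ∫ w, f w.1 ∂s = ∫ z, f z ∂lam := by
    intro f hf
    rw [← hs1, integral_map measurable_fst.aemeasurable hf.aestronglyMeasurable]
  have hm2 : ∀ f : Z → ℝ, Measurable f → ∫ w, f w.2 ∂s = ∫ z, f z ∂lam := by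
    intro f hf
    rw [← hs2, integral_map measurable_snd.aemeasurable hf.aestronglyMeasurable]
  have hq := tg_quad s F t t1 ht1 hort
  have hq' : ∫ w, T w.1 * conj (T w.2) ∂s = t1 * conj t1 := hq
  have hib : ∀ (u v : Z → ℂ), Measurable u → Measurable v → ∀ a b : ℝ, (∀ z, ‖u z‖ ≤ a) →
      (∀ z, ‖v z‖ ≤ b) → Integrable (fun w : Z × Z => u w.1 * conj (v w.2)) s := by
    intro u v hu hv a b ha hb
    refine Integrable.of_bound (((hu.comp measurable_fst).mul
      (Complex.continuous_conj.measurable.comp (hv.comp measurable_snd))).aestronglyMeasurable)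
      (a * b) (Eventually.of_forall fun w => ?_)
    show ‖u w.1 * conj (v w.2)‖ ≤ a * b
    rw [norm_mul, RCLike.norm_conj]
    exact mul_le_mul (ha _) (hb _) (norm_nonneg _) ((norm_nonneg _).trans (ha w.1))
  have hdiff : ‖∫ w, A w.1 * conj (A w.2) ∂s - t1 * conj t1‖ ≤ k * (2 * C + k) := by
    rw [← hq', ← integral_sub (hib A A hAm hAm C C hC hC) (hib T T hTm hTm CT CT hCT hCT)]
    have hi1 : Integrable (fun w : Z × Z => ‖D w.1‖) s :=
      Integrable.of_bound (hDm.comp measurable_fst).norm.aestronglyMeasurable (C + CT)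
        (Eventually.of_forall fun w => by rw [norm_norm]; exact hDb w.1)
    have hi2 : Integrable (fun w : Z × Z => ‖D w.2‖) s :=
      Integrable.of_bound (hDm.comp measurable_snd).norm.aestronglyMeasurable (C + CT)
        (Eventually.of_forall fun w => by rw [norm_norm]; exact hDb w.2)
    have hi3 : Integrable (fun w : Z × Z => ‖D w.1‖ ^ 2) s :=
      Integrable.of_bound ((hDm.comp measurable_fst).norm.pow_const 2).aestronglyMeasurable
        ((C + CT) ^ 2) (Eventually.of_forall fun w => by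
          rw [Real.norm_of_nonneg (by positivity)]
          exact pow_le_pow_left₀ (norm_nonneg _) (hDb w.1) 2)
    have hi4 : Integrable (fun w : Z × Z => ‖D w.2‖ ^ 2) s :=
      Integrable.of_bound ((hDm.comp measurable_snd).norm.pow_const 2).aestronglyMeasurable
        ((C + CT) ^ 2) (Eventually.of_forall fun w => by
          rw [Real.norm_of_nonneg (by positivity)]
          exact pow_le_pow_left₀ (norm_nonneg _) (hDb w.2) 2)
    have hpt : ∀ w : Z × Z, ‖A w.1 * conj (A w.2) - T w.1 * conj (T w.2)‖ ≤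
        C * ‖D w.1‖ + C * ‖D w.2‖ + (‖D w.1‖ ^ 2 / 2 + ‖D w.2‖ ^ 2 / 2) := by
      intro w
      have e : A w.1 * conj (A w.2) - T w.1 * conj (T w.2) =
          D w.1 * conj (A w.2) + A w.1 * conj (D w.2) - D w.1 * conj (D w.2) := by
        simp only [hD, map_sub]; ring
      rw [e]
      have n1 : ‖D w.1 * conj (A w.2)‖ ≤ C * ‖D w.1‖ := by
        rw [norm_mul, RCLike.norm_conj, mul_comm]
        exact mul_le_mul_of_nonneg_right (hC _) (norm_nonneg _)
      have n2 : ‖A w.1 * conj (D w.2)‖ ≤ C * ‖D w.2‖ := by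
        rw [norm_mul, RCLike.norm_conj]
        exact mul_le_mul_of_nonneg_right (hC _) (norm_nonneg _)
      have n3 : ‖D w.1 * conj (D w.2)‖ ≤ ‖D w.1‖ ^ 2 / 2 + ‖D w.2‖ ^ 2 / 2 := by
        rw [norm_mul, RCLike.norm_conj]
        nlinarith [sq_nonneg (‖D w.1‖ - ‖D w.2‖)]
      calc _ ≤ ‖D w.1 * conj (A w.2) + A w.1 * conj (D w.2)‖ + ‖D w.1 * conj (D w.2)‖ :=
            norm_sub_le _ _
        _ ≤ (‖D w.1 * conj (A w.2)‖ + ‖A w.1 * conj (D w.2)‖) + ‖D w.1 * conj (D w.2)‖ :=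
            add_le_add (norm_add_le _ _) le_rfl
        _ ≤ _ := add_le_add (add_le_add n1 n2) n3
    calc ‖∫ w, (A w.1 * conj (A w.2) - T w.1 * conj (T w.2)) ∂s‖
        ≤ ∫ w, ‖A w.1 * conj (A w.2) - T w.1 * conj (T w.2)‖ ∂s := norm_integral_le_integral_norm _
      _ ≤ ∫ w, (C * ‖D w.1‖ + C * ‖D w.2‖ + (‖D w.1‖ ^ 2 / 2 + ‖D w.2‖ ^ 2 / 2)) ∂s := by
          refine integral_mono ((hib A A hAm hAm C C hC hC).sub
            (hib T T hTm hTm CT CT hCT hCT)).norm ?_ hpt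
          exact ((hi1.const_mul C).add (hi2.const_mul C)).add
            ((hi3.div_const 2).add (hi4.div_const 2))
      _ = C * ∫ z, ‖D z‖ ∂lam + C * ∫ z, ‖D z‖ ∂lam +
          ((∫ z, ‖D z‖ ^ 2 ∂lam) / 2 + (∫ z, ‖D z‖ ^ 2 ∂lam) / 2) := by
          have q1 : ∫ w, (C * ‖D w.1‖ + C * ‖D w.2‖ + (‖D w.1‖ ^ 2 / 2 + ‖D w.2‖ ^ 2 / 2)) ∂s =
              ∫ w, (C * ‖D w.1‖ + C * ‖D w.2‖) ∂s + ∫ w, (‖D w.1‖ ^ 2 / 2 + ‖D w.2‖ ^ 2 / 2) ∂s :=
            integral_add ((hi1.const_mul C).add (hi2.const_mul C))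
              ((hi3.div_const 2).add (hi4.div_const 2))
          have q2 : ∫ w, (C * ‖D w.1‖ + C * ‖D w.2‖) ∂s =
              ∫ w, C * ‖D w.1‖ ∂s + ∫ w, C * ‖D w.2‖ ∂s :=
            integral_add (hi1.const_mul C) (hi2.const_mul C)
          have q3 : ∫ w, (‖D w.1‖ ^ 2 / 2 + ‖D w.2‖ ^ 2 / 2) ∂s =
              ∫ w, ‖D w.1‖ ^ 2 / 2 ∂s + ∫ w, ‖D w.2‖ ^ 2 / 2 ∂s :=
            integral_add (hi3.div_const 2) (hi4.div_const 2)
          rw [q1, q2, q3, integral_const_mul, integral_const_mul, integral_div, integral_div,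
            hm1 (fun z => ‖D z‖) hDm.norm, hm2 (fun z => ‖D z‖) hDm.norm,
            hm1 (fun z => ‖D z‖ ^ 2) (hDm.norm.pow_const 2),
            hm2 (fun z => ‖D z‖ ^ 2) (hDm.norm.pow_const 2)]
      _ ≤ k * (2 * C + k) := by
          have h1 : C * ∫ z, ‖D z‖ ∂lam ≤ C * k := mul_le_mul_of_nonneg_left hD1 hC0
          nlinarith
  -- the trivial coefficient
  have hchar : ∀ χ : PontryaginDual Z, Integrable (fun z => t χ * ((χ z : Circle) : ℂ)) lam :=
    fun χ => (CompactAbelian.integrable_of_continuous lam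
      (CompactAbelian.continuous_char χ)).const_mul _
  have hTint : ∫ z, T z ∂lam = t1 := by
    show ∫ z, ∑ χ ∈ F, t χ * ((χ z : Circle) : ℂ) ∂lam = t1
    rw [integral_finsetSum _ (fun χ _ => hchar χ)]
    have h2 : ∀ χ ∈ F, ∫ z, t χ * ((χ z : Circle) : ℂ) ∂lam = if χ = 1 then t1 else 0 := by
      intro χ hχ
      rw [integral_const_mul]
      by_cases h3 : χ = 1
      · rw [if_pos h3, ht1, if_pos (h3 ▸ hχ), h3]
        have h4 : ∀ z : Z, (((1 : PontryaginDual Z) z : Circle) : ℂ) = 1 := fun z => rfl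
        simp_rw [h4]
        simp
      · rw [if_neg h3, CompactAbelian.integral_char_eq_zero lam χ h3, mul_zero]
    rw [Finset.sum_congr rfl h2, Finset.sum_ite_eq' F (1 : PontryaginDual Z)]
    split_ifs with h1
    · rfl
    · rw [ht1, if_neg h1]
  have hAi : Integrable A lam := Integrable.of_bound hAm.aestronglyMeasurable C
    (Eventually.of_forall hC)
  have hTi : Integrable T lam := Integrable.of_bound hTm.aestronglyMeasurable CT
    (Eventually.of_forall hCT)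
  have ht : ‖∫ z, A z ∂lam - t1‖ ≤ k := by
    rw [← hTint, ← integral_sub hAi hTi]
    exact (norm_integral_le_integral_norm _).trans hD1
  have hAC : ‖∫ z, A z ∂lam‖ ≤ C := by
    have := norm_integral_le_of_norm_le_const (μ := lam) (Eventually.of_forall hC)
    simpa using this
  have ht1n : ‖t1‖ ≤ ‖∫ z, A z ∂lam‖ + k := by
    have e : t1 = ∫ z, A z ∂lam - (∫ z, A z ∂lam - t1) := by ring
    calc ‖t1‖ = ‖∫ z, A z ∂lam - (∫ z, A z ∂lam - t1)‖ := by rw [← e]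
      _ ≤ ‖∫ z, A z ∂lam‖ + ‖∫ z, A z ∂lam - t1‖ := norm_sub_le _ _
      _ ≤ _ := add_le_add le_rfl ht
  have hfin : ‖∫ w, A w.1 * conj (A w.2) ∂s‖ ≤ ‖t1‖ ^ 2 + k * (2 * C + k) := by
    have e : ∫ w, A w.1 * conj (A w.2) ∂s =
        (∫ w, A w.1 * conj (A w.2) ∂s - t1 * conj t1) + t1 * conj t1 := by ring
    have n : ‖t1 * conj t1‖ = ‖t1‖ ^ 2 := by rw [norm_mul, RCLike.norm_conj, sq]
    calc ‖∫ w, A w.1 * conj (A w.2) ∂s‖
        = ‖(∫ w, A w.1 * conj (A w.2) ∂s - t1 * conj t1) + t1 * conj t1‖ := by rw [← e]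
      _ ≤ ‖∫ w, A w.1 * conj (A w.2) ∂s - t1 * conj t1‖ + ‖t1 * conj t1‖ := norm_add_le _ _
      _ ≤ k * (2 * C + k) + ‖t1‖ ^ 2 := add_le_add hdiff n.le
      _ = _ := by ring
  have h5 : ‖t1‖ ^ 2 ≤ (‖∫ z, A z ∂lam‖ + k) ^ 2 := pow_le_pow_left₀ (norm_nonneg _) ht1n 2
  nlinarith [norm_nonneg (∫ z, A z ∂lam)]

end Pool.Agent.Lib.H22M
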