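import Pool.Agent.Lib.H22M.CA1
import Pool.Agent.Lib.H22M.TG
import Pool.Agent.Lib.H22M.P6
import Pool.Agent.Lib.H22M.SZ
import Pool.Agent.Lib.H22M.NL

/-!
# Project H22M, chunk CA: the decomposition of a function
-/

open MeasureTheory Filter Topology Finset
open scoped ComplexConjugate

namespace Pool.Agent.Lib.H22M

section

variable {Z K M : Type*} [CommGroup Z] [TopologicalSpace Z] [IsTopologicalGroup Z]
  [CompactSpace Z] [T2Space Z] [SecondCountableTopology Z] [MeasurableSpace Z] [BorelSpace Z]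
  [Group K] [TopologicalSpace K] [IsTopologicalGroup K] [CompactSpace K] [T2Space K]
  [SecondCountableTopology K] [MeasurableSpace K] [BorelSpace K]
  [TopologicalSpace M] [CompactSpace M] [T2Space M] [SecondCountableTopology M]
  [MeasurableSpace M] [BorelSpace M] [MulAction K M] [ContinuousSMul K M]
  [MulAction.IsPretransitive K M]
  (lam : Measure Z) [lam.IsHaarMeasure] [IsProbabilityMeasure lam]
  (muM : Measure M) [IsProbabilityMeasure muM] [SMulInvariantMeasure K M muM]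

/-- Let `m = lam.prod muM`, `R = skew α φ`. Proof.
1. `exists_ft_approx` with `δ = ε/2`: `G, D, a` with `l2 m (F - ft G a) ≤ ε/2`. Choose `B > 0` with
   `∑_i ‖G i u‖² ≤ B` for all `u` (compactness of `M`, continuity).
2. `exists_ft_decomposition` with `δ = (ε²/(4 B))²/2`: `b, κ', e, c, N`, where
   `|κ'| ≤ |∫ ft G a dm| = |∫ (ft G a - F) dm| ≤ l2 m (F - ft G a) ≤ ε/2` (`∫ F = 0`,
   `norm_integral_le_l2`). Let `r y = (F y - ft G a y) + κ'`: in `BM`, `l2 m r ≤ ε`, and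
   `F = r + ∑ e_i + ft G b` almost everywhere.
3. For `i, j < N` let `A_ij z = ∑_k (evo^[i] b)_k z * conj ((evo^[j] b)_k z)`, in `BM` (`evo_BM`).
   `trig_bound` with `κ₁ = (ε²/(4 B))²/2` gives `F_ij` (finite sets of nontrivial characters); let `Φ` be
   their union and `F0 = {χ(α) : χ ∈ Φ} ∪ {c_i}`. `1 ∉ F0` by `char_ne_one` and `c_i ≠ 1`.
4. For `s` as in the last clause, `∑_{i,j<N} ‖∫ A_ij ⊗ conj A_ij ds‖ ≤ ∑_{i,j<N} ‖∫ A_ij dlam‖² + κ₁ N²
   ≤ δ N² + κ₁ N² = (ε² N/(4 B))²`. -/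
theorem exists_decomposition (α : Z) (φ : Z → K) (hφ : Measurable φ)
    (herg : Ergodic (skew (M := M) α φ) (lam.prod muM)) (F : Z × M → ℂ) (hF : BM F)
    (hF0 : ∫ y, F y ∂(lam.prod muM) = 0) (ε : ℝ) (hε : 0 < ε) :
    ∃ (n : ℕ) (G : Fin n → M → ℂ) (D : K → Fin n → Fin n → ℂ) (b : Fin n → Z → ℂ) (B : ℝ)
      (F0 : Finset ℂ) (Φ : Finset (PontryaginDual Z)) (N : ℕ) (k : ℕ)
      (e : Fin k → Z × M → ℂ) (c : Fin k → ℂ) (r : Z × M → ℂ),
      FTD muM G D ∧ (∀ i, BM (b i)) ∧ 0 < B ∧ (∀ u, ∑ i, ‖G i u‖ ^ 2 ≤ B) ∧ 1 ∉ F0 ∧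
      1 ≤ N ∧
      (∀ i, BM (e i) ∧ ‖c i‖ = 1 ∧ c i ∈ F0 ∧
        ∀ᵐ y ∂(lam.prod muM), e i (skew α φ y) = c i * e i y) ∧
      BM r ∧ l2 (lam.prod muM) r ≤ ε ∧
      (∀ᵐ y ∂(lam.prod muM), F y = r y + ∑ i, e i y + ft G b y) ∧
      (∀ χ ∈ Φ, ((χ α : Circle) : ℂ) ∈ F0) ∧
      ∀ s : Measure (Z × Z), IsProbabilityMeasure s → s.map Prod.fst = lam →
        s.map Prod.snd = lam →
        (∀ χ ∈ Φ, ∀ χ' : PontryaginDual Z,
          ∫ w, ((χ w.1 : Circle) : ℂ) * conj ((χ' w.2 : Circle) : ℂ) ∂s = 0 ∧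
          ∫ w, ((χ' w.1 : Circle) : ℂ) * conj ((χ w.2 : Circle) : ℂ) ∂s = 0) →
        ∑ i ∈ range N, ∑ j ∈ range N,
          ‖∫ w, (∑ k, ((evo α φ D)^[i] b) k w.1 * conj (((evo α φ D)^[j] b) k w.1)) *
            conj (∑ k, ((evo α φ D)^[i] b) k w.2 * conj (((evo α φ D)^[j] b) k w.2)) ∂s‖ ≤
          (ε ^ 2 * N / (4 * B)) ^ 2 := by
  classical
  obtain ⟨n, G, D, a, hft, ha, happ⟩ := exists_ft_approx K lam muM F hF (ε / 2) (half_pos hε)
  -- the bound `B`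
  obtain ⟨B, hB0, hB⟩ : ∃ B : ℝ, 0 < B ∧ ∀ u, ∑ i, ‖G i u‖ ^ 2 ≤ B := by
    have hc : Continuous fun u => ∑ i, ‖G i u‖ ^ 2 :=
      continuous_finset_sum _ fun i _ => (hft.cont i).norm.pow 2
    obtain ⟨C, hC⟩ := (isCompact_range hc).bddAbove
    refine ⟨max C 1, lt_of_lt_of_le one_pos (le_max_right _ _), fun u => ?_⟩
    exact (hC (Set.mem_range_self u)).trans (le_max_left _ _)
  set δ : ℝ := (ε ^ 2 / (4 * B)) ^ 2 / 2 with hδ
  have hδ0 : 0 < δ := by positivity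
  obtain ⟨b, κ', k, e, c, N, hb, hκ', he, hdec, hN, hsum⟩ :=
    exists_ft_decomposition lam muM α φ hφ herg hft a ha δ hδ0
  have hfta : BM (ft G a) := ef_bm_ft muM hft a ha
  have hd : BM fun y => F y - ft G a y := hF.sub hfta
  -- the constant
  have hκ2 : ‖κ'‖ ≤ ε / 2 := by
    refine hκ'.trans ?_
    have h1 : ∫ y, (F y - ft G a y) ∂(lam.prod muM) = - ∫ y, ft G a y ∂(lam.prod muM) := by
      rw [integral_sub hF.integrable hfta.integrable, hF0, zero_sub]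
    have h2 : ‖∫ y, ft G a y ∂(lam.prod muM)‖ = ‖∫ y, (F y - ft G a y) ∂(lam.prod muM)‖ := by
      rw [h1, norm_neg]
    rw [h2]
    exact (norm_integral_le_l2 hd).trans happ
  -- the trigonometric bounds
  have hA : ∀ i j : ℕ, BM fun z : Z =>
      ∑ k, ((evo α φ D)^[i] b) k z * conj (((evo α φ D)^[j] b) k z) := by
    intro i j
    refine BM.sum _ fun k _ => ?_
    exact (evo_BM α φ hφ hft.measD hft.unit b hb i k).mul
      (evo_BM α φ hφ hft.measD hft.unit b hb j k).conj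
  have htb := fun i j : ℕ => trig_bound lam _ (hA i j) δ hδ0
  choose FF hFF1 hFF2 using htb
  let Φ : Finset (PontryaginDual Z) :=
    (range N).biUnion fun i => (range N).biUnion fun j => FF i j
  have hΦ1 : (1 : PontryaginDual Z) ∉ Φ := by
    intro h
    obtain ⟨i, -, hi⟩ := Finset.mem_biUnion.1 h
    obtain ⟨j, -, hj⟩ := Finset.mem_biUnion.1 hi
    exact hFF1 i j hj
  have hΦs : ∀ i ∈ range N, ∀ j ∈ range N, FF i j ⊆ Φ := by
    intro i hi j hj χ hχ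
    exact Finset.mem_biUnion.2 ⟨i, hi, Finset.mem_biUnion.2 ⟨j, hj, hχ⟩⟩
  let F0 : Finset ℂ := Φ.image (fun χ => ((χ α : Circle) : ℂ)) ∪ Finset.univ.image c
  refine ⟨n, G, D, b, B, F0, Φ, N, k, e, c, fun y => (F y - ft G a y) + κ', hft, hb, hB0, hB,
    ?_, hN, ?_, hd.add (BM.const κ'), ?_, ?_, ?_, ?_⟩
  · intro h
    rcases Finset.mem_union.1 h with h | h
    · obtain ⟨χ, hχ, h1⟩ := Finset.mem_image.1 h
      refine char_ne_one lam muM α φ herg χ ?_ h1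
      rintro rfl
      exact hΦ1 hχ
    · obtain ⟨i, -, h1⟩ := Finset.mem_image.1 h
      exact (he i).2.2.1 h1
  · intro i
    exact ⟨(he i).1, (he i).2.1, Finset.mem_union_right _
      (Finset.mem_image.2 ⟨i, Finset.mem_univ i, rfl⟩), (he i).2.2.2⟩
  · refine (l2_add_le hd (BM.const κ')).trans ?_
    rw [l2_const]
    linarith
  · filter_upwards [hdec] with y hy
    rw [hy]
    ring
  · intro χ hχ
    exact Finset.mem_union_left _ (Finset.mem_image.2 ⟨χ, hχ, rfl⟩)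
  · intro s hs hs1 hs2 hs3
    have h1 : ∀ i ∈ range N, ∀ j ∈ range N,
        ‖∫ w, (∑ k, ((evo α φ D)^[i] b) k w.1 * conj (((evo α φ D)^[j] b) k w.1)) *
            conj (∑ k, ((evo α φ D)^[i] b) k w.2 * conj (((evo α φ D)^[j] b) k w.2)) ∂s‖ ≤
        ‖∫ z, ∑ k, ((evo α φ D)^[i] b) k z * conj (((evo α φ D)^[j] b) k z) ∂lam‖ ^ 2 + δ := by
      intro i hi j hj
      exact hFF2 i j s hs hs1 hs2 fun χ hχ χ' => hs3 χ (hΦs i hi j hj hχ) χ'
    calc ∑ i ∈ range N, ∑ j ∈ range N,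
          ‖∫ w, (∑ k, ((evo α φ D)^[i] b) k w.1 * conj (((evo α φ D)^[j] b) k w.1)) *
            conj (∑ k, ((evo α φ D)^[i] b) k w.2 * conj (((evo α φ D)^[j] b) k w.2)) ∂s‖
        ≤ ∑ i ∈ range N, ∑ j ∈ range N,
          (‖∫ z, ∑ k, ((evo α φ D)^[i] b) k z * conj (((evo α φ D)^[j] b) k z) ∂lam‖ ^ 2 + δ) :=
          Finset.sum_le_sum fun i hi => Finset.sum_le_sum fun j hj => h1 i hi j hj
      _ = (∑ i ∈ range N, ∑ j ∈ range N,
          ‖∫ z, ∑ k, ((evo α φ D)^[i] b) k z * conj (((evo α φ D)^[j] b) k z) ∂lam‖ ^ 2) +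
            N * (N * δ) := by
          simp only [Finset.sum_add_distrib, Finset.sum_const, Finset.card_range, nsmul_eq_mul]
      _ ≤ δ * N ^ 2 + N * (N * δ) := by linarith
      _ = (ε ^ 2 * N / (4 * B)) ^ 2 := by
          rw [hδ]
          field_simp
          ring

end

end Pool.Agent.Lib.H22M
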