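import Pool.Agent.Lib.H22M.EG

/-!
# Project H22M, chunk EF: eigenvectors of the twisted translation are eigenfunctions
-/

open MeasureTheory Filter Topology Finset
open scoped ComplexConjugate

namespace Pool.Agent.Lib.H22M

section

variable {Z K M : Type*} [CommGroup Z] [TopologicalSpace Z] [IsTopologicalGroup Z]
  [CompactSpace Z] [T2Space Z] [SecondCountableTopology Z] [MeasurableSpace Z] [BorelSpace Z]
  [Group K] [TopologicalSpace K] [IsTopologicalGroup K] [CompactSpace K] [T2Space K]
  [SecondCountableTopology K] [MeasurableSpace K] [BorelSpace K]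
  [TopologicalSpace M] [CompactSpace M] [T2Space M] [SecondCountableTopology M]
  [MeasurableSpace M] [BorelSpace M] [MulAction K M] [ContinuousSMul K M]
  (lam : Measure Z) [lam.IsHaarMeasure] [IsProbabilityMeasure lam]
  (muM : Measure M) [IsProbabilityMeasure muM]

omit [T2Space M] [SecondCountableTopology M] [MulAction K M] [ContinuousSMul K M] in
theorem ef_bmG [SMul K M] {n : ℕ} {G : Fin n → M → ℂ} {D : K → Fin n → Fin n → ℂ}
    (hft : FTD muM G D) (i : Fin n) : BM (G i) := by
  refine ⟨(hft.cont i).measurable, ?_⟩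
  obtain ⟨C, hC⟩ := (isCompact_univ (X := M)).exists_bound_of_continuousOn (hft.cont i).continuousOn
  exact ⟨C, fun y => hC y (Set.mem_univ y)⟩

omit [TopologicalSpace Z] [CommGroup Z] [IsTopologicalGroup Z]
  [CompactSpace Z] [T2Space Z] [SecondCountableTopology Z] [BorelSpace Z] [lam.IsHaarMeasure] in
/-- Inner integral. -/
theorem ef_inner {n : ℕ} {G : Fin n → M → ℂ} {D : K → Fin n → Fin n → ℂ}
    (hft : FTD muM G D) (x x' : Fin n → ℂ) :
    ∫ u, (∑ i, x i * G i u) * conj (∑ i, x' i * G i u) ∂muM = ∑ i, x i * conj (x' i) := by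
  have hG := fun i => ef_bmG muM hft i
  have e1 : ∀ u, (∑ i, x i * G i u) * conj (∑ i, x' i * G i u) =
      ∑ i, ∑ j, (x i * conj (x' j)) * (G i u * conj (G j u)) := fun u => by
    rw [map_sum, Finset.sum_mul_sum]
    refine Finset.sum_congr rfl fun i _ => Finset.sum_congr rfl fun j _ => ?_
    rw [map_mul]
    ring
  simp_rw [e1]
  rw [integral_finset_sum _ fun i _ => ?_]
  · refine Finset.sum_congr rfl fun i _ => ?_
    rw [integral_finset_sum _ fun j _ => ?_]
    · have : ∀ j ∈ (Finset.univ : Finset (Fin n)), ∫ u, (x i * conj (x' j)) * (G i u * conj (G j u)) ∂muM =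
          if i = j then x i * conj (x' j) else 0 := fun j _ => by
        rw [integral_const_mul, hft.orth i j]
        split_ifs <;> simp
      rw [Finset.sum_congr rfl this]
      simp
    · exact (((hG i).mul (hG j).conj).integrable).const_mul _
  · exact integrable_finset_sum _ fun j _ => (((hG i).mul (hG j).conj).integrable).const_mul _

omit [lam.IsHaarMeasure] [IsTopologicalGroup Z] [CompactSpace Z] [T2Space Z]
  [SecondCountableTopology Z] [BorelSpace Z] [T2Space M] [SecondCountableTopology M] in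
theorem ef_bm_ft {n : ℕ} {G : Fin n → M → ℂ} {D : K → Fin n → Fin n → ℂ}
    (hft : FTD muM G D) (b : Fin n → Z → ℂ) (hb : ∀ i, BM (b i)) : BM (ft G b) := by
  unfold ft
  refine BM.sum _ fun i _ => ?_
  exact ((hb i).comp measurable_fst).mul ((ef_bmG muM hft i).comp measurable_snd)

/-- `∫ |ft G b|² = ∫ ∑ |b_i|²` for orthonormal `G`. More generally
`∫ ft G b * conj (ft G b') dm = ∫ ∑_i b_i conj b'_i dlam` for `b, b'` in `BM`. Fubini. -/
theorem integral_ft {n : ℕ} {G : Fin n → M → ℂ} {D : K → Fin n → Fin n → ℂ}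
    (hft : FTD muM G D) (b b' : Fin n → Z → ℂ) (hb : ∀ i, BM (b i)) (hb' : ∀ i, BM (b' i)) :
    ∫ y, ft G b y * conj (ft G b' y) ∂(lam.prod muM) = ∫ z, ∑ i, b i z * conj (b' i z) ∂lam := by
  rw [integral_prod _ (((ef_bm_ft muM hft b hb).mul (ef_bm_ft muM hft b' hb').conj).integrable)]
  refine integral_congr_ae (Eventually.of_forall fun z => ?_)
  exact ef_inner muM hft (fun i => b i z) (fun i => b' i z)

/-- Proof. Let `e y = ∑_i (w y.1)_i * G i y.2`, with a measurable representative of `w`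
(`AEStronglyMeasurable.mk`-type, e.g. `(Lp.stronglyMeasurable w)` is directly available:
`w : Z → EuclideanSpace ℂ (Fin n)` is strongly measurable). As in `ft_evo`: for almost every `z`,
`(U w) z j = ∑_i D(φ z)_{ij} (w (α z))_i` and `U w = c w`, so for almost every `z` and all `u`:
`e (α z, φ(z) u) = ∑_i (w(α z))_i ∑_j D(φ z)_{ij} G_j(u) = ∑_j c (w z)_j G_j(u) = c e(z, u)`. By
`norm_const_of_eigen`, `‖e‖ = β` almost everywhere for `m = lam.prod muM`. For almost every `z`,
`‖e (z, u)‖ = β` for almost every `u`, and `(w z)_i = ∫ e(z, u) conj (G_i u) dmuM(u)` by orthonormality,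
so `‖(w z)_i‖ ≤ β B_i` with `B_i = sup ‖G_i‖`. Put `b_i z = (w z)_i` if `‖(w z)_i‖ ≤ β B_i` and `0`
otherwise: bounded, measurable, `b_i = w_i` almost everywhere, and `ft G b = e` almost everywhere for `m`.
The equation `ft G b (R y) = c ft G b y` holds almost everywhere (`R` preserves `m`). If `w ≠ 0`, then
`∫ |e|² dm = ‖w‖² > 0` so `e` is not almost everywhere zero, and `isEigenvalue_of_eigen` applies. -/
theorem eigenvector_function (α : Z) (φ : Z → K) (hφ : Measurable φ)
    (herg : Ergodic (skew (M := M) α φ) (lam.prod muM)) {n : ℕ} {G : Fin n → M → ℂ}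
    {D : K → Fin n → Fin n → ℂ} (hft : FTD muM G D)
    (U : Lp (EuclideanSpace ℂ (Fin n)) 2 lam →ₗᵢ[ℂ] Lp (EuclideanSpace ℂ (Fin n)) 2 lam)
    (hU : IsTwist lam (fun z : Z => α * z) (fun z => D (φ z)) U)
    (w : Lp (EuclideanSpace ℂ (Fin n)) 2 lam) (c : ℂ) (hc : ‖c‖ = 1) (hw : U w = c • w) :
    ∃ b : Fin n → Z → ℂ, (∀ i, BM (b i)) ∧ (∀ᵐ z ∂lam, ∀ i, w z i = b i z) ∧
      (∀ᵐ y ∂(lam.prod muM), ft G b (skew α φ y) = c * ft G b y) ∧
      (w ≠ 0 → IsEigenvalue (lam.prod muM) (skew α φ) c) := by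
  classical
  have hwm : ∀ i, Measurable fun z => w z i := fun i =>
    (EuclideanSpace.proj (𝕜 := ℂ) i).continuous.measurable.comp (Lp.stronglyMeasurable w).measurable
  have hG := fun i => ef_bmG muM hft i
  choose hGm B hB using hG
  have hB' : ∀ i u, ‖G i u‖ ≤ |B i| := fun i u => (hB i u).trans (le_abs_self _)
  set e : Z × M → ℂ := ft G (fun i z => w z i) with he_def
  have hem : Measurable e := by
    rw [he_def]
    unfold ft
    refine Finset.measurable_sum _ fun i _ => ?_
    exact ((hwm i).comp measurable_fst).mul ((hGm i).comp measurable_snd)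
  have hw' : ∀ᵐ z ∂lam, ∀ l, c * w z l = ∑ k, D (φ z) k l * w (α * z) k := by
    have h1 := hU w
    have h2 : ∀ᵐ z ∂lam, (U w) z = (c • w : Lp (EuclideanSpace ℂ (Fin n)) 2 lam) z := by
      rw [hw]
      exact Eventually.of_forall fun _ => rfl
    have h3 := Lp.coeFn_smul c w
    filter_upwards [h1, h2, h3] with z hz1 hz2 hz3 l
    rw [← hz1 l, hz2, hz3]
    simp
  have heq : ∀ᵐ y ∂(lam.prod muM), e (skew α φ y) = c * e y := by
    have h1 : ∀ᵐ y ∂(lam.prod muM), ∀ l, c * w y.1 l = ∑ k, D (φ y.1) k l * w (α * y.1) k :=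
      Measure.quasiMeasurePreserving_fst.ae hw'
    filter_upwards [h1] with y hy
    have h2 := ft_evo hft α φ (fun i z => w z i) y
    rw [he_def, ← h2]
    unfold ft
    rw [Finset.mul_sum]
    refine Finset.sum_congr rfl fun j _ => ?_
    rw [← mul_assoc, hy j]
    rfl
  obtain ⟨β, hβ, hβe⟩ := norm_const_of_eigen herg e hem c hc heq
  have hinner : ∀ z i, ∫ u, e (z, u) * conj (G i u) ∂muM = w z i := by
    intro z i
    have h1 := ef_inner muM hft (fun j => w z j) (Pi.single i 1)
    have h2 : ∀ u, (∑ j, (Pi.single i (1 : ℂ) : Fin n → ℂ) j * G j u) = G i u := fun u => by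
      rw [Finset.sum_eq_single i]
      · simp
      · intro j _ hj
        simp [Pi.single_eq_of_ne hj]
      · simp
    simp_rw [h2] at h1
    rw [Finset.sum_eq_single i] at h1
    · simpa [he_def, ft] using h1
    · intro j _ hj
      simp [Pi.single_eq_of_ne hj]
    · simp
  have hbd : ∀ᵐ z ∂lam, ∀ i, ‖w z i‖ ≤ β * |B i| := by
    have h1 := Measure.ae_ae_of_ae_prod hβe
    filter_upwards [h1] with z hz i
    rw [← hinner z i]
    have h2 : ∀ᵐ u ∂muM, ‖e (z, u) * conj (G i u)‖ ≤ β * |B i| := by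
      filter_upwards [hz] with u hu
      rw [norm_mul, hu, RCLike.norm_conj]
      exact mul_le_mul_of_nonneg_left (hB' i u) hβ
    have h3 := norm_integral_le_of_norm_le_const h2
    simpa using h3
  let b : Fin n → Z → ℂ := fun i z => if ‖w z i‖ ≤ β * |B i| then w z i else 0
  have hbm : ∀ i, BM (b i) := fun i => by
    refine ⟨Measurable.ite (measurableSet_le (hwm i).norm measurable_const) (hwm i)
      measurable_const, β * |B i|, fun z => ?_⟩
    change ‖if ‖w z i‖ ≤ β * |B i| then w z i else 0‖ ≤ _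
    split_ifs with h
    · exact h
    · simp only [norm_zero]
      positivity
  have hwb : ∀ᵐ z ∂lam, ∀ i, w z i = b i z := by
    filter_upwards [hbd] with z hz i
    change w z i = if ‖w z i‖ ≤ β * |B i| then w z i else 0
    rw [if_pos (hz i)]
  have heb : ∀ᵐ y ∂(lam.prod muM), ft G b y = e y := by
    have h1 : ∀ᵐ y ∂(lam.prod muM), ∀ i, w y.1 i = b i y.1 :=
      Measure.quasiMeasurePreserving_fst.ae hwb
    filter_upwards [h1] with y hy
    rw [he_def]
    unfold ft
    exact Finset.sum_congr rfl fun i _ => by rw [← hy i]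
  refine ⟨b, hbm, hwb, ?_, ?_⟩
  · have h1 : ∀ᵐ y ∂(lam.prod muM), ft G b (skew α φ y) = e (skew α φ y) :=
      herg.toMeasurePreserving.quasiMeasurePreserving.ae heb
    filter_upwards [heb, h1, heq] with y hy1 hy2 hy3
    rw [hy2, hy3, hy1]
  · intro hw0
    refine isEigenvalue_of_eigen herg e hem c hc heq fun h0 => hw0 ?_
    rw [Lp.eq_zero_iff_ae_eq_zero]
    have h1 := Measure.ae_ae_of_ae_prod h0
    filter_upwards [h1] with z hz
    ext i
    rw [← hinner z i]
    have h2 : ∫ u, e (z, u) * conj (G i u) ∂muM = ∫ u, (0 : ℂ) ∂muM := by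
      refine integral_congr_ae ?_
      filter_upwards [hz] with u hu
      rw [hu, zero_mul]
    rw [h2]
    simp

end

end Pool.Agent.Lib.H22M
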