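import Pool.Agent.Lib.H22M.Defs

/-!
# Project H22M, chunk VN: the norm of the averages
-/

open MeasureTheory Filter Topology Finset
open scoped ComplexConjugate InnerProductSpace

namespace Pool.Agent.Lib.H22M

section

variable {Z K : Type*} [CommGroup Z] [MeasurableSpace Z] [MeasurableMul Z] [MeasurableSpace K]

/-- Iterating `evo` preserves bounded measurable coefficients. Proof: induction; `evo` is a finite sum of
products of `z ↦ D (φ z) i j` (measurable; bounded by `1` since `∑_j |D k i j|² = 1` by `hu`) and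
`z ↦ b i (α z)`. -/
theorem evo_BM (α : Z) (φ : Z → K) (hφ : Measurable φ) {n : ℕ} {D : K → Fin n → Fin n → ℂ}
    (hD : ∀ i j, Measurable fun k => D k i j)
    (hu : ∀ k i i', ∑ j, D k i j * conj (D k i' j) = if i = i' then 1 else 0)
    (b : Fin n → Z → ℂ) (hb : ∀ i, BM (b i)) (N : ℕ) : ∀ i, BM (((evo α φ D)^[N] b) i) := by
  have hle : ∀ k i j, ‖D k i j‖ ≤ 1 := by
    intro k i j
    have h1 := hu k i i
    rw [if_pos rfl] at h1
    have h2 : (∑ j, ‖D k i j‖ ^ 2 : ℝ) = 1 := by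
      have h3 : ((∑ j, ‖D k i j‖ ^ 2 : ℝ) : ℂ) = ((1 : ℝ) : ℂ) := by
        rw [Complex.ofReal_sum, Complex.ofReal_one, ← h1]
        exact Finset.sum_congr rfl fun j _ => by
          rw [Complex.mul_conj, Complex.normSq_eq_norm_sq]
      exact_mod_cast h3
    have h4 : ‖D k i j‖ ^ 2 ≤ 1 := by
      rw [← h2]
      exact Finset.single_le_sum (f := fun j => ‖D k i j‖ ^ 2) (fun _ _ => sq_nonneg _)
        (Finset.mem_univ j)
    exact (sq_le_one_iff₀ (norm_nonneg _)).1 h4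
  have hstep : ∀ b : Fin n → Z → ℂ, (∀ i, BM (b i)) → ∀ j, BM (evo α φ D b j) := by
    intro b hb j
    unfold evo
    refine BM.sum _ fun i _ => BM.mul ?_ ((hb i).comp (measurable_const_mul α))
    exact ⟨(hD i j).comp hφ, 1, fun z => hle _ _ _⟩
  induction N with
  | zero => exact hb
  | succ N ih =>
    rw [Function.iterate_succ_apply']
    exact hstep _ ih

theorem vn_iter_ZZ (α : Z) (φ : Z → K) {n : ℕ} {D : K → Fin n → Fin n → ℂ}
    (sZ : Measure (Z × Z)) [IsProbabilityMeasure sZ]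
    (hτ : MeasurePreserving (fun w : Z × Z => (α * w.1, α * w.2)) sZ sZ)
    (U : Lp (EuclideanSpace ℂ (Fin n × Fin n)) 2 sZ →ₗᵢ[ℂ]
      Lp (EuclideanSpace ℂ (Fin n × Fin n)) 2 sZ)
    (hU : IsTwist sZ (fun w : Z × Z => (α * w.1, α * w.2)) (WW φ D) U)
    (b : Fin n → Z → ℂ) (v : Lp (EuclideanSpace ℂ (Fin n × Fin n)) 2 sZ)
    (hv : ∀ᵐ w ∂sZ, ∀ k, v w k = b k.1 w.1 * conj (b k.2 w.2)) (i : ℕ) :
    ∀ᵐ w ∂sZ, ∀ k, ((⇑U)^[i] v) w k =
      ((evo α φ D)^[i] b) k.1 w.1 * conj (((evo α φ D)^[i] b) k.2 w.2) := by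
  induction i with
  | zero => exact hv
  | succ i ih =>
    have h1 := hτ.quasiMeasurePreserving.ae ih
    filter_upwards [hU ((⇑U)^[i] v), h1] with w h2 h3
    intro l
    rw [Function.iterate_succ_apply', Function.iterate_succ_apply', h2 l]
    generalize (evo α φ D)^[i] b = c at h3
    have h4 : ∀ k : Fin n × Fin n, WW φ D w k l * ((⇑U)^[i] v) (α * w.1, α * w.2) k =
        (D (φ w.1) k.1 l.1 * c k.1 (α * w.1)) *
          (conj (D (φ w.2) k.2 l.2) * conj (c k.2 (α * w.2))) := by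
      intro k
      rw [h3 k]
      unfold WW
      ring
    rw [Finset.sum_congr rfl fun k _ => h4 k, Fintype.sum_prod_type]
    simp only [evo, map_sum, map_mul, Finset.sum_mul_sum]

theorem vn_iter_Z (α : Z) (φ : Z → K) {n : ℕ} {D : K → Fin n → Fin n → ℂ}
    (lam : Measure Z) [IsProbabilityMeasure lam]
    (hτ : MeasurePreserving (fun z : Z => α * z) lam lam)
    (U : Lp (EuclideanSpace ℂ (Fin n)) 2 lam →ₗᵢ[ℂ] Lp (EuclideanSpace ℂ (Fin n)) 2 lam)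
    (hU : IsTwist lam (fun z : Z => α * z) (fun z => D (φ z)) U)
    (b : Fin n → Z → ℂ) (v : Lp (EuclideanSpace ℂ (Fin n)) 2 lam)
    (hv : ∀ᵐ z ∂lam, ∀ k, v z k = b k z) (i : ℕ) :
    ∀ᵐ z ∂lam, ∀ k, ((⇑U)^[i] v) z k = ((evo α φ D)^[i] b) k z := by
  induction i with
  | zero => exact hv
  | succ i ih =>
    have h1 := hτ.quasiMeasurePreserving.ae ih
    filter_upwards [hU ((⇑U)^[i] v), h1] with z h2 h3
    intro l
    rw [Function.iterate_succ_apply', Function.iterate_succ_apply', h2 l]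
    unfold evo
    exact Finset.sum_congr rfl fun k _ => by rw [h3 k]; rfl

/-- the initial vector -/
noncomputable def vnV {n : ℕ} (b : Fin n → Z → ℂ) (w : Z × Z) :
    EuclideanSpace ℂ (Fin n × Fin n) :=
  WithLp.toLp 2 fun k => b k.1 w.1 * conj (b k.2 w.2)

theorem vnV_apply {n : ℕ} (b : Fin n → Z → ℂ) (w : Z × Z) (k : Fin n × Fin n) :
    vnV b w k = b k.1 w.1 * conj (b k.2 w.2) := rfl

theorem vnV_norm {n : ℕ} (b : Fin n → Z → ℂ) (C : ℝ) (hC : ∀ i z, ‖b i z‖ ≤ C) (w : Z × Z) :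
    ‖vnV b w‖ ≤ n * C ^ 2 := by
  rw [EuclideanSpace.norm_eq]
  have h1 : ∑ k, ‖vnV b w k‖ ^ 2 ≤ (n * C ^ 2) ^ 2 := by
    have h2 : ∀ k ∈ (Finset.univ : Finset (Fin n × Fin n)), ‖vnV b w k‖ ^ 2 ≤ (C ^ 2) ^ 2 := by
      intro k _
      rw [vnV_apply, norm_mul, RCLike.norm_conj]
      have h3 := hC k.1 w.1
      have h4 := hC k.2 w.2
      have h5 : ‖b k.1 w.1‖ * ‖b k.2 w.2‖ ≤ C ^ 2 := by
        rw [sq]
        exact mul_le_mul h3 h4 (norm_nonneg _) ((norm_nonneg _).trans h3)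
      exact pow_le_pow_left₀ (mul_nonneg (norm_nonneg _) (norm_nonneg _)) h5 2
    refine (Finset.sum_le_sum h2).trans ?_
    rw [Finset.sum_const, Finset.card_univ, Fintype.card_prod, Fintype.card_fin, nsmul_eq_mul]
    push_cast
    exact le_of_eq (by ring)
  calc Real.sqrt (∑ k, ‖vnV b w k‖ ^ 2) ≤ Real.sqrt ((n * C ^ 2) ^ 2) := Real.sqrt_le_sqrt h1
    _ = n * C ^ 2 := Real.sqrt_sq (by positivity)

theorem vnV_meas {n : ℕ} (b : Fin n → Z → ℂ) (hb : ∀ i, BM (b i)) (sZ : Measure (Z × Z)) :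
    AEStronglyMeasurable (vnV b) sZ := by
  have h3 : ∀ l : Fin n × Fin n, Measurable fun w : Z × Z => b l.1 w.1 * conj (b l.2 w.2) :=
    fun l => ((hb l.1).1.comp measurable_fst).mul
      (Complex.continuous_conj.measurable.comp ((hb l.2).1.comp measurable_snd))
  have h4 : vnV b = fun w => ∑ l : Fin n × Fin n, (b l.1 w.1 * conj (b l.2 w.2)) •
      EuclideanSpace.single l (1 : ℂ) := by
    funext w
    ext l
    rw [vnV_apply]
    simp [WithLp.ofLp_sum, Finset.sum_apply, Pi.single_apply]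
  rw [h4]
  exact Finset.aestronglyMeasurable_fun_sum _ fun l _ => (h3 l).aestronglyMeasurable.smul_const _

/-- Proof. For `b` in `BM` let `V b` be the class of the function `w ↦ (b_{k1}(w.1) conj b_{k2}(w.2))_k`
in `Lp (EuclideanSpace ℂ (Fin n × Fin n)) 2 sZ`. By `hU` and the definitions of `WW` and `evo`,
`U (V b) = V (evo b)`: for almost every `w`,
`(U (V b)) w l = ∑_k D(φ w.1)_{k1 l1} conj(D(φ w.2)_{k2 l2}) b_{k1}(α w.1) conj b_{k2}(α w.2)
= (evo b)_{l1}(w.1) conj (evo b)_{l2}(w.2)` (the representative of `V b` at `(α w.1, α w.2)` agrees with the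
function for almost every `w` by `hτ`). So `U^j (V b) = V b_j` with `b_j = evo^[j] b`, which is in `BM`
(`evo_BM`). The inner product: `⟪V b_j, V b_i⟫ = ∫ ∑_k conj(b_j,k1(w.1) conj b_j,k2(w.2))
b_i,k1(w.1) conj b_i,k2(w.2) dsZ = ∫ A_ij(w.1) conj (A_ij(w.2)) dsZ` where
`A_ij(z) = ∑_k b_i,k(z) conj (b_j,k(z))`. Hence
`‖∑_{i < N} V b_i‖² = re ∑_{i,j} ⟪V b_j, V b_i⟫ ≤ ∑_{i,j} ‖∫ A_ij(w.1) conj (A_ij(w.2)) dsZ‖`. Finally
`‖V b‖² = ∫ ∑_k |b_{k1}(w.1)|² |b_{k2}(w.2)|² dsZ ≤ (n C²)²`. -/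
theorem exists_vector (α : Z) (φ : Z → K) (hφ : Measurable φ) {n : ℕ}
    {D : K → Fin n → Fin n → ℂ} (hD : ∀ i j, Measurable fun k => D k i j)
    (hu : ∀ k i i', ∑ j, D k i j * conj (D k i' j) = if i = i' then 1 else 0)
    (sZ : Measure (Z × Z)) [IsProbabilityMeasure sZ]
    (hτ : MeasurePreserving (fun w : Z × Z => (α * w.1, α * w.2)) sZ sZ)
    (U : Lp (EuclideanSpace ℂ (Fin n × Fin n)) 2 sZ →ₗᵢ[ℂ]
      Lp (EuclideanSpace ℂ (Fin n × Fin n)) 2 sZ)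
    (hU : IsTwist sZ (fun w : Z × Z => (α * w.1, α * w.2)) (WW φ D) U)
    (b : Fin n → Z → ℂ) (hb : ∀ i, BM (b i)) (C : ℝ) (hC : ∀ i z, ‖b i z‖ ≤ C) :
    ∃ v : Lp (EuclideanSpace ℂ (Fin n × Fin n)) 2 sZ,
      (∀ᵐ w ∂sZ, ∀ k, v w k = b k.1 w.1 * conj (b k.2 w.2)) ∧ ‖v‖ ≤ n * C ^ 2 ∧
      ∀ N : ℕ, ‖∑ i ∈ range N, (⇑U)^[i] v‖ ^ 2 ≤ ∑ i ∈ range N, ∑ j ∈ range N,
        ‖∫ w, (∑ k, ((evo α φ D)^[i] b) k w.1 * conj (((evo α φ D)^[j] b) k w.1)) *
          conj (∑ k, ((evo α φ D)^[i] b) k w.2 * conj (((evo α φ D)^[j] b) k w.2)) ∂sZ‖ := by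
  have hmem : MemLp (vnV b) 2 sZ :=
    MemLp.of_bound (vnV_meas b hb sZ) (n * C ^ 2) (Eventually.of_forall (vnV_norm b C hC))
  set v : Lp (EuclideanSpace ℂ (Fin n × Fin n)) 2 sZ := hmem.toLp _ with hv
  have hve : ∀ᵐ w ∂sZ, v w = vnV b w := hmem.coeFn_toLp
  have hvk : ∀ᵐ w ∂sZ, ∀ k, v w k = b k.1 w.1 * conj (b k.2 w.2) := by
    filter_upwards [hve] with w hw
    intro k
    rw [hw]
    rfl
  refine ⟨v, hvk, ?_, ?_⟩
  · have h1 := Lp.norm_le_of_ae_bound (f := v) (C := n * C ^ 2) (by positivity) (by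
      filter_upwards [hve] with w hw
      rw [hw]
      exact vnV_norm b C hC w)
    simpa [measureUnivNNReal] using h1
  · intro N
    have hin : ∀ i j : ℕ, ⟪(⇑U)^[j] v, (⇑U)^[i] v⟫_ℂ =
        ∫ w, (∑ k, ((evo α φ D)^[i] b) k w.1 * conj (((evo α φ D)^[j] b) k w.1)) *
          conj (∑ k, ((evo α φ D)^[i] b) k w.2 * conj (((evo α φ D)^[j] b) k w.2)) ∂sZ := by
      intro i j
      rw [L2.inner_def]
      apply integral_congr_ae
      filter_upwards [vn_iter_ZZ α φ sZ hτ U hU b v hvk i, vn_iter_ZZ α φ sZ hτ U hU b v hvk j]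
        with w h1 h2
      rw [PiLp.inner_apply]
      simp only [RCLike.inner_apply, h1, h2]
      generalize (evo α φ D)^[i] b = c
      generalize (evo α φ D)^[j] b = d
      rw [Fintype.sum_prod_type, map_sum, Finset.sum_mul_sum]
      refine Finset.sum_congr rfl fun k1 _ => Finset.sum_congr rfl fun k2 _ => ?_
      simp only [map_mul, Complex.conj_conj]
      ring
    have h1 : ‖∑ i ∈ range N, (⇑U)^[i] v‖ ^ 2 =
        ‖⟪∑ j ∈ range N, (⇑U)^[j] v, ∑ i ∈ range N, (⇑U)^[i] v⟫_ℂ‖ := by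
      rw [inner_self_eq_norm_sq_to_K, norm_pow]
      simp
    rw [h1, sum_inner]
    simp_rw [inner_sum, hin]
    rw [Finset.sum_comm]
    exact (norm_sum_le _ _).trans (Finset.sum_le_sum fun i _ => norm_sum_le _ _)

/-- The same on `Z`, exactly. Let `v` be the class of `z ↦ (b_k(z))_k` in
`Lp (EuclideanSpace ℂ (Fin n)) 2 lam` and `U` the twisted translation with the matrices `D (φ z)`; then
`U^i v` is the class of `evo^[i] b` and
`⟪U^j v, U^i v⟫ = ∫ ∑_k (evo^[i] b)_k conj (evo^[j] b)_k dlam`. -/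
theorem inner_iterate (α : Z) (φ : Z → K) (hφ : Measurable φ) {n : ℕ}
    {D : K → Fin n → Fin n → ℂ} (hD : ∀ i j, Measurable fun k => D k i j)
    (hu : ∀ k i i', ∑ j, D k i j * conj (D k i' j) = if i = i' then 1 else 0)
    (lam : Measure Z) [IsProbabilityMeasure lam]
    (hτ : MeasurePreserving (fun z : Z => α * z) lam lam)
    (U : Lp (EuclideanSpace ℂ (Fin n)) 2 lam →ₗᵢ[ℂ] Lp (EuclideanSpace ℂ (Fin n)) 2 lam)
    (hU : IsTwist lam (fun z : Z => α * z) (fun z => D (φ z)) U)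
    (b : Fin n → Z → ℂ) (hb : ∀ i, BM (b i)) (v : Lp (EuclideanSpace ℂ (Fin n)) 2 lam)
    (hv : ∀ᵐ z ∂lam, ∀ k, v z k = b k z) (i j : ℕ) :
    ⟪(⇑U)^[j] v, (⇑U)^[i] v⟫_ℂ =
      ∫ z, ∑ k, ((evo α φ D)^[i] b) k z * conj (((evo α φ D)^[j] b) k z) ∂lam := by
  rw [L2.inner_def]
  apply integral_congr_ae
  filter_upwards [vn_iter_Z α φ lam hτ U hU b v hv i, vn_iter_Z α φ lam hτ U hU b v hv j]
    with z h1 h2
  rw [PiLp.inner_apply]
  simp only [RCLike.inner_apply, h1, h2]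

end

end Pool.Agent.Lib.H22M
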