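import Pool.Agent.Lib.H22M.W2

/-!
# Project H22M, chunk W3: decomposition of a vector under an isometry
-/

open Filter Topology Finset
open scoped ComplexConjugate InnerProductSpace

namespace Pool.Agent.Lib.H22M

theorem w3_norm {H : Type*} [NormedAddCommGroup H] [InnerProductSpace ℂ H] (U : H →ₗᵢ[ℂ] H)
    (n : ℕ) (r : H) : ‖(⇑U)^[n] r‖ = ‖r‖ := by
  induction n with
  | zero => rfl
  | succ n ih => rw [Function.iterate_succ_apply', U.norm_map, ih]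

theorem w3_unit {H : Type*} [NormedAddCommGroup H] [InnerProductSpace ℂ H] (U : H →ₗᵢ[ℂ] H)
    {w : H} (hw : w ≠ 0) {c : ℂ} (h : U w = c • w) : ‖c‖ = 1 := by
  have h1 : ‖c‖ * ‖w‖ = ‖w‖ := by rw [← norm_smul, ← h, U.norm_map]
  have h2 : ‖w‖ ≠ 0 := norm_ne_zero_iff.2 hw
  exact mul_right_cancel₀ h2 (h1.trans (one_mul _).symm)

/-- the eigenvectors for the eigenvalues different from `1` -/
def w3S {H : Type*} [NormedAddCommGroup H] [InnerProductSpace ℂ H] (U : H →ₗᵢ[ℂ] H) : Set H :=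
  {w | w ≠ 0 ∧ ∃ c : ℂ, c ≠ 1 ∧ ‖c‖ = 1 ∧ U w = c • w}

theorem w3_span {H : Type*} [NormedAddCommGroup H] [InnerProductSpace ℂ H] (U : H →ₗᵢ[ℂ] H)
    (z : H) (hz : z ∈ Submodule.span ℂ (w3S U)) :
    ∃ (k : ℕ) (w : Fin k → H), (∀ i, w i ∈ w3S U) ∧ z = ∑ i, w i := by
  induction hz using Submodule.span_induction with
  | mem x hx => exact ⟨1, fun _ => x, fun _ => hx, by simp⟩
  | zero => exact ⟨0, Fin.elim0, fun i => i.elim0, by simp⟩
  | add x y _ _ hx hy =>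
    obtain ⟨k, w, hw, rfl⟩ := hx
    obtain ⟨k', w', hw', rfl⟩ := hy
    refine ⟨k + k', Fin.append w w', fun i => ?_, ?_⟩
    · refine Fin.addCases (fun i => ?_) (fun i => ?_) i
      · rw [Fin.append_left]; exact hw i
      · rw [Fin.append_right]; exact hw' i
    · rw [Fin.sum_univ_add]
      simp
  | smul a x _ hx =>
    obtain ⟨k, w, hw, rfl⟩ := hx
    by_cases ha : a = 0
    · exact ⟨0, Fin.elim0, fun i => i.elim0, by simp [ha]⟩
    · refine ⟨k, fun i => a • w i, fun i => ?_, Finset.smul_sum⟩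
      obtain ⟨h1, c, h2, h3, h4⟩ := hw i
      refine ⟨smul_ne_zero ha h1, c, h2, h3, ?_⟩
      rw [map_smul, h4, smul_comm]

/-- Proof. Let `E₁ = {w : U w = w}`, a closed subspace, `v₁` the orthogonal projection of `v` on `E₁`,
`v' = v - v₁`. Let `S` be the set of `w ≠ 0` with `U w = c w` for some `c ≠ 1` (then `|c| = 1`), `E` the
closure of the span of `S`. Eigenvectors of an isometry for different eigenvalues are orthogonal
(`⟪w, w'⟫ = ⟪U w, U w'⟫ = conj c c' ⟪w, w'⟫`), so `E ⟂ E₁`. Let `r'` be the projection of `v'` on `E` and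
`x = v' - r'`. Then `x ⟂ E` and `x ⟂ E₁` (`v' ⟂ E₁` and `r' ∈ E ⟂ E₁`), so `x` is orthogonal to all
eigenvectors (also for `c` with `|c| ≠ 1` there are none but `0`). Choose a finite sum
`∑_{i < k} w_i` of elements of `S` (scalar multiples absorbed; drop zero terms) with
`‖r' - ∑ w_i‖ ≤ δ'`, where `δ'^4 ≤ δ/4`, `δ' > 0`. Then `y = v - v₁ - ∑ w_i = x + r` with
`r = r' - ∑ w_i ∈ E`, `‖r‖ ≤ δ'`. `E` is invariant under `U` and `x ⟂ E`, and `⟪U^n x, r''⟫ = 0` for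
`r'' ∈ E` (check on eigenvectors `w`: `⟪w, U^n x⟫ = c^.. ⟪U^n w, U^n x⟫ = 0`), so
`⟪U^n y, y⟫ = ⟪U^n x, x⟫ + ⟪U^n r, r⟫` and `|⟪U^n y, y⟫|² ≤ 2 |⟪U^n x, x⟫|² + 2 δ'^4`. Apply `wiener_aux`
to `x` with `δ/4`. `⟪v₁, v - v₁⟫ = 0` is the projection property. -/
theorem wiener_decomp {H : Type*} [NormedAddCommGroup H] [InnerProductSpace ℂ H]
    [CompleteSpace H] (U : H →ₗᵢ[ℂ] H) (v : H) (δ : ℝ) (hδ : 0 < δ) :
    ∃ (v₁ : H) (k : ℕ) (c : Fin k → ℂ) (w : Fin k → H), U v₁ = v₁ ∧ ⟪v₁, v - v₁⟫_ℂ = 0 ∧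
      (∀ i, c i ≠ 1 ∧ ‖c i‖ = 1 ∧ w i ≠ 0 ∧ U (w i) = c i • w i) ∧
      ∃ N : ℕ, 1 ≤ N ∧ ∑ n ∈ range N,
        ‖⟪(⇑U)^[n] (v - v₁ - ∑ i, w i), v - v₁ - ∑ i, w i⟫_ℂ‖ ^ 2 ≤ δ * N := by
  classical
  -- the space of invariant vectors
  set T : H →L[ℂ] H := U.toContinuousLinearMap - ContinuousLinearMap.id ℂ H with hT
  set E₁ : Submodule ℂ H := (T : H →ₗ[ℂ] H).ker with hE₁
  have hmem₁ : ∀ w, w ∈ E₁ ↔ U w = w := by
    intro w
    rw [hE₁, LinearMap.mem_ker]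
    show U w - w = 0 ↔ _
    exact sub_eq_zero
  have hcl₁ : IsClosed (E₁ : Set H) := T.isClosed_ker
  have : CompleteSpace E₁ := hcl₁.completeSpace_coe
  set E : Submodule ℂ H := (Submodule.span ℂ (w3S U)).topologicalClosure with hE
  have hclE : IsClosed (E : Set H) := Submodule.isClosed_topologicalClosure _
  have : CompleteSpace E := hclE.completeSpace_coe
  have hSE : ∀ w ∈ w3S U, w ∈ E := fun w hw =>
    Submodule.le_topologicalClosure _ (Submodule.subset_span hw)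
  -- orthogonality to `S`
  have horth : ∀ y : H, (∀ w ∈ w3S U, ⟪w, y⟫_ℂ = 0) → y ∈ Eᗮ := by
    intro y hy
    rw [hE, Submodule.orthogonal_closure, Submodule.mem_orthogonal]
    intro u hu
    induction hu using Submodule.span_induction with
    | mem x hx => exact hy x hx
    | zero => exact inner_zero_left _
    | add a b _ _ ha hb => rw [inner_add_left, ha, hb, add_zero]
    | smul a b _ hb => rw [inner_smul_left, hb, mul_zero]
  have h11 : ∀ w ∈ w3S U, ∀ u ∈ E₁, ⟪w, u⟫_ℂ = 0 := by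
    rintro w ⟨hw0, c, hc1, hcn, hUw⟩ u hu
    have hu' := (hmem₁ u).1 hu
    have h1 : ⟪w, u⟫_ℂ = conj c * ⟪w, u⟫_ℂ := by
      conv_lhs => rw [← U.inner_map_map, hUw, hu', inner_smul_left]
    have h2 : (conj c - 1) * ⟪w, u⟫_ℂ = 0 := by
      rw [sub_mul, one_mul, ← h1, sub_self]
    rcases mul_eq_zero.1 h2 with h3 | h3
    · exfalso
      apply hc1
      have h4 : conj c = 1 := sub_eq_zero.1 h3
      have h5 := congrArg conj h4
      rwa [Complex.conj_conj, map_one] at h5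
    · exact h3
  have hE₁E : ∀ u ∈ E₁, u ∈ Eᗮ := fun u hu => horth u fun w hw => h11 w hw u hu
  -- invariance of `E` and of its complement
  have hUE : ∀ u ∈ E, U u ∈ E := by
    have h1 : E ≤ E.comap U.toLinearMap := by
      refine Submodule.topologicalClosure_minimal _ (Submodule.span_le.2 ?_) ?_
      · rintro w ⟨hw0, c, hc1, hcn, hUw⟩
        show U w ∈ E
        rw [hUw]
        exact E.smul_mem c (hSE w ⟨hw0, c, hc1, hcn, hUw⟩)
      · exact hclE.preimage U.continuous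
    exact fun u hu => h1 hu
  have hUEo : ∀ u ∈ Eᗮ, U u ∈ Eᗮ := by
    intro u hu
    refine horth _ ?_
    rintro w ⟨hw0, c, hc1, hcn, hUw⟩
    have hc0 : c ≠ 0 := by
      intro h0
      rw [h0, norm_zero] at hcn
      exact zero_ne_one hcn
    have h1 : w = c⁻¹ • U w := by rw [hUw, smul_smul, inv_mul_cancel₀ hc0, one_smul]
    have h2 : ⟪w, u⟫_ℂ = 0 := (Submodule.mem_orthogonal _ _).1 hu w
      (hSE w ⟨hw0, c, hc1, hcn, hUw⟩)
    rw [h1, inner_smul_left, U.inner_map_map, h2, mul_zero]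
  have hnE : ∀ (n : ℕ), ∀ u ∈ E, (⇑U)^[n] u ∈ E := by
    intro n
    induction n with
    | zero => exact fun u hu => hu
    | succ n ih => exact fun u hu => by rw [Function.iterate_succ_apply']; exact hUE _ (ih u hu)
  have hnEo : ∀ (n : ℕ), ∀ u ∈ Eᗮ, (⇑U)^[n] u ∈ Eᗮ := by
    intro n
    induction n with
    | zero => exact fun u hu => hu
    | succ n ih => exact fun u hu => by rw [Function.iterate_succ_apply']; exact hUEo _ (ih u hu)
  -- the decomposition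
  set v₁ : H := E₁.starProjection v with hv₁
  have hv₁m : v₁ ∈ E₁ := E₁.starProjection_apply_mem v
  have hv' : v - v₁ ∈ E₁ᗮ := E₁.sub_starProjection_mem_orthogonal v
  set r' : H := E.starProjection (v - v₁) with hr'
  have hr'm : r' ∈ E := E.starProjection_apply_mem _
  set x : H := v - v₁ - r' with hx
  have hxE : x ∈ Eᗮ := E.sub_starProjection_mem_orthogonal (v - v₁)
  have hr'1 : r' ∈ E₁ᗮ := by
    rw [Submodule.mem_orthogonal]
    intro u hu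
    have h1 := (Submodule.mem_orthogonal _ _).1 (hE₁E u hu) r' hr'm
    rw [← inner_conj_symm, h1, map_zero]
  have hx1 : x ∈ E₁ᗮ := E₁ᗮ.sub_mem hv' hr'1
  have hxw : ∀ (c : ℂ) (w : H), U w = c • w → ⟪w, x⟫_ℂ = 0 := by
    intro c w hw
    by_cases hw0 : w = 0
    · rw [hw0, inner_zero_left]
    by_cases hc : c = 1
    · rw [hc, one_smul] at hw
      exact (Submodule.mem_orthogonal _ _).1 hx1 w ((hmem₁ w).2 hw)
    · exact (Submodule.mem_orthogonal _ _).1 hxE w (hSE w ⟨hw0, c, hc, w3_unit U hw0 hw, hw⟩)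
  obtain ⟨N, hN, hsum⟩ := wiener_aux U x hxw (δ / 4) (by positivity)
  set δ' : ℝ := min 1 (δ / 4) with hδ'
  have hδ'0 : 0 < δ' := lt_min one_pos (by positivity)
  have hδ'4 : δ' ^ 4 ≤ δ / 4 := by
    have h1 : δ' ≤ 1 := min_le_left _ _
    have h2 : δ' ≤ δ / 4 := min_le_right _ _
    calc δ' ^ 4 ≤ δ' ^ 1 := pow_le_pow_of_le_one hδ'0.le h1 (by norm_num)
      _ = δ' := pow_one _
      _ ≤ δ / 4 := h2
  obtain ⟨z, hz, hzd⟩ := Metric.mem_closure_iff.1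
    (show r' ∈ closure ((Submodule.span ℂ (w3S U) : Submodule ℂ H) : Set H) from hr'm) δ' hδ'0
  obtain ⟨k, w, hw, hzw⟩ := w3_span U z hz
  choose hw0 c hc1 hcn hUw using hw
  refine ⟨v₁, k, c, w, (hmem₁ v₁).1 hv₁m, (Submodule.mem_orthogonal _ _).1 hv' v₁ hv₁m,
    fun i => ⟨hc1 i, hcn i, hw0 i, hUw i⟩, N, hN, ?_⟩
  rw [← hzw]
  set r : H := r' - z with hr
  have hrE : r ∈ E := E.sub_mem hr'm (Submodule.le_topologicalClosure _ hz)
  have hrn : ‖r‖ ≤ δ' := by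
    rw [hr, ← dist_eq_norm]
    exact hzd.le
  have hy : v - v₁ - z = x + r := by
    rw [hx, hr]
    abel
  rw [hy]
  have hterm : ∀ n : ℕ, ‖⟪(⇑U)^[n] (x + r), x + r⟫_ℂ‖ ^ 2 ≤
      2 * ‖⟪(⇑U)^[n] x, x⟫_ℂ‖ ^ 2 + δ / 2 := by
    intro n
    have h1 : (⇑U)^[n] (x + r) = (⇑U)^[n] x + (⇑U)^[n] r := iterate_map_add U n x r
    have h2 : ⟪(⇑U)^[n] r, x⟫_ℂ = 0 := (Submodule.mem_orthogonal _ _).1 hxE _ (hnE n r hrE)
    have h3 : ⟪(⇑U)^[n] x, r⟫_ℂ = 0 := by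
      rw [← inner_conj_symm, (Submodule.mem_orthogonal _ _).1 (hnEo n x hxE) r hrE, map_zero]
    have h4 : ⟪(⇑U)^[n] (x + r), x + r⟫_ℂ = ⟪(⇑U)^[n] x, x⟫_ℂ + ⟪(⇑U)^[n] r, r⟫_ℂ := by
      rw [h1, inner_add_left, inner_add_right, inner_add_right, h2, h3, add_zero, zero_add]
    have h5 : ‖⟪(⇑U)^[n] r, r⟫_ℂ‖ ≤ δ' ^ 2 := by
      refine (norm_inner_le_norm _ _).trans ?_
      rw [w3_norm, sq]
      exact mul_le_mul hrn hrn (norm_nonneg _) hδ'0.le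
    have h6 : ‖⟪(⇑U)^[n] r, r⟫_ℂ‖ ^ 2 ≤ δ / 4 := by
      calc ‖⟪(⇑U)^[n] r, r⟫_ℂ‖ ^ 2 ≤ (δ' ^ 2) ^ 2 := pow_le_pow_left₀ (norm_nonneg _) h5 2
        _ = δ' ^ 4 := by ring
        _ ≤ δ / 4 := hδ'4
    rw [h4]
    have h7 := norm_add_le (⟪(⇑U)^[n] x, x⟫_ℂ) (⟪(⇑U)^[n] r, r⟫_ℂ)
    have h8 := pow_le_pow_left₀ (norm_nonneg _) h7 2
    nlinarith [sq_nonneg (‖⟪(⇑U)^[n] x, x⟫_ℂ‖ - ‖⟪(⇑U)^[n] r, r⟫_ℂ‖)]
  calc ∑ n ∈ range N, ‖⟪(⇑U)^[n] (x + r), x + r⟫_ℂ‖ ^ 2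
      ≤ ∑ n ∈ range N, (2 * ‖⟪(⇑U)^[n] x, x⟫_ℂ‖ ^ 2 + δ / 2) :=
        Finset.sum_le_sum fun n _ => hterm n
    _ = 2 * ∑ n ∈ range N, ‖⟪(⇑U)^[n] x, x⟫_ℂ‖ ^ 2 + N * (δ / 2) := by
        rw [Finset.sum_add_distrib, ← Finset.mul_sum, Finset.sum_const, Finset.card_range,
          nsmul_eq_mul]
    _ ≤ δ * N := by linarith

end Pool.Agent.Lib.H22M
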