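import Pool.Agent.Lib.H22M.TW
import Pool.Agent.Lib.H22M.VN
import Pool.Agent.Lib.H22M.W3
import Pool.Agent.Lib.H22M.EF

/-!
# Project H22M, chunk CA1: the decomposition of a function of finite type
-/

open MeasureTheory Filter Topology Finset
open scoped ComplexConjugate InnerProductSpace

namespace Pool.Agent.Lib.H22M

/-- the vector of the coefficients -/
noncomputable def ca1_V {Z : Type*} {n : ℕ} (a : Fin n → Z → ℂ) (z : Z) :
    EuclideanSpace ℂ (Fin n) := WithLp.toLp 2 fun i => a i z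

theorem ca1_memLp {Z : Type*} [MeasurableSpace Z] (lam : Measure Z) [IsProbabilityMeasure lam]
    {n : ℕ} (a : Fin n → Z → ℂ) (ha : ∀ i, BM (a i)) : MemLp (ca1_V a) 2 lam := by
  have hm : AEStronglyMeasurable (ca1_V a) lam := by
    have h4 : ca1_V a = fun w => ∑ l : Fin n, (a l w) • EuclideanSpace.single l (1 : ℂ) := by
      funext w
      ext l
      have : ca1_V a w l = a l w := rfl
      rw [this]
      simp [WithLp.ofLp_sum, Finset.sum_apply, Pi.single_apply]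
    rw [h4]
    exact Finset.aestronglyMeasurable_fun_sum _ fun l _ =>
      (ha l).1.aestronglyMeasurable.smul_const _
  choose hM C hC using ha
  refine MemLp.of_bound hm (∑ i, |C i|) (Eventually.of_forall fun z => ?_)
  rw [EuclideanSpace.norm_eq]
  have h1 : ∑ i, ‖ca1_V a z i‖ ^ 2 ≤ (∑ i, |C i|) ^ 2 := by
    calc ∑ i, ‖ca1_V a z i‖ ^ 2 ≤ ∑ i, |C i| ^ 2 := by
          refine Finset.sum_le_sum fun i _ => pow_le_pow_left₀ (norm_nonneg _) ?_ 2
          exact (hC i z).trans (le_abs_self _)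
      _ ≤ (∑ i, |C i|) ^ 2 := Finset.sum_sq_le_sq_sum_of_nonneg fun i _ => abs_nonneg _
  calc Real.sqrt (∑ i, ‖ca1_V a z i‖ ^ 2) ≤ Real.sqrt ((∑ i, |C i|) ^ 2) := Real.sqrt_le_sqrt h1
    _ = ∑ i, |C i| := Real.sqrt_sq (Finset.sum_nonneg fun i _ => abs_nonneg _)

theorem ca1_inner {Z : Type*} [MeasurableSpace Z] (lam : Measure Z) {n : ℕ}
    (x y : Lp (EuclideanSpace ℂ (Fin n)) 2 lam) (f g : Fin n → Z → ℂ)
    (hx : ∀ᵐ z ∂lam, ∀ k, x z k = f k z) (hy : ∀ᵐ z ∂lam, ∀ k, y z k = g k z) :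
    ⟪x, y⟫_ℂ = ∫ z, ∑ k, g k z * conj (f k z) ∂lam := by
  rw [L2.inner_def]
  apply integral_congr_ae
  filter_upwards [hx, hy] with z h1 h2
  rw [PiLp.inner_apply]
  simp only [RCLike.inner_apply, h1, h2]

theorem ca1_iter_add {H : Type*} [NormedAddCommGroup H] [InnerProductSpace ℂ H] (U : H →ₗᵢ[ℂ] H)
    (i : ℕ) (x y : H) : ⟪(⇑U)^[i] x, (⇑U)^[i] y⟫_ℂ = ⟪x, y⟫_ℂ := by
  induction i with
  | zero => rfl
  | succ i ih =>
    rw [Function.iterate_succ_apply', Function.iterate_succ_apply', U.inner_map_map, ih]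

theorem ca1_norm_inner {H : Type*} [NormedAddCommGroup H] [InnerProductSpace ℂ H] (U : H →ₗᵢ[ℂ] H)
    (y : H) (i j : ℕ) : ‖⟪(⇑U)^[j] y, (⇑U)^[i] y⟫_ℂ‖ ^ 2 ≤
      (if j ≤ i then ‖⟪(⇑U)^[i - j] y, y⟫_ℂ‖ ^ 2 else 0) +
        (if i ≤ j then ‖⟪(⇑U)^[j - i] y, y⟫_ℂ‖ ^ 2 else 0) := by
  rcases le_total j i with h | h
  · have e : (⇑U)^[i] y = (⇑U)^[j] ((⇑U)^[i - j] y) := by
      rw [← Function.iterate_add_apply, Nat.add_sub_cancel' h]
    have e2 : ‖⟪(⇑U)^[j] y, (⇑U)^[i] y⟫_ℂ‖ = ‖⟪(⇑U)^[i - j] y, y⟫_ℂ‖ := by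
      rw [e, ca1_iter_add, norm_inner_symm]
    rw [e2, if_pos h]
    have : 0 ≤ (if i ≤ j then ‖⟪(⇑U)^[j - i] y, y⟫_ℂ‖ ^ 2 else 0) := by split_ifs <;> positivity
    linarith
  · have e : (⇑U)^[j] y = (⇑U)^[i] ((⇑U)^[j - i] y) := by
      rw [← Function.iterate_add_apply, Nat.add_sub_cancel' h]
    have e2 : ‖⟪(⇑U)^[j] y, (⇑U)^[i] y⟫_ℂ‖ = ‖⟪(⇑U)^[j - i] y, y⟫_ℂ‖ := by
      rw [e, ca1_iter_add]
    rw [e2, if_pos h]
    have : 0 ≤ (if j ≤ i then ‖⟪(⇑U)^[i - j] y, y⟫_ℂ‖ ^ 2 else 0) := by split_ifs <;> positivity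
    linarith

theorem ca1_sum1 (g : ℕ → ℝ) (hg : ∀ n, 0 ≤ g n) (N i : ℕ) (hi : i < N) :
    ∑ j ∈ range N, (if j ≤ i then g (i - j) else 0) ≤ ∑ n ∈ range N, g n := by
  rw [← Finset.sum_filter]
  rw [← Finset.sum_image (f := g) (g := fun j => i - j) (s := (range N).filter fun j => j ≤ i)]
  · refine Finset.sum_le_sum_of_subset_of_nonneg ?_ fun n _ _ => hg n
    intro n hn
    obtain ⟨j, hj, rfl⟩ := Finset.mem_image.1 hn
    rw [Finset.mem_range]
    omega
  · intro j hj j' hj' h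
    have h1 := (Finset.mem_filter.1 hj).2
    have h2 := (Finset.mem_filter.1 hj').2
    simp only at h
    omega

theorem ca1_sum2 (g : ℕ → ℝ) (hg : ∀ n, 0 ≤ g n) (N i : ℕ) :
    ∑ j ∈ range N, (if i ≤ j then g (j - i) else 0) ≤ ∑ n ∈ range N, g n := by
  rw [← Finset.sum_filter]
  rw [← Finset.sum_image (f := g) (g := fun j => j - i) (s := (range N).filter fun j => i ≤ j)]
  · refine Finset.sum_le_sum_of_subset_of_nonneg ?_ fun n _ _ => hg n
    intro n hn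
    obtain ⟨j, hj, rfl⟩ := Finset.mem_image.1 hn
    have h1 := Finset.mem_range.1 (Finset.mem_filter.1 hj).1
    rw [Finset.mem_range]
    omega
  · intro j hj j' hj' h
    have h1 := (Finset.mem_filter.1 hj).2
    have h2 := (Finset.mem_filter.1 hj').2
    simp only at h
    omega

section

variable {Z K M : Type*} [CommGroup Z] [TopologicalSpace Z] [IsTopologicalGroup Z]
  [CompactSpace Z] [T2Space Z] [SecondCountableTopology Z] [MeasurableSpace Z] [BorelSpace Z]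
  [Group K] [TopologicalSpace K] [IsTopologicalGroup K] [CompactSpace K] [T2Space K]
  [SecondCountableTopology K] [MeasurableSpace K] [BorelSpace K]
  [TopologicalSpace M] [CompactSpace M] [T2Space M] [SecondCountableTopology M]
  [MeasurableSpace M] [BorelSpace M] [MulAction K M] [ContinuousSMul K M]
  (lam : Measure Z) [lam.IsHaarMeasure] [IsProbabilityMeasure lam]
  (muM : Measure M) [IsProbabilityMeasure muM]

/-- Let `m = lam.prod muM`, `R = skew α φ`. Proof.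
1. `U` from `exists_twist` for `lam`, `τ z = α z` (a Haar measure is invariant), `W z = D (φ z)`
   (`hft.unit`, `hft.measD`, `hφ`); `v` the class of `z ↦ (a_i z)_i`. Apply `wiener_decomp` to `U, v` with
   `δ/2`: `v₁`, `c_i`, `w_i` (`i < k`), `N`; put `y = v - v₁ - ∑ w_i`.
2. `eigenvector_function` gives `b₁` in `BM` for `v₁` (eigenvalue `1`) and `b^(i)` for `w_i`; put
   `e_i = ft G b^(i)`, bounded measurable, `e_i ∘ R = c_i e_i` almost everywhere, and
   `b = a - b₁ - ∑_i b^(i)` pointwise: in `BM`, and the class of `b` is `y`. Pointwise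
   `ft G a = ft G b₁ + ∑ e_i + ft G b` (`ft` is linear in the coefficients).
3. `ft G b₁ ∘ R = ft G b₁` almost everywhere, so it is a constant `κ'` almost everywhere
   (`const_of_invariant`). By `integral_ft`: `|κ'|² = ∫ |ft G b₁|² dm = ‖v₁‖² = ⟪v₁, v⟫` (as
   `⟪v₁, v - v₁⟫ = 0`) `= ∫ ft G a conj (ft G b₁) dm = conj κ' ∫ ft G a dm`, so
   `|κ'| ≤ |∫ ft G a dm|`.
4. `∫ A_ij dlam = ⟪U^j y, U^i y⟫` (`inner_iterate`), where `A_ij` is the integrand in the last sum, of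
   modulus `|⟪U^|i-j| y, y⟫|` as `U` is an isometry, so the double sum is at most
   `2 N ∑_{n < N} |⟪U^n y, y⟫|² ≤ 2 N (δ/2) N = δ N²`. -/
theorem exists_ft_decomposition (α : Z) (φ : Z → K) (hφ : Measurable φ)
    (herg : Ergodic (skew (M := M) α φ) (lam.prod muM)) {n : ℕ} {G : Fin n → M → ℂ}
    {D : K → Fin n → Fin n → ℂ} (hft : FTD muM G D) (a : Fin n → Z → ℂ) (ha : ∀ i, BM (a i))
    (δ : ℝ) (hδ : 0 < δ) :
    ∃ (b : Fin n → Z → ℂ) (κ' : ℂ) (k : ℕ) (e : Fin k → Z × M → ℂ) (c : Fin k → ℂ) (N : ℕ),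
      (∀ i, BM (b i)) ∧ ‖κ'‖ ≤ ‖∫ y, ft G a y ∂(lam.prod muM)‖ ∧
      (∀ i, BM (e i) ∧ ‖c i‖ = 1 ∧ c i ≠ 1 ∧
        ∀ᵐ y ∂(lam.prod muM), e i (skew α φ y) = c i * e i y) ∧
      (∀ᵐ y ∂(lam.prod muM), ft G a y = κ' + ∑ i, e i y + ft G b y) ∧ 1 ≤ N ∧
      ∑ i ∈ range N, ∑ j ∈ range N,
        ‖∫ z, ∑ k, ((evo α φ D)^[i] b) k z * conj (((evo α φ D)^[j] b) k z) ∂lam‖ ^ 2 ≤
        δ * N ^ 2 := by
  have hτ : MeasurePreserving (fun z : Z => α * z) lam lam := measurePreserving_mul_left lam α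
  obtain ⟨U, hU⟩ := exists_twist lam (fun z : Z => α * z) hτ (fun z => D (φ z))
    (fun k l => (hft.measD k l).comp hφ) (fun z k k' => hft.unit (φ z) k k')
  have hmem := ca1_memLp lam a ha
  set v : Lp (EuclideanSpace ℂ (Fin n)) 2 lam := hmem.toLp _ with hvdef
  have hv : ∀ᵐ z ∂lam, ∀ k, v z k = a k z := by
    filter_upwards [hmem.coeFn_toLp] with z hz
    intro k
    rw [hvdef, hz]
    rfl
  obtain ⟨v₁, k, c, w, hv1, horth, hw, N, hN, hsum⟩ := wiener_decomp U v (δ / 2) (by positivity)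
  obtain ⟨b₁, hb1, hb1v, hb1i, -⟩ := eigenvector_function lam muM α φ hφ herg hft U hU v₁ 1
    norm_one (by rw [one_smul]; exact hv1)
  have hex := fun i => eigenvector_function lam muM α φ hφ herg hft U hU (w i) (c i) (hw i).2.1
    (hw i).2.2.2
  choose bb hbb hbbw hbbi _ using hex
  have hBMa := ef_bm_ft muM hft a ha
  have hBM1 := ef_bm_ft muM hft b₁ hb1
  obtain ⟨κ', hκ'⟩ := const_of_invariant herg (ft G b₁) hBM1.1 (by
    filter_upwards [hb1i] with y hy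
    rw [hy, one_mul])
  set b : Fin n → Z → ℂ := fun j z => a j z - b₁ j z - ∑ i, bb i j z with hbdef
  have hb : ∀ j, BM (b j) := fun j =>
    ((ha j).sub (hb1 j)).sub (BM.sum _ fun i _ => hbb i j)
  set y := v - v₁ - ∑ i, w i with hydef
  have hy : ∀ᵐ z ∂lam, ∀ l, y z l = b l z := by
    have h1 : ∀ᵐ z ∂lam, (⇑(∑ i, w i) : Z → EuclideanSpace ℂ (Fin n)) z = ∑ i, (w i) z := by
      have h2 : ∀ s : Finset (Fin k), (⇑(∑ i ∈ s, w i) : Z → EuclideanSpace ℂ (Fin n)) =ᵐ[lam]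
          fun z => ∑ i ∈ s, (w i) z := by
        intro s
        induction s using Finset.induction_on with
        | empty =>
          simp only [Finset.sum_empty]
          exact Lp.coeFn_zero _ 2 lam
        | insert i s hi ih =>
          simp only [Finset.sum_insert hi]
          filter_upwards [Lp.coeFn_add (w i) (∑ i ∈ s, w i), ih] with z h3 h4
          rw [h3, Pi.add_apply, h4]
      exact h2 Finset.univ
    filter_upwards [Lp.coeFn_sub (v - v₁) (∑ i, w i), Lp.coeFn_sub v v₁, h1, hv, hb1v,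
      ae_all_iff.2 hbbw] with z h2 h3 h4 h5 h6 h7
    intro l
    rw [hydef, h2, Pi.sub_apply, h3, Pi.sub_apply, h4]
    have h8 : (∑ i, (w i) z) l = ∑ i, (w i) z l := by
      rw [WithLp.ofLp_sum, Finset.sum_apply]
    rw [PiLp.sub_apply, PiLp.sub_apply, h8, h5 l, h6 l]
    simp only [hbdef]
    congr 1
    exact Finset.sum_congr rfl fun i _ => h7 i l
  refine ⟨b, κ', k, fun i => ft G (bb i), c, N, hb, ?_, ?_, ?_, hN, ?_⟩
  · have h1 : ∫ x, ft G b₁ x * conj (ft G b₁ x) ∂(lam.prod muM) = κ' * conj κ' := by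
      have h2 : ∫ x, ft G b₁ x * conj (ft G b₁ x) ∂(lam.prod muM) =
          ∫ _, κ' * conj κ' ∂(lam.prod muM) := by
        refine integral_congr_ae ?_
        filter_upwards [hκ'] with x hx
        rw [hx]
      rw [h2, integral_const]
      simp
    have h3 : ∫ x, ft G a x * conj (ft G b₁ x) ∂(lam.prod muM) =
        conj κ' * ∫ x, ft G a x ∂(lam.prod muM) := by
      rw [← integral_const_mul]
      refine integral_congr_ae ?_
      filter_upwards [hκ'] with x hx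
      rw [hx]
      ring
    have h4 : ⟪v₁, v₁⟫_ℂ = κ' * conj κ' := by
      rw [ca1_inner lam v₁ v₁ b₁ b₁ hb1v hb1v, ← integral_ft lam muM hft b₁ b₁ hb1 hb1, h1]
    have h5 : ⟪v₁, v⟫_ℂ = conj κ' * ∫ x, ft G a x ∂(lam.prod muM) := by
      rw [ca1_inner lam v₁ v b₁ a hb1v hv, ← integral_ft lam muM hft a b₁ ha hb1, h3]
    rw [inner_sub_right, sub_eq_zero] at horth
    rw [horth, h4] at h5
    by_cases hk : κ' = 0
    · rw [hk, norm_zero]
      exact norm_nonneg _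
    · have h6 := congrArg norm h5
      rw [norm_mul, norm_mul, RCLike.norm_conj, mul_comm] at h6
      have h7 : 0 < ‖κ'‖ := norm_pos_iff.2 hk
      exact (mul_left_cancel₀ h7.ne' h6).le
  · exact fun i => ⟨ef_bm_ft muM hft (bb i) (hbb i), (hw i).2.1, (hw i).1, hbbi i⟩
  · filter_upwards [hκ'] with x hx
    have h1 : ft G b x = ft G a x - ft G b₁ x - ∑ i, ft G (bb i) x := by
      unfold ft
      rw [← Finset.sum_sub_distrib, Finset.sum_comm, ← Finset.sum_sub_distrib]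
      refine Finset.sum_congr rfl fun j _ => ?_
      simp only [hbdef]
      rw [← Finset.sum_mul]
      ring
    rw [h1, hx]
    ring
  · have hin : ∀ i j : ℕ, ∫ z, ∑ k, ((evo α φ D)^[i] b) k z * conj (((evo α φ D)^[j] b) k z) ∂lam =
        ⟪(⇑U)^[j] y, (⇑U)^[i] y⟫_ℂ := fun i j =>
      (inner_iterate α φ hφ hft.measD hft.unit lam hτ U hU b hb y hy i j).symm
    simp_rw [hin]
    have hg : ∀ m : ℕ, 0 ≤ ‖⟪(⇑U)^[m] y, y⟫_ℂ‖ ^ 2 := fun m => by positivity
    calc ∑ i ∈ range N, ∑ j ∈ range N, ‖⟪(⇑U)^[j] y, (⇑U)^[i] y⟫_ℂ‖ ^ 2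
        ≤ ∑ i ∈ range N, 2 * ∑ m ∈ range N, ‖⟪(⇑U)^[m] y, y⟫_ℂ‖ ^ 2 := by
          refine Finset.sum_le_sum fun i hi => ?_
          refine (Finset.sum_le_sum fun j _ => ca1_norm_inner U y i j).trans ?_
          rw [Finset.sum_add_distrib, two_mul]
          exact add_le_add
            (ca1_sum1 (fun m => ‖⟪(⇑U)^[m] y, y⟫_ℂ‖ ^ 2) hg N i (Finset.mem_range.1 hi))
            (ca1_sum2 (fun m => ‖⟪(⇑U)^[m] y, y⟫_ℂ‖ ^ 2) hg N i)
      _ ≤ ∑ i ∈ range N, 2 * (δ / 2 * N) := by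
          refine Finset.sum_le_sum fun i _ => ?_
          exact mul_le_mul_of_nonneg_left hsum (by norm_num)
      _ = δ * N ^ 2 := by
          rw [Finset.sum_const, Finset.card_range, nsmul_eq_mul]
          ring

end

end Pool.Agent.Lib.H22M
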