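import Pool.Agent.Lib.H22M.NL

/-!
# Project H22M, chunk CB1: a lower bound for the finite type part
-/

open MeasureTheory Filter Topology Finset
open scoped ComplexConjugate

namespace Pool.Agent.Lib.H22M

theorem cb1_congr {Y : Type*} [MeasurableSpace Y] {m : Measure Y} {σ : Measure (Y × Y)}
    (h1 : σ.map Prod.fst = m) (h2 : σ.map Prod.snd = m) {f g : Y → ℂ}
    (h : ∀ᵐ y ∂m, f y = g y) : qf σ f = qf σ g := by
  have h3 : ∀ᵐ z ∂σ, f z.1 = g z.1 := by
    rw [← h1] at h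
    exact ae_of_ae_map measurable_fst.aemeasurable h
  have h4 : ∀ᵐ z ∂σ, f z.2 = g z.2 := by
    rw [← h2] at h
    exact ae_of_ae_map measurable_snd.aemeasurable h
  unfold qf
  congr 2
  refine integral_congr_ae ?_
  filter_upwards [h3, h4] with z h5 h6
  rw [h5, h6]

theorem cb1_sum {Y : Type*} [MeasurableSpace Y] {m : Measure Y} [IsProbabilityMeasure m]
    {R : Y → Y} {p q : ℕ} {ρ σ : Measure (Y × Y)} (h : RelSq m R p q ρ σ) (k : ℕ)
    (e : Fin k → Y → ℂ) (he : ∀ i, BM (e i)) (h0 : ∀ i, qf σ (e i) = 0) (s : Finset (Fin k)) :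
    qf σ (fun y => ∑ i ∈ s, e i y) ≤ 0 := by
  classical
  induction s using Finset.induction_on with
  | empty =>
    simp only [Finset.sum_empty]
    refine (h.le_l2 _ (BM.const 0)).trans ?_
    rw [l2_const, norm_zero]
  | insert a s ha ih =>
    simp_rw [Finset.sum_insert ha]
    refine (h.add _ _ (he a) (BM.sum s fun i _ => he i)).trans ?_
    rw [h0 a, zero_add]
    exact ih

/-- Proof. `l2 m F ≤ 1`, so by `h.join` `2 ε < qf σ F`. Since the two marginals of `σ` are `m`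
(`h.fst`, `h.snd`), `qf σ` does not change when the function is changed on an `m`-null set; so by `h.add`
(several times), `h.le_l2` and `h.eig_zero` (which gives `qf σ (e i) = 0`):
`2 ε < qf σ F = qf σ (r + ∑ e_i + g) ≤ qf σ r + ∑ qf σ (e_i) + qf σ g ≤ ε + qf σ g`. -/
theorem qf_ge {Y : Type*} [MeasurableSpace Y] {m : Measure Y} [IsProbabilityMeasure m]
    {R : Y → Y} {p q : ℕ} {ρ σ : Measure (Y × Y)} (h : RelSq m R p q ρ σ) (F r g : Y → ℂ)
    (hF : Measurable F) (hF1 : ∀ y, ‖F y‖ ≤ 1) (hr : BM r) (hg : BM g) (k : ℕ)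
    (e : Fin k → Y → ℂ) (c : Fin k → ℂ)
    (he : ∀ i, BM (e i) ∧ ‖c i‖ = 1 ∧ (∀ᵐ y ∂m, e i (R y) = c i * e i y) ∧
      ∀ l : ℂ, IsEigenvalue m R l → l ^ p ≠ c i) (ε : ℝ) (hrε : l2 m r ≤ ε)
    (hdec : ∀ᵐ y ∂m, F y = r y + ∑ i, e i y + g y)
    (hbad : 2 * ε < ‖∫ z, F z.1 * conj (F z.2) ∂ρ‖) : ε ≤ qf σ g := by
  have hFB : BM F := ⟨hF, 1, hF1⟩
  have h1 : l2 m F ≤ 1 := l2_le_of_bound 1 zero_le_one (Eventually.of_forall hF1)
  have h2 : 2 * ε < qf σ F := by
    refine lt_of_lt_of_le hbad ((h.join F F hFB hFB).trans ?_)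
    calc l2 m F * qf σ F ≤ 1 * qf σ F := mul_le_mul_of_nonneg_right h1 (qf_nonneg _ _)
      _ = qf σ F := one_mul _
  have h3 : qf σ F = qf σ (fun y => r y + ∑ i, e i y + g y) := cb1_congr h.fst h.snd hdec
  have hsum : BM (fun y => ∑ i, e i y) := BM.sum _ fun i _ => (he i).1
  have h4 : qf σ (fun y => ∑ i, e i y) ≤ 0 := cb1_sum h k e (fun i => (he i).1)
    (fun i => (h.eig_zero (e i) (c i) (he i).1 (he i).2.1 (he i).2.2.1 (he i).2.2.2).1) _
  have h5 : qf σ (fun y => r y + ∑ i, e i y + g y) ≤ ε + qf σ g := by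
    refine (h.add _ _ (hr.add hsum) hg).trans ?_
    have h6 := h.add _ _ hr hsum
    have h7 := h.le_l2 r hr
    linarith
  linarith

end Pool.Agent.Lib.H22M
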