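import Pool.Agent.Lib.H22M.Defs

/-!
# Project H22M, chunk HL: functionals invariant under different prime powers of an isometry
-/

open Filter Topology Finset
open scoped ComplexConjugate InnerProductSpace

namespace Pool.Agent.Lib.H22M

section

variable {H : Type*} [NormedAddCommGroup H] [InnerProductSpace ℂ H] [CompleteSpace H]

omit [CompleteSpace H] in
theorem hl_inner (U : H →ₗᵢ[ℂ] H) (n : ℕ) (x y : H) : ⟪(⇑U)^[n] x, (⇑U)^[n] y⟫_ℂ = ⟪x, y⟫_ℂ := by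
  induction n with
  | zero => rfl
  | succ n ih => rw [Function.iterate_succ_apply', Function.iterate_succ_apply', U.inner_map_map, ih]

omit [CompleteSpace H] in
theorem hl_norm (U : H →ₗᵢ[ℂ] H) (n : ℕ) (x : H) : ‖(⇑U)^[n] x‖ = ‖x‖ := by
  induction n with
  | zero => rfl
  | succ n ih => rw [Function.iterate_succ_apply', U.norm_map, ih]

omit [CompleteSpace H] in
theorem hl_smul_sum (U : H →ₗᵢ[ℂ] H) (m : ℕ) (c : ℂ) (s : Finset ℕ) (f : ℕ → H) :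
    (⇑U)^[m] (c • ∑ j ∈ s, f j) = c • ∑ j ∈ s, (⇑U)^[m] (f j) := by
  induction m with
  | zero => rfl
  | succ m ih =>
    simp only [Function.iterate_succ_apply']
    rw [ih, map_smul, map_sum]

omit [CompleteSpace H] in
theorem hl_shift (U : H →ₗᵢ[ℂ] H) (q r : ℕ) (hqr : q.Coprime r) (x y : H)
    (hx : (⇑U)^[q] x = x) (hy : (⇑U)^[r] y = y) (j : ℕ) : ⟪(⇑U)^[j] x, y⟫_ℂ = ⟪x, y⟫_ℂ := by
  obtain ⟨n, hn1, hn2⟩ := Nat.chineseRemainder hqr j 0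
  have h1 : (⇑U)^[n] x = (⇑U)^[j] x := by
    have e1 := Function.IsPeriodicPt.iterate_mod_apply (f := ⇑U) (n := q) (x := x) hx n
    have e2 := Function.IsPeriodicPt.iterate_mod_apply (f := ⇑U) (n := q) (x := x) hx j
    rw [← e1, ← e2, hn1]
  have h2 : (⇑U)^[n] y = y := by
    have e1 := Function.IsPeriodicPt.iterate_mod_apply (f := ⇑U) (n := r) (x := y) hy n
    rw [← e1, hn2, Nat.zero_mod]
    rfl
  rw [← hl_inner U n x y, h1, h2]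

omit [CompleteSpace H] in
theorem hl_avg (U : H →ₗᵢ[ℂ] H) (q : ℕ) (hq : 1 ≤ q) (x y : H)
    (h : ∀ j, ⟪(⇑U)^[j] x, y⟫_ℂ = ⟪x, y⟫_ℂ) :
    ⟪(q : ℂ)⁻¹ • ∑ j ∈ range q, (⇑U)^[j] x, y⟫_ℂ = ⟪x, y⟫_ℂ := by
  have hq0 : (q : ℂ) ≠ 0 := by exact_mod_cast (show q ≠ 0 by omega)
  rw [inner_smul_left, sum_inner, Finset.sum_congr rfl fun j _ => h j, Finset.sum_const,
    Finset.card_range, nsmul_eq_mul, map_inv₀, Complex.conj_natCast, inv_mul_cancel_left₀ hq0]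

omit [CompleteSpace H] in
theorem hl_fix (U : H →ₗᵢ[ℂ] H) (r : ℕ) (y : H) (hy : (⇑U)^[r] y = y) :
    U ((r : ℂ)⁻¹ • ∑ j ∈ range r, (⇑U)^[j] y) = (r : ℂ)⁻¹ • ∑ j ∈ range r, (⇑U)^[j] y := by
  rw [map_smul, map_sum]
  congr 1
  have h1 := Finset.sum_range_succ' (fun j => (⇑U)^[j] y) r
  have h2 := Finset.sum_range_succ (fun j => (⇑U)^[j] y) r
  rw [h2, hy] at h1
  simp only [Function.iterate_zero, id] at h1
  have h3 := add_right_cancel h1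
  rw [h3]
  refine Finset.sum_congr rfl fun j _ => ?_
  rw [Function.iterate_succ_apply']

/-- Proof. Let `x₀ = (1/q) ∑_{j < q} U^j x`, `y₀ = (1/r) ∑_{j < r} U^j y`; then `U x₀ = x₀`
(as `U^q x = x`) and `U y₀ = y₀`. For every `j` there is `n ≥ 0` with `n ≡ 0 mod r` and `n ≡ j mod q`
(Chinese remainder), so `⟪x, y⟫ = ⟪U^n x, U^n y⟫ = ⟪U^j x, y⟫`. Averaging over `j < q`:
`⟪x, y⟫ = ⟪x₀, y⟫`. The same for `y₀` in place of `y` (it is fixed by `U`, hence by `U^r`):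
`⟪x, y₀⟫ = ⟪x₀, y₀⟫`. Subtract: `⟪x - x₀, y - y₀⟫ = 0`. -/
theorem inner_sub_average (U : H →ₗᵢ[ℂ] H) (q r : ℕ) (hq : 1 ≤ q) (hr : 1 ≤ r)
    (hqr : q.Coprime r) (x y : H) (hx : (⇑U)^[q] x = x) (hy : (⇑U)^[r] y = y) :
    ⟪x - (q : ℂ)⁻¹ • ∑ j ∈ range q, (⇑U)^[j] x, y - (r : ℂ)⁻¹ • ∑ j ∈ range r, (⇑U)^[j] y⟫_ℂ =
      0 := by
  have key : ∀ y' : H, (⇑U)^[r] y' = y' → ⟪x - (q : ℂ)⁻¹ • ∑ j ∈ range q, (⇑U)^[j] x, y'⟫_ℂ = 0 := by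
    intro y' hy'
    rw [inner_sub_left, hl_avg U q hq x y' fun j => hl_shift U q r hqr x y' hx hy' j, sub_self]
  have hy0 : (⇑U)^[r] ((r : ℂ)⁻¹ • ∑ j ∈ range r, (⇑U)^[j] y) =
      (r : ℂ)⁻¹ • ∑ j ∈ range r, (⇑U)^[j] y := by
    have h1 := hl_fix U r y hy
    exact Function.iterate_fixed h1 r
  rw [inner_sub_right, key y hy, key _ hy0, sub_zero]

/-- Proof. By the Riesz representation (`InnerProductSpace.toDual`) `ℓ q z = ⟪w_q, z⟫` with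
`‖w_q‖ = ‖ℓ q‖ ≤ C`. From `hinv`, `⟪w_q, U^q z⟫ = ⟪w_q, z⟫` for all `z`; with `z = w_q`:
`‖U^q w_q - w_q‖² = 2 ‖w_q‖² - 2 re ⟪w_q, U^q w_q⟫ = 0`, so `U^q w_q = w_q`. Let
`w_q⁰ = (1/q) ∑_{j < q} U^j w_q` and `w_q¹ = w_q - w_q⁰`. Then `U w_q⁰ = w_q⁰`, `‖w_q⁰‖ ≤ C`, and
`w_q¹ ⟂ w_q⁰` (`⟪w_q, w_q⁰⟫ = ⟪U^j w_q, w_q⁰⟫`, average) so `‖w_q¹‖ ≤ ‖w_q‖ ≤ C`. For distinct primes
`q, r` in `Q`, `⟪w_q¹, w_r¹⟫ = 0` by `inner_sub_average`. By Bessel's inequality (for the normalised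
nonzero `w_q¹`; `Orthonormal.sum_inner_products_le`) `∑_{q ∈ Q} |⟪w_q¹, v⟫|² ≤ C² ‖v‖²`. If
`|⟪w_q¹, v⟫| ≥ η/2` for all `q ∈ Q`, then `|Q| η²/4 ≤ C² ‖v‖²`, contrary to `hcard`. So for some `q`,
`|⟪w_q¹, v⟫| < η/2`, and `|⟪w_q⁰, v⟫| ≥ η/2`. Since `U w_q⁰ = w_q⁰` and `U` is an isometry,
`⟪w_q⁰, U^n v⟫ = ⟪U^n w_q⁰, U^n v⟫ = ⟪w_q⁰, v⟫` for all `n`, so
`N |⟪w_q⁰, v⟫| = |⟪w_q⁰, ∑_{n < N} U^n v⟫| ≤ C ‖∑_{n < N} U^n v‖`. -/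
theorem hilbert_bad (U : H →ₗᵢ[ℂ] H) (v : H) (C η : ℝ) (hC : 0 < C) (hη : 0 < η)
    (Q : Finset ℕ) (hQ : ∀ q ∈ Q, q.Prime) (l : ℕ → (H →L[ℂ] ℂ)) (hl : ∀ q ∈ Q, ‖l q‖ ≤ C)
    (hinv : ∀ q ∈ Q, ∀ z, l q ((⇑U)^[q] z) = l q z) (hv : ∀ q ∈ Q, η ≤ ‖l q v‖)
    (hcard : 4 * C ^ 2 * ‖v‖ ^ 2 / η ^ 2 < Q.card) (N : ℕ) :
    η * N / (2 * C) ≤ ‖∑ n ∈ range N, (⇑U)^[n] v‖ := by
  set w : ℕ → H := fun q => (InnerProductSpace.toDual ℂ H).symm (l q) with hw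
  have hwl : ∀ q z, ⟪w q, z⟫_ℂ = l q z := fun q z => InnerProductSpace.toDual_symm_apply
  have hwn : ∀ q ∈ Q, ‖w q‖ ≤ C := fun q hq => by
    rw [hw]
    simp only [LinearIsometryEquiv.norm_map]
    exact hl q hq
  have hwU : ∀ q ∈ Q, (⇑U)^[q] (w q) = w q := by
    intro q hq
    have h1 : ⟪w q, (⇑U)^[q] (w q)⟫_ℂ = ⟪w q, w q⟫_ℂ := by rw [hwl, hwl, hinv q hq]
    have h2 : ⟪(⇑U)^[q] (w q), w q⟫_ℂ = ⟪w q, w q⟫_ℂ := by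
      rw [← inner_conj_symm, h1, inner_conj_symm]
    rw [← sub_eq_zero, ← inner_self_eq_zero (𝕜 := ℂ), inner_sub_left, inner_sub_right, inner_sub_right,
      hl_inner, h1, h2, sub_self]
  set w0 : ℕ → H := fun q => (q : ℂ)⁻¹ • ∑ j ∈ range q, (⇑U)^[j] (w q) with hw0
  have hw0U : ∀ q ∈ Q, U (w0 q) = w0 q := fun q hq => hl_fix U q (w q) (hwU q hq)
  have hq1 : ∀ q ∈ Q, 1 ≤ q := fun q hq => (hQ q hq).one_le
  have hw0n : ∀ q ∈ Q, ‖w0 q‖ ≤ ‖w q‖ := by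
    intro q hq
    have hq' : (0 : ℝ) < q := by exact_mod_cast hq1 q hq
    rw [hw0]
    simp only
    rw [norm_smul, norm_inv, Complex.norm_natCast, inv_mul_le_iff₀ hq']
    refine (norm_sum_le _ _).trans ?_
    rw [Finset.sum_congr rfl fun j _ => hl_norm U j (w q), Finset.sum_const, Finset.card_range,
      nsmul_eq_mul]
  have horth0 : ∀ q ∈ Q, ⟪w0 q, w0 q⟫_ℂ = ⟪w q, w0 q⟫_ℂ := by
    intro q hq
    refine hl_avg U q (hq1 q hq) (w q) (w0 q) fun j => ?_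
    have h1 : (⇑U)^[j] (w0 q) = w0 q := Function.iterate_fixed (hw0U q hq) j
    conv_lhs => rw [← h1]
    rw [hl_inner]
  set w1 : ℕ → H := fun q => w q - w0 q with hw1
  have hw1n : ∀ q ∈ Q, ‖w1 q‖ ≤ C := by
    intro q hq
    refine le_trans ?_ (hwn q hq)
    have h1 : ‖w1 q‖ ^ 2 = ‖w q‖ ^ 2 - ‖w0 q‖ ^ 2 := by
      rw [hw1]
      simp only
      rw [@norm_sub_sq ℂ, ← horth0 q hq, inner_self_eq_norm_sq_to_K]
      norm_cast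
      ring
    nlinarith [norm_nonneg (w1 q), norm_nonneg (w q), norm_nonneg (w0 q), sq_nonneg ‖w0 q‖]
  have hort : ∀ q ∈ Q, ∀ r ∈ Q, q ≠ r → ⟪w1 q, w1 r⟫_ℂ = 0 := by
    intro q hq r hr hne
    exact inner_sub_average U q r (hq1 q hq) (hq1 r hr) ((Nat.coprime_primes (hQ q hq) (hQ r hr)).2 hne)
      (w q) (w r) (hwU q hq) (hwU r hr)
  obtain ⟨q, hq, hlt⟩ : ∃ q ∈ Q, ‖⟪w1 q, v⟫_ℂ‖ < η / 2 := by
    by_contra hcon
    push Not at hcon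
    have hne : ∀ q ∈ Q, w1 q ≠ 0 := by
      intro q hq h0
      have := hcon q hq
      rw [h0, inner_zero_left, norm_zero] at this
      linarith
    have hnorm : ∀ q ∈ Q, ‖w1 q‖ ≠ 0 := fun q hq => norm_ne_zero_iff.2 (hne q hq)
    have hon : Orthonormal ℂ (fun q : Q => ((‖w1 q‖⁻¹ : ℝ) : ℂ) • w1 q) := by
      constructor
      · intro q
        rw [norm_smul, Complex.norm_real, norm_inv, norm_norm, inv_mul_cancel₀ (hnorm q q.2)]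
      · intro q r hqr
        simp only
        rw [inner_smul_left, inner_smul_right, hort q q.2 r r.2 (fun h => hqr (Subtype.ext h)), mul_zero,
          mul_zero]
    have hB := hon.sum_inner_products_le v (s := Finset.univ)
    have hterm : ∀ q ∈ Q, (η / 2) ^ 2 / C ^ 2 ≤ ‖⟪((‖w1 q‖⁻¹ : ℝ) : ℂ) • w1 q, v⟫_ℂ‖ ^ 2 := by
      intro q hq
      rw [inner_smul_left, norm_mul, RCLike.norm_conj, Complex.norm_real, norm_inv, norm_norm, mul_pow,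
        inv_pow, div_eq_inv_mul]
      have h1 := hcon q hq
      have h2 := hw1n q hq
      have h3 : 0 < ‖w1 q‖ := norm_pos_iff.2 (hne q hq)
      gcongr
    have hsum : (Q.card : ℝ) * ((η / 2) ^ 2 / C ^ 2) ≤ ‖v‖ ^ 2 := by
      refine le_trans ?_ hB
      have h1 : ∑ q : Q, (η / 2) ^ 2 / C ^ 2 ≤
          ∑ q : Q, ‖⟪((‖w1 q‖⁻¹ : ℝ) : ℂ) • w1 q, v⟫_ℂ‖ ^ 2 :=
        Finset.sum_le_sum fun q _ => hterm q q.2
      rw [Finset.sum_const, Finset.card_univ, Fintype.card_coe, nsmul_eq_mul] at h1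
      exact h1
    rw [div_lt_iff₀ (by positivity)] at hcard
    have h4 : (Q.card : ℝ) * η ^ 2 ≤ 4 * C ^ 2 * ‖v‖ ^ 2 := by
      have h5 : (Q.card : ℝ) * ((η / 2) ^ 2 / C ^ 2) * (4 * C ^ 2) ≤ ‖v‖ ^ 2 * (4 * C ^ 2) :=
        mul_le_mul_of_nonneg_right hsum (by positivity)
      have h6 : (Q.card : ℝ) * ((η / 2) ^ 2 / C ^ 2) * (4 * C ^ 2) = (Q.card : ℝ) * η ^ 2 := by
        field_simp
        ring
      rw [h6] at h5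
      linarith
    linarith
  have hbig : η / 2 ≤ ‖⟪w0 q, v⟫_ℂ‖ := by
    have h1 : ⟪w q, v⟫_ℂ = ⟪w1 q, v⟫_ℂ + ⟪w0 q, v⟫_ℂ := by
      rw [← inner_add_left, hw1]
      simp
    have h2 := hv q hq
    rw [← hwl, h1] at h2
    have h3 := norm_add_le (⟪w1 q, v⟫_ℂ) (⟪w0 q, v⟫_ℂ)
    linarith
  have hinner : ⟪w0 q, ∑ n ∈ range N, (⇑U)^[n] v⟫_ℂ = N * ⟪w0 q, v⟫_ℂ := by
    rw [inner_sum]
    have h1 : ∀ n ∈ range N, ⟪w0 q, (⇑U)^[n] v⟫_ℂ = ⟪w0 q, v⟫_ℂ := by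
      intro n _
      have h2 : (⇑U)^[n] (w0 q) = w0 q := Function.iterate_fixed (hw0U q hq) n
      conv_lhs => rw [← h2]
      rw [hl_inner]
    rw [Finset.sum_congr rfl h1, Finset.sum_const, Finset.card_range, nsmul_eq_mul]
  have h1 := norm_inner_le_norm (𝕜 := ℂ) (w0 q) (∑ n ∈ range N, (⇑U)^[n] v)
  rw [hinner, norm_mul, Complex.norm_natCast] at h1
  have h2 : ‖w0 q‖ ≤ C := (hw0n q hq).trans (hwn q hq)
  have h3 : (N : ℝ) * (η / 2) ≤ C * ‖∑ n ∈ range N, (⇑U)^[n] v‖ := by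
    calc (N : ℝ) * (η / 2) ≤ N * ‖⟪w0 q, v⟫_ℂ‖ := by gcongr
      _ ≤ ‖w0 q‖ * ‖∑ n ∈ range N, (⇑U)^[n] v‖ := h1
      _ ≤ _ := by gcongr
  rw [div_le_iff₀ (by positivity)]
  linarith

end

end Pool.Agent.Lib.H22M
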