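import Pool.Agent.Lib.H22M.Defs

/-!
# Project H22M, chunk LQ: the functional of a relative square
-/

open MeasureTheory Filter Topology Finset
open scoped ComplexConjugate

namespace Pool.Agent.Lib.H22M

section

variable {Z K M : Type*} [CommGroup Z] [MeasurableSpace Z] [SMul K M] [MeasurableSpace K]
  [TopologicalSpace M] [MeasurableSpace M] [BorelSpace M]

/-- The integrand of the functional. -/
def lqPhi {n : ℕ} (G : Fin n → M → ℂ) (c : Z × Z → EuclideanSpace ℂ (Fin n × Fin n))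
    (z : (Z × M) × (Z × M)) : ℂ :=
  ∑ k, c (z.1.1, z.2.1) k * (G k.1 z.1.2 * conj (G k.2 z.2.2))

omit [CommGroup Z] [MeasurableSpace Z] [TopologicalSpace M] [MeasurableSpace M] [BorelSpace M] in
theorem lq_sum_sq {n : ℕ} (G : Fin n → M → ℂ) (u u' : M) :
    ∑ k : Fin n × Fin n, ‖G k.1 u * conj (G k.2 u')‖ ^ 2 =
      (∑ i, ‖G i u‖ ^ 2) * ∑ i, ‖G i u'‖ ^ 2 := by
  rw [Fintype.sum_prod_type, Finset.sum_mul_sum]
  refine Finset.sum_congr rfl fun i _ => Finset.sum_congr rfl fun j _ => ?_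
  rw [norm_mul, RCLike.norm_conj, mul_pow]

omit [CommGroup Z] [MeasurableSpace Z] [TopologicalSpace M] [MeasurableSpace M] [BorelSpace M] in
theorem lq_bound {n : ℕ} (G : Fin n → M → ℂ) (c : Z × Z → EuclideanSpace ℂ (Fin n × Fin n))
    (B : ℝ) (hB0 : 0 ≤ B) (hB : ∀ u : M, ∑ i, ‖G i u‖ ^ 2 ≤ B) (z : (Z × M) × (Z × M)) :
    ‖lqPhi G c z‖ ≤ B * ‖c (z.1.1, z.2.1)‖ := by
  unfold lqPhi
  have h1 : ‖∑ k, c (z.1.1, z.2.1) k * (G k.1 z.1.2 * conj (G k.2 z.2.2))‖ ≤
      ∑ k, ‖c (z.1.1, z.2.1) k‖ * ‖G k.1 z.1.2 * conj (G k.2 z.2.2)‖ := by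
    refine (norm_sum_le _ _).trans (Finset.sum_le_sum fun k _ => ?_)
    rw [norm_mul]
  refine h1.trans ?_
  have h2 : ∑ k, ‖c (z.1.1, z.2.1) k‖ * ‖G k.1 z.1.2 * conj (G k.2 z.2.2)‖ ≤
      Real.sqrt (∑ k, ‖c (z.1.1, z.2.1) k‖ ^ 2) *
        Real.sqrt (∑ k : Fin n × Fin n, ‖G k.1 z.1.2 * conj (G k.2 z.2.2)‖ ^ 2) :=
    Real.sum_mul_le_sqrt_mul_sqrt _ _ _
  refine h2.trans ?_
  rw [← EuclideanSpace.norm_eq, lq_sum_sq, mul_comm]
  refine mul_le_mul_of_nonneg_right ?_ (norm_nonneg _)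
  rw [Real.sqrt_le_left hB0, sq]
  exact mul_le_mul (hB _) (hB _) (Finset.sum_nonneg fun _ _ => by positivity) hB0

omit [CommGroup Z] in
theorem lq_meas {n : ℕ} (G : Fin n → M → ℂ) (hG : ∀ i, Continuous (G i))
    (c : Z × Z → EuclideanSpace ℂ (Fin n × Fin n)) (hc : Measurable c) :
    Measurable (lqPhi G c) := by
  unfold lqPhi
  refine Finset.measurable_sum _ fun k _ => ?_
  have h1 : Measurable fun z : (Z × M) × (Z × M) => (z.1.1, z.2.1) :=
    (measurable_fst.comp measurable_fst).prodMk (measurable_fst.comp measurable_snd)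
  have h2 : Measurable fun z : (Z × M) × (Z × M) => c (z.1.1, z.2.1) k := by
    have h3 : Measurable fun v : EuclideanSpace ℂ (Fin n × Fin n) => v k := by
      have h4 : Continuous fun v : EuclideanSpace ℂ (Fin n × Fin n) => v k := by fun_prop
      exact h4.measurable
    exact h3.comp (hc.comp h1)
  have h5 : Measurable fun z : (Z × M) × (Z × M) => G k.1 z.1.2 :=
    (hG k.1).measurable.comp (measurable_snd.comp measurable_fst)
  have h6 : Measurable fun z : (Z × M) × (Z × M) => conj (G k.2 z.2.2) :=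
    Complex.continuous_conj.measurable.comp
      ((hG k.2).measurable.comp (measurable_snd.comp measurable_snd))
  exact h2.mul (h5.mul h6)

omit [MeasurableSpace Z] [BorelSpace M] in
theorem lq_step (α : Z) (φ : Z → K) {muM : Measure M} {n : ℕ}
    {G : Fin n → M → ℂ} {D : K → Fin n → Fin n → ℂ} (hft : FTD muM G D)
    (c c' : Z × Z → EuclideanSpace ℂ (Fin n × Fin n)) (z : (Z × M) × (Z × M))
    (h : ∀ l, c' (z.1.1, z.2.1) l =
      ∑ k, WW φ D (z.1.1, z.2.1) k l * c (α * z.1.1, α * z.2.1) k) :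
    lqPhi G c' z = lqPhi G c (Prod.map (skew (M := M) α φ) (skew (M := M) α φ) z) := by
  unfold lqPhi
  simp only [h, Finset.sum_mul]
  rw [Finset.sum_comm]
  refine Finset.sum_congr rfl fun k _ => ?_
  simp only [Prod.map_fst, Prod.map_snd, skew, WW, hft.rel, map_sum, map_mul]
  rw [Fintype.sum_prod_type, Finset.sum_mul_sum, Finset.mul_sum]
  refine Finset.sum_congr rfl fun i _ => ?_
  rw [Finset.mul_sum]
  refine Finset.sum_congr rfl fun j _ => ?_
  ring

/-- Proof. Let `π = Prod.map fst fst : (Z × M)² → Z × Z`, so `σ.map π = sZ`. For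
`c ∈ H = Lp (EuclideanSpace ℂ (Fin n × Fin n)) 2 sZ` put
`Φ_c (y, y') = ∑_k c (π (y, y')) k * (G k.1 y.2 * conj (G k.2 y'.2))`. By Cauchy–Schwarz in
`ℂ^(n×n)`: `|Φ_c (y, y')| ≤ ‖c (π (y, y'))‖ (∑_i ‖G i y.2‖²)^(1/2) (∑_i ‖G i y'.2‖²)^(1/2)
≤ B ‖c (π (y, y'))‖`. So `Φ_c` is integrable and
`|∫ Φ_c dσ| ≤ B ∫ ‖c‖ dsZ ≤ B ‖c‖_{L²(sZ)}` (`sZ` is a probability measure). Hence
`l c = ∫ Φ_c dσ` defines a continuous linear functional with `‖l‖ ≤ B`
(`LinearMap.mkContinuous`; linearity from almost everywhere linearity of the classes, pulled back by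
`π`). Invariance: let `R = skew α φ`. From `hU` and `WW`, for `σ`-almost every `(y, y')`:
`Φ_{U c} (y, y') = ∑_l ∑_k D(φ y.1)_{k1 l1} conj(D(φ y'.1)_{k2 l2}) c (α y.1, α y'.1)_k G_{l1}(y.2)
conj(G_{l2}(y'.2)) = ∑_k c (π (R y, R y'))_k G_{k1}(φ(y.1) y.2) conj (G_{k2}(φ(y'.1) y'.2))
= Φ_c (R y, R y')` by `hft.rel`. Iterating `q` times, `Φ_{U^q c} = Φ_c ∘ (R^q × R^q)` almost everywhere
(at each step replace `c` by `U c`; the identity `Φ_{U^(j+1) c} = Φ_{U (U^j c)}`; in the induction use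
that the maps `(z, z') ↦ (α z, α z')` preserve `sZ` and that the identity holds almost everywhere: the
exceptional set `E` of the step is `π⁻¹` of an `sZ`-null set `E'`, and its preimages under `R^j × R^j`
are `π⁻¹` of the preimage of `E'` under the translation by `(α^j, α^j)`, which is `sZ`-null by `hτ`). So
`l (U^q c) = ∫ Φ_c ∘ (R^q × R^q) dσ = ∫ Φ_c dσ = l c` by `hinv`. -/
theorem exists_functional (α : Z) (φ : Z → K) (hφ : Measurable φ) {muM : Measure M} {n : ℕ}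
    {G : Fin n → M → ℂ} {D : K → Fin n → Fin n → ℂ} (hft : FTD muM G D)
    (σ : Measure ((Z × M) × (Z × M))) [IsProbabilityMeasure σ] (q : ℕ)
    (hinv : MeasurePreserving (Prod.map ((skew (M := M) α φ)^[q]) ((skew (M := M) α φ)^[q])) σ σ)
    (sZ : Measure (Z × Z))
    (hs : σ.map (Prod.map (Prod.fst : Z × M → Z) (Prod.fst : Z × M → Z)) = sZ)
    (hτ : MeasurePreserving (fun w : Z × Z => (α * w.1, α * w.2)) sZ sZ)
    (U : Lp (EuclideanSpace ℂ (Fin n × Fin n)) 2 sZ →ₗᵢ[ℂ]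
      Lp (EuclideanSpace ℂ (Fin n × Fin n)) 2 sZ)
    (hU : IsTwist sZ (fun w : Z × Z => (α * w.1, α * w.2)) (WW φ D) U) (B : ℝ)
    (hB : ∀ u : M, ∑ i, ‖G i u‖ ^ 2 ≤ B) (hR : Measurable (skew (M := M) α φ)) :
    ∃ l : Lp (EuclideanSpace ℂ (Fin n × Fin n)) 2 sZ →L[ℂ] ℂ, ‖l‖ ≤ B ∧
      (∀ c, l ((⇑U)^[q] c) = l c) ∧
      ∀ c, l c = ∫ z, ∑ k, c (z.1.1, z.2.1) k * (G k.1 z.1.2 * conj (G k.2 z.2.2)) ∂σ := by
  classical
  set πm : (Z × M) × (Z × M) → Z × Z := Prod.map (Prod.fst : Z × M → Z) (Prod.fst : Z × M → Z)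
    with hπ
  have hπm : Measurable πm := measurable_fst.prodMap measurable_fst
  haveI : IsProbabilityMeasure sZ := by
    rw [← hs]
    exact Measure.isProbabilityMeasure_map hπm.aemeasurable
  obtain ⟨z0⟩ : Nonempty ((Z × M) × (Z × M)) := nonempty_of_isProbabilityMeasure σ
  have hB0 : 0 ≤ B := le_trans (Finset.sum_nonneg fun _ _ => by positivity) (hB z0.1.2)
  have hpull : ∀ {P : Z × Z → Prop}, (∀ᵐ w ∂sZ, P w) → ∀ᵐ z ∂σ, P (z.1.1, z.2.1) := by
    intro P hP
    rw [← hs] at hP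
    exact ae_of_ae_map hπm.aemeasurable hP
  have hmeas : ∀ c : Lp (EuclideanSpace ℂ (Fin n × Fin n)) 2 sZ, Measurable (lqPhi G (⇑c)) :=
    fun c => lq_meas G hft.cont _ (Lp.stronglyMeasurable c).measurable
  have hint0 : ∀ c : Lp (EuclideanSpace ℂ (Fin n × Fin n)) 2 sZ, Integrable (⇑c) sZ :=
    fun c => (Lp.memLp c).integrable (by norm_num)
  have hint1 : ∀ c : Lp (EuclideanSpace ℂ (Fin n × Fin n)) 2 sZ,
      Integrable (fun z : (Z × M) × (Z × M) => ‖c (z.1.1, z.2.1)‖) σ := by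
    intro c
    have h1 : Integrable (fun w => ‖c w‖) (σ.map πm) := by
      rw [hs]
      exact (hint0 c).norm
    exact h1.comp_measurable hπm
  have hint : ∀ c : Lp (EuclideanSpace ℂ (Fin n × Fin n)) 2 sZ, Integrable (lqPhi G (⇑c)) σ := by
    intro c
    refine ((hint1 c).const_mul B).mono' (hmeas c).aestronglyMeasurable
      (Eventually.of_forall fun z => ?_)
    exact lq_bound G (⇑c) B hB0 hB z
  have hnorm : ∀ c : Lp (EuclideanSpace ℂ (Fin n × Fin n)) 2 sZ,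
      ‖∫ z, lqPhi G (⇑c) z ∂σ‖ ≤ B * ‖c‖ := by
    intro c
    have h1 : ‖∫ z, lqPhi G (⇑c) z ∂σ‖ ≤
        ∫ z : (Z × M) × (Z × M), B * ‖c (z.1.1, z.2.1)‖ ∂σ := by
      refine norm_integral_le_of_norm_le ((hint1 c).const_mul B)
        (Eventually.of_forall fun z => ?_)
      exact lq_bound G (⇑c) B hB0 hB z
    refine h1.trans ?_
    rw [integral_const_mul]
    refine mul_le_mul_of_nonneg_left ?_ hB0
    have h2' : ∀ f : Z × Z → ℝ, AEStronglyMeasurable f sZ →
        ∫ z : (Z × M) × (Z × M), f (z.1.1, z.2.1) ∂σ = ∫ w, f w ∂sZ := by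
      intro f hf
      rw [← hs] at hf ⊢
      exact (integral_map hπm.aemeasurable hf).symm
    have h2 : ∫ z : (Z × M) × (Z × M), ‖c (z.1.1, z.2.1)‖ ∂σ = ∫ w, ‖c w‖ ∂sZ :=
      h2' (fun w => ‖c w‖) (Lp.stronglyMeasurable c).norm.aestronglyMeasurable
    rw [h2, Lp.norm_def, integral_norm_eq_lintegral_enorm (Lp.aestronglyMeasurable c),
      ← eLpNorm_one_eq_lintegral_enorm]
    refine ENNReal.toReal_mono (Lp.eLpNorm_ne_top c) ?_
    exact eLpNorm_le_eLpNorm_of_exponent_le (by norm_num) (Lp.aestronglyMeasurable c)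
  let l0 : Lp (EuclideanSpace ℂ (Fin n × Fin n)) 2 sZ →ₗ[ℂ] ℂ :=
    { toFun := fun c => ∫ z, lqPhi G (⇑c) z ∂σ
      map_add' := by
        intro c d
        rw [← integral_add (hint c) (hint d)]
        refine integral_congr_ae ?_
        filter_upwards [hpull (Lp.coeFn_add c d)] with z hz
        unfold lqPhi
        rw [← Finset.sum_add_distrib]
        refine Finset.sum_congr rfl fun k _ => ?_
        rw [hz, Pi.add_apply, PiLp.add_apply]
        ring
      map_smul' := by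
        intro a c
        rw [RingHom.id_apply, smul_eq_mul, ← integral_const_mul]
        refine integral_congr_ae ?_
        filter_upwards [hpull (Lp.coeFn_smul a c)] with z hz
        unfold lqPhi
        rw [Finset.mul_sum]
        refine Finset.sum_congr rfl fun k _ => ?_
        rw [hz, Pi.smul_apply, PiLp.smul_apply, smul_eq_mul]
        ring }
  have key : ∀ (j : ℕ) (c : Lp (EuclideanSpace ℂ (Fin n × Fin n)) 2 sZ), ∀ᵐ w ∂sZ,
      ∀ z : (Z × M) × (Z × M), πm z = w → lqPhi G (⇑((⇑U)^[j] c)) z =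
        lqPhi G (⇑c) ((Prod.map (skew (M := M) α φ) (skew (M := M) α φ))^[j] z) := by
    intro j
    induction j with
    | zero => exact fun c => Eventually.of_forall fun w z _ => rfl
    | succ j ih =>
      intro c
      have h1 := hU ((⇑U)^[j] c)
      have h2 := hτ.quasiMeasurePreserving.ae (ih c)
      filter_upwards [h1, h2] with w h3 h4 z hz
      rw [Function.iterate_succ_apply', Function.iterate_succ_apply]
      have h5 : πm (Prod.map (skew (M := M) α φ) (skew (M := M) α φ) z) =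
          (α * w.1, α * w.2) := by
        rw [← hz]
        rfl
      rw [← h4 _ h5]
      apply lq_step α φ hft
      intro l
      have h6 := h3 l
      rw [← hz] at h6
      exact h6
  refine ⟨l0.mkContinuous B hnorm, l0.mkContinuous_norm_le hB0 hnorm, fun c => ?_, fun c => rfl⟩
  show ∫ z, lqPhi G (⇑((⇑U)^[q] c)) z ∂σ = ∫ z, lqPhi G (⇑c) z ∂σ
  have h1 : ∫ z, lqPhi G (⇑((⇑U)^[q] c)) z ∂σ =
      ∫ z, lqPhi G (⇑c) (Prod.map ((skew (M := M) α φ)^[q]) ((skew (M := M) α φ)^[q]) z) ∂σ := by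
    refine integral_congr_ae ?_
    filter_upwards [hpull (key q c)] with z hz
    rw [hz z rfl, Prod.map_iterate]
  rw [h1]
  conv_rhs => rw [← hinv.map_eq]
  rw [integral_map hinv.measurable.aemeasurable (hmeas c).aestronglyMeasurable]


end

end Pool.Agent.Lib.H22M
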