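import Pool.Agent.Lib.H22M.TW
import Pool.Agent.Lib.H22M.VN
import Pool.Agent.Lib.H22M.SZ
import Pool.Agent.Lib.H22M.HL
import Pool.Agent.Lib.H22M.LQ

/-!
# Project H22M, chunk CB2: too many bad primes are impossible
-/

open MeasureTheory Filter Topology Finset
open scoped ComplexConjugate

namespace Pool.Agent.Lib.H22M

theorem cb2_WW {Z K : Type*} {n : ℕ} (φ : Z → K) (D : K → Fin n → Fin n → ℂ)
    (hu : ∀ k i i', ∑ j, D k i j * conj (D k i' j) = if i = i' then 1 else 0)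
    (w : Z × Z) (k k' : Fin n × Fin n) :
    ∑ l, WW φ D w k l * conj (WW φ D w k' l) = if k = k' then 1 else 0 := by
  have h1 : ∀ l : Fin n × Fin n, WW φ D w k l * conj (WW φ D w k' l) =
      (D (φ w.1) k.1 l.1 * conj (D (φ w.1) k'.1 l.1)) *
        conj (D (φ w.2) k.2 l.2 * conj (D (φ w.2) k'.2 l.2)) := by
    intro l
    unfold WW
    simp only [map_mul, Complex.conj_conj]
    ring
  rw [Finset.sum_congr rfl fun l _ => h1 l, Fintype.sum_prod_type,
    ← Finset.sum_mul_sum Finset.univ Finset.univ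
      (fun i => D (φ w.1) k.1 i * conj (D (φ w.1) k'.1 i))
      (fun j => conj (D (φ w.2) k.2 j * conj (D (φ w.2) k'.2 j))), ← map_sum, hu, hu]
  by_cases h1 : k.1 = k'.1
  · by_cases h2 : k.2 = k'.2
    · have : k = k' := Prod.ext h1 h2
      simp [this]
    · have : k ≠ k' := fun h => h2 (by rw [h])
      simp [this, h2]
  · have : k ≠ k' := fun h => h1 (by rw [h])
    simp [this, h1]

section

variable {Z K M : Type*} [CommGroup Z] [TopologicalSpace Z] [IsTopologicalGroup Z]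
  [CompactSpace Z] [T2Space Z] [SecondCountableTopology Z] [MeasurableSpace Z] [BorelSpace Z]
  [Group K] [TopologicalSpace K] [IsTopologicalGroup K] [CompactSpace K] [T2Space K]
  [SecondCountableTopology K] [MeasurableSpace K] [BorelSpace K]
  [TopologicalSpace M] [CompactSpace M] [T2Space M] [SecondCountableTopology M]
  [MeasurableSpace M] [BorelSpace M] [MulAction K M] [ContinuousSMul K M]
  (lam : Measure Z) [lam.IsHaarMeasure] [IsProbabilityMeasure lam]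
  (muM : Measure M) [IsProbabilityMeasure muM]

/-- Let `m = lam.prod muM`, `R = skew α φ`. Proof. `Q` is not empty (`hcard`); fix `q₀ ∈ Q` and let
`sZ = (σ q₀).map (Prod.map fst fst)`; by `sigmaZ_unique` all `q ∈ Q` give the same `sZ`. It is a
probability measure with marginals `lam` (`sigmaZ_marginals`), invariant under
`τ w = (α w.1, α w.2)` (`sigmaZ_invariant`), and for `χ ∈ Φ` the integrals in `hlast` vanish by
`sigmaZ_integral`, since `χ(α)` is not a `p`-th power of an eigenvalue (`hΦ`; write `conj χ' = χ'⁻¹`;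
in the second integral the character `χ'` with `χ' χ⁻¹ = 1` is `χ`). Let `U` be from `exists_twist` for
`sZ, τ, WW φ D` (the unitarity of `WW` from `hft.unit`: the sum over `l = (l1, l2)` factors), `v` from
`exists_vector`, `‖v‖ ≤ n C²`, and `l_q` from `exists_functional` for `σ q`, `‖l_q‖ ≤ B`
(`R` is measurable by `hR`). Here
`l_q v = ∫ ∑_k b_{k1}(z.1.1) conj (b_{k2}(z.2.1)) G_{k1}(z.1.2) conj (G_{k2}(z.2.2)) dσ_q
= ∫ ft G b (z.1) conj (ft G b (z.2)) dσ_q = (qf (σ q) (ft G b))²` by `RelSq.sq`, of modulus at least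
`ε²`. By `hilbert_bad` with `η = ε²`, constant `B`: `ε² N/(2 B) ≤ ‖∑_{i < N} U^i v‖`, but by
`exists_vector` and `hlast`, `‖∑_{i < N} U^i v‖² ≤ (ε² N/(4 B))²`. As `N ≥ 1` this is a contradiction. -/
theorem not_all_bad (α : Z) (φ : Z → K) (hφ : Measurable φ)
    (hR : Measurable (skew (M := M) α φ)) {n : ℕ} {G : Fin n → M → ℂ}
    {D : K → Fin n → Fin n → ℂ} (hft : FTD muM G D) (b : Fin n → Z → ℂ) (hb : ∀ i, BM (b i))
    (C : ℝ) (hC : ∀ i z, ‖b i z‖ ≤ C) (B : ℝ) (hB0 : 0 < B) (hB : ∀ u, ∑ i, ‖G i u‖ ^ 2 ≤ B)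
    (p : ℕ) (Q : Finset ℕ) (hQ : ∀ q ∈ Q, q.Prime) (ε : ℝ) (hε : 0 < ε)
    (hcard : 4 * B ^ 2 * (n * C ^ 2) ^ 2 / (ε ^ 2) ^ 2 < Q.card)
    (ρ σ : ℕ → Measure ((Z × M) × (Z × M)))
    (hσ : ∀ q ∈ Q, RelSq (lam.prod muM) (skew α φ) p q (ρ q) (σ q))
    (hbad : ∀ q ∈ Q, ε ≤ qf (σ q) (ft G b)) (N : ℕ) (hN : 1 ≤ N)
    (Φ : Finset (PontryaginDual Z))
    (hΦ : ∀ χ ∈ Φ, ∀ l : ℂ, IsEigenvalue (lam.prod muM) (skew (M := M) α φ) l →
      l ^ p ≠ ((χ α : Circle) : ℂ))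
    (hlast : ∀ s : Measure (Z × Z), IsProbabilityMeasure s → s.map Prod.fst = lam →
        s.map Prod.snd = lam →
        (∀ χ ∈ Φ, ∀ χ' : PontryaginDual Z,
          ∫ w, ((χ w.1 : Circle) : ℂ) * conj ((χ' w.2 : Circle) : ℂ) ∂s = 0 ∧
          ∫ w, ((χ' w.1 : Circle) : ℂ) * conj ((χ w.2 : Circle) : ℂ) ∂s = 0) →
        ∑ i ∈ range N, ∑ j ∈ range N,
          ‖∫ w, (∑ k, ((evo α φ D)^[i] b) k w.1 * conj (((evo α φ D)^[j] b) k w.1)) *
            conj (∑ k, ((evo α φ D)^[i] b) k w.2 * conj (((evo α φ D)^[j] b) k w.2)) ∂s‖ ≤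
          (ε ^ 2 * N / (4 * B)) ^ 2) : False := by
  have hne : Q.Nonempty := by
    rw [← Finset.card_pos]
    have h0 : (0 : ℝ) ≤ 4 * B ^ 2 * (n * C ^ 2) ^ 2 / (ε ^ 2) ^ 2 := by positivity
    exact_mod_cast lt_of_le_of_lt h0 hcard
  obtain ⟨q₀, hq₀⟩ := hne
  obtain ⟨sZ, hsZ⟩ : ∃ sZ, sZ = (σ q₀).map (Prod.map (Prod.fst : Z × M → Z) (Prod.fst : Z × M → Z)) :=
    ⟨_, rfl⟩
  have hsq : ∀ q ∈ Q, (σ q).map (Prod.map (Prod.fst : Z × M → Z) (Prod.fst : Z × M → Z)) = sZ := by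
    intro q hq
    rw [hsZ]
    exact sigmaZ_unique lam muM α φ p q q₀ (ρ q) (σ q) (ρ q₀) (σ q₀) (hσ q hq) (hσ q₀ hq₀)
  have hπ : Measurable (Prod.map (Prod.fst : Z × M → Z) (Prod.fst : Z × M → Z)) :=
    measurable_fst.prodMap measurable_fst
  have hprob : IsProbabilityMeasure sZ := by
    have := (hσ q₀ hq₀).prob
    rw [hsZ]
    exact Measure.isProbabilityMeasure_map hπ.aemeasurable
  have hmarg := sigmaZ_marginals lam muM α φ p q₀ (ρ q₀) (σ q₀) (hσ q₀ hq₀)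
  rw [← hsZ] at hmarg
  have hτ : MeasurePreserving (fun w : Z × Z => (α * w.1, α * w.2)) sZ sZ := by
    have := sigmaZ_invariant lam muM α φ p q₀ (ρ q₀) (σ q₀) (hσ q₀ hq₀)
    rwa [← hsZ] at this
  have hint := sigmaZ_integral lam muM α φ p q₀ (ρ q₀) (σ q₀) (hσ q₀ hq₀)
  rw [← hsZ] at hint
  have hconj : ∀ (χ : PontryaginDual Z) (z : Z), conj ((χ z : Circle) : ℂ) =
      (((χ⁻¹ : PontryaginDual Z) z : Circle) : ℂ) := by
    intro χ z
    have h1 : ((χ⁻¹ : PontryaginDual Z) z : Circle) = (χ z)⁻¹ := rfl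
    rw [h1, Circle.coe_inv_eq_conj]
  have hsum := hlast sZ hprob hmarg.1 hmarg.2 (by
    intro χ hχ χ'
    constructor
    · simp only [hconj]
      rw [hint, if_neg]
      rintro ⟨-, l, hl, hl'⟩
      exact hΦ χ hχ l hl hl'
    · simp only [hconj]
      rw [hint, if_neg]
      rintro ⟨h1, l, hl, hl'⟩
      have h2 : χ' = χ := by
        rw [mul_inv_eq_one] at h1
        exact h1
      rw [h2] at hl'
      exact hΦ χ hχ l hl hl')
  have hWm : ∀ k l, Measurable fun w : Z × Z => WW φ D w k l := by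
    intro k l
    unfold WW
    refine Measurable.mul ?_ ?_
    · exact (hft.measD k.1 l.1).comp (hφ.comp measurable_fst)
    · exact Complex.continuous_conj.measurable.comp
        ((hft.measD k.2 l.2).comp (hφ.comp measurable_snd))
  obtain ⟨U, hU⟩ := exists_twist sZ (fun w : Z × Z => (α * w.1, α * w.2)) hτ (WW φ D) hWm
    (fun w k k' => cb2_WW φ D hft.unit w k k')
  obtain ⟨v, hv1, hv2, hv3⟩ := exists_vector α φ hφ hft.measD hft.unit sZ hτ U hU b hb C hC
  have hBM : BM (ft G b : Z × M → ℂ) := by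
    refine BM.sum _ fun i _ => ?_
    refine ((hb i).comp measurable_fst).mul ?_
    have hG : BM (G i) := by
      obtain ⟨c, hc⟩ := isCompact_univ.exists_bound_of_continuousOn (hft.cont i).continuousOn
      exact ⟨(hft.cont i).measurable, c, fun u => hc u (Set.mem_univ u)⟩
    exact hG.comp measurable_snd
  have hex : ∀ q, ∃ l : Lp (EuclideanSpace ℂ (Fin n × Fin n)) 2 sZ →L[ℂ] ℂ, q ∈ Q →
      (‖l‖ ≤ B ∧ (∀ c, l ((⇑U)^[q] c) = l c) ∧
      ∀ c, l c = ∫ z, ∑ k, c (z.1.1, z.2.1) k * (G k.1 z.1.2 * conj (G k.2 z.2.2)) ∂(σ q)) := by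
    intro q
    by_cases hq : q ∈ Q
    · have := (hσ q hq).prob
      obtain ⟨l, hl⟩ := exists_functional α φ hφ hft (σ q) q (hσ q hq).inv sZ (hsq q hq) hτ U hU B
        hB hR
      exact ⟨l, fun _ => hl⟩
    · exact ⟨0, fun h => absurd h hq⟩
  choose l hl using hex
  have hlv : ∀ q ∈ Q, ε ^ 2 ≤ ‖l q v‖ := by
    intro q hq
    have hae : ∀ᵐ z ∂(σ q), ∀ k, v (z.1.1, z.2.1) k = b k.1 z.1.1 * conj (b k.2 z.2.1) := by
      have h0 : MeasurePreserving (fun z : (Z × M) × (Z × M) => (z.1.1, z.2.1)) (σ q) sZ :=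
        ⟨hπ, hsq q hq⟩
      exact h0.quasiMeasurePreserving.ae hv1
    have h2 : l q v = ∫ z, ft G b z.1 * conj (ft G b z.2) ∂(σ q) := by
      rw [(hl q hq).2.2 v]
      refine integral_congr_ae ?_
      filter_upwards [hae] with z hz
      unfold ft
      rw [map_sum, Finset.sum_mul_sum, Fintype.sum_prod_type]
      refine Finset.sum_congr rfl fun i _ => Finset.sum_congr rfl fun j _ => ?_
      rw [hz (i, j), map_mul]
      ring
    rw [h2, (hσ q hq).sq _ hBM, Complex.norm_real, Real.norm_of_nonneg (sq_nonneg _)]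
    exact pow_le_pow_left₀ hε.le (hbad q hq) 2
  have hcard' : 4 * B ^ 2 * ‖v‖ ^ 2 / (ε ^ 2) ^ 2 < Q.card := by
    refine lt_of_le_of_lt ?_ hcard
    gcongr
  have hbadN := hilbert_bad U v B (ε ^ 2) hB0 (by positivity) Q hQ l (fun q hq => (hl q hq).1)
    (fun q hq z => (hl q hq).2.1 z) hlv hcard' N
  have h3 := (hv3 N).trans hsum
  have hN' : (1 : ℝ) ≤ N := by exact_mod_cast hN
  have h4 : ‖∑ i ∈ range N, (⇑U)^[i] v‖ ≤ ε ^ 2 * N / (4 * B) :=
    le_of_sq_le_sq h3 (by positivity)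
  have h5 : ε ^ 2 * N / (4 * B) < ε ^ 2 * N / (2 * B) := by
    refine div_lt_div_of_pos_left (by positivity) (by positivity) ?_
    linarith
  linarith

end

end Pool.Agent.Lib.H22M
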