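import Pool.Agent.Lib.H22M.Defs

/-!
# Project H22M, chunk CE: conditional expectation and automorphisms; the σ-algebra `GG`
-/

open MeasureTheory Filter Topology
open Set (univ preimage_comp preimage_univ inter_univ univ_inter preimage_inter mem_inter_iff)
open scoped ComplexConjugate

namespace Pool.Agent.Lib.H22M

/-- Proof. Let `g = ρ[h|𝒢]`. By `h1` the map `S` is measurable from `(Ω, 𝒢)` to itself, so `g ∘ S` is
strongly `𝒢`-measurable. It is integrable. For `s` in `𝒢` put `s' = S.symm ⁻¹' s`, which is in `𝒢` by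
`h2`, and `s = S ⁻¹' s'`. As `S` preserves `ρ`: `∫_s g ∘ S dρ = ∫_{s'} g dρ = ∫_{s'} h dρ = ∫_s h ∘ S dρ`
(`MeasurePreserving.setIntegral_preimage_emb` with `S.measurableEmbedding`, and `setIntegral_condExp`).
By uniqueness of the conditional expectation (`ae_eq_condExp_of_forall_setIntegral_eq`),
`g ∘ S = ρ[h ∘ S|𝒢]`. -/
theorem condExp_comp_equiv {Ω : Type*} (𝒢 : MeasurableSpace Ω) [mΩ : MeasurableSpace Ω]
    (ρ : Measure Ω) [IsProbabilityMeasure ρ] (h𝒢 : 𝒢 ≤ mΩ) (S : Ω ≃ᵐ Ω)
    (hS : MeasurePreserving S ρ ρ)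
    (h1 : ∀ s, MeasurableSet[𝒢] s → MeasurableSet[𝒢] (S ⁻¹' s))
    (h2 : ∀ s, MeasurableSet[𝒢] s → MeasurableSet[𝒢] (S.symm ⁻¹' s))
    (h : Ω → ℂ) (hh : Integrable h ρ) :
    ρ[fun ω => h (S ω)|𝒢] =ᵐ[ρ] fun ω => (ρ[h|𝒢]) (S ω) := by
  have hSm : Measurable[𝒢, 𝒢] S := fun s hs => h1 s hs
  have hfS : Integrable (fun ω => h (S ω)) ρ :=
    (hS.integrable_comp_emb S.measurableEmbedding).2 hh
  have hgS : Integrable (fun ω => (ρ[h|𝒢]) (S ω)) ρ :=
    (hS.integrable_comp_emb S.measurableEmbedding).2 integrable_condExp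
  refine (ae_eq_condExp_of_forall_setIntegral_eq h𝒢 hfS (fun s _ _ => hgS.integrableOn) ?_ ?_).symm
  · intro s hs _
    have h3 : s = S ⁻¹' (S.symm ⁻¹' s) := by
      rw [← preimage_comp]
      simp
    rw [h3, hS.setIntegral_preimage_emb S.measurableEmbedding,
      hS.setIntegral_preimage_emb S.measurableEmbedding]
    exact setIntegral_condExp h𝒢 hh (h2 s hs)
  · exact (stronglyMeasurable_condExp.comp_measurable hSm).aestronglyMeasurable

/-- The automorphism `R^p × R^q` as a measurable equivalence. -/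
noncomputable def pairE {Y : Type*} [MeasurableSpace Y] (R : Y ≃ᵐ Y) (p q : ℕ) :
    (Y × Y) ≃ᵐ (Y × Y) where
  toFun := Prod.map ((⇑R)^[p]) ((⇑R)^[q])
  invFun := Prod.map ((⇑R.symm)^[p]) ((⇑R.symm)^[q])
  left_inv z := by
    have h1 : ∀ n : ℕ, Function.LeftInverse ((⇑R.symm)^[n]) ((⇑R)^[n]) := fun n =>
      Function.LeftInverse.iterate (fun y => R.symm_apply_apply y) n
    exact Prod.ext (h1 p z.1) (h1 q z.2)
  right_inv z := by
    have h1 : ∀ n : ℕ, Function.LeftInverse ((⇑R)^[n]) ((⇑R.symm)^[n]) := fun n =>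
      Function.LeftInverse.iterate (fun y => R.apply_symm_apply y) n
    exact Prod.ext (h1 p z.1) (h1 q z.2)
  measurable_toFun := (R.measurable.iterate p).prodMap (R.measurable.iterate q)
  measurable_invFun := (R.symm.measurable.iterate p).prodMap (R.symm.measurable.iterate q)

/-- Proof. Both preimages are taken under measurable maps from the generators: the sets `s` such that both
assertions hold form a σ-algebra, so it suffices to treat the two pieces of `GG`
(`MeasurableSpace.comap_sup`-type argument, or `measurableSet` induction on `⊔`: show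
`GG ≤ MeasurableSpace.map S GG`, i.e. both summands are `≤`). If `s = fst ⁻¹' B`, then the preimage under
`R^p × R^q` is `fst ⁻¹' ((R^p) ⁻¹' B)`, similarly for the inverse. If `s` is measurable with
`S ⁻¹' s =ᵐ s` then `S ⁻¹' (S ⁻¹' s) =ᵐ S ⁻¹' s` (`S` preserves null sets), and for
`t = S.symm ⁻¹' s`: `S ⁻¹' t = s`, and `s =ᵐ S ⁻¹' s` gives `S.symm ⁻¹' s =ᵐ S.symm ⁻¹' (S ⁻¹' s) = s`
since `S.symm` preserves null sets too; so `S ⁻¹' t = s =ᵐ t`. -/
theorem GG_preimage {Y : Type*} [MeasurableSpace Y] (R : Y ≃ᵐ Y) (p q : ℕ)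
    (ρ : Measure (Y × Y)) (hinv : MeasurePreserving (Prod.map ((⇑R)^[p]) ((⇑R)^[q])) ρ ρ)
    (s : Set (Y × Y)) (hs : MeasurableSet[GG R p q ρ] s) :
    MeasurableSet[GG R p q ρ] (pairE R p q ⁻¹' s) ∧
      MeasurableSet[GG R p q ρ] ((pairE R p q).symm ⁻¹' s) := by
  have hS : MeasurePreserving (pairE R p q) ρ ρ := hinv
  have hS' : MeasurePreserving (pairE R p q).symm ρ ρ := hS.symm
  constructor
  · have h1 : GG R p q ρ ≤ MeasurableSpace.map (pairE R p q) (GG R p q ρ) := by
      refine sup_le ?_ ?_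
      · rintro _ ⟨B, hB, rfl⟩
        have h2 : GG R p q ρ ≥ MeasurableSpace.comap Prod.fst inferInstance := le_sup_left
        exact h2 _ ⟨((⇑R)^[p]) ⁻¹' B, (R.measurable.iterate p) hB, rfl⟩
      · intro t ht
        have h2 : GG R p q ρ ≥ aeInv ρ (Prod.map ((⇑R)^[p]) ((⇑R)^[q])) := le_sup_right
        exact h2 _ ⟨(pairE R p q).measurable ht.1, hS.quasiMeasurePreserving.preimage_ae_eq ht.2⟩
    exact h1 s hs
  · have h1 : GG R p q ρ ≤ MeasurableSpace.map (pairE R p q).symm (GG R p q ρ) := by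
      refine sup_le ?_ ?_
      · rintro _ ⟨B, hB, rfl⟩
        have h2 : GG R p q ρ ≥ MeasurableSpace.comap Prod.fst inferInstance := le_sup_left
        exact h2 _ ⟨((⇑R.symm)^[p]) ⁻¹' B, (R.symm.measurable.iterate p) hB, rfl⟩
      · intro t ht
        have h2 : GG R p q ρ ≥ aeInv ρ (Prod.map ((⇑R)^[p]) ((⇑R)^[q])) := le_sup_right
        refine h2 _ ⟨(pairE R p q).symm.measurable ht.1, ?_⟩
        have h3 : Prod.map ((⇑R)^[p]) ((⇑R)^[q]) ⁻¹' ((pairE R p q).symm ⁻¹' t) = t := by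
          have h4 : Prod.map ((⇑R)^[p]) ((⇑R)^[q]) = ⇑(pairE R p q) := rfl
          rw [h4, ← preimage_comp]
          simp
        rw [h3]
        have h5 := hS'.quasiMeasurePreserving.preimage_ae_eq ht.2
        have h6 : (pairE R p q).symm ⁻¹' (Prod.map ((⇑R)^[p]) ((⇑R)^[q]) ⁻¹' t) = t := by
          have h4 : Prod.map ((⇑R)^[p]) ((⇑R)^[q]) = ⇑(pairE R p q) := rfl
          rw [h4, ← preimage_comp]
          simp
        rw [h6] at h5
        exact h5
    exact h1 s hs

/-- Proof. The sets `fst ⁻¹' B ∩ I` with `B` measurable and `I` in `aeInv` form a π-system generating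
`GG`. The sets `s` of `GG` with `∫_s h dρ = 0` contain it (hypothesis), and are closed under
complements (`s = univ` is in the π-system) and disjoint countable unions; Dynkin's theorem
(`MeasurableSpace.induction_on_inter`). So `∫_s h dρ = 0` for all `s` in `GG`, and the conditional
expectation is zero by uniqueness (`ae_eq_condExp_of_forall_setIntegral_eq` with `g = 0`). -/
theorem condExp_eq_zero_of {Y : Type*} [MeasurableSpace Y] (R : Y → Y) (p q : ℕ)
    (ρ : Measure (Y × Y)) [IsProbabilityMeasure ρ] (h : Y × Y → ℂ) (hh : Integrable h ρ)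
    (h0 : ∀ (B : Set Y) (I : Set (Y × Y)), MeasurableSet B →
      MeasurableSet[aeInv ρ (Prod.map (R^[p]) (R^[q]))] I →
      ∫ z in Prod.fst ⁻¹' B ∩ I, h z ∂ρ = 0) :
    ρ[h|GG R p q ρ] =ᵐ[ρ] 0 := by
  have huniv : ∫ z, h z ∂ρ = 0 := by
    have h1 := h0 univ univ MeasurableSet.univ (@MeasurableSet.univ _ (aeInv ρ _))
    rwa [preimage_univ, inter_univ, setIntegral_univ] at h1
  have hle := GG_le R p q ρ
  set P : Set (Set (Y × Y)) := {s | ∃ (B : Set Y) (I : Set (Y × Y)), MeasurableSet B ∧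
    MeasurableSet[aeInv ρ (Prod.map (R^[p]) (R^[q]))] I ∧ s = Prod.fst ⁻¹' B ∩ I} with hP
  have hgen : GG R p q ρ = MeasurableSpace.generateFrom P := by
    refine le_antisymm (sup_le ?_ ?_) (MeasurableSpace.generateFrom_le ?_)
    · rintro _ ⟨B, hB, rfl⟩
      refine MeasurableSpace.measurableSet_generateFrom ⟨B, univ, hB,
        @MeasurableSet.univ _ (aeInv ρ _), ?_⟩
      rw [inter_univ]
    · intro t ht
      refine MeasurableSpace.measurableSet_generateFrom ⟨univ, t, MeasurableSet.univ, ht, ?_⟩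
      rw [preimage_univ, univ_inter]
    · rintro _ ⟨B, I, hB, hI, rfl⟩
      have h2 : GG R p q ρ ≥ MeasurableSpace.comap Prod.fst inferInstance := le_sup_left
      have h3 : GG R p q ρ ≥ aeInv ρ (Prod.map (R^[p]) (R^[q])) := le_sup_right
      exact @MeasurableSet.inter _ (GG R p q ρ) _ _ (h2 _ ⟨B, hB, rfl⟩) (h3 _ hI)
  have hpi : IsPiSystem P := by
    rintro _ ⟨B, I, hB, hI, rfl⟩ _ ⟨B', I', hB', hI', rfl⟩ -
    refine ⟨B ∩ B', I ∩ I', hB.inter hB',
      @MeasurableSet.inter _ (aeInv ρ (Prod.map (R^[p]) (R^[q]))) _ _ hI hI', ?_⟩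
    rw [preimage_inter]
    ext z
    simp only [mem_inter_iff]
    tauto
  have hall : ∀ s, MeasurableSet[GG R p q ρ] s → ∫ z in s, h z ∂ρ = 0 := by
    intro s hs
    refine MeasurableSpace.induction_on_inter (m := GG R p q ρ)
      (C := fun s _ => ∫ z in s, h z ∂ρ = 0) hgen hpi ?_ ?_ ?_ ?_ s hs
    · simp
    · rintro _ ⟨B, I, hB, hI, rfl⟩
      exact h0 B I hB hI
    · intro t ht ih
      have h1 := integral_add_compl (hle t ht) hh
      rw [ih, zero_add, huniv] at h1
      exact h1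
    · intro f hd hf ih
      rw [integral_iUnion (fun i => hle _ (hf i)) hd hh.integrableOn]
      simp only [ih, tsum_zero]
  refine (ae_eq_condExp_of_forall_setIntegral_eq hle hh (fun s _ _ => integrableOn_zero) ?_
    aestronglyMeasurable_zero).symm
  intro s hs _
  rw [hall s hs]
  simp

end Pool.Agent.Lib.H22M
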