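import Pool.Agent.Lib.H22M.EG
import Pool.Agent.Lib.H22M.CE

/-!
# Project H22M, chunk E0: eigenfunctions orthogonal to `GG`
-/

open MeasureTheory Filter Topology Finset
open scoped ComplexConjugate

namespace Pool.Agent.Lib.H22M

theorem e0_norm {Y : Type*} [MeasurableSpace Y] {m : Measure Y} [IsProbabilityMeasure m]
    (F : Lp ℂ 2 m) (g : Y → ℂ) (h : F =ᵐ[m] g) : l2 m g = ‖F‖ := by
  have h1 : (∫ y, ‖g y‖ ^ 2 ∂m) = ‖F‖ ^ 2 := by
    have h2 : ((‖F‖ ^ 2 : ℝ) : ℂ) = ∫ y, ((‖g y‖ ^ 2 : ℝ) : ℂ) ∂m := by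
      have h3 := inner_self_eq_norm_sq_to_K (𝕜 := ℂ) F
      rw [L2.inner_def] at h3
      have h4 : ∫ a, inner ℂ (F a) (F a) ∂m = ∫ y, ((‖g y‖ ^ 2 : ℝ) : ℂ) ∂m := by
        refine integral_congr_ae ?_
        filter_upwards [h] with y hy
        rw [inner_self_eq_norm_sq_to_K, hy]
        push_cast
        rfl
      rw [← h4, h3]
      push_cast
      rfl
    rw [integral_complex_ofReal] at h2
    exact_mod_cast h2.symm
  unfold l2
  rw [h1, Real.sqrt_sq (norm_nonneg _)]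

/-- Mean ergodic theorem for a power with a multiplier. Proof. Work in the Hilbert space `Lp ℂ 2 m` with
the isometry `V f = c • f ∘ R^[p]` (`Lp.compMeasurePreserving`). By
`ContinuousLinearMap.tendsto_birkhoffAverage_orthogonalProjection` the averages
`(1/N) ∑_{n < N} V^n f` converge in norm to the orthogonal projection of `f` on the fixed vectors of
`V`. A fixed vector is a function `b ∈ L²(m)` with `c b(R^[p] y) = b y`, i.e.
`b (R^[p] y) = c⁻¹ b y`, and `conj b` satisfies `conj b (R^[p] y) = c conj b y` as `|c| = 1`; if `b ≠ 0`,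
`eigenvalue_of_iterate` for `conj b` gives an eigenvalue `l` with `l^p = c`, which is excluded. So the
averages of the class of `f` tend to `0` in `L²`, i.e.
`∫ ‖(1/N) ∑_{n < N} c^n f(R^[p n] y)‖² dm → 0`. -/
theorem tendsto_l2_zero {Y : Type*} [MeasurableSpace Y] {m : Measure Y} [IsProbabilityMeasure m]
    {R : Y → Y} (hR : MeasurePreserving R m m) (p : ℕ) (herg : Ergodic (R^[p]) m) (c : ℂ)
    (hc : ‖c‖ = 1) (hne : ∀ l : ℂ, IsEigenvalue m R l → l ^ p ≠ c) (f : Y → ℂ) (hf : BM f) :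
    Tendsto (fun N : ℕ => l2 m fun y => (∑ n ∈ range N, c ^ n * f (R^[p * n] y)) / N) atTop
      (𝓝 0) := by
  have hRp : MeasurePreserving (R^[p]) m m := hR.iterate p
  let V : Lp ℂ 2 m →L[ℂ] Lp ℂ 2 m :=
    c • (Lp.compMeasurePreservingₗᵢ ℂ (R^[p]) hRp).toContinuousLinearMap
  have hV : ∀ g : Lp ℂ 2 m, V g =ᵐ[m] fun y => c * g (R^[p] y) := by
    intro g
    have h1 : V g = c • Lp.compMeasurePreserving (R^[p]) hRp g := rfl
    rw [h1]
    filter_upwards [Lp.coeFn_smul c (Lp.compMeasurePreserving (R^[p]) hRp g),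
      Lp.coeFn_compMeasurePreserving g hRp] with y h2 h3
    rw [h2, Pi.smul_apply, h3]
    rfl
  have hVn : ‖V‖ ≤ 1 := by
    have h1 := norm_smul_le c (Lp.compMeasurePreservingₗᵢ ℂ (R^[p]) hRp :
      Lp ℂ 2 m →ₗᵢ[ℂ] Lp ℂ 2 m).toContinuousLinearMap
    rw [hc, one_mul] at h1
    exact h1.trans (LinearIsometry.norm_toContinuousLinearMap_le _)
  have hfix : ∀ b : Lp ℂ 2 m, V b = b → b = 0 := by
    intro b hb
    by_contra hb0
    have hc0 : c ≠ 0 := by
      intro h0
      rw [h0, norm_zero] at hc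
      exact zero_ne_one hc
    have h1 : ∀ᵐ y ∂m, c * b (R^[p] y) = b y := by
      have := hV b
      rw [hb] at this
      filter_upwards [this] with y hy
      exact hy.symm
    have hcc : conj c * c = 1 := by
      rw [mul_comm, Complex.mul_conj, Complex.normSq_eq_norm_sq, hc]
      norm_num
    have h2 : ∀ᵐ y ∂m, conj (b (R^[p] y)) = c * conj (b y) := by
      filter_upwards [h1] with y hy
      rw [← hy, map_mul, ← mul_assoc, mul_comm c, hcc, one_mul]
    have h3 : ¬ ∀ᵐ y ∂m, conj (b y) = 0 := by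
      intro h4
      apply hb0
      rw [Lp.ext_iff]
      filter_upwards [h4, Lp.coeFn_zero ℂ 2 m] with y hy hz
      rw [hz]
      exact (map_eq_zero _).1 hy
    obtain ⟨l, hl, hlp⟩ := eigenvalue_of_iterate hR p herg (fun y => conj (b y))
      (Complex.continuous_conj.measurable.comp (Lp.stronglyMeasurable b).measurable) h3 c hc h2
    exact hne l hl hlp
  let F : Lp ℂ 2 m := (hf.memLp 2).toLp f
  have hF : F =ᵐ[m] f := (hf.memLp 2).coeFn_toLp
  have hiter : ∀ n : ℕ, (V^[n] F) =ᵐ[m] fun y => c ^ n * f (R^[p * n] y) := by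
    intro n
    induction n with
    | zero =>
      filter_upwards [hF] with y hy
      simp only [Function.iterate_zero, id_eq, pow_zero, one_mul, Nat.mul_zero]
      exact hy
    | succ n ih =>
      rw [Function.iterate_succ_apply']
      have h1 : ∀ᵐ y ∂m, (V^[n] F) (R^[p] y) = c ^ n * f (R^[p * n] (R^[p] y)) :=
        hRp.quasiMeasurePreserving.ae ih
      filter_upwards [hV (V^[n] F), h1] with y h2 h3
      rw [h2, h3, ← Function.iterate_add_apply, Nat.mul_succ, pow_succ']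
      ring
  have hlim := ContinuousLinearMap.tendsto_birkhoffAverage_orthogonalProjection V hVn F
  have hz : (((V.eqLocus (1 : Lp ℂ 2 m →L[ℂ] Lp ℂ 2 m)).orthogonalProjectionOnto F :
      V.eqLocus (1 : Lp ℂ 2 m →L[ℂ] Lp ℂ 2 m)) : Lp ℂ 2 m) = 0 := by
    apply hfix
    exact ((V.eqLocus (1 : Lp ℂ 2 m →L[ℂ] Lp ℂ 2 m)).orthogonalProjectionOnto F).2
  rw [hz] at hlim
  have hlim2 := hlim.norm
  rw [norm_zero] at hlim2
  refine hlim2.congr fun N => ?_
  symm
  refine e0_norm _ _ ?_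
  have h1 : birkhoffAverage ℂ V _root_.id N F = (N : ℂ)⁻¹ • ∑ n ∈ range N, V^[n] F := rfl
  rw [h1]
  have h2 : ∀ᵐ y ∂m, ∀ n : ℕ, (V^[n] F) y = c ^ n * f (R^[p * n] y) := ae_all_iff.2 hiter
  have h3 : ∀ N : ℕ, (⇑(∑ n ∈ range N, V^[n] F) : Y → ℂ) =ᵐ[m] fun y => ∑ n ∈ range N, (V^[n] F) y := by
    intro N
    induction N with
    | zero =>
      simp only [range_zero, sum_empty]
      exact Lp.coeFn_zero ℂ 2 m
    | succ N ih =>
      simp only [sum_range_succ]
      filter_upwards [Lp.coeFn_add (∑ n ∈ range N, V^[n] F) (V^[N] F), ih] with y h4 h5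
      rw [h4, Pi.add_apply, h5]
  filter_upwards [Lp.coeFn_smul (N : ℂ)⁻¹ (∑ n ∈ range N, V^[n] F), h2, h3 N] with y h4 h5 h6
  rw [h4, Pi.smul_apply, h6, smul_eq_mul, div_eq_inv_mul]
  congr 1
  exact sum_congr rfl fun n _ => h5 n

theorem e0_zpow {Y : Type*} [MeasurableSpace Y] {m : Measure Y} {R : Y → Y}
    [IsProbabilityMeasure m] (hR : MeasurePreserving R m m) {a : ℂ}
    (ha : IsEigenvalue m R a) (n : ℤ) : IsEigenvalue m R (a ^ n) := by
  cases n with
  | ofNat n =>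
    rw [Int.ofNat_eq_natCast, zpow_natCast]
    exact ha.pow n
  | negSucc n =>
    rw [zpow_negSucc]
    exact (ha.pow _).inv hR

theorem e0_l1_l2 {Y : Type*} [MeasurableSpace Y] {m : Measure Y} [IsProbabilityMeasure m]
    (g : Y → ℂ) (hg : BM g) : ∫ y, ‖g y‖ ∂m ≤ l2 m g := by
  obtain ⟨hm, C, hC⟩ := hg
  have i1 : Integrable (fun y => ‖g y‖) m := (BM.integrable ⟨hm, C, hC⟩).norm
  have i2 : Integrable (fun y => ‖g y‖ ^ 2) m := by
    refine Integrable.of_bound (hm.norm.pow_const 2).aestronglyMeasurable (C ^ 2)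
      (Eventually.of_forall fun y => ?_)
    rw [Real.norm_eq_abs, abs_of_nonneg (by positivity)]
    exact pow_le_pow_left₀ (norm_nonneg _) (hC y) 2
  set a := ∫ y, ‖g y‖ ∂m with ha
  have h1 : 0 ≤ ∫ y, (‖g y‖ - a) ^ 2 ∂m := integral_nonneg fun y => sq_nonneg _
  have h2 : ∫ y, (‖g y‖ - a) ^ 2 ∂m = (∫ y, ‖g y‖ ^ 2 ∂m) - a ^ 2 := by
    have e : ∀ y, (‖g y‖ - a) ^ 2 = ‖g y‖ ^ 2 - 2 * a * ‖g y‖ + a ^ 2 := fun y => by ring
    simp only [e]
    have k1 : ∫ y, (‖g y‖ ^ 2 - 2 * a * ‖g y‖ + a ^ 2) ∂m =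
        (∫ y, (‖g y‖ ^ 2 - 2 * a * ‖g y‖) ∂m) + ∫ _, a ^ 2 ∂m :=
      integral_add (i2.sub (i1.const_mul (2 * a))) (integrable_const _)
    have k2 : ∫ y, (‖g y‖ ^ 2 - 2 * a * ‖g y‖) ∂m =
        (∫ y, ‖g y‖ ^ 2 ∂m) - ∫ y, 2 * a * ‖g y‖ ∂m := integral_sub i2 (i1.const_mul (2 * a))
    rw [k1, k2, integral_const_mul, integral_const, ← ha]
    simp
    ring
  rw [h2] at h1
  unfold l2
  exact Real.le_sqrt_of_sq_le (by linarith)

/-- Proof. If `e = 0` almost everywhere there is nothing to do; otherwise `c` is an eigenvalue of `R`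
(`isEigenvalue_of_eigen`). First `c^q` is not the `p`-th power of an eigenvalue: if `c^q = l^p`, take
integers (or natural numbers, using that inverses of eigenvalues are eigenvalues) `s, t` with
`s p + t q = 1`, then `c = (c^s)^p (c^q)^t = (c^s l^t)^p` is the `p`-th power of an eigenvalue
(`IsEigenvalue.mul`, `pow`, `inv`), contrary to `hne`. Apply `condExp_eq_zero_of` with `h z = e z.2`. Let
`B` be measurable, `I` in `aeInv`, and `J = ∫_{fst ⁻¹' B ∩ I} e(y') dρ = ∫ 1_B(y) 1_I e(y') dρ`. By the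
invariance of `ρ` under `S^n`, `S = R^p × R^q`, and `1_I ∘ S^n = 1_I` almost everywhere,
`e(R^[q n] y') = c^(q n) e(y')` almost everywhere:
`J = ∫ 1_B(R^[p n] y) c^(q n) 1_I e(y') dρ` for all `n`. Averaging over `n < N`,
`|J| ≤ ‖e‖_∞ ∫ |(1/N) ∑_{n < N} (c^q)^n 1_B(R^[p n] y)| dρ ≤ ‖e‖_∞ l2 m ((1/N) ∑_{n < N} (c^q)^n 1_B ∘ R^[p n])`
which tends to `0` by `tendsto_l2_zero` for the multiplier `c^q`. So `J = 0`. -/
theorem condExp_eigen_zero {Y : Type*} [MeasurableSpace Y] {m : Measure Y}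
    [IsProbabilityMeasure m] {R : Y → Y} {p q : ℕ} {ρ : Measure (Y × Y)} (hR : Ergodic R m)
    (herg : Ergodic (R^[p]) m) (hpq : p.Coprime q) (hρ : IsJoin m R p q ρ) (e : Y → ℂ)
    (he : BM e) (c : ℂ) (hc : ‖c‖ = 1) (h : ∀ᵐ y ∂m, e (R y) = c * e y)
    (hne : ∀ l : ℂ, IsEigenvalue m R l → l ^ p ≠ c) :
    ρ[fun z => e z.2|GG R p q ρ] =ᵐ[ρ] 0 := by
  have := hρ.prob
  have hRm := hR.toMeasurePreserving
  have hc0 : c ≠ 0 := by
    intro h0
    rw [h0, norm_zero] at hc
    exact zero_ne_one hc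
  have hsnd : ∀ {P : Y → Prop}, (∀ᵐ y ∂m, P y) → ∀ᵐ z ∂ρ, P z.2 := by
    intro P hP
    rw [← hρ.snd] at hP
    exact ae_of_ae_map measurable_snd.aemeasurable hP
  by_cases h0 : ∀ᵐ y ∂m, e y = 0
  · have h1 : (fun z : Y × Y => e z.2) =ᵐ[ρ] 0 := hsnd h0
    refine (condExp_congr_ae h1).trans ?_
    rw [condExp_zero]
  have hcE := isEigenvalue_of_eigen hR e he.1 c hc h h0
  have hq : ∀ l : ℂ, IsEigenvalue m R l → l ^ p ≠ c ^ q := by
    intro l hl heq
    have hl0 : l ≠ 0 := by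
      intro h1
      have := hl.norm_eq hRm
      rw [h1, norm_zero] at this
      exact zero_ne_one this
    have hbez : (p : ℤ) * p.gcdA q + q * p.gcdB q = 1 := by
      rw [← Nat.gcd_eq_gcd_ab, hpq]
      rfl
    set s := p.gcdA q
    set t := p.gcdB q
    refine hne (c ^ s * l ^ t) ((e0_zpow hRm hcE s).mul (e0_zpow hRm hl t)) ?_
    have e1 : (c ^ s * l ^ t) ^ p = c ^ ((p : ℤ) * s) * (l ^ p) ^ t := by
      rw [mul_pow, ← zpow_natCast (c ^ s), ← zpow_mul, mul_comm s, ← zpow_natCast (l ^ t),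
        ← zpow_mul, mul_comm t, zpow_mul l, zpow_natCast]
    rw [e1, heq, ← zpow_natCast c q, ← zpow_mul, ← zpow_add₀ hc0, hbez, zpow_one]
  obtain ⟨hem, C, hC⟩ := he
  have hC0 : 0 ≤ C := by
    obtain ⟨y⟩ : Nonempty Y := by
      by_contra hY
      rw [not_nonempty_iff] at hY
      exact h0 (Eventually.of_forall fun y => (hY.false y).elim)
    exact (norm_nonneg _).trans (hC y)
  have hint : Integrable (fun z : Y × Y => e z.2) ρ :=
    (BM.comp ⟨hem, C, hC⟩ measurable_snd).integrable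
  refine condExp_eq_zero_of R p q ρ _ hint ?_
  intro B I hB hI
  set S : Y × Y → Y × Y := Prod.map (R^[p]) (R^[q]) with hS
  have hSn : ∀ n : ℕ, MeasurePreserving (S^[n]) ρ ρ := fun n => hρ.inv.iterate n
  have hSn_eq : ∀ (n : ℕ) (z : Y × Y), S^[n] z = (R^[p * n] z.1, R^[q * n] z.2) := by
    intro n
    induction n with
    | zero => intro z; simp
    | succ n ih =>
      intro z
      rw [Function.iterate_succ_apply, ih]
      simp only [hS, Prod.map_fst, Prod.map_snd]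
      rw [← Function.iterate_add_apply, ← Function.iterate_add_apply, Nat.mul_succ, Nat.mul_succ]
  have hI1 : MeasurableSet I := hI.1
  have hIn : ∀ n : ℕ, ∀ᵐ z ∂ρ, (S^[n] z ∈ I ↔ z ∈ I) := by
    intro n
    induction n with
    | zero => exact Eventually.of_forall fun z => Iff.rfl
    | succ n ih =>
      have h1 : ∀ᵐ z ∂ρ, (S z ∈ I ↔ z ∈ I) := by
        filter_upwards [hI.2] with z hz
        exact iff_of_eq hz
      have h2 : ∀ᵐ z ∂ρ, (S (S^[n] z) ∈ I ↔ S^[n] z ∈ I) :=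
        (hSn n).quasiMeasurePreserving.ae h1
      filter_upwards [ih, h2] with z h3 h4
      rw [Function.iterate_succ_apply']
      exact h4.trans h3
  have hen : ∀ n : ℕ, ∀ᵐ y ∂m, e (R^[n] y) = c ^ n * e y := by
    intro n
    induction n with
    | zero => exact Eventually.of_forall fun y => by simp
    | succ n ih =>
      have h1 : ∀ᵐ y ∂m, e (R (R^[n] y)) = c * e (R^[n] y) :=
        (hRm.iterate n).quasiMeasurePreserving.ae h
      filter_upwards [ih, h1] with y h2 h3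
      rw [Function.iterate_succ_apply', h3, h2, pow_succ']
      ring
  let iB : Y → ℂ := B.indicator fun _ => 1
  let iI : Y × Y → ℂ := I.indicator fun _ => 1
  have hiB : BM iB := ⟨measurable_const.indicator hB, 1, fun y => by
    by_cases hy : y ∈ B
    · simp [iB, hy]
    · simp [iB, hy]⟩
  have hiI : BM iI := ⟨measurable_const.indicator hI1, 1, fun y => by
    by_cases hy : y ∈ I
    · simp [iI, hy]
    · simp [iI, hy]⟩
  have hiI1 : ∀ z, ‖iI z‖ ≤ 1 := fun z => by
    by_cases hy : z ∈ I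
    · simp [iI, hy]
    · simp [iI, hy]
  let G : Y × Y → ℂ := fun z => iI z * e z.2
  have hG : BM G := hiI.mul (BM.comp ⟨hem, C, hC⟩ measurable_snd)
  have hGC : ∀ z, ‖G z‖ ≤ C := fun z => by
    simp only [G, norm_mul]
    calc ‖iI z‖ * ‖e z.2‖ ≤ 1 * C := mul_le_mul (hiI1 z) (hC _) (norm_nonneg _) zero_le_one
      _ = C := one_mul C
  set J : ℂ := ∫ z in Prod.fst ⁻¹' B ∩ I, e z.2 ∂ρ with hJ
  have hJ1 : J = ∫ z, iB z.1 * G z ∂ρ := by
    rw [hJ, ← integral_indicator ((measurable_fst hB).inter hI1)]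
    refine integral_congr_ae (Eventually.of_forall fun z => ?_)
    by_cases h1 : z.1 ∈ B
    · by_cases h2 : z ∈ I
      · simp [iB, iI, G, h1, h2]
      · simp [iB, iI, G, h1, h2]
    · simp [iB, iI, G, h1]
  have hJn : ∀ n : ℕ, J = ∫ z, ((c ^ q) ^ n * iB (R^[p * n] z.1)) * G z ∂ρ := by
    intro n
    have h1 : ∫ z, iB (S^[n] z).1 * G (S^[n] z) ∂ρ = ∫ z, iB z.1 * G z ∂ρ := by
      have hf : AEStronglyMeasurable (fun z : Y × Y => iB z.1 * G z) (Measure.map (S^[n]) ρ) :=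
        ((hiB.1.comp measurable_fst).mul hG.1).aestronglyMeasurable
      have := integral_map (hSn n).measurable.aemeasurable hf
      rw [(hSn n).map_eq] at this
      exact this.symm
    rw [hJ1, ← h1]
    refine integral_congr_ae ?_
    filter_upwards [hIn n, hsnd (hen (q * n))] with z h2 h3
    have h4 : iI (S^[n] z) = iI z := by
      by_cases h5 : z ∈ I
      · simp [iI, h5, h2.2 h5]
      · have h6 : S^[n] z ∉ I := fun h6 => h5 (h2.1 h6)
        simp [iI, h5, h6]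
    simp only [G]
    rw [h4, hSn_eq n z]
    simp only
    rw [h3, pow_mul]
    ring
  have hbound : ∀ N : ℕ, 1 ≤ N → ‖J‖ ≤
      C * l2 m fun y => (∑ n ∈ range N, (c ^ q) ^ n * iB (R^[p * n] y)) / N := by
    intro N hN
    have hN0 : (N : ℂ) ≠ 0 := by
      have : N ≠ 0 := by omega
      exact_mod_cast this
    have hA : BM fun y => (∑ n ∈ range N, (c ^ q) ^ n * iB (R^[p * n] y)) / N := by
      have h1 : BM fun y => (∑ n ∈ range N, (c ^ q) ^ n * iB (R^[p * n] y)) * ((N : ℂ)⁻¹) :=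
        (BM.sum _ fun n _ => (BM.const _).mul
          (hiB.comp (hRm.measurable.iterate (p * n)))).mul (BM.const _)
      simpa only [div_eq_mul_inv] using h1
    have h1 : J = ∫ z, ((∑ n ∈ range N, (c ^ q) ^ n * iB (R^[p * n] z.1)) / N) * G z ∂ρ := by
      have hi : ∀ n ∈ range N, Integrable (fun z : Y × Y =>
          ((c ^ q) ^ n * iB (R^[p * n] z.1)) * G z) ρ := fun n _ =>
        (((BM.const _).mul ((hiB.comp (hRm.measurable.iterate (p * n))).comp
          measurable_fst)).mul hG).integrable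
      have h2 : ∫ z, ∑ n ∈ range N, ((c ^ q) ^ n * iB (R^[p * n] z.1)) * G z ∂ρ = N * J := by
        rw [integral_finsetSum _ hi, sum_congr rfl fun n _ => (hJn n).symm, sum_const,
          card_range, nsmul_eq_mul]
      have h3 : ∀ z : Y × Y, ((∑ n ∈ range N, (c ^ q) ^ n * iB (R^[p * n] z.1)) / N) * G z =
          (N : ℂ)⁻¹ * ∑ n ∈ range N, ((c ^ q) ^ n * iB (R^[p * n] z.1)) * G z := by
        intro z
        rw [← sum_mul]
        ring
      simp only [h3]
      rw [integral_const_mul, h2, ← mul_assoc, inv_mul_cancel₀ hN0, one_mul]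
    set A : Y → ℂ := fun y => (∑ n ∈ range N, (c ^ q) ^ n * iB (R^[p * n] y)) / N with hAdef
    have h4 : ∫ z, ‖A z.1‖ ∂ρ = ∫ y, ‖A y‖ ∂m := by
      have hf : AEStronglyMeasurable (fun y => ‖A y‖) (Measure.map Prod.fst ρ) :=
        hA.1.norm.aestronglyMeasurable
      have := integral_map measurable_fst.aemeasurable hf
      rw [hρ.fst] at this
      exact this.symm
    calc ‖J‖ = ‖∫ z, A z.1 * G z ∂ρ‖ := by rw [h1]
      _ ≤ ∫ z, ‖A z.1 * G z‖ ∂ρ := norm_integral_le_integral_norm _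
      _ ≤ ∫ z, C * ‖A z.1‖ ∂ρ := by
          refine integral_mono ((hA.comp measurable_fst).mul hG).integrable.norm
            ((hA.comp measurable_fst).integrable.norm.const_mul C) fun z => ?_
          simp only [norm_mul]
          rw [mul_comm]
          exact mul_le_mul_of_nonneg_right (hGC z) (norm_nonneg _)
      _ = C * ∫ y, ‖A y‖ ∂m := by rw [integral_const_mul, h4]
      _ ≤ C * l2 m A := mul_le_mul_of_nonneg_left (e0_l1_l2 A hA) hC0
  have hlim := tendsto_l2_zero hRm p herg (c ^ q) (by rw [norm_pow, hc, one_pow]) hq iB hiB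
  have hlim2 := hlim.const_mul C
  rw [mul_zero] at hlim2
  have h5 : ‖J‖ ≤ 0 := by
    refine ge_of_tendsto hlim2 ?_
    filter_upwards [eventually_ge_atTop 1] with N hN
    exact hbound N hN
  exact norm_le_zero_iff.1 h5

end Pool.Agent.Lib.H22M
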