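import Pool.Agent.Lib.H22M.Defs

/-!
# Project H22M, chunk E1: eigenfunctions measurable with respect to `GG`
-/

open MeasureTheory Filter Topology
open scoped ComplexConjugate

namespace Pool.Agent.Lib.H22M

theorem e1_iter {Y : Type*} [MeasurableSpace Y] {m : Measure Y} {R : Y → Y}
    (hR : MeasurePreserving R m m) {g : Y → ℂ} {c : ℂ} (h : ∀ᵐ y ∂m, g (R y) = c * g y) (k : ℕ) :
    ∀ᵐ y ∂m, g (R^[k] y) = c ^ k * g y := by
  induction k with
  | zero => exact Eventually.of_forall fun y => by simp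
  | succ k ih =>
    have h1 := hR.quasiMeasurePreserving.ae ih
    filter_upwards [h1, h] with y hy1 hy2
    rw [Function.iterate_succ_apply, hy1, hy2, pow_succ]
    ring

theorem e1_norm {Y : Type*} [MeasurableSpace Y] {m : Measure Y} [IsProbabilityMeasure m]
    {R : Y → Y} (hR : MeasurePreserving R m m) {f : Y → ℂ} {l : ℂ} (h1 : ∀ᵐ y ∂m, ‖f y‖ = 1)
    (h : ∀ᵐ y ∂m, f (R y) = l * f y) : ‖l‖ = 1 := by
  have h2 := hR.quasiMeasurePreserving.ae h1
  obtain ⟨y, hy, hy1, hy2⟩ := (h.and (h1.and h2)).exists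
  rw [hy, norm_mul, hy1, mul_one] at hy2
  exact hy2

/-- Proof. Let `f` be an eigenfunction of modulus one for `l`: `f (R y) = l f y` almost everywhere, so
`f^q` satisfies `(f y)^q` at `R^[p] y`: `(f (R^[p] y))^q = l^(p q) (f y)^q`. Let
`i (y, y') = e y' * conj ((f y)^q)`. For `ρ`-almost every `(y, y')`:
`i (R^[p] y, R^[q] y') = (l^p)^q e(y') conj(l^(p q) (f y)^q) = |l|^(2 p q) i (y, y') = i (y, y')` (the
marginals of `ρ` are `m` and `R` preserves `m`; `|l| = 1`, see the chunk EG or directly). The function `i`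
is measurable and `i ∘ S = i` almost everywhere with `S = R^p × R^q`, so for a Borel set `B`,
`S ⁻¹' (i ⁻¹' B) =ᵐ i ⁻¹' B`: `i` is measurable for `aeInv ρ S`. Since `‖f y‖ = 1` for `ρ`-almost every
`(y, y')`, `e y' = i (y, y') * (f y)^q` almost everywhere, and the right side is measurable for
`GG R p q ρ`. So `e ∘ snd` is almost everywhere equal to a `GG`-measurable integrable function and is its
own conditional expectation (`condExp_of_aestronglyMeasurable'`). -/
theorem condExp_eigen_pow {Y : Type*} [MeasurableSpace Y] {m : Measure Y} {R : Y → Y} {p q : ℕ}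
    {ρ : Measure (Y × Y)} (hR : MeasurePreserving R m m) (hρ : IsJoin m R p q ρ) (e : Y → ℂ)
    (he : BM e) (l : ℂ) (hl : IsEigenvalue m R l) (h : ∀ᵐ y ∂m, e (R y) = l ^ p * e y) :
    ρ[fun z => e z.2|GG R p q ρ] =ᵐ[ρ] fun z => e z.2 := by
  have hρp := hρ.prob
  have hm : IsProbabilityMeasure m := by
    rw [← hρ.fst]
    exact Measure.isProbabilityMeasure_map measurable_fst.aemeasurable
  obtain ⟨f, hfm, hf1, hf⟩ := hl
  have hl1 : ‖l‖ = 1 := e1_norm hR hf1 hf
  have hfst : ∀ {P : Y → Prop}, (∀ᵐ y ∂m, P y) → ∀ᵐ z ∂ρ, P z.1 := by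
    intro P hP
    rw [← hρ.fst] at hP
    exact ae_of_ae_map measurable_fst.aemeasurable hP
  have hsnd : ∀ {P : Y → Prop}, (∀ᵐ y ∂m, P y) → ∀ᵐ z ∂ρ, P z.2 := by
    intro P hP
    rw [← hρ.snd] at hP
    exact ae_of_ae_map measurable_snd.aemeasurable hP
  have he1 : Measurable fun z : Y × Y => e z.2 := he.1.comp measurable_snd
  have hfm1 : Measurable fun z : Y × Y => f z.1 := hfm.comp measurable_fst
  have him : Measurable fun z : Y × Y => e z.2 * conj (f z.1 ^ q) :=
    he1.mul (Complex.continuous_conj.measurable.comp (hfm1.pow_const q))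
  have hinv : ∀ᵐ z ∂ρ, (fun z : Y × Y => e z.2 * conj (f z.1 ^ q)) (Prod.map (R^[p]) (R^[q]) z) =
      (fun z : Y × Y => e z.2 * conj (f z.1 ^ q)) z := by
    filter_upwards [hfst (e1_iter hR hf p), hsnd (e1_iter hR h q)] with z h1 h2
    simp only [Prod.map_fst, Prod.map_snd]
    rw [h1, h2, mul_pow, map_mul]
    have h3 : (l ^ p) ^ q * conj ((l ^ p) ^ q) = 1 := by
      rw [Complex.mul_conj', norm_pow, norm_pow, hl1]
      simp
    calc (l ^ p) ^ q * e z.2 * (conj ((l ^ p) ^ q) * conj (f z.1 ^ q))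
        = ((l ^ p) ^ q * conj ((l ^ p) ^ q)) * (e z.2 * conj (f z.1 ^ q)) := by ring
      _ = e z.2 * conj (f z.1 ^ q) := by rw [h3, one_mul]
  have hiae : @Measurable _ _ (aeInv ρ (Prod.map (R^[p]) (R^[q]))) _
      (fun z : Y × Y => e z.2 * conj (f z.1 ^ q)) := by
    intro B hB
    refine ⟨him hB, ?_⟩
    rw [Filter.eventuallyEq_set]
    filter_upwards [hinv] with z hz
    simp only [Set.mem_preimage] at hz ⊢
    rw [hz]
  have hiG : @Measurable _ _ (GG R p q ρ) _ (fun z : Y × Y => e z.2 * conj (f z.1 ^ q)) :=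
    hiae.mono le_sup_right le_rfl
  have hfG : @Measurable _ _ (GG R p q ρ) _ (fun z : Y × Y => f z.1 ^ q) := by
    have h1 : @Measurable _ _ (MeasurableSpace.comap Prod.fst inferInstance) _
        (fun z : Y × Y => f z.1 ^ q) := (hfm.pow_const q).comp (comap_measurable Prod.fst)
    exact h1.mono le_sup_left le_rfl
  have hae : (fun z : Y × Y => e z.2) =ᵐ[ρ]
      fun z : Y × Y => (e z.2 * conj (f z.1 ^ q)) * f z.1 ^ q := by
    filter_upwards [hfst hf1] with z hz
    have h3 : conj (f z.1 ^ q) * f z.1 ^ q = 1 := by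
      rw [mul_comm, Complex.mul_conj', norm_pow, hz]
      simp
    rw [mul_assoc, h3, mul_one]
  have hint : Integrable (fun z : Y × Y => e z.2) ρ := by
    obtain ⟨C, hC⟩ := he.2
    exact Integrable.of_bound he1.aestronglyMeasurable C (Eventually.of_forall fun z => hC z.2)
  refine condExp_of_aestronglyMeasurable' (GG_le R p q ρ) ?_ hint
  exact ⟨_, (hiG.mul hfG).stronglyMeasurable, hae⟩

end Pool.Agent.Lib.H22M
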