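import Pool.Agent.Lib.H22M.NL

/-!
# Project H22M, chunk JB: the seminorm of the relative square
-/

open MeasureTheory Filter Topology Finset
open scoped ComplexConjugate

namespace Pool.Agent.Lib.H22M

/-- In this chunk `𝒢` is any sub-σ-algebra of `Y × Y` for which the first coordinate is measurable, and
`𝓔 f = ρ[fun z => f z.2|𝒢]`. Conjugation commutes with the conditional expectation
(`ContinuousLinearMap.comp_condExp..`/`condExp_ofReal..`-like lemma in Mathlib, or the uniqueness lemma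
`ae_eq_condExp_of_forall_setIntegral_eq`). -/
theorem condExp_conj {Ω : Type*} (𝒢 : MeasurableSpace Ω) [mΩ : MeasurableSpace Ω] (ρ : Measure Ω)
    [IsProbabilityMeasure ρ] (h𝒢 : 𝒢 ≤ mΩ) (f : Ω → ℂ) (hf : Integrable f ρ) :
    ρ[fun w => conj (f w)|𝒢] =ᵐ[ρ] fun w => conj ((ρ[f|𝒢]) w) := by
  have h := ContinuousLinearMap.comp_condExp_comm (m := 𝒢) hf
    (Complex.conjCLE : ℂ →L[ℝ] ℂ)
  exact h.symm


/-- The conditional expectation is a contraction in `L²`. Proof: in Mathlib there may be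
`eLpNorm_condExp_le` (for all `p ≥ 1`); or use `‖𝓔 f‖² = ∫ conj(𝓔 f) f` (pull-out property) and
Cauchy–Schwarz (`norm_integral_mul_conj_le`); note that `‖ρ[f|𝒢]‖ ≤ C` almost everywhere when
`‖f‖ ≤ C` (`ae_bdd_condExp_of_ae_bdd` for real functions, or through `condExpL2`). -/
theorem l2_condExp_le {Ω : Type*} (𝒢 : MeasurableSpace Ω) [mΩ : MeasurableSpace Ω]
    (ρ : Measure Ω) [IsProbabilityMeasure ρ] (h𝒢 : 𝒢 ≤ mΩ) (f : Ω → ℂ) (hf : BM f) :
    l2 ρ (ρ[f|𝒢]) ≤ l2 ρ f := by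
  have h2 : MemLp f 2 ρ := hf.memLp 2
  have h3 := h2.condExpL2_ae_eq_condExp (𝕜 := ℂ) h𝒢
  have h4 := norm_condExpL2_le (𝕜 := ℂ) h𝒢 (h2.toLp f)
  have h5 : l2 ρ (ρ[f|𝒢]) = ‖condExpL2 ℂ ℂ h𝒢 (h2.toLp f)‖ := by
    have h6 : MemLp (ρ[f|𝒢]) 2 ρ := h2.condExp (by norm_num)
    rw [l2_eq_norm_toLp h6]
    have h7 : h6.toLp (ρ[f|𝒢]) = ((condExpL2 ℂ ℂ h𝒢 (h2.toLp f) : lpMeas ℂ ℂ 𝒢 2 ρ) : Lp ℂ 2 ρ) := by
      apply Lp.ext
      exact h6.coeFn_toLp.trans h3.symm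
    rw [h7]
    rfl
  rw [h5, l2_eq_norm_toLp h2]
  exact h4


/-- Below `𝒢 = GG R p q ρ` and `𝓔 f = ρ[fun z => f z.2|𝒢]`. Proof. By `hσ` and `condExp_conj`:
`∫ f(z.1) conj f(z.2) dσ = ∫ ‖𝓔 f‖² dρ` (a nonnegative real number), so `qf σ f = l2 ρ (𝓔 f)`. -/
theorem qf_eq_l2 {Y : Type*} [MeasurableSpace Y] (R : Y → Y) (p q : ℕ)
    {ρ σ : Measure (Y × Y)} [IsProbabilityMeasure ρ]
    (hσ : ∀ f g : Y → ℂ, BM f → BM g → ∫ z, f z.1 * g z.2 ∂σ =
      ∫ w, (ρ[fun z => f z.2|GG R p q ρ]) w * (ρ[fun z => g z.2|GG R p q ρ]) w ∂ρ)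
    (f : Y → ℂ) (hf : BM f) :
    ∫ z, f z.1 * conj (f z.2) ∂σ = ((qf σ f ^ 2 : ℝ) : ℂ) ∧
      qf σ f = l2 ρ (ρ[fun z => f z.2|GG R p q ρ]) := by
  have h1 := hσ f (fun y => conj (f y)) hf hf.conj
  have h2 := condExp_conj (GG R p q ρ) ρ (GG_le R p q ρ) (fun z => f z.2)
    (hf.comp measurable_snd).integrable
  have h3 : ∫ z, f z.1 * conj (f z.2) ∂σ =
      ((∫ w, ‖(ρ[fun z => f z.2|GG R p q ρ]) w‖ ^ 2 ∂ρ : ℝ) : ℂ) := by
    have h4 : ((∫ w, ‖(ρ[fun z => f z.2|GG R p q ρ]) w‖ ^ 2 ∂ρ : ℝ) : ℂ) =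
        ∫ w, ((‖(ρ[fun z => f z.2|GG R p q ρ]) w‖ ^ 2 : ℝ) : ℂ) ∂ρ := integral_ofReal.symm
    rw [h1, h4]
    refine integral_congr_ae ?_
    filter_upwards [h2] with w hw
    rw [hw, Complex.mul_conj, Complex.normSq_eq_norm_sq]
  have h4 : qf σ f = l2 ρ (ρ[fun z => f z.2|GG R p q ρ]) := by
    unfold qf l2
    rw [h3, Complex.ofReal_re]
  exact ⟨by rw [h3, h4, l2_sq], h4⟩


/-- Proof. `add`: `𝓔 (f + g) = 𝓔 f + 𝓔 g` (`condExp_add`) and the triangle inequality in `L²(ρ)`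
(`qf_eq_l2`; the conditional expectations are almost everywhere bounded, so in `L²`). `le_l2`:
`l2_condExp_le` and `l2 ρ (f ∘ snd) = l2 m f` (`hsnd`, `l2_map`). `join`: `f ∘ fst` is bounded and
`𝒢`-measurable (`le_sup_left`), so `∫ f(z.1) conj g(z.2) dρ = ∫ ρ[f(z.1) conj g(z.2)|𝒢] dρ
= ∫ f(z.1) ρ[conj g(z.2)|𝒢] dρ` (`integral_condExp`, and the pull-out property: for complex functions
search Mathlib for the bilinear version in `Mathlib/MeasureTheory/Function/ConditionalExpectation/PullOut.lean`,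
or split in real and imaginary parts) `= ∫ f(z.1) conj (𝓔 g) dρ`, and Cauchy–Schwarz;
`l2 ρ (f ∘ fst) = l2 m f` by `hm`. -/
theorem relSq_norm {Y : Type*} [MeasurableSpace Y] (R : Y → Y) (p q : ℕ)
    {m : Measure Y} {ρ σ : Measure (Y × Y)} [IsProbabilityMeasure ρ]
    (hm : ρ.map Prod.fst = m) (hsnd : ρ.map Prod.snd = m)
    (hσ : ∀ f g : Y → ℂ, BM f → BM g → ∫ z, f z.1 * g z.2 ∂σ =
      ∫ w, (ρ[fun z => f z.2|GG R p q ρ]) w * (ρ[fun z => g z.2|GG R p q ρ]) w ∂ρ) :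
    (∀ f g : Y → ℂ, BM f → BM g → qf σ (fun y => f y + g y) ≤ qf σ f + qf σ g) ∧
      (∀ f : Y → ℂ, BM f → qf σ f ≤ l2 m f) ∧
      ∀ f g : Y → ℂ, BM f → BM g → ‖∫ z, f z.1 * conj (g z.2) ∂ρ‖ ≤ l2 m f * qf σ g := by
  have hGl := GG_le R p q ρ
  have hml : ∀ f : Y → ℂ, BM f → MemLp (ρ[fun z => f z.2|GG R p q ρ]) 2 ρ := fun f hf =>
    ((hf.comp measurable_snd).memLp 2).condExp (by norm_num)
  have hsn : ∀ f : Y → ℂ, BM f → l2 ρ (fun z => f z.2) = l2 m f := fun f hf => by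
    rw [← hsnd, l2_map measurable_snd hf.1]
  have hfs : ∀ f : Y → ℂ, BM f → l2 ρ (fun z => f z.1) = l2 m f := fun f hf => by
    rw [← hm, l2_map measurable_fst hf.1]
  refine ⟨fun f g hf hg => ?_, fun f hf => ?_, fun f g hf hg => ?_⟩
  · rw [(qf_eq_l2 R p q hσ _ (hf.add hg)).2, (qf_eq_l2 R p q hσ _ hf).2,
      (qf_eq_l2 R p q hσ _ hg).2]
    have h1 := condExp_add (μ := ρ) (f := fun z : Y × Y => f z.2) (g := fun z : Y × Y => g z.2)
      (hf.comp measurable_snd).integrable (hg.comp measurable_snd).integrable (GG R p q ρ)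
    have h2 : l2 ρ (ρ[fun z => f z.2 + g z.2|GG R p q ρ]) =
        l2 ρ (fun w => (ρ[fun z => f z.2|GG R p q ρ]) w + (ρ[fun z => g z.2|GG R p q ρ]) w) :=
      l2_congr h1
    rw [h2]
    exact l2_add_le_memLp (hml f hf) (hml g hg)
  · rw [(qf_eq_l2 R p q hσ _ hf).2, ← hsn f hf]
    exact l2_condExp_le (GG R p q ρ) ρ hGl _ (hf.comp measurable_snd)
  · rw [(qf_eq_l2 R p q hσ _ hg).2, ← hfs f hf]
    have hf1 : StronglyMeasurable[GG R p q ρ] (fun z : Y × Y => f z.1) := by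
      have h1 : Measurable[MeasurableSpace.comap Prod.fst inferInstance ⊔
          aeInv ρ (Prod.map (R^[p]) (R^[q]))] (fun z : Y × Y => f z.1) :=
        Measurable.mono (hf.1.comp (comap_measurable Prod.fst)) le_sup_left le_rfl
      exact h1.stronglyMeasurable
    have hg2 : BM fun z : Y × Y => g z.2 := hg.comp measurable_snd
    have h1 := condExp_bilin_of_stronglyMeasurable_left (μ := ρ) (ContinuousLinearMap.mul ℝ ℂ) hf1
      (g := fun z : Y × Y => conj (g z.2))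
      ((hf.comp measurable_fst).mul hg2.conj).integrable hg2.conj.integrable
    have h2 := condExp_conj (GG R p q ρ) ρ hGl (fun z => g z.2) hg2.integrable
    have h3 : ∫ z, f z.1 * conj (g z.2) ∂ρ =
        ∫ z, f z.1 * conj ((ρ[fun z => g z.2|GG R p q ρ]) z) ∂ρ := by
      rw [← integral_condExp hGl]
      refine integral_congr_ae ?_
      filter_upwards [h1, h2] with w h4 h5
      have h6 : (ρ[fun z => f z.1 * conj (g z.2)|GG R p q ρ]) w =
        f w.1 * (ρ[fun z => conj (g z.2)|GG R p q ρ]) w := h4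
      rw [h6, h5]
    rw [h3]
    exact norm_integral_mul_conj_le_memLp ((hf.comp measurable_fst).memLp 2) (hml g hg)


end Pool.Agent.Lib.H22M
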