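import Pool.Agent.Lib.H22M.JA
import Pool.Agent.Lib.H22M.JB
import Pool.Agent.Lib.H22M.E1
import Pool.Agent.Lib.H22M.E0

/-!
# Project H22M, chunk JJ: the relative square of a joining of two powers
-/

open MeasureTheory Filter Topology Finset
open scoped ComplexConjugate

namespace Pool.Agent.Lib.H22M

/-- Proof. Let `𝒢 = GG R p q ρ`, `𝓔 f = ρ[fun z => f z.2|𝒢]` and let `σ` be the measure of
`exists_relSquare` with `π = Prod.snd` (`GG_le`):
`∫ f(z.1) g(z.2) dσ = ∫ 𝓔 f * 𝓔 g dρ` for `f, g` in `BM` (*).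
* `fst`, `snd`: `relSq_marginals`; `inv`: `relSq_invariant`; `sq`: `qf_eq_l2`; `add`, `le_l2`, `join`:
  `relSq_norm` (`le_sup_left` for `hfst`).
* `eig_zero`: `condExp_eigen_zero` gives `𝓔 e = 0` almost everywhere, hence by (*) both integrals are `0`,
  and `qf σ e = 0` by `qf_eq_l2` (or by definition and the vanishing of the integral, `g = conj e`).
* `eig_pow`: `condExp_eigen_pow` gives `𝓔 e = e ∘ snd` almost everywhere. So
  `∫ e(z.1) g(z.2) dσ = ∫ 𝓔 e * 𝓔 g dρ = ∫ ρ[𝓔 e * g(z.2)|𝒢] dρ = ∫ 𝓔 e * g(z.2) dρ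
  = ∫ e(z.2) g(z.2) dρ = ∫ e g dm`: pull-out property with the `𝒢`-measurable function `𝓔 e`, which is
  almost everywhere bounded (by a bound of `e`), and `integral_condExp`, `hρ.snd`. -/
theorem exists_relSq {Y : Type*} [MeasurableSpace Y] [StandardBorelSpace Y] {m : Measure Y}
    [IsProbabilityMeasure m] (R : Y ≃ᵐ Y) (hR : Ergodic R m) (p q : ℕ)
    (herg : Ergodic ((⇑R)^[p]) m) (hpq : p.Coprime q) (ρ : Measure (Y × Y))
    (hρ : IsJoin m R p q ρ) : ∃ σ : Measure (Y × Y), RelSq m R p q ρ σ := by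
  have hρp : IsProbabilityMeasure ρ := hρ.prob
  obtain ⟨σ, hσp, hσ⟩ := exists_relSquare (GG (⇑R) p q ρ) ρ (GG_le (⇑R) p q ρ) Prod.snd
    measurable_snd
  have hnorm := relSq_norm (⇑R) p q hρ.fst hρ.snd hσ
  have hmarg := relSq_marginals (⇑R) hρ hσ
  refine ⟨σ, ⟨hσp, hmarg.1, hmarg.2, relSq_invariant R hρ hσ,
    fun f hf => (qf_eq_l2 (⇑R) p q hσ f hf).1, hnorm.1, hnorm.2.1, hnorm.2.2, ?_, ?_⟩⟩
  · intro e c he hc h hne
    have h0 := condExp_eigen_zero hR herg hpq hρ e he c hc h hne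
    refine ⟨?_, fun g hg => ⟨?_, ?_⟩⟩
    · rw [(qf_eq_l2 (⇑R) p q hσ e he).2, l2_congr (g := fun _ => 0) h0, l2_const, norm_zero]
    · rw [hσ e g he hg]
      have h1 : (fun w => (ρ[fun z => e z.2|GG (⇑R) p q ρ]) w *
          (ρ[fun z => g z.2|GG (⇑R) p q ρ]) w) =ᵐ[ρ] fun _ => (0 : ℂ) := by
        filter_upwards [h0] with w hw
        rw [hw]; simp
      rw [integral_congr_ae h1, integral_zero]
    · rw [hσ g e hg he]
      have h1 : (fun w => (ρ[fun z => g z.2|GG (⇑R) p q ρ]) w *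
          (ρ[fun z => e z.2|GG (⇑R) p q ρ]) w) =ᵐ[ρ] fun _ => (0 : ℂ) := by
        filter_upwards [h0] with w hw
        rw [hw]; simp
      rw [integral_congr_ae h1, integral_zero]
  · intro e l he hl h g hg
    have h0 := condExp_eigen_pow hR.toMeasurePreserving hρ e he l hl h
    have he2 : BM (fun z : Y × Y => e z.2) := he.comp measurable_snd
    have hg2 : BM (fun z : Y × Y => g z.2) := hg.comp measurable_snd
    have hsm : StronglyMeasurable[GG (⇑R) p q ρ] (ρ[fun z => e z.2|GG (⇑R) p q ρ]) :=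
      stronglyMeasurable_condExp
    have hint : Integrable (fun z : Y × Y => (ρ[fun z => e z.2|GG (⇑R) p q ρ]) z * g z.2) ρ := by
      refine (he2.mul hg2).integrable.congr ?_
      filter_upwards [h0] with w hw
      rw [hw]
    have hpull : ρ[fun z => (ρ[fun z => e z.2|GG (⇑R) p q ρ]) z * g z.2|GG (⇑R) p q ρ] =ᵐ[ρ]
        fun w => (ρ[fun z => e z.2|GG (⇑R) p q ρ]) w * (ρ[fun z => g z.2|GG (⇑R) p q ρ]) w :=
      condExp_bilin_of_stronglyMeasurable_left (ContinuousLinearMap.mul ℝ ℂ) hsm hint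
        hg2.integrable
    rw [hσ e g he hg]
    calc ∫ w, (ρ[fun z => e z.2|GG (⇑R) p q ρ]) w * (ρ[fun z => g z.2|GG (⇑R) p q ρ]) w ∂ρ
        = ∫ w, (ρ[fun z => (ρ[fun z => e z.2|GG (⇑R) p q ρ]) z * g z.2|GG (⇑R) p q ρ]) w ∂ρ := by
          refine integral_congr_ae ?_
          exact hpull.symm
      _ = ∫ w, (ρ[fun z => e z.2|GG (⇑R) p q ρ]) w * g w.2 ∂ρ :=
          integral_condExp (GG_le (⇑R) p q ρ)
      _ = ∫ w, e w.2 * g w.2 ∂ρ := by
          refine integral_congr_ae ?_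
          filter_upwards [h0] with w hw
          rw [hw]
      _ = ∫ y, e y * g y ∂m := by
          rw [← hρ.snd, integral_map measurable_snd.aemeasurable]
          exact (he.mul hg).1.aestronglyMeasurable

end Pool.Agent.Lib.H22M
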