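import Pool.Agent.Lib.H22M.CA
import Pool.Agent.Lib.H22M.CB1
import Pool.Agent.Lib.H22M.CB2
import Pool.Agent.Lib.H22M.JJ

/-!
# Project H22M, chunk CB: for a good prime `p` there are boundedly many bad primes `q`
-/

open MeasureTheory Filter Topology Finset
open scoped ComplexConjugate

namespace Pool.Agent.Lib.H22M

section

variable {Z K M : Type*} [CommGroup Z] [TopologicalSpace Z] [IsTopologicalGroup Z]
  [CompactSpace Z] [T2Space Z] [SecondCountableTopology Z] [MeasurableSpace Z] [BorelSpace Z]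
  [Group K] [TopologicalSpace K] [IsTopologicalGroup K] [CompactSpace K] [T2Space K]
  [SecondCountableTopology K] [MeasurableSpace K] [BorelSpace K]
  [TopologicalSpace M] [CompactSpace M] [T2Space M] [SecondCountableTopology M]
  [MeasurableSpace M] [BorelSpace M] [MulAction K M] [ContinuousSMul K M]
  [MulAction.IsPretransitive K M]
  (lam : Measure Z) [lam.IsHaarMeasure] [IsProbabilityMeasure lam]
  (muM : Measure M) [IsProbabilityMeasure muM] [SMulInvariantMeasure K M muM]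

/-- Let `m = lam.prod muM`, `R = skew α φ`. Proof. Take `exists_decomposition` for `ε = ε₀/2`:
`G, D, b, B, F0, Φ, N, e, c, r`. Let `C` bound all `|b_i|` (finitely many, `BM`) and
`m0 ≥ 4 B² (n C²)²/(ε²)²` a natural number. Let `p` be in `goodPrimes m R F0` and `Q` with `m0 < |Q|`;
suppose that for every `q ∈ Q` there is `ρ_q` with `IsJoin m R p q ρ_q` and
`‖∫ F(z.1) conj F(z.2) dρ_q‖ > ε₀ = 2 ε`. Let `σ_q` be from `exists_relSq` (applied to `skewE α φ hφ`, whose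
underlying function is `skew α φ`; `Z × M` is standard Borel by `standardBorel_of_compact`; `p, q` are
different primes, so coprime). By `qf_ge` (the eigenvalues `c_i ∈ F0` are not `p`-th powers of eigenvalues)
`ε ≤ qf σ_q (ft G b)` (`ft G b` is in `BM` since the `G_i` are continuous on a compact space). Conclude
with `not_all_bad`. -/
theorem bad_bound (α : Z) (φ : Z → K) (hφ : Measurable φ)
    (herg : ∀ n : ℕ, 1 ≤ n → Ergodic ((skew (M := M) α φ)^[n]) (lam.prod muM))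
    (F : Z × M → ℂ) (hF : Measurable F) (hF1 : ∀ y, ‖F y‖ ≤ 1)
    (hF0 : ∫ y, F y ∂(lam.prod muM) = 0) (ε₀ : ℝ) (hε : 0 < ε₀) :
    ∃ F0 : Finset ℂ, 1 ∉ F0 ∧ ∃ m0 : ℕ, ∀ p ∈ goodPrimes (lam.prod muM) (skew α φ) F0,
      ∀ Q : Finset ℕ, (∀ q ∈ Q, q.Prime ∧ q ≠ p) → m0 < Q.card →
        ∃ q ∈ Q, ∀ ρ : Measure ((Z × M) × (Z × M)), IsJoin (lam.prod muM) (skew α φ) p q ρ →
          ‖∫ z, F z.1 * conj (F z.2) ∂ρ‖ ≤ ε₀ := by
  have hR : Ergodic (skew (M := M) α φ) (lam.prod muM) := herg 1 le_rfl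
  obtain ⟨n, G, D, b, B, F0, Φ, N, k, e, c, r, hft, hb, hB0, hB, h1, hN, he, hr, hrε, hdec,
    hΦ, hlast⟩ := exists_decomposition lam muM α φ hφ hR F ⟨hF, 1, hF1⟩ hF0 (ε₀ / 2)
      (by positivity)
  -- a common bound for the coefficients
  obtain ⟨C, hC⟩ : ∃ C : ℝ, ∀ i z, ‖b i z‖ ≤ C := by
    choose Cb hCb using fun i => (hb i).2
    refine ⟨∑ i, |Cb i|, fun i z => (hCb i z).trans ?_⟩
    exact (le_abs_self _).trans
      (Finset.single_le_sum (f := fun i => |Cb i|) (fun j _ => abs_nonneg _) (Finset.mem_univ i))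
  obtain ⟨m0, hm0⟩ := exists_nat_ge (4 * B ^ 2 * (n * C ^ 2) ^ 2 / ((ε₀ / 2) ^ 2) ^ 2)
  refine ⟨F0, h1, m0, fun p hp Q hQ hcard => ?_⟩
  by_contra hcon
  push Not at hcon
  have hpp : p.Prime := hp.1
  have hergp : Ergodic ((skew (M := M) α φ)^[p]) (lam.prod muM) := herg p hpp.one_le
  have := standardBorel_of_compact Z
  have := standardBorel_of_compact M
  have key : ∀ q ∈ Q, ∃ ρσ : Measure ((Z × M) × (Z × M)) × Measure ((Z × M) × (Z × M)),
      RelSq (lam.prod muM) (skew α φ) p q ρσ.1 ρσ.2 ∧ ε₀ / 2 ≤ qf ρσ.2 (ft G b) := by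
    intro q hq
    obtain ⟨ρ, hρ, hbad⟩ := hcon q hq
    have hcop : p.Coprime q := (Nat.coprime_primes hpp (hQ q hq).1).mpr (hQ q hq).2.symm
    obtain ⟨σ, hσ⟩ := exists_relSq (m := lam.prod muM) (skewE (M := M) α φ hφ) hR p q hergp hcop ρ
      hρ
    refine ⟨(ρ, σ), hσ, ?_⟩
    refine qf_ge hσ F r (ft G b) hF hF1 hr ?_ k e c ?_ (ε₀ / 2) hrε hdec ?_
    · have hG : ∀ i, BM (G i) := fun i => by
        obtain ⟨CG, hCG⟩ := (isCompact_range (hft.cont i)).isBounded.exists_norm_le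
        exact ⟨(hft.cont i).measurable, CG, fun y => hCG _ ⟨y, rfl⟩⟩
      exact BM.sum _ fun i _ => ((hb i).comp measurable_fst).mul ((hG i).comp measurable_snd)
    · intro i
      exact ⟨(he i).1, (he i).2.1, (he i).2.2.2, fun l hl => hp.2 (c i) (he i).2.2.1 l hl⟩
    · linarith
  choose! ρσ hρσ using key
  refine not_all_bad lam muM α φ hφ hR.measurable hft b hb C hC B hB0 hB p Q
    (fun q hq => (hQ q hq).1) (ε₀ / 2) (by positivity) ?_ (fun q => (ρσ q).1)
    (fun q => (ρσ q).2) (fun q hq => (hρσ q hq).1) (fun q hq => (hρσ q hq).2) N hN Φ ?_ hlast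
  · calc 4 * B ^ 2 * (n * C ^ 2) ^ 2 / ((ε₀ / 2) ^ 2) ^ 2 ≤ (m0 : ℝ) := hm0
      _ < Q.card := by exact_mod_cast hcard
  · intro χ hχ l hl
    exact hp.2 _ (hΦ χ hχ) l hl

end

end Pool.Agent.Lib.H22M
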