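import Mathlib
import Pool.Agent.Lib.CompactAbelian.Parseval

/-!
# Project H22M (MP_10e165_an): definitions

Möbius disjointness of the uniquely ergodic models of isometric extensions of rotations.
-/

open MeasureTheory Filter Topology
open scoped ENNReal ComplexConjugate

namespace Pool.Agent.Lib.H22M

/-! ## Eigenvalues -/

/-- `c` is an eigenvalue of `R`: there is a measurable function of modulus one almost everywhere
with `f (R y) = c * f y` for almost every `y`. -/
def IsEigenvalue {Y : Type*} [MeasurableSpace Y] (m : Measure Y) (R : Y → Y) (c : ℂ) : Prop :=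
  ∃ f : Y → ℂ, Measurable f ∧ (∀ᵐ y ∂m, ‖f y‖ = 1) ∧ ∀ᵐ y ∂m, f (R y) = c * f y

/-- The primes `p` such that no element of `F` is the `p`-th power of an eigenvalue of `R`. -/
def goodPrimes {Y : Type*} [MeasurableSpace Y] (m : Measure Y) (R : Y → Y) (F : Finset ℂ) : Set ℕ :=
  {p : ℕ | p.Prime ∧ ∀ c ∈ F, ∀ e : ℂ, IsEigenvalue m R e → e ^ p ≠ c}

/-- For every finite set `F` of complex numbers different from `1`, the primes `p` such that no
element of `F` is the `p`-th power of an eigenvalue of `R` have a divergent sum of reciprocals. -/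
def ManyGoodPrimes {Y : Type*} [MeasurableSpace Y] (m : Measure Y) (R : Y → Y) : Prop :=
  ∀ F : Finset ℂ, (1 : ℂ) ∉ F →
    ¬ Summable (Set.indicator (goodPrimes m R F) (fun p : ℕ => 1 / (p : ℝ)))

/-! ## Skew products and models -/

/-- The skew product `(z, u) ↦ (α z, φ(z) u)`. -/
def skew {Z K M : Type*} [Mul Z] [SMul K M] (α : Z) (φ : Z → K) (y : Z × M) : Z × M :=
  (α * y.1, φ y.1 • y.2)

/-- `(X, T)` with the measure `ν` is a uniquely ergodic model of `(Y, m, R)`; the isomorphism modulo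
null sets is given by `θ : X → Y` and `ψ : Y → X`. -/
structure IsUEModel {X Y : Type*} [MeasurableSpace X] [MeasurableSpace Y]
    (T : X → X) (ν : Measure X) (m : Measure Y) (R : Y → Y) (θ : X → Y) (ψ : Y → X) : Prop where
  prob : IsProbabilityMeasure ν
  inv : MeasurePreserving T ν ν
  unique : ∀ ν' : Measure X, IsProbabilityMeasure ν' → MeasurePreserving T ν' ν' → ν' = ν
  meas_theta : Measurable θ
  meas_psi : Measurable ψ
  map_theta : ν.map θ = m
  map_psi : m.map ψ = ν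
  left_inv : ∀ᵐ x ∂ν, ψ (θ x) = x
  right_inv : ∀ᵐ y ∂m, θ (ψ y) = y
  equiv : ∀ᵐ x ∂ν, θ (T x) = R (θ x)

/-! ## Auxiliary notions -/

/-- Bounded measurable complex functions. -/
def BM {Y : Type*} [MeasurableSpace Y] (f : Y → ℂ) : Prop :=
  Measurable f ∧ ∃ C : ℝ, ∀ y, ‖f y‖ ≤ C

/-- The norm in `L²(m)`. -/
noncomputable def l2 {Y : Type*} [MeasurableSpace Y] (m : Measure Y) (f : Y → ℂ) : ℝ :=
  Real.sqrt (∫ y, ‖f y‖ ^ 2 ∂m)

/-- The square root of `∫ f(y) conj f(y') dσ(y, y')`. -/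
noncomputable def qf {Y : Type*} [MeasurableSpace Y] (σ : Measure (Y × Y)) (f : Y → ℂ) : ℝ :=
  Real.sqrt (∫ z, f z.1 * conj (f z.2) ∂σ).re

/-- A joining of `(Y, m, R^p)` and `(Y, m, R^q)`. -/
structure IsJoin {Y : Type*} [MeasurableSpace Y] (m : Measure Y) (R : Y → Y) (p q : ℕ)
    (ρ : Measure (Y × Y)) : Prop where
  prob : IsProbabilityMeasure ρ
  fst : ρ.map Prod.fst = m
  snd : ρ.map Prod.snd = m
  inv : MeasurePreserving (Prod.map (R^[p]) (R^[q])) ρ ρ

/-- The σ-algebra of the measurable sets invariant modulo null sets. -/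
@[reducible] def aeInv {Ω : Type*} [MeasurableSpace Ω] (ρ : Measure Ω) (S : Ω → Ω) : MeasurableSpace Ω where
  MeasurableSet' s := MeasurableSet s ∧ S ⁻¹' s =ᵐ[ρ] s
  measurableSet_empty := ⟨MeasurableSet.empty, EventuallyEq.refl _ _⟩
  measurableSet_compl s hs := ⟨hs.1.compl, by
    rw [Set.preimage_compl]
    exact hs.2.compl⟩
  measurableSet_iUnion f hf := ⟨MeasurableSet.iUnion fun i => (hf i).1, by
    rw [Set.preimage_iUnion]
    exact Filter.EventuallyEq.countable_iUnion fun i => (hf i).2⟩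

/-- The σ-algebra generated by the first coordinate and the invariant sets of `R^p × R^q`. -/
@[reducible] def GG {Y : Type*} [MeasurableSpace Y] (R : Y → Y) (p q : ℕ) (ρ : Measure (Y × Y)) :
    MeasurableSpace (Y × Y) :=
  MeasurableSpace.comap Prod.fst inferInstance ⊔ aeInv ρ (Prod.map (R^[p]) (R^[q]))

theorem aeInv_le {Ω : Type*} [mΩ : MeasurableSpace Ω] (ρ : Measure Ω) (S : Ω → Ω) :
    aeInv ρ S ≤ mΩ := fun _ hs => hs.1

theorem GG_le {Y : Type*} [MeasurableSpace Y] (R : Y → Y) (p q : ℕ) (ρ : Measure (Y × Y)) :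
    GG R p q ρ ≤ (inferInstance : MeasurableSpace (Y × Y)) :=
  sup_le measurable_fst.comap_le (aeInv_le _ _)

/-- The relative square `σ` of a joining `ρ` of `R^p` and `R^q` and its properties. -/
structure RelSq {Y : Type*} [MeasurableSpace Y] (m : Measure Y) (R : Y → Y) (p q : ℕ)
    (ρ : Measure (Y × Y)) (σ : Measure (Y × Y)) : Prop where
  prob : IsProbabilityMeasure σ
  fst : σ.map Prod.fst = m
  snd : σ.map Prod.snd = m
  inv : MeasurePreserving (Prod.map (R^[q]) (R^[q])) σ σ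
  /-- `∫ f ⊗ conj f dσ` is the square of `qf σ f`. -/
  sq : ∀ f : Y → ℂ, BM f → ∫ z, f z.1 * conj (f z.2) ∂σ = ((qf σ f ^ 2 : ℝ) : ℂ)
  add : ∀ f g : Y → ℂ, BM f → BM g → qf σ (fun y => f y + g y) ≤ qf σ f + qf σ g
  le_l2 : ∀ f : Y → ℂ, BM f → qf σ f ≤ l2 m f
  join : ∀ f g : Y → ℂ, BM f → BM g → ‖∫ z, f z.1 * conj (g z.2) ∂ρ‖ ≤ l2 m f * qf σ g
  /-- Eigenfunctions whose eigenvalue is not a `p`-th power of an eigenvalue. -/
  eig_zero : ∀ (e : Y → ℂ) (c : ℂ), BM e → ‖c‖ = 1 → (∀ᵐ y ∂m, e (R y) = c * e y) →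
    (∀ l : ℂ, IsEigenvalue m R l → l ^ p ≠ c) →
    qf σ e = 0 ∧ ∀ g : Y → ℂ, BM g → ∫ z, e z.1 * g z.2 ∂σ = 0 ∧ ∫ z, g z.1 * e z.2 ∂σ = 0
  /-- Eigenfunctions whose eigenvalue is a `p`-th power of an eigenvalue. -/
  eig_pow : ∀ (e : Y → ℂ) (l : ℂ), BM e → IsEigenvalue m R l →
    (∀ᵐ y ∂m, e (R y) = l ^ p * e y) →
    ∀ g : Y → ℂ, BM g → ∫ z, e z.1 * g z.2 ∂σ = ∫ y, e y * g y ∂m

/-! ## Functions of finite type -/

/-- Finite type data on the homogeneous space `M`: continuous functions `G i`, orthonormal, whose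
span is invariant under `K`; `D k` is the matrix of the translation by `k`. -/
structure FTD {K M : Type*} [SMul K M] [TopologicalSpace M] [MeasurableSpace M]
    [MeasurableSpace K] (muM : Measure M) {n : ℕ} (G : Fin n → M → ℂ)
    (D : K → Fin n → Fin n → ℂ) : Prop where
  cont : ∀ i, Continuous (G i)
  measD : ∀ i j, Measurable fun k => D k i j
  rel : ∀ k u i, G i (k • u) = ∑ j, D k i j * G j u
  orth : ∀ i j, ∫ u, G i u * conj (G j u) ∂muM = if i = j then 1 else 0
  unit : ∀ k i i', ∑ j, D k i j * conj (D k i' j) = if i = i' then 1 else 0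

/-- The finite type function with coefficients `b`. -/
def ft {Z M : Type*} {n : ℕ} (G : Fin n → M → ℂ) (b : Fin n → Z → ℂ) (y : Z × M) : ℂ :=
  ∑ i, b i y.1 * G i y.2

/-- The coefficients of `ft G b ∘ skew α φ`. -/
def evo {Z K : Type*} [Mul Z] {n : ℕ} (α : Z) (φ : Z → K) (D : K → Fin n → Fin n → ℂ)
    (b : Fin n → Z → ℂ) : Fin n → Z → ℂ :=
  fun j z => ∑ i, D (φ z) i j * b i (α * z)

/-- The unitary matrices of the twisted translation on `Z × Z`. -/
def WW {Z K : Type*} {n : ℕ} (φ : Z → K) (D : K → Fin n → Fin n → ℂ) (w : Z × Z)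
    (k l : Fin n × Fin n) : ℂ :=
  D (φ w.1) k.1 l.1 * conj (D (φ w.2) k.2 l.2)

/-- `U` is the twisted translation operator on `L²(ν; ℂ^κ)` with matrices `W` over `τ`. -/
def IsTwist {X κ : Type*} [MeasurableSpace X] [Fintype κ] (ν : Measure X) (τ : X → X)
    (W : X → κ → κ → ℂ)
    (U : Lp (EuclideanSpace ℂ κ) 2 ν →ₗᵢ[ℂ] Lp (EuclideanSpace ℂ κ) 2 ν) : Prop :=
  ∀ c : Lp (EuclideanSpace ℂ κ) 2 ν, ∀ᵐ x ∂ν, ∀ l, (U c) x l = ∑ k, W x k l * c (τ x) k

/-! ## Small lemmas -/

theorem BM.memLp {Y : Type*} [MeasurableSpace Y] {m : Measure Y} [IsFiniteMeasure m] {f : Y → ℂ}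
    (hf : BM f) (p : ℝ≥0∞) : MemLp f p m := by
  obtain ⟨h1, C, hC⟩ := hf
  exact MemLp.of_bound h1.aestronglyMeasurable C (Eventually.of_forall hC)

theorem BM.integrable {Y : Type*} [MeasurableSpace Y] {m : Measure Y} [IsFiniteMeasure m]
    {f : Y → ℂ} (hf : BM f) : Integrable f m := memLp_one_iff_integrable.mp (hf.memLp 1)

theorem BM.mul {Y : Type*} [MeasurableSpace Y] {f g : Y → ℂ} (hf : BM f) (hg : BM g) :
    BM fun y => f y * g y := by
  obtain ⟨h1, C, hC⟩ := hf
  obtain ⟨h2, C', hC'⟩ := hg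
  refine ⟨h1.mul h2, C * C', fun y => ?_⟩
  rw [norm_mul]
  exact mul_le_mul (hC y) (hC' y) (norm_nonneg _) ((norm_nonneg _).trans (hC y))

theorem BM.add {Y : Type*} [MeasurableSpace Y] {f g : Y → ℂ} (hf : BM f) (hg : BM g) :
    BM fun y => f y + g y := by
  obtain ⟨h1, C, hC⟩ := hf
  obtain ⟨h2, C', hC'⟩ := hg
  exact ⟨h1.add h2, C + C', fun y => (norm_add_le _ _).trans (add_le_add (hC y) (hC' y))⟩

theorem BM.sub {Y : Type*} [MeasurableSpace Y] {f g : Y → ℂ} (hf : BM f) (hg : BM g) :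
    BM fun y => f y - g y := by
  obtain ⟨h1, C, hC⟩ := hf
  obtain ⟨h2, C', hC'⟩ := hg
  exact ⟨h1.sub h2, C + C', fun y => (norm_sub_le _ _).trans (add_le_add (hC y) (hC' y))⟩

theorem BM.conj {Y : Type*} [MeasurableSpace Y] {f : Y → ℂ} (hf : BM f) :
    BM fun y => conj (f y) := by
  obtain ⟨h1, C, hC⟩ := hf
  refine ⟨Complex.continuous_conj.measurable.comp h1, C, fun y => ?_⟩
  rw [RCLike.norm_conj]
  exact hC y

theorem BM.comp {Y Y' : Type*} [MeasurableSpace Y] [MeasurableSpace Y'] {f : Y → ℂ} (hf : BM f)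
    {g : Y' → Y} (hg : Measurable g) : BM fun y => f (g y) := by
  obtain ⟨h1, C, hC⟩ := hf
  exact ⟨h1.comp hg, C, fun y => hC _⟩

theorem BM.const {Y : Type*} [MeasurableSpace Y] (c : ℂ) : BM fun _ : Y => c :=
  ⟨measurable_const, ‖c‖, fun _ => le_rfl⟩

theorem BM.sum {Y ι : Type*} [MeasurableSpace Y] (s : Finset ι) {f : ι → Y → ℂ}
    (hf : ∀ i ∈ s, BM (f i)) : BM fun y => ∑ i ∈ s, f i y := by
  classical
  induction s using Finset.induction_on with
  | empty => simpa using BM.const (Y := Y) 0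
  | insert a s ha ih =>
    simp_rw [Finset.sum_insert ha]
    exact (hf a (Finset.mem_insert_self a s)).add
      (ih fun i hi => hf i (Finset.mem_insert_of_mem hi))

theorem l2_nonneg {Y : Type*} [MeasurableSpace Y] (m : Measure Y) (f : Y → ℂ) : 0 ≤ l2 m f :=
  Real.sqrt_nonneg _

theorem qf_nonneg {Y : Type*} [MeasurableSpace Y] (σ : Measure (Y × Y)) (f : Y → ℂ) :
    0 ≤ qf σ f := Real.sqrt_nonneg _

theorem ft_evo {Z K M : Type*} [Mul Z] [SMul K M] [TopologicalSpace M] [MeasurableSpace M]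
    [MeasurableSpace K] {muM : Measure M} {n : ℕ} {G : Fin n → M → ℂ}
    {D : K → Fin n → Fin n → ℂ} (h : FTD muM G D) (α : Z) (φ : Z → K) (b : Fin n → Z → ℂ)
    (y : Z × M) : ft G (evo α φ D b) y = ft G b (skew α φ y) := by
  unfold ft evo skew
  simp only
  simp_rw [h.rel, Finset.mul_sum, Finset.sum_mul]
  rw [Finset.sum_comm]
  refine Finset.sum_congr rfl fun i _ => Finset.sum_congr rfl fun j _ => ?_
  ring

/-- Compact second countable Hausdorff spaces are standard Borel. -/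
theorem standardBorel_of_compact (X : Type*) [TopologicalSpace X] [CompactSpace X] [T2Space X]
    [SecondCountableTopology X] [MeasurableSpace X] [BorelSpace X] : StandardBorelSpace X := by
  let _ : MetricSpace X := TopologicalSpace.metrizableSpaceMetric X
  have : PolishSpace X := inferInstance
  exact inferInstance

/-- The skew product as a measurable equivalence. -/
noncomputable def skewE {Z K M : Type*} [Group Z] [MeasurableSpace Z] [MeasurableMul Z] [Group K]
    [MeasurableSpace K] [MeasurableInv K] [MeasurableSpace M] [MulAction K M] [MeasurableSMul₂ K M]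
    (α : Z) (φ : Z → K) (hφ : Measurable φ) : (Z × M) ≃ᵐ (Z × M) where
  toFun := skew α φ
  invFun y := (α⁻¹ * y.1, (φ (α⁻¹ * y.1))⁻¹ • y.2)
  left_inv y := by simp [skew]
  right_inv y := by simp [skew]
  measurable_toFun := by
    refine Measurable.prodMk (measurable_fst.const_mul α) ?_
    exact (hφ.comp measurable_fst).smul measurable_snd
  measurable_invFun := by
    refine Measurable.prodMk (measurable_fst.const_mul _) ?_
    exact ((hφ.comp (measurable_fst.const_mul _)).inv).smul measurable_snd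

end Pool.Agent.Lib.H22M
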