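import Pool.Agent.Lib.H22M.Defs

/-!
# Project H22M, chunk EG: eigenvalues
-/

open MeasureTheory Filter Topology Finset
open scoped ComplexConjugate

namespace Pool.Agent.Lib.H22M

section

variable {Y : Type*} [MeasurableSpace Y] {m : Measure Y} {R : Y → Y}

/-- Product of the eigenfunctions. -/
theorem IsEigenvalue.mul {a b : ℂ} (ha : IsEigenvalue m R a) (hb : IsEigenvalue m R b) :
    IsEigenvalue m R (a * b) := by
  obtain ⟨f, hf, hf1, hfe⟩ := ha
  obtain ⟨g, hg, hg1, hge⟩ := hb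
  refine ⟨fun y => f y * g y, hf.mul hg, ?_, ?_⟩
  · filter_upwards [hf1, hg1] with y h1 h2
    rw [norm_mul, h1, h2, one_mul]
  · filter_upwards [hfe, hge] with y h1 h2
    rw [h1, h2]
    ring

/-- Induction with `IsEigenvalue.mul`; the constant `1` is an eigenfunction for `1`. -/
theorem IsEigenvalue.pow {a : ℂ} (ha : IsEigenvalue m R a) (n : ℕ) :
    IsEigenvalue m R (a ^ n) := by
  induction n with
  | zero =>
    refine ⟨fun _ => 1, measurable_const, Eventually.of_forall fun y => by simp,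
      Eventually.of_forall fun y => by simp⟩
  | succ n ih =>
    rw [pow_succ]
    exact ih.mul ha

/-- `m ≠ 0` and `R` preserves `m`, so there is a `y` with `‖f y‖ = ‖f (R y)‖ = 1` and
`f (R y) = a f y`. -/
theorem IsEigenvalue.norm_eq [IsProbabilityMeasure m] (hR : MeasurePreserving R m m) {a : ℂ}
    (ha : IsEigenvalue m R a) : ‖a‖ = 1 := by
  obtain ⟨f, hf, hf1, hfe⟩ := ha
  have h1 : ∀ᵐ y ∂m, ‖f (R y)‖ = 1 := hR.quasiMeasurePreserving.ae hf1
  obtain ⟨y, h2, h3, h4⟩ := (hf1.and (h1.and hfe)).exists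
  rw [h4, norm_mul, h2, mul_one] at h3
  exact h3

/-- The conjugate of the eigenfunction, with `conj a = a⁻¹` by `IsEigenvalue.norm_eq`. -/
theorem IsEigenvalue.inv [IsProbabilityMeasure m] (hR : MeasurePreserving R m m) {a : ℂ}
    (ha : IsEigenvalue m R a) : IsEigenvalue m R a⁻¹ := by
  have hn := ha.norm_eq hR
  obtain ⟨f, hf, hf1, hfe⟩ := ha
  refine ⟨fun y => conj (f y), Complex.continuous_conj.measurable.comp hf, ?_, ?_⟩
  · filter_upwards [hf1] with y h1
    rw [RCLike.norm_conj, h1]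
  · filter_upwards [hfe] with y h1
    rw [h1, map_mul]
    congr 1
    rw [Complex.inv_def, Complex.normSq_eq_norm_sq, hn]
    simp

/-- `‖e‖ ∘ R = ‖e‖` almost everywhere; use the ergodicity (e.g. `Ergodic.ae_eq_const_of_ae_eq_comp_ae`
or `Ergodic.ae_eq_const_of_ae_eq_comp₀`). -/
theorem norm_const_of_eigen [IsProbabilityMeasure m] (hR : Ergodic R m) (e : Y → ℂ)
    (he : Measurable e) (c : ℂ) (hc : ‖c‖ = 1) (h : ∀ᵐ y ∂m, e (R y) = c * e y) :
    ∃ β : ℝ, 0 ≤ β ∧ ∀ᵐ y ∂m, ‖e y‖ = β := by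
  have h1 : (fun y => ‖e y‖) ∘ R =ᵐ[m] fun y => ‖e y‖ := by
    filter_upwards [h] with y hy
    show ‖e (R y)‖ = ‖e y‖
    rw [hy, norm_mul, hc, one_mul]
  obtain ⟨β, hβ⟩ := hR.ae_eq_const_of_ae_eq_comp_ae he.norm.aestronglyMeasurable h1
  obtain ⟨y, hy⟩ := hβ.exists
  refine ⟨β, ?_, hβ⟩
  have h2 : ‖e y‖ = β := hy
  rw [← h2]
  exact norm_nonneg _

/-- By `norm_const_of_eigen`, `‖e‖ = β` almost everywhere; `β ≠ 0`, and `β⁻¹ e` is an eigenfunction of
modulus one. -/
theorem isEigenvalue_of_eigen [IsProbabilityMeasure m] (hR : Ergodic R m) (e : Y → ℂ)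
    (he : Measurable e) (c : ℂ) (hc : ‖c‖ = 1) (h : ∀ᵐ y ∂m, e (R y) = c * e y)
    (hne : ¬ ∀ᵐ y ∂m, e y = 0) : IsEigenvalue m R c := by
  obtain ⟨β, hβ0, hβ⟩ := norm_const_of_eigen hR e he c hc h
  have hβ1 : β ≠ 0 := by
    rintro rfl
    exact hne (hβ.mono fun y hy => norm_eq_zero.1 hy)
  refine ⟨fun y => (β : ℂ)⁻¹ * e y, he.const_mul _, ?_, ?_⟩
  · filter_upwards [hβ] with y hy
    rw [norm_mul, norm_inv, Complex.norm_real, Real.norm_of_nonneg hβ0, hy, inv_mul_cancel₀ hβ1]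
  · filter_upwards [h] with y hy
    rw [hy]
    ring

/-- An invariant function is constant almost everywhere: real and imaginary part, or directly the
lemmas of `Mathlib/Dynamics/Ergodic/Function.lean`. -/
theorem const_of_invariant [IsProbabilityMeasure m] (hR : Ergodic R m) (e : Y → ℂ)
    (he : Measurable e) (h : ∀ᵐ y ∂m, e (R y) = e y) : ∃ c : ℂ, ∀ᵐ y ∂m, e y = c := by
  exact hR.ae_eq_const_of_ae_eq_comp_ae he.aestronglyMeasurable h

/-- Proof (`b` is an eigenfunction of `R^p`). `‖b‖` is invariant under `R^p`, which is ergodic, so it is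
a constant, not zero; dividing by it we may assume `‖b‖ = 1` almost everywhere. Put
`d y = b (R y) * conj (b y)`. Then `d (R^[p] y) = γ b(R y) conj(γ b(y)) = d y` almost everywhere (use
`b (R^[p] (R y)) = γ b (R y)` for almost every `y`, since `R` preserves `m`), so `d = l` almost
everywhere by the ergodicity of `R^p` (`const_of_invariant`), i.e. `b (R y) = l b y`, and `l` is an
eigenvalue of `R`. Iterating, `b (R^[p] y) = l^p b y`, so `l^p = γ`. -/
theorem eigenvalue_of_iterate [IsProbabilityMeasure m] (hR : MeasurePreserving R m m) (p : ℕ)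
    (herg : Ergodic (R^[p]) m) (b : Y → ℂ) (hb : Measurable b) (hne : ¬ ∀ᵐ y ∂m, b y = 0)
    (γ : ℂ) (hγ : ‖γ‖ = 1) (h : ∀ᵐ y ∂m, b (R^[p] y) = γ * b y) :
    ∃ l : ℂ, IsEigenvalue m R l ∧ l ^ p = γ := by
  obtain ⟨β, hβ0, hβ⟩ := norm_const_of_eigen herg b hb γ hγ h
  have hβ1 : β ≠ 0 := by
    rintro rfl
    exact hne (hβ.mono fun y hy => norm_eq_zero.1 hy)
  -- the normalised function
  set b' : Y → ℂ := fun y => (β : ℂ)⁻¹ * b y with hb'
  have hb'm : Measurable b' := hb.const_mul _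
  have hb'1 : ∀ᵐ y ∂m, ‖b' y‖ = 1 := by
    filter_upwards [hβ] with y hy
    rw [hb', norm_mul, norm_inv, Complex.norm_real, Real.norm_of_nonneg hβ0, hy,
      inv_mul_cancel₀ hβ1]
  have hb'e : ∀ᵐ y ∂m, b' (R^[p] y) = γ * b' y := by
    filter_upwards [h] with y hy
    simp only [hb', hy]
    ring
  have hb'e2 : ∀ᵐ y ∂m, b' (R^[p] (R y)) = γ * b' (R y) := hR.quasiMeasurePreserving.ae hb'e
  have hγγ : γ * conj γ = 1 := by
    rw [Complex.mul_conj, Complex.normSq_eq_norm_sq, hγ]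
    simp
  obtain ⟨l, hl⟩ := const_of_invariant herg (fun y => b' (R y) * conj (b' y))
    ((hb'm.comp hR.measurable).mul (Complex.continuous_conj.measurable.comp hb'm)) (by
      filter_upwards [hb'e, hb'e2] with y h1 h2
      have h3 : R (R^[p] y) = R^[p] (R y) := by
        rw [← Function.iterate_succ_apply' R p y, Function.iterate_succ_apply]
      rw [h3, h1, h2, map_mul]
      linear_combination (b' (R y) * conj (b' y)) * hγγ)
  have hle : ∀ᵐ y ∂m, b' (R y) = l * b' y := by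
    filter_upwards [hl, hb'1] with y h1 h2
    have h3 : conj (b' y) * b' y = 1 := by
      rw [mul_comm, Complex.mul_conj, Complex.normSq_eq_norm_sq, h2]
      simp
    rw [← h1]
    linear_combination (-(b' (R y))) * h3
  refine ⟨l, ⟨b', hb'm, hb'1, hle⟩, ?_⟩
  have hit : ∀ n : ℕ, ∀ᵐ y ∂m, b' (R^[n] y) = l ^ n * b' y := by
    intro n
    induction n with
    | zero => exact Eventually.of_forall fun y => by simp
    | succ n ih =>
      have h4 : ∀ᵐ y ∂m, b' (R (R^[n] y)) = l * b' (R^[n] y) :=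
        (hR.iterate n).quasiMeasurePreserving.ae hle
      filter_upwards [ih, h4] with y h5 h6
      rw [Function.iterate_succ_apply', h6, h5]
      ring
  obtain ⟨y, h7, h8, h9⟩ := ((hit p).and (hb'e.and hb'1)).exists
  have h10 : b' y ≠ 0 := fun h11 => by
    rw [h11, norm_zero] at h9
    exact zero_ne_one h9
  rw [h7] at h8
  exact mul_right_cancel₀ h10 h8

end

end Pool.Agent.Lib.H22M
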