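import Pool.Agent.Lib.H22M.Defs

/-!
# Project H22M, chunk FC: characters of compact abelian groups
-/

open MeasureTheory Filter Topology Finset
open scoped ComplexConjugate

namespace Pool.Agent.Lib.H22M

/-- A character as a continuous function. -/
noncomputable def fcChar {W : Type*} [CommGroup W] [TopologicalSpace W] (χ : PontryaginDual W) :
    C(W, ℂ) :=
  ⟨fun w => ((χ w : Circle) : ℂ), CompactAbelian.continuous_char χ⟩

theorem fcChar_apply {W : Type*} [CommGroup W] [TopologicalSpace W] (χ : PontryaginDual W) (w : W) :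
    fcChar χ w = ((χ w : Circle) : ℂ) := rfl

/-- The span of the characters. -/
noncomputable def fcSpan (W : Type*) [CommGroup W] [TopologicalSpace W] [CompactSpace W] :
    Submodule ℂ C(W, ℂ) :=
  Submodule.span ℂ (Set.range (fcChar : PontryaginDual W → C(W, ℂ)))

theorem fcSpan_mul {W : Type*} [CommGroup W] [TopologicalSpace W] [IsTopologicalGroup W]
    [CompactSpace W] {a b : C(W, ℂ)} (ha : a ∈ fcSpan W) (hb : b ∈ fcSpan W) :
    a * b ∈ fcSpan W := by
  have h1 : a * b ∈ fcSpan W * fcSpan W := Submodule.mul_mem_mul ha hb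
  rw [fcSpan, Submodule.span_mul_span] at h1
  refine Submodule.span_mono ?_ h1
  rintro _ ⟨_, ⟨χ, rfl⟩, _, ⟨ψ, rfl⟩, rfl⟩
  refine ⟨χ * ψ, ?_⟩
  ext w
  show (((χ * ψ) w : Circle) : ℂ) = ((χ w : Circle) : ℂ) * ((ψ w : Circle) : ℂ)
  rw [← Circle.coe_mul]
  rfl

theorem fcSpan_algebraMap {W : Type*} [CommGroup W] [TopologicalSpace W] [IsTopologicalGroup W]
    [CompactSpace W] (r : ℂ) : (algebraMap ℂ C(W, ℂ)) r ∈ fcSpan W := by
  have h1 : (algebraMap ℂ C(W, ℂ)) r = r • fcChar (1 : PontryaginDual W) := by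
    ext w
    show r = r * (((1 : PontryaginDual W) w : Circle) : ℂ)
    have : (1 : PontryaginDual W) w = 1 := rfl
    rw [this]
    simp
  rw [h1]
  exact Submodule.smul_mem _ _ (Submodule.subset_span ⟨1, rfl⟩)

theorem fcSpan_star {W : Type*} [CommGroup W] [TopologicalSpace W] [IsTopologicalGroup W]
    [CompactSpace W] {a : C(W, ℂ)} (ha : a ∈ fcSpan W) : star a ∈ fcSpan W := by
  induction ha using Submodule.span_induction with
  | mem x hx =>
    obtain ⟨χ, rfl⟩ := hx
    refine Submodule.subset_span ⟨χ⁻¹, ?_⟩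
    ext w
    show (((χ⁻¹) w : Circle) : ℂ) = conj ((χ w : Circle) : ℂ)
    rw [← Circle.coe_inv_eq_conj]
    rfl
  | zero => rw [star_zero]; exact Submodule.zero_mem _
  | add x y _ _ hx hy =>
    rw [star_add]
    exact Submodule.add_mem _ hx hy
  | smul c x _ hx =>
    rw [star_smul]
    exact Submodule.smul_mem _ _ hx

/-- The star subalgebra spanned by the characters. -/
noncomputable def fcAlg (W : Type*) [CommGroup W] [TopologicalSpace W] [IsTopologicalGroup W]
    [CompactSpace W] : StarSubalgebra ℂ C(W, ℂ) where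
  carrier := (fcSpan W : Set C(W, ℂ))
  mul_mem' := fun ha hb => fcSpan_mul ha hb
  add_mem' := fun ha hb => Submodule.add_mem _ ha hb
  algebraMap_mem' := fun r => fcSpan_algebraMap r
  star_mem' := fun ha => fcSpan_star ha

/-- The linear span of the characters is dense in `C(W, ℂ)`: for every continuous `f` and `δ > 0` there
are finitely many characters and coefficients with `‖f - ∑ c χ‖ ≤ δ` everywhere. Proof:
Stone–Weierstrass for `ℂ` (`ContinuousMap.starSubalgebra_topologicalClosure_eq_top_of_separatesPoints`)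
applied to the star subalgebra spanned by the characters `w ↦ (χ w : ℂ)`: the span of the characters is
closed under products (the product of two characters is a character), contains `1` and is closed under
conjugation (`conj χ = χ⁻¹`), and separates the points by
`Pool.Agent.Lib.CompactAbelian.exists_char_ne_one` applied to `x * y⁻¹`. -/
theorem exists_trigPoly {W : Type*} [CommGroup W] [TopologicalSpace W] [IsTopologicalGroup W]
    [CompactSpace W] [T2Space W] (f : C(W, ℂ)) (δ : ℝ) (hδ : 0 < δ) :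
    ∃ (F : Finset (PontryaginDual W)) (t : PontryaginDual W → ℂ),
      ∀ w, ‖f w - ∑ χ ∈ F, t χ * ((χ w : Circle) : ℂ)‖ ≤ δ := by
  have hsep : (fcAlg W).SeparatesPoints := by
    intro x y hxy
    have h1 : x * y⁻¹ ≠ 1 := fun h => hxy (mul_inv_eq_one.mp h)
    obtain ⟨χ, hχ⟩ := CompactAbelian.exists_char_ne_one h1
    have hm : fcChar χ ∈ fcAlg W := Submodule.subset_span ⟨χ, rfl⟩
    refine ⟨fcChar χ, ⟨fcChar χ, hm, rfl⟩, ?_⟩
    intro h
    apply hχ
    have h2 : χ x = χ y := Circle.coe_injective h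
    rw [map_mul, map_inv, h2, mul_inv_cancel]
  have htop := ContinuousMap.starSubalgebra_topologicalClosure_eq_top_of_separatesPoints
    (fcAlg W) hsep
  have hf : f ∈ (fcAlg W).topologicalClosure := by rw [htop]; trivial
  have hf2 : f ∈ closure ((fcAlg W : StarSubalgebra ℂ C(W, ℂ)) : Set C(W, ℂ)) := hf
  rw [Metric.mem_closure_iff] at hf2
  obtain ⟨g, hg, hfg⟩ := hf2 δ hδ
  have hg' : g ∈ fcSpan W := hg
  rw [fcSpan, Finsupp.mem_span_range_iff_exists_finsupp] at hg'
  obtain ⟨c, hc⟩ := hg'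
  refine ⟨c.support, c, fun w => ?_⟩
  have h3 : ∑ χ ∈ c.support, c χ * ((χ w : Circle) : ℂ) = g w := by
    rw [← hc]
    rw [Finsupp.sum, ContinuousMap.coe_sum, Finset.sum_apply]
    rfl
  rw [h3, ← dist_eq_norm]
  exact (ContinuousMap.dist_apply_le_dist w).trans hfg.le

/-- Finite measures with the same Fourier coefficients are equal. Proof: by `exists_trigPoly` the
integrals of all continuous functions agree; `ext_of_forall_integral_eq_of_IsFiniteMeasure` (compact
second countable Hausdorff spaces are metrizable). -/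
theorem measure_ext_char {W : Type*} [CommGroup W] [TopologicalSpace W] [IsTopologicalGroup W]
    [CompactSpace W] [T2Space W] [SecondCountableTopology W] [MeasurableSpace W] [BorelSpace W]
    (σ σ' : Measure W) [IsFiniteMeasure σ] [IsFiniteMeasure σ']
    (h : ∀ χ : PontryaginDual W, ∫ w, ((χ w : Circle) : ℂ) ∂σ = ∫ w, ((χ w : Circle) : ℂ) ∂σ') :
    σ = σ' := by
  have hmet : TopologicalSpace.MetrizableSpace W :=
    TopologicalSpace.metrizableSpace_of_t3_secondCountable W
  apply ext_of_forall_integral_eq_of_IsFiniteMeasure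
  intro f
  have hint : ∀ (ρ : Measure W) [IsFiniteMeasure ρ] (g : W → ℂ), Continuous g → Integrable g ρ := by
    intro ρ _ g hg
    exact Continuous.integrable_of_hasCompactSupport hg (HasCompactSupport.of_compactSpace _)
  have hcoe : ∀ (ρ : Measure W), ∫ x, ((f x : ℝ) : ℂ) ∂ρ = ((∫ x, f x ∂ρ : ℝ) : ℂ) := fun ρ =>
    integral_ofReal
  apply Complex.ofReal_injective
  rw [← hcoe, ← hcoe]
  let F : C(W, ℂ) := ⟨fun w => ((f w : ℝ) : ℂ), Complex.continuous_ofReal.comp f.continuous⟩
  have key : ∀ δ : ℝ, 0 < δ → ‖∫ x, ((f x : ℝ) : ℂ) ∂σ - ∫ x, ((f x : ℝ) : ℂ) ∂σ'‖ ≤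
      δ * (σ.real Set.univ + σ'.real Set.univ) := by
    intro δ hδ
    obtain ⟨S, t, ht⟩ := exists_trigPoly F δ hδ
    have hP : Continuous fun w => ∑ χ ∈ S, t χ * ((χ w : Circle) : ℂ) :=
      continuous_finsetSum _ fun χ _ => continuous_const.mul (CompactAbelian.continuous_char χ)
    have hbd : ∀ (ρ : Measure W) [IsFiniteMeasure ρ],
        ‖∫ x, ((f x : ℝ) : ℂ) ∂ρ - ∫ w, ∑ χ ∈ S, t χ * ((χ w : Circle) : ℂ) ∂ρ‖ ≤
          δ * ρ.real Set.univ := by
      intro ρ _
      have h0 := integral_sub (hint ρ _ F.continuous) (hint ρ _ hP)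
      have h1 : ‖∫ x, (F x - ∑ χ ∈ S, t χ * ((χ x : Circle) : ℂ)) ∂ρ‖ ≤ δ * ρ.real Set.univ :=
        norm_integral_le_of_norm_le_const (Eventually.of_forall ht)
      rw [h0] at h1
      exact h1
    have heq : ∫ w, ∑ χ ∈ S, t χ * ((χ w : Circle) : ℂ) ∂σ =
        ∫ w, ∑ χ ∈ S, t χ * ((χ w : Circle) : ℂ) ∂σ' := by
      rw [integral_finsetSum, integral_finsetSum]
      · refine Finset.sum_congr rfl fun χ _ => ?_
        rw [integral_const_mul, integral_const_mul, h χ]
      · exact fun χ _ => (hint σ' _ (CompactAbelian.continuous_char χ)).const_mul _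
      · exact fun χ _ => (hint σ _ (CompactAbelian.continuous_char χ)).const_mul _
    have h1 := hbd σ
    have h2 := hbd σ'
    have h3 : ∫ x, ((f x : ℝ) : ℂ) ∂σ - ∫ x, ((f x : ℝ) : ℂ) ∂σ' =
        (∫ x, ((f x : ℝ) : ℂ) ∂σ - ∫ w, ∑ χ ∈ S, t χ * ((χ w : Circle) : ℂ) ∂σ) -
        (∫ x, ((f x : ℝ) : ℂ) ∂σ' - ∫ w, ∑ χ ∈ S, t χ * ((χ w : Circle) : ℂ) ∂σ') := by
      rw [heq]; ring
    rw [h3, mul_add]
    exact (norm_sub_le _ _).trans (add_le_add h1 h2)
  have hz : ‖∫ x, ((f x : ℝ) : ℂ) ∂σ - ∫ x, ((f x : ℝ) : ℂ) ∂σ'‖ = 0 := by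
    apply le_antisymm _ (norm_nonneg _)
    by_contra hlt
    push Not at hlt
    set N := ‖∫ x, ((f x : ℝ) : ℂ) ∂σ - ∫ x, ((f x : ℝ) : ℂ) ∂σ'‖ with hN
    set M := σ.real Set.univ + σ'.real Set.univ with hM
    have hM0 : 0 ≤ M := add_nonneg measureReal_nonneg measureReal_nonneg
    have h4 := key (N / (2 * (M + 1))) (by positivity)
    have h5 : N / (2 * (M + 1)) * M < N := by
      rw [div_mul_eq_mul_div, div_lt_iff₀ (by positivity)]
      nlinarith
    linarith
  exact sub_eq_zero.mp (norm_eq_zero.mp hz)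

/-- The version for a product, with products of characters. Proof: a character `χ` of `Z × Z` is
`χ (z, z') = χ (z, 1) * χ (1, z')`, a product of two characters of `Z`. -/
theorem measure_ext_char_prod {Z : Type*} [CommGroup Z] [TopologicalSpace Z]
    [IsTopologicalGroup Z] [CompactSpace Z] [T2Space Z] [SecondCountableTopology Z]
    [MeasurableSpace Z] [BorelSpace Z] (σ σ' : Measure (Z × Z)) [IsFiniteMeasure σ]
    [IsFiniteMeasure σ']
    (h : ∀ χ χ' : PontryaginDual Z,
      ∫ w, ((χ w.1 : Circle) : ℂ) * ((χ' w.2 : Circle) : ℂ) ∂σ =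
        ∫ w, ((χ w.1 : Circle) : ℂ) * ((χ' w.2 : Circle) : ℂ) ∂σ') :
    σ = σ' := by
  apply measure_ext_char
  intro χ
  let χ1 : PontryaginDual Z := ContinuousMonoidHom.comp χ (ContinuousMonoidHom.inl Z Z)
  let χ2 : PontryaginDual Z := ContinuousMonoidHom.comp χ (ContinuousMonoidHom.inr Z Z)
  have hχ : ∀ w : Z × Z, ((χ w : Circle) : ℂ) = ((χ1 w.1 : Circle) : ℂ) * ((χ2 w.2 : Circle) : ℂ) := by
    intro w
    rw [← Circle.coe_mul]
    congr 1
    have h1 : w = (w.1, 1) * (1, w.2) := by ext <;> simp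
    conv_lhs => rw [h1]
    rw [map_mul]
    rfl
  simp_rw [hχ]
  exact h χ1 χ2

end Pool.Agent.Lib.H22M
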