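import Pool.Agent.Lib.H22M.EG

/-!
# Project H22M, chunk FG: finitely generated torsion free eigenvalue groups
-/

open MeasureTheory Filter Topology Finset

namespace Pool.Agent.Lib.H22M

/-- the group of the eigenvalues, as a `ℤ`-submodule -/
def fg_L {Y : Type*} [MeasurableSpace Y] (m : Measure Y)
    [IsProbabilityMeasure m] (R : Y → Y) (hR : MeasurePreserving R m m) :
    Submodule ℤ (Additive ℂˣ) where
  carrier := {x | IsEigenvalue m R ((Additive.toMul x : ℂˣ) : ℂ)}
  zero_mem' := by
    refine ⟨fun _ => 1, measurable_const, Eventually.of_forall fun y => by simp,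
      Eventually.of_forall fun y => by simp⟩
  add_mem' := by
    intro a b ha hb
    show IsEigenvalue m R ((Additive.toMul (a + b) : ℂˣ) : ℂ)
    rw [toMul_add, Units.val_mul]
    exact IsEigenvalue.mul ha hb
  smul_mem' := by
    intro k x hx
    show IsEigenvalue m R ((Additive.toMul (k • x) : ℂˣ) : ℂ)
    rw [toMul_zsmul]
    rcases Int.eq_nat_or_neg k with ⟨n, rfl | rfl⟩
    · rw [zpow_natCast, Units.val_pow_eq_pow_val]
      exact IsEigenvalue.pow hx n
    · rw [zpow_neg, zpow_natCast, Units.val_inv_eq_inv_val, Units.val_pow_eq_pow_val]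
      exact (IsEigenvalue.pow hx n).inv hR

theorem fg_mem {Y : Type*} [MeasurableSpace Y] {m : Measure Y}
    [IsProbabilityMeasure m] {R : Y → Y} (hR : MeasurePreserving R m m) (x : Additive ℂˣ) :
    x ∈ fg_L m R hR ↔ IsEigenvalue m R ((Additive.toMul x : ℂˣ) : ℂ) := Iff.rfl

/-- Proof. Let `Λ` be the subgroup of `ℂˣ` of the eigenvalues (`IsEigenvalue.mul`, `IsEigenvalue.inv`, and
`1`, from `EG`; eigenvalues are nonzero by `IsEigenvalue.norm_eq`). It is contained in the finitely
generated abelian group generated by `S`, so it is finitely generated (submodules of finitely generated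
`ℤ`-modules are finitely generated), and torsion free by `htor`, so `Additive Λ` is a free `ℤ`-module of
finite rank (`Module.free_of_finite_type_torsion_free'`). Let `F` be finite, `1 ∉ F`. For `c ∈ F ∩ Λ`
(`c ≠ 1`), some coordinate `x_i` of `c` in a basis is nonzero; if `c = l^p` with `l ∈ Λ` then `p ∣ x_i`, so
`p ≤ |x_i|`. For `c ∈ F` not in `Λ`, `c = l^p` is impossible (`IsEigenvalue.pow`). So all primes larger
than some `n₀` lie in `goodPrimes m R F`. If the sum over `goodPrimes` converged, so would the sum of the
reciprocals of all primes (they differ by finitely many terms), contrary to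
`Nat.Primes.not_summable_one_div` / `not_summable_one_div_on_primes`. -/
theorem manyGoodPrimes_of_fg {Y : Type*} [MeasurableSpace Y] (m : Measure Y)
    [IsProbabilityMeasure m] (R : Y → Y) (hR : MeasurePreserving R m m) (S : Finset ℂˣ)
    (hS : ∀ e : ℂˣ, IsEigenvalue m R (e : ℂ) → e ∈ Subgroup.closure (S : Set ℂˣ))
    (htor : ∀ e : ℂ, IsEigenvalue m R e → ∀ n : ℕ, 1 ≤ n → e ^ n = 1 → e = 1) :
    ManyGoodPrimes m R := by
  set L := fg_L m R hR with hL
  have hfin : Module.Finite ℤ L := by
    have h1 : L ≤ Submodule.span ℤ (Additive.ofMul '' (S : Set ℂˣ)) := by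
      intro x hx
      have h2 : Additive.toMul x ∈ Subgroup.closure (S : Set ℂˣ) := hS _ hx
      have h3 : ∀ y ∈ Subgroup.closure (S : Set ℂˣ),
          Additive.ofMul y ∈ Submodule.span ℤ (Additive.ofMul '' (S : Set ℂˣ)) := by
        intro y hy
        induction hy using Subgroup.closure_induction with
        | mem y hy => exact Submodule.subset_span ⟨y, hy, rfl⟩
        | one => exact Submodule.zero_mem _
        | mul y z _ _ ihy ihz =>
          rw [ofMul_mul]
          exact Submodule.add_mem _ ihy ihz
        | inv y _ ihy =>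
          rw [ofMul_inv]
          exact Submodule.neg_mem _ ihy
      exact h3 _ h2
    have h4 : IsNoetherian ℤ (Submodule.span ℤ (Additive.ofMul '' (S : Set ℂˣ))) :=
      isNoetherian_span_of_finite ℤ (S.finite_toSet.image _)
    have h5 : IsNoetherian ℤ L := isNoetherian_of_le h1
    exact inferInstance
  have htf : Module.IsTorsionFree ℤ L := by
    rw [Module.isTorsionFree_iff_smul_eq_zero]
    intro k x hk
    by_contra hne
    push Not at hne
    obtain ⟨hk0, hx0⟩ := hne
    apply hx0
    apply Subtype.ext
    have h1 : IsEigenvalue m R ((Additive.toMul (x : Additive ℂˣ) : ℂˣ) : ℂ) := x.2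
    have h2 : k • (x : Additive ℂˣ) = 0 := by
      have := congrArg Subtype.val hk
      simpa using this
    have h3 : (Additive.toMul (x : Additive ℂˣ) : ℂˣ) ^ k = 1 := by
      have := congrArg Additive.toMul h2
      rwa [toMul_zsmul] at this
    have h4 : (Additive.toMul (x : Additive ℂˣ) : ℂˣ) ^ k.natAbs = 1 := by
      rcases Int.natAbs_eq k with h | h
      · rw [h] at h3
        rwa [zpow_natCast] at h3
      · rw [h] at h3
        rwa [zpow_neg, zpow_natCast, inv_eq_one] at h3
    have h5 : ((Additive.toMul (x : Additive ℂˣ) : ℂˣ) : ℂ) ^ k.natAbs = 1 := by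
      rw [← Units.val_pow_eq_pow_val, h4, Units.val_one]
    have h6 := htor _ h1 k.natAbs (Int.natAbs_pos.2 hk0) h5
    have h7 : (Additive.toMul (x : Additive ℂˣ) : ℂˣ) = 1 := Units.ext h6
    exact congrArg Additive.ofMul h7
  let bas := Module.Free.chooseBasis ℤ L
  have key : ∀ c : ℂ, ∃ n₀ : ℕ, c ≠ 1 → ∀ p > n₀, ∀ e, IsEigenvalue m R e → e ^ p ≠ c := by
    intro c
    by_cases hc1 : c = 1
    · exact ⟨0, fun h => absurd hc1 h⟩
    by_cases hc : IsEigenvalue m R c
    · have hcn : c ≠ 0 := by
        intro h
        have := hc.norm_eq hR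
        rw [h, norm_zero] at this
        exact zero_ne_one this
      let x : L := ⟨Additive.ofMul (Units.mk0 c hcn), hc⟩
      have hx0 : x ≠ 0 := by
        intro h
        apply hc1
        have h1 : Additive.ofMul (Units.mk0 c hcn) = 0 := congrArg Subtype.val h
        have h2 : Units.mk0 c hcn = 1 := congrArg Additive.toMul h1
        have h3 := congrArg Units.val h2
        simpa using h3
      obtain ⟨i, hi⟩ : ∃ i, bas.repr x i ≠ 0 := by
        by_contra hne
        push Not at hne
        apply hx0
        apply bas.repr.injective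
        rw [map_zero]
        ext i
        rw [hne i]
        rfl
      refine ⟨(bas.repr x i).natAbs, fun _ p hp e he hep => ?_⟩
      have hen : e ≠ 0 := by
        intro h
        have := he.norm_eq hR
        rw [h, norm_zero] at this
        exact zero_ne_one this
      let y : L := ⟨Additive.ofMul (Units.mk0 e hen), he⟩
      have hxy : x = (p : ℤ) • y := by
        apply Subtype.ext
        show Additive.ofMul (Units.mk0 c hcn) = (p : ℤ) • Additive.ofMul (Units.mk0 e hen)
        rw [← ofMul_zpow, zpow_natCast]
        congr 1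
        apply Units.ext
        simp [hep]
      have hrep : bas.repr x i = p * bas.repr y i := by
        rw [hxy, map_smul, Finsupp.smul_apply, smul_eq_mul]
      have hdvd : (p : ℤ) ∣ bas.repr x i := ⟨_, hrep⟩
      have hle : p ≤ (bas.repr x i).natAbs :=
        Nat.le_of_dvd (Int.natAbs_pos.2 hi) (Int.natCast_dvd.1 hdvd)
      omega
    · refine ⟨0, fun _ p _ e he hep => ?_⟩
      apply hc
      rw [← hep]
      exact he.pow p
  choose n₀ hn₀ using key
  intro F hF hsum
  set N := F.sup n₀ with hN
  have hgood : ∀ p : ℕ, p.Prime → N < p → p ∈ goodPrimes m R F := by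
    intro p hp hNp
    refine ⟨hp, fun c hc e he => ?_⟩
    have hc1 : c ≠ 1 := by
      rintro rfl
      exact hF hc
    exact hn₀ c hc1 p (lt_of_le_of_lt (Finset.le_sup (f := n₀) hc) hNp) e he
  apply not_summable_one_div_on_primes
  have hs2 : Summable (Set.indicator (↑(Finset.range (N + 1)) : Set ℕ) (fun p : ℕ => (1 : ℝ) / p)) := by
    refine summable_of_ne_finset_zero (s := Finset.range (N + 1)) fun p hp => ?_
    rw [Set.indicator_of_notMem]
    exact fun h => hp (Finset.mem_coe.1 h)
  refine Summable.of_nonneg_of_le (fun p => ?_) (fun p => ?_) (hsum.add hs2)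
  · exact Set.indicator_nonneg (fun p _ => by positivity) _
  · have h0 : (0 : ℝ) ≤ 1 / (p : ℝ) := by positivity
    have h1 : 0 ≤ Set.indicator (goodPrimes m R F) (fun p : ℕ => 1 / (p : ℝ)) p :=
      Set.indicator_nonneg (fun p _ => by positivity) _
    have h2 : 0 ≤ Set.indicator (↑(Finset.range (N + 1)) : Set ℕ) (fun p : ℕ => (1 : ℝ) / p) p :=
      Set.indicator_nonneg (fun p _ => by positivity) _
    by_cases hp : p.Prime
    · rw [Set.indicator_of_mem (show p ∈ {p | Nat.Prime p} from hp)]
      rcases Nat.lt_or_ge N p with h3 | h3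
      · rw [Set.indicator_of_mem (hgood p hp h3)]
        linarith
      · rw [Set.indicator_of_mem (s := (↑(Finset.range (N + 1)) : Set ℕ))
          (Finset.mem_coe.2 (Finset.mem_range.2 (by omega)))]
        linarith
    · rw [Set.indicator_of_notMem (show p ∉ {p | Nat.Prime p} from hp)]
      linarith

end Pool.Agent.Lib.H22M
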