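import Pool.Agent.Lib.H22M.Defs

/-!
# Project H22M, chunk KA2: one dyadic block of the Kátai argument
-/

open Finset
open scoped ComplexConjugate

namespace Pool.Agent.Lib.H22M

/-- Proof. Put `X = N / 2^j` (real). For `p ∈ P` and `m ≤ N / p` (natural division) one has
`m ≤ N / 2^j` (natural division), so after exchanging the sums
`S = ∑_{m ∈ [1, N/2^j]} u(m) ∑_{p ∈ P, m ≤ N/p} a(p m)`. Cauchy–Schwarz in `m` (at most `X` values of
`m`, `|u(m)| ≤ 1`):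
`|S|² ≤ X ∑_m |∑_{p ∈ P, m ≤ N/p} a(p m)|² = X ∑_{p, q ∈ P} ∑_{m ≤ min(N/p, N/q)} a(p m) conj a(q m)
≤ X ∑_{p, q ∈ P} ‖∑_{m ≤ min(N/p, N/q)} a(p m) conj a(q m)‖`.
The inner sum has at most `X` terms of modulus at most one. The pairs `p = q` (at most `|P|`) and the
pairs with `Bad p q` (at most `m0 |P|`) give each at most `X`. For `p ≠ q` with `¬ Bad p q`, the length
`L = min(N/p, N/q)` is at least `L0` since `p, q < 2^(j+1)` and `2^(j+1) L0 ≤ N`, so the pair gives at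
most `δ L ≤ δ X`. Together `|S|² ≤ X² (|P| (1 + m0) + δ |P|²)`, and
`√(x + y) ≤ √x + √y`. -/
theorem block_bound (a u : ℕ → ℂ) (ha : ∀ n, ‖a n‖ ≤ 1) (hu : ∀ n, ‖u n‖ ≤ 1) (j : ℕ)
    (P : Finset ℕ) (hP : ∀ p ∈ P, 2 ^ j ≤ p ∧ p < 2 ^ (j + 1)) (Bad : ℕ → ℕ → Prop)
    [DecidableRel Bad] (m0 : ℕ) (hBad : ∀ p ∈ P, (P.filter fun q => Bad p q).card ≤ m0)
    (δ : ℝ) (hδ : 0 ≤ δ) (L0 : ℕ)
    (hgood : ∀ p ∈ P, ∀ q ∈ P, p ≠ q → ¬ Bad p q → ∀ L : ℕ, L0 ≤ L →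
      ‖∑ m ∈ Icc 1 L, a (p * m) * conj (a (q * m))‖ ≤ δ * L)
    (N : ℕ) (hN : 2 ^ (j + 1) * L0 ≤ N) :
    ‖∑ p ∈ P, ∑ m ∈ Icc 1 (N / p), u m * a (p * m)‖ ≤
      (N / 2 ^ j : ℝ) * (Real.sqrt (P.card * (1 + m0)) + Real.sqrt δ * P.card) := by
  classical
  obtain ⟨X, hX⟩ : ∃ X : ℝ, X = (N : ℝ) / 2 ^ j := ⟨_, rfl⟩
  have hX0 : 0 ≤ X := by rw [hX]; positivity
  obtain ⟨n0, hn0⟩ : ∃ n0 : ℕ, n0 = N / 2 ^ j := ⟨_, rfl⟩
  have hn0X : (n0 : ℝ) ≤ X := by
    rw [hn0, hX]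
    have := @Nat.cast_div_le ℝ _ _ _ N (2 ^ j)
    simpa using this
  obtain ⟨f, hf⟩ : ∃ f : ℕ → ℕ → ℂ, f = fun p m => if m ≤ N / p then a (p * m) else 0 := ⟨_, rfl⟩
  have hle : ∀ p ∈ P, N / p ≤ n0 := by
    intro p hp
    rw [hn0]
    exact Nat.div_le_div_left (hP p hp).1 (by positivity)
  have hsub : ∀ p ∈ P, ∀ g : ℕ → ℂ, ∑ m ∈ Icc 1 (N / p), g m =
      ∑ m ∈ Icc 1 n0, if m ≤ N / p then g m else 0 := by
    intro p hp g
    rw [← Finset.sum_filter]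
    refine Finset.sum_congr ?_ fun _ _ => rfl
    ext m
    simp only [Finset.mem_Icc, Finset.mem_filter]
    have := hle p hp
    omega
  have hS : ∑ p ∈ P, ∑ m ∈ Icc 1 (N / p), u m * a (p * m) =
      ∑ m ∈ Icc 1 n0, u m * ∑ p ∈ P, f p m := by
    rw [Finset.sum_congr rfl fun p hp => hsub p hp _, Finset.sum_comm]
    refine Finset.sum_congr rfl fun m _ => ?_
    rw [Finset.mul_sum]
    refine Finset.sum_congr rfl fun p _ => ?_
    rw [hf]
    simp only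
    split_ifs <;> simp
  have hpair : ∀ p ∈ P, ∀ q ∈ P, ∑ m ∈ Icc 1 n0, f p m * conj (f q m) =
      ∑ m ∈ Icc 1 (min (N / p) (N / q)), a (p * m) * conj (a (q * m)) := by
    intro p hp q hq
    have e : ∀ m, f p m * conj (f q m) =
        if m ≤ min (N / p) (N / q) then a (p * m) * conj (a (q * m)) else 0 := by
      intro m
      rw [hf]
      simp only [le_min_iff]
      split_ifs <;> simp_all
    simp only [e]
    rw [← Finset.sum_filter]
    refine Finset.sum_congr ?_ fun _ _ => rfl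
    ext m
    simp only [Finset.mem_Icc, Finset.mem_filter]
    have h1 := hle p hp
    have h2 : min (N / p) (N / q) ≤ N / p := min_le_left _ _
    omega
  have hminX : ∀ p ∈ P, ∀ q, ((min (N / p) (N / q) : ℕ) : ℝ) ≤ X := by
    intro p hp q
    have h2 : min (N / p) (N / q) ≤ n0 := (min_le_left _ _).trans (hle p hp)
    exact (Nat.cast_le.mpr h2).trans hn0X
  have htriv : ∀ p ∈ P, ∀ q ∈ P, ‖∑ m ∈ Icc 1 n0, f p m * conj (f q m)‖ ≤ X := by
    intro p hp q hq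
    rw [hpair p hp q hq]
    refine (norm_sum_le _ _).trans ?_
    refine le_trans ?_ (hminX p hp q)
    have : ∀ m ∈ Icc 1 (min (N / p) (N / q)), ‖a (p * m) * conj (a (q * m))‖ ≤ 1 := by
      intro m _
      rw [norm_mul, RCLike.norm_conj]
      exact mul_le_one₀ (ha _) (norm_nonneg _) (ha _)
    refine (Finset.sum_le_sum this).trans ?_
    simp
  have hgd : ∀ p ∈ P, ∀ q ∈ P, p ≠ q → ¬ Bad p q →
      ‖∑ m ∈ Icc 1 n0, f p m * conj (f q m)‖ ≤ δ * X := by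
    intro p hp q hq hpq hb
    rw [hpair p hp q hq]
    have hL : ∀ r ∈ P, L0 ≤ N / r := by
      intro r hr
      rw [Nat.le_div_iff_mul_le (lt_of_lt_of_le (by positivity) (hP r hr).1)]
      calc L0 * r ≤ L0 * 2 ^ (j + 1) := Nat.mul_le_mul_left _ (hP r hr).2.le
        _ = 2 ^ (j + 1) * L0 := mul_comm _ _
        _ ≤ N := hN
    refine (hgood p hp q hq hpq hb _ (le_min (hL p hp) (hL q hq))).trans ?_
    exact mul_le_mul_of_nonneg_left (hminX p hp q) hδ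
  have hrow : ∀ p ∈ P, ∑ q ∈ P, ‖∑ m ∈ Icc 1 n0, f p m * conj (f q m)‖ ≤
      (1 + m0) * X + δ * X * P.card := by
    intro p hp
    have h1 : ∀ q ∈ P, ‖∑ m ∈ Icc 1 n0, f p m * conj (f q m)‖ ≤
        (if q = p then X else 0) + (if Bad p q then X else 0) + δ * X := by
      intro q hq
      by_cases hqp : q = p
      · rw [if_pos hqp]
        have := htriv p hp q hq
        have h3 : 0 ≤ (if Bad p q then X else 0) := by split_ifs <;> simp [hX0]
        have h4 : 0 ≤ δ * X := mul_nonneg hδ hX0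
        linarith
      · by_cases hb : Bad p q
        · rw [if_pos hb, if_neg hqp]
          have := htriv p hp q hq
          have h4 : 0 ≤ δ * X := mul_nonneg hδ hX0
          linarith
        · rw [if_neg hb, if_neg hqp]
          have := hgd p hp q hq (fun h => hqp h.symm) hb
          linarith
    refine (Finset.sum_le_sum h1).trans ?_
    rw [Finset.sum_add_distrib, Finset.sum_add_distrib, Finset.sum_ite_eq' P p, if_pos hp,
      ← Finset.sum_filter, Finset.sum_const, Finset.sum_const, nsmul_eq_mul, nsmul_eq_mul]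
    have h5 : ((P.filter fun q => Bad p q).card : ℝ) * X ≤ m0 * X :=
      mul_le_mul_of_nonneg_right (Nat.cast_le.mpr (hBad p hp)) hX0
    have h6 : (P.card : ℝ) * (δ * X) = δ * X * P.card := by ring
    linarith
  have hsq : ∑ m ∈ Icc 1 n0, ‖∑ p ∈ P, f p m‖ ^ 2 ≤
      P.card * ((1 + m0) * X + δ * X * P.card) := by
    have e1 : ((∑ m ∈ Icc 1 n0, ‖∑ p ∈ P, f p m‖ ^ 2 : ℝ) : ℂ) =
        ∑ p ∈ P, ∑ q ∈ P, ∑ m ∈ Icc 1 n0, f p m * conj (f q m) := by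
      have e2 : ∀ p ∈ P, ∑ q ∈ P, ∑ m ∈ Icc 1 n0, f p m * conj (f q m) =
          ∑ m ∈ Icc 1 n0, ∑ q ∈ P, f p m * conj (f q m) := fun p _ => Finset.sum_comm
      rw [Finset.sum_congr rfl e2, Finset.sum_comm]
      push_cast
      refine Finset.sum_congr rfl fun m _ => ?_
      rw [← Complex.mul_conj', map_sum, Finset.sum_mul_sum]
    have e3 : ∑ m ∈ Icc 1 n0, ‖∑ p ∈ P, f p m‖ ^ 2 =
        ‖∑ p ∈ P, ∑ q ∈ P, ∑ m ∈ Icc 1 n0, f p m * conj (f q m)‖ := by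
      rw [← e1, Complex.norm_real, Real.norm_of_nonneg]
      exact Finset.sum_nonneg fun _ _ => by positivity
    rw [e3]
    refine (norm_sum_le _ _).trans ?_
    refine (Finset.sum_le_sum fun p hp => (norm_sum_le _ _).trans (hrow p hp)).trans ?_
    rw [Finset.sum_const, nsmul_eq_mul]
  have hS1 : ‖∑ m ∈ Icc 1 n0, u m * ∑ p ∈ P, f p m‖ ≤ ∑ m ∈ Icc 1 n0, ‖∑ p ∈ P, f p m‖ := by
    refine (norm_sum_le _ _).trans (Finset.sum_le_sum fun m _ => ?_)
    rw [norm_mul]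
    exact mul_le_of_le_one_left (norm_nonneg _) (hu m)
  have hcs : (∑ m ∈ Icc 1 n0, ‖∑ p ∈ P, f p m‖) ^ 2 ≤
      n0 * ∑ m ∈ Icc 1 n0, ‖∑ p ∈ P, f p m‖ ^ 2 := by
    have := sq_sum_le_card_mul_sum_sq (s := Icc 1 n0) (f := fun m => ‖∑ p ∈ P, f p m‖)
    simpa using this
  have hbound : (∑ m ∈ Icc 1 n0, ‖∑ p ∈ P, f p m‖) ^ 2 ≤
      X ^ 2 * (P.card * (1 + m0) + δ * P.card ^ 2) := by
    refine hcs.trans ?_
    calc (n0 : ℝ) * ∑ m ∈ Icc 1 n0, ‖∑ p ∈ P, f p m‖ ^ 2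
        ≤ X * (P.card * ((1 + m0) * X + δ * X * P.card)) := by
          refine mul_le_mul hn0X hsq (Finset.sum_nonneg fun _ _ => by positivity) hX0
      _ = X ^ 2 * (P.card * (1 + m0) + δ * P.card ^ 2) := by ring
  rw [hS, ← hX]
  refine hS1.trans ?_
  have hfin : (∑ m ∈ Icc 1 n0, ‖∑ p ∈ P, f p m‖) ≤
      X * Real.sqrt (P.card * (1 + m0) + δ * P.card ^ 2) := by
    refine le_of_sq_le_sq ?_ (by positivity)
    rw [mul_pow, Real.sq_sqrt (by positivity)]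
    exact hbound
  refine hfin.trans ?_
  refine mul_le_mul_of_nonneg_left ?_ hX0
  have h9 : Real.sqrt (δ * P.card ^ 2) = Real.sqrt δ * P.card := by
    rw [Real.sqrt_mul hδ, Real.sqrt_sq (by positivity)]
  rw [← h9]
  refine Real.sqrt_le_iff.mpr ⟨by positivity, ?_⟩
  rw [add_sq, Real.sq_sqrt (by positivity), Real.sq_sqrt (by positivity)]
  have h10 : 0 ≤ Real.sqrt (P.card * (1 + m0)) * Real.sqrt (δ * P.card ^ 2) := by positivity
  linarith

end Pool.Agent.Lib.H22M
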