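import Pool.Agent.Lib.H22M.KA1
import Pool.Agent.Lib.H22M.KA2

/-!
# Project H22M, chunk KA3: Kátai's criterion on average
-/

open Finset Filter Topology
open scoped ComplexConjugate

namespace Pool.Agent.Lib.H22M

/-- Sums over multiples. -/
theorem ka3_multiples {p : ℕ} (hp : 0 < p) (N : ℕ) (f : ℕ → ℂ) :
    ∑ n ∈ Icc 1 N, (if p ∣ n then f n else 0) = ∑ m ∈ Icc 1 (N / p), f (p * m) := by
  rw [← Finset.sum_filter]
  symm
  refine Finset.sum_bij (fun m _ => p * m) ?_ ?_ ?_ ?_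
  · intro m hm
    rw [mem_Icc] at hm
    rw [mem_filter, mem_Icc]
    refine ⟨⟨Nat.mul_pos hp (by omega), ?_⟩, dvd_mul_right p m⟩
    calc p * m ≤ p * (N / p) := Nat.mul_le_mul_left p hm.2
      _ ≤ N := Nat.mul_div_le N p
  · intro m _ m' _ h
    exact Nat.eq_of_mul_eq_mul_left hp h
  · intro n hn
    rw [mem_filter, mem_Icc] at hn
    obtain ⟨⟨h1, h2⟩, m, rfl⟩ := hn
    refine ⟨m, ?_, rfl⟩
    rw [mem_Icc]
    refine ⟨by
      rcases Nat.eq_zero_or_pos m with h0 | h0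
      · simp [h0] at h1
      · exact h0, ?_⟩
    rw [Nat.le_div_iff_mul_le hp, mul_comm]
    exact h2
  · intro m _
    rfl

/-- The number of multiples. -/
theorem ka3_count {p : ℕ} (hp : 0 < p) (N : ℕ) :
    ∑ n ∈ Icc 1 N, (if p ∣ n then (1 : ℝ) else 0) ≤ N / p := by
  have h := ka3_multiples hp N (fun _ => 1)
  have h' : ((∑ n ∈ Icc 1 N, (if p ∣ n then (1 : ℝ) else 0) : ℝ) : ℂ) = ((N / p : ℕ) : ℂ) := by
    push_cast
    rw [← Complex.ofReal_one, ← Complex.ofReal_zero] at *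
    simp only [Complex.ofReal_one, Complex.ofReal_zero] at *
    have : (∑ x ∈ Icc 1 N, ((if p ∣ x then (1 : ℝ) else 0 : ℝ) : ℂ)) =
        ∑ n ∈ Icc 1 N, (if p ∣ n then (1 : ℂ) else 0) := by
      refine Finset.sum_congr rfl fun x _ => ?_
      split_ifs <;> simp
    rw [this, h]
    simp
  have h2 : (∑ n ∈ Icc 1 N, (if p ∣ n then (1 : ℝ) else 0) : ℝ) = ((N / p : ℕ) : ℝ) := by
    exact_mod_cast h'
  rw [h2]
  exact Nat.cast_div_le

theorem ka3_mu_norm (n : ℕ) : ‖((ArithmeticFunction.moebius n : ℤ) : ℂ)‖ ≤ 1 := by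
  rw [Complex.norm_intCast]
  exact_mod_cast ArithmeticFunction.abs_moebius_le_one

theorem ka3_mu {p m : ℕ} (hp : p.Prime) :
    ‖((ArithmeticFunction.moebius (p * m) : ℤ) : ℂ) + ((ArithmeticFunction.moebius m : ℤ) : ℂ)‖ ≤
      if p ∣ m then 1 else 0 := by
  split_ifs with h
  · have h0 : ArithmeticFunction.moebius (p * m) = 0 := by
      apply ArithmeticFunction.moebius_eq_zero_of_not_squarefree
      intro hs
      obtain ⟨k, rfl⟩ := h
      have := hs p ⟨k, by ring⟩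
      exact hp.one_lt.ne' (Nat.isUnit_iff.mp this)
    rw [h0]
    simpa using ka3_mu_norm m
  · have hc : p.Coprime m := (Nat.Prime.coprime_iff_not_dvd hp).mpr h
    rw [ArithmeticFunction.isMultiplicative_moebius.map_mul_of_coprime hc,
      ArithmeticFunction.moebius_apply_prime hp]
    simp

theorem ka3_sq (P : Finset ℕ) (hP : ∀ p ∈ P, p.Prime) : ∑ p ∈ P, ((p : ℝ) ^ 2)⁻¹ ≤ 2 := by
  classical
  have h1 : P ⊆ Ioo 0 (P.sup id + 1) := by
    intro p hp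
    rw [mem_Ioo]
    exact ⟨(hP p hp).pos, Nat.lt_succ_of_le (Finset.le_sup (f := id) hp)⟩
  calc ∑ p ∈ P, ((p : ℝ) ^ 2)⁻¹ ≤ ∑ p ∈ Ioo 0 (P.sup id + 1), ((p : ℝ) ^ 2)⁻¹ :=
        Finset.sum_le_sum_of_subset_of_nonneg h1 fun _ _ _ => by positivity
    _ ≤ 2 / ((0 : ℕ) + 1) := sum_Ioo_inv_sq_le 0 (P.sup id + 1)
    _ = 2 := by norm_num

theorem ka3_geom (J : ℕ) : ∑ j ∈ range J, (Real.sqrt 2)⁻¹ ^ j ≤ 4 := by
  set x : ℝ := (Real.sqrt 2)⁻¹ with hx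
  have hs : (1 : ℝ) < Real.sqrt 2 := by
    rw [show (1 : ℝ) = Real.sqrt 1 by simp]
    exact Real.sqrt_lt_sqrt (by norm_num) (by norm_num)
  have h43 : (4 : ℝ) / 3 ≤ Real.sqrt 2 := by
    apply Real.le_sqrt_of_sq_le
    norm_num
  have hx0 : 0 ≤ x := by positivity
  have hx1 : x ≤ 3 / 4 := by
    rw [hx]
    calc (Real.sqrt 2)⁻¹ ≤ (4 / 3 : ℝ)⁻¹ := inv_anti₀ (by norm_num) h43
      _ = 3 / 4 := by norm_num
  have h := geom_sum_mul_neg x J
  have h1 : 0 ≤ x ^ J := pow_nonneg hx0 J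
  have h2 : 0 ≤ ∑ j ∈ range J, x ^ j := Finset.sum_nonneg fun _ _ => pow_nonneg hx0 _
  nlinarith

/-- The quantitative inequality. -/
theorem ka3_core (a : ℕ → ℂ) (ha : ∀ n, ‖a n‖ ≤ 1) (P : Finset ℕ) (hP : ∀ p ∈ P, p.Prime)
    (Bad : ℕ → ℕ → Prop) [DecidableRel Bad] (m0 : ℕ)
    (hBad : ∀ p ∈ P, (P.filter fun q => Bad p q).card ≤ m0) (δ : ℝ) (hδ : 0 ≤ δ) (L0 : ℕ)
    (hgood : ∀ p ∈ P, ∀ q ∈ P, p ≠ q → ¬ Bad p q → ∀ L : ℕ, L0 ≤ L →
      ‖∑ m ∈ Icc 1 L, a (p * m) * conj (a (q * m))‖ ≤ δ * L)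
    (J : ℕ) (hJ : ∀ p ∈ P, p < 2 ^ J) (N : ℕ) (hN : 2 ^ J * L0 ≤ N) (hN2 : 2 * P.card ≤ N) :
    (∑ p ∈ P, 1 / (p : ℝ)) *
        ‖∑ n ∈ Icc 1 N, ((ArithmeticFunction.moebius n : ℤ) : ℂ) * a n‖ ≤
      N * (Real.sqrt (2 * ∑ p ∈ P, 1 / (p : ℝ)) + 2 + 4 * Real.sqrt (1 + m0) +
        2 * Real.sqrt δ * ∑ p ∈ P, 1 / (p : ℝ)) := by
  classical
  set A : ℝ := ∑ p ∈ P, 1 / (p : ℝ) with hA
  have hA0 : 0 ≤ A := Finset.sum_nonneg fun _ _ => by positivity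
  set μ : ℕ → ℂ := fun n => ((ArithmeticFunction.moebius n : ℤ) : ℂ) with hμ
  have hμ1 : ∀ n, ‖μ n‖ ≤ 1 := ka3_mu_norm
  set om : ℕ → ℝ := fun n => ∑ p ∈ P, if p ∣ n then (1 : ℝ) else 0 with hom
  have hNn : (0 : ℝ) ≤ N := Nat.cast_nonneg N
  -- (1)
  have h1 : ‖∑ n ∈ Icc 1 N, μ n * a n * ((om n - A : ℝ) : ℂ)‖ ≤ N * Real.sqrt (2 * A) := by
    have e1 : ‖∑ n ∈ Icc 1 N, μ n * a n * ((om n - A : ℝ) : ℂ)‖ ≤ ∑ n ∈ Icc 1 N, |om n - A| := by
      refine (norm_sum_le _ _).trans (Finset.sum_le_sum fun n _ => ?_)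
      rw [norm_mul, norm_mul, Complex.norm_real, Real.norm_eq_abs]
      have : ‖μ n‖ * ‖a n‖ ≤ 1 := by
        calc ‖μ n‖ * ‖a n‖ ≤ 1 * 1 := mul_le_mul (hμ1 n) (ha n) (norm_nonneg _) (by norm_num)
          _ = 1 := one_mul 1
      calc ‖μ n‖ * ‖a n‖ * |om n - A| ≤ 1 * |om n - A| :=
            mul_le_mul_of_nonneg_right this (abs_nonneg _)
        _ = _ := one_mul _
    have e2 : (∑ n ∈ Icc 1 N, |om n - A|) ^ 2 ≤ (N * Real.sqrt (2 * A)) ^ 2 := by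
      have e3 : (∑ n ∈ Icc 1 N, |om n - A|) ^ 2 ≤
          (Icc 1 N).card * ∑ n ∈ Icc 1 N, |om n - A| ^ 2 := sq_sum_le_card_mul_sum_sq
      have e4 : ∑ n ∈ Icc 1 N, |om n - A| ^ 2 ≤ N * A + 2 * P.card * A := by
        simp only [sq_abs]
        exact turan_kubilius P hP N
      have e5 : (2 * P.card : ℝ) ≤ N := by exact_mod_cast hN2
      calc (∑ n ∈ Icc 1 N, |om n - A|) ^ 2 ≤ (Icc 1 N).card * ∑ n ∈ Icc 1 N, |om n - A| ^ 2 := e3
        _ = N * ∑ n ∈ Icc 1 N, |om n - A| ^ 2 := by rw [Nat.card_Icc]; simp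
        _ ≤ N * (N * A + 2 * P.card * A) := mul_le_mul_of_nonneg_left e4 hNn
        _ ≤ N * (N * A + N * A) := by gcongr
        _ = (N * Real.sqrt (2 * A)) ^ 2 := by
            rw [mul_pow, Real.sq_sqrt (by positivity)]; ring
    exact e1.trans ((sq_le_sq₀ (Finset.sum_nonneg fun _ _ => abs_nonneg _) (by positivity)).mp e2)
  -- (2)
  have h2 : ∑ n ∈ Icc 1 N, μ n * a n * ((om n : ℝ) : ℂ) =
      ∑ p ∈ P, ∑ m ∈ Icc 1 (N / p), μ (p * m) * a (p * m) := by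
    have e1 : ∀ n, μ n * a n * ((om n : ℝ) : ℂ) = ∑ p ∈ P, if p ∣ n then μ n * a n else 0 := by
      intro n
      rw [hom]
      push_cast
      rw [Finset.mul_sum]
      refine Finset.sum_congr rfl fun p _ => ?_
      split_ifs <;> simp
    simp only [e1]
    rw [Finset.sum_comm]
    exact Finset.sum_congr rfl fun p hp => ka3_multiples (hP p hp).pos N fun n => μ n * a n
  have h3 : ‖(∑ p ∈ P, ∑ m ∈ Icc 1 (N / p), μ (p * m) * a (p * m)) +
      ∑ p ∈ P, ∑ m ∈ Icc 1 (N / p), μ m * a (p * m)‖ ≤ N * 2 := by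
    rw [← Finset.sum_add_distrib]
    refine (norm_sum_le _ _).trans ?_
    calc ∑ p ∈ P, ‖(∑ m ∈ Icc 1 (N / p), μ (p * m) * a (p * m)) +
          ∑ m ∈ Icc 1 (N / p), μ m * a (p * m)‖ ≤ ∑ p ∈ P, N * ((p : ℝ) ^ 2)⁻¹ := by
          refine Finset.sum_le_sum fun p hp => ?_
          have hpp := hP p hp
          have hp0 : (0 : ℝ) < p := by exact_mod_cast hpp.pos
          rw [← Finset.sum_add_distrib]
          calc ‖∑ m ∈ Icc 1 (N / p), (μ (p * m) * a (p * m) + μ m * a (p * m))‖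
              ≤ ∑ m ∈ Icc 1 (N / p), (if p ∣ m then (1 : ℝ) else 0) := by
                refine (norm_sum_le _ _).trans (Finset.sum_le_sum fun m _ => ?_)
                rw [← add_mul, norm_mul]
                calc ‖μ (p * m) + μ m‖ * ‖a (p * m)‖ ≤ ‖μ (p * m) + μ m‖ * 1 :=
                      mul_le_mul_of_nonneg_left (ha _) (norm_nonneg _)
                  _ = ‖μ (p * m) + μ m‖ := mul_one _
                  _ ≤ _ := ka3_mu hpp
            _ ≤ ((N / p : ℕ) : ℝ) / p := ka3_count hpp.pos _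
            _ ≤ (N / p : ℝ) / p := by gcongr; exact Nat.cast_div_le
            _ = N * ((p : ℝ) ^ 2)⁻¹ := by field_simp
      _ = N * ∑ p ∈ P, ((p : ℝ) ^ 2)⁻¹ := by rw [Finset.mul_sum]
      _ ≤ N * 2 := mul_le_mul_of_nonneg_left (ka3_sq P hP) hNn
  -- (3)
  have h4 : ‖∑ p ∈ P, ∑ m ∈ Icc 1 (N / p), μ m * a (p * m)‖ ≤
      N * (4 * Real.sqrt (1 + m0) + 2 * Real.sqrt δ * A) := by
    have hmaps : ∀ p ∈ P, Nat.log 2 p ∈ range J := by
      intro p hp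
      rw [mem_range]
      exact Nat.log_lt_of_lt_pow (hP p hp).ne_zero (hJ p hp)
    rw [← Finset.sum_fiberwise_of_maps_to hmaps]
    refine (norm_sum_le _ _).trans ?_
    set Pj : ℕ → Finset ℕ := fun j => P.filter fun p => Nat.log 2 p = j with hPj
    have hPjs : ∀ j, ∀ p ∈ Pj j, p ∈ P ∧ 2 ^ j ≤ p ∧ p < 2 ^ (j + 1) := by
      intro j p hp
      rw [hPj, mem_filter] at hp
      obtain ⟨hp1, hp2⟩ := hp
      refine ⟨hp1, ?_, ?_⟩
      · rw [← hp2]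
        exact Nat.pow_log_le_self 2 (hP p hp1).ne_zero
      · rw [← hp2]
        exact Nat.lt_pow_succ_log_self (by norm_num) p
    have hcard : ∀ j, (Pj j).card ≤ 2 ^ j := by
      intro j
      calc (Pj j).card ≤ (Ico (2 ^ j) (2 ^ (j + 1))).card := by
            refine Finset.card_le_card fun p hp => ?_
            rw [mem_Ico]
            exact (hPjs j p hp).2
        _ = 2 ^ j := by rw [Nat.card_Ico, pow_succ]; omega
    have hb : ∀ j ∈ range J, ‖∑ p ∈ P with Nat.log 2 p = j, ∑ m ∈ Icc 1 (N / p), μ m * a (p * m)‖ ≤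
        N * (Real.sqrt (1 + m0) * (Real.sqrt 2)⁻¹ ^ j +
          2 * Real.sqrt δ * ∑ p ∈ P with Nat.log 2 p = j, 1 / (p : ℝ)) := by
      intro j hj
      rw [mem_range] at hj
      have hbb := block_bound a μ ha hμ1 j (Pj j) (fun p hp => (hPjs j p hp).2) Bad m0
        (fun p hp => (Finset.card_le_card (Finset.filter_subset_filter _
          (Finset.filter_subset _ _))).trans (hBad p (hPjs j p hp).1)) δ hδ L0
        (fun p hp q hq => hgood p (hPjs j p hp).1 q (hPjs j q hq).1) N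
        ((Nat.mul_le_mul_right L0 (Nat.pow_le_pow_right (by norm_num) hj)).trans hN)
      refine hbb.trans ?_
      have h2j : (0 : ℝ) < 2 ^ j := by positivity
      have e1 : Real.sqrt ((Pj j).card * (1 + m0)) / 2 ^ j ≤
          Real.sqrt (1 + m0) * (Real.sqrt 2)⁻¹ ^ j := by
        have e2 : Real.sqrt ((Pj j).card * (1 + m0)) ≤ Real.sqrt (2 ^ j) * Real.sqrt (1 + m0) := by
          rw [← Real.sqrt_mul (by positivity)]
          apply Real.sqrt_le_sqrt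
          have : ((Pj j).card : ℝ) ≤ 2 ^ j := by exact_mod_cast hcard j
          gcongr
        have e3 : Real.sqrt (2 ^ j) = Real.sqrt 2 ^ j := by
          rw [Real.sqrt_eq_rpow, Real.sqrt_eq_rpow, ← Real.rpow_natCast, ← Real.rpow_natCast,
            ← Real.rpow_mul (by norm_num), ← Real.rpow_mul (by norm_num), mul_comm]
        have e4 : (2 : ℝ) ^ j = Real.sqrt 2 ^ j * Real.sqrt 2 ^ j := by
          rw [← mul_pow, Real.mul_self_sqrt (by norm_num)]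
        have hs2 : (0 : ℝ) < Real.sqrt 2 ^ j := by positivity
        rw [div_le_iff₀ h2j]
        refine e2.trans (le_of_eq ?_)
        rw [e3, e4, inv_pow]
        field_simp
      have e5 : ((Pj j).card : ℝ) / 2 ^ j ≤ 2 * ∑ p ∈ P with Nat.log 2 p = j, 1 / (p : ℝ) := by
        have e6 : ((Pj j).card : ℝ) / 2 ^ j = 2 * ∑ _p ∈ Pj j, 1 / (2 ^ (j + 1) : ℝ) := by
          rw [Finset.sum_const, nsmul_eq_mul, pow_succ]
          field_simp
        rw [e6]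
        refine mul_le_mul_of_nonneg_left (Finset.sum_le_sum fun p hp => ?_) (by norm_num)
        obtain ⟨hp1, _, hp3⟩ := hPjs j p hp
        have hp0 : (0 : ℝ) < p := by exact_mod_cast (hP p hp1).pos
        exact one_div_le_one_div_of_le hp0 (by exact_mod_cast hp3.le)
      calc (N / 2 ^ j : ℝ) * (Real.sqrt ((Pj j).card * (1 + m0)) + Real.sqrt δ * (Pj j).card)
          = N * (Real.sqrt ((Pj j).card * (1 + m0)) / 2 ^ j +
              Real.sqrt δ * ((Pj j).card / 2 ^ j)) := by ring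
        _ ≤ N * (Real.sqrt (1 + m0) * (Real.sqrt 2)⁻¹ ^ j +
              Real.sqrt δ * (2 * ∑ p ∈ P with Nat.log 2 p = j, 1 / (p : ℝ))) := by gcongr
        _ = _ := by ring
    refine (Finset.sum_le_sum hb).trans ?_
    rw [← Finset.mul_sum, Finset.sum_add_distrib, ← Finset.mul_sum, ← Finset.mul_sum,
      Finset.sum_fiberwise_of_maps_to hmaps]
    have hg := ka3_geom J
    have hs : 0 ≤ Real.sqrt (1 + (m0 : ℝ)) := Real.sqrt_nonneg _
    have : Real.sqrt (1 + m0) * ∑ j ∈ range J, (Real.sqrt 2)⁻¹ ^ j ≤ 4 * Real.sqrt (1 + m0) := by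
      calc Real.sqrt (1 + m0) * ∑ j ∈ range J, (Real.sqrt 2)⁻¹ ^ j ≤ Real.sqrt (1 + m0) * 4 :=
            mul_le_mul_of_nonneg_left hg hs
        _ = _ := mul_comm _ _
    gcongr
  -- together
  have h5 : (A : ℂ) * ∑ n ∈ Icc 1 N, μ n * a n =
      ((∑ p ∈ P, ∑ m ∈ Icc 1 (N / p), μ (p * m) * a (p * m)) +
        ∑ p ∈ P, ∑ m ∈ Icc 1 (N / p), μ m * a (p * m)) -
      (∑ p ∈ P, ∑ m ∈ Icc 1 (N / p), μ m * a (p * m)) -
      ∑ n ∈ Icc 1 N, μ n * a n * ((om n - A : ℝ) : ℂ) := by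
    rw [← h2, Finset.mul_sum, add_sub_cancel_right, ← Finset.sum_sub_distrib]
    refine Finset.sum_congr rfl fun n _ => ?_
    push_cast
    ring
  have h6 : A * ‖∑ n ∈ Icc 1 N, μ n * a n‖ = ‖(A : ℂ) * ∑ n ∈ Icc 1 N, μ n * a n‖ := by
    rw [norm_mul, Complex.norm_real, Real.norm_of_nonneg hA0]
  rw [h6, h5]
  refine (norm_sub_le _ _).trans ?_
  refine (add_le_add (norm_sub_le _ _) h1).trans ?_
  refine (add_le_add_left (add_le_add h3 h4) _).trans (le_of_eq ?_)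
  ring

/-- Proof. Let `κ > 0`; we show that the averages are eventually at most `κ` in modulus (κ ≤ 1 say).
Put `ε = (κ/8)²`, take `P, m0` from `h ε`. Choose `A0 ≥ 1` with
`√(2/A0) + (2 + 4 √(1 + m0)) / A0 ≤ κ/2`. As `∑_{p ∈ P} 1/p` diverges, there is a finite `P' ⊆ P` with
`A := ∑_{p ∈ P'} 1/p ≥ A0` (the family is nonnegative, so non-summable means unbounded finite sums:
`summable_of_sum_le`, restrict the finite set to `P`). Let `Bad p q` mean: `q ≠ p` and it is not true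
that eventually `‖∑_{n ≤ N} a(p n) conj a(q n)‖ ≤ ε N` (use classical decidability). For `p ∈ P'` the
set `Q = {q ∈ P' : Bad p q}` has at most `m0` elements, otherwise `h` gives a `q ∈ Q` which is not bad.
Finitely many pairs: there is `L0` such that for all `p ≠ q` in `P'` with `¬ Bad p q` and `L ≥ L0`,
`‖∑_{m ≤ L} a(p m) conj a(q m)‖ ≤ ε L`.

Let `J` be such that all elements of `P'` are less than `2^J`, `P_j = {p ∈ P' : 2^j ≤ p < 2^(j+1)}` for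
`j < J`, and let `N ≥ 2^J L0` and `N ≥ 2 |P'|`. With `ω(n) = #{p ∈ P' : p ∣ n}`:

(1) `|A ∑_{n ≤ N} μ(n) a(n)| ≤ |∑_{n ≤ N} μ(n) a(n) ω(n)| + ∑_{n ≤ N} |ω(n) - A|`, and by
Cauchy–Schwarz and `turan_kubilius` the last sum is at most `√N √(N A + 2 |P'| A) ≤ N √(2 A)`.

(2) `∑_{n ≤ N} μ(n) a(n) ω(n) = ∑_{p ∈ P'} ∑_{m ≤ N/p} μ(p m) a(p m)` and `μ(p m) = -μ(m)` if `p ∤ m`,
`μ(p m) = 0` if `p ∣ m`. So it differs from `-∑_{p ∈ P'} ∑_{m ≤ N/p} μ(m) a(p m)` by at most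
`∑_p #{m ≤ N/p : p ∣ m} ≤ ∑_p N/p² ≤ 2 N`.

(3) By `block_bound` with `u = μ` on each `P_j`, `δ = ε`:
`|∑_{p ∈ P'} ∑_{m ≤ N/p} μ(m) a(p m)| ≤ ∑_{j < J} (N/2^j) (√(|P_j| (1 + m0)) + √ε |P_j|)`. Here
`|P_j| ≤ 2^j` gives `∑_j 2^(-j) √(|P_j| (1 + m0)) ≤ √(1 + m0) ∑_j 2^(-j/2) ≤ 4 √(1 + m0)`, and
`|P_j| / 2^j ≤ 2 ∑_{p ∈ P_j} 1/p` gives `∑_j |P_j| / 2^j ≤ 2 A`. So (3) is at most
`N (4 √(1 + m0) + 2 √ε A)`.

Dividing by `A N`: the average is at most `√(2/A) + (2 + 4 √(1 + m0))/A + 2 √ε ≤ κ/2 + κ/4 < κ`. -/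
theorem katai_average (a : ℕ → ℂ) (ha : ∀ n, ‖a n‖ ≤ 1)
    (h : ∀ ε : ℝ, 0 < ε → ∃ P : Set ℕ, (∀ p ∈ P, p.Prime) ∧
      ¬ Summable (P.indicator fun p : ℕ => 1 / (p : ℝ)) ∧
      ∃ m0 : ℕ, ∀ p ∈ P, ∀ Q : Finset ℕ, (∀ q ∈ Q, q.Prime ∧ q ≠ p) → m0 < Q.card →
        ∃ q ∈ Q, ∀ᶠ N : ℕ in atTop,
          ‖∑ n ∈ Icc 1 N, a (p * n) * conj (a (q * n))‖ ≤ ε * N) :
    Tendsto (fun N : ℕ => (∑ n ∈ Icc 1 N, (ArithmeticFunction.moebius n : ℂ) * a n) / N) atTop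
      (𝓝 0) := by
  classical
  rw [Metric.tendsto_atTop]
  intro κ hκ
  obtain ⟨P, hP, hdiv, m0, hm0⟩ := h ((κ / 8) ^ 2) (by positivity)
  -- `A0`
  set C : ℝ := 2 + 4 * Real.sqrt (1 + m0) with hC
  have hlim : Tendsto (fun x : ℝ => Real.sqrt (2 / x) + C / x) atTop (𝓝 0) := by
    have l1 : Tendsto (fun x : ℝ => 2 / x) atTop (𝓝 0) := tendsto_const_nhds.div_atTop tendsto_id
    have l2 : Tendsto (fun x : ℝ => C / x) atTop (𝓝 0) := tendsto_const_nhds.div_atTop tendsto_id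
    have l3 := (Real.continuous_sqrt.tendsto 0).comp l1
    simpa using l3.add l2
  obtain ⟨A0, hA0⟩ := eventually_atTop.mp ((hlim.eventually (gt_mem_nhds (show (0 : ℝ) < κ / 2 by
    positivity))).and (eventually_ge_atTop 1))
  -- `P'`
  obtain ⟨s, hs⟩ : ∃ s : Finset ℕ, A0 ≤ ∑ p ∈ s, P.indicator (fun p : ℕ => 1 / (p : ℝ)) p := by
    by_contra hcon
    push Not at hcon
    refine hdiv (summable_of_sum_le (c := A0) (fun p => ?_) fun s => (hcon s).le)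
    exact Set.indicator_nonneg (fun _ _ => by positivity) p
  set P' : Finset ℕ := s.filter (· ∈ P) with hP'
  have hsum : ∑ p ∈ s, P.indicator (fun p : ℕ => 1 / (p : ℝ)) p = ∑ p ∈ P', 1 / (p : ℝ) := by
    rw [hP', Finset.sum_filter]
    refine Finset.sum_congr rfl fun p _ => ?_
    rw [Set.indicator_apply]
  rw [hsum] at hs
  have hPP : ∀ p ∈ P', p ∈ P := fun p hp => (mem_filter.mp hp).2
  have hPp : ∀ p ∈ P', p.Prime := fun p hp => hP p (hPP p hp)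
  set A : ℝ := ∑ p ∈ P', 1 / (p : ℝ) with hA
  obtain ⟨hA1, hA2⟩ := hA0 A hs
  have hApos : 0 < A := by linarith
  set Bad : ℕ → ℕ → Prop := fun p q => q ≠ p ∧ ¬ ∀ᶠ N : ℕ in atTop,
    ‖∑ n ∈ Icc 1 N, a (p * n) * conj (a (q * n))‖ ≤ (κ / 8) ^ 2 * N with hBad
  have hB : ∀ p ∈ P', (P'.filter fun q => Bad p q).card ≤ m0 := by
    intro p hp
    by_contra hcon
    obtain ⟨q, hq, hq2⟩ := hm0 p (hPP p hp) (P'.filter fun q => Bad p q) (fun q hq =>
      ⟨hPp q (mem_filter.mp hq).1, (mem_filter.mp hq).2.1⟩) (not_le.mp hcon)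
    exact (mem_filter.mp hq).2.2 hq2
  have hev : ∀ᶠ L : ℕ in atTop, ∀ p ∈ P', ∀ q ∈ P', p ≠ q → ¬ Bad p q →
      ‖∑ m ∈ Icc 1 L, a (p * m) * conj (a (q * m))‖ ≤ (κ / 8) ^ 2 * L := by
    rw [Filter.eventually_all_finset]
    intro p _
    rw [Filter.eventually_all_finset]
    intro q _
    by_cases h1 : p ≠ q ∧ ¬ Bad p q
    · have h2 : ∀ᶠ N : ℕ in atTop,
          ‖∑ n ∈ Icc 1 N, a (p * n) * conj (a (q * n))‖ ≤ (κ / 8) ^ 2 * N := by
        by_contra h3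
        exact h1.2 ⟨h1.1.symm, h3⟩
      exact h2.mono fun L hL _ _ => hL
    · exact Eventually.of_forall fun L h2 h3 => absurd ⟨h2, h3⟩ h1
  obtain ⟨L0, hL0⟩ := eventually_atTop.mp hev
  obtain ⟨J, hJ⟩ : ∃ J : ℕ, ∀ p ∈ P', p < 2 ^ J :=
    ⟨P'.sup id, fun p hp => (Finset.le_sup (f := id) hp).trans_lt Nat.lt_two_pow_self⟩
  refine ⟨max (2 ^ J * L0) (max (2 * P'.card) 1), fun N hN => ?_⟩
  have hN1 : 2 ^ J * L0 ≤ N := (le_max_left _ _).trans hN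
  have hN2 : 2 * P'.card ≤ N := (le_max_left _ _).trans ((le_max_right _ _).trans hN)
  have hN3 : 1 ≤ N := (le_max_right _ _).trans ((le_max_right _ _).trans hN)
  have hNp : (0 : ℝ) < N := by exact_mod_cast hN3
  have hcore := ka3_core a ha P' hPp Bad m0 hB ((κ / 8) ^ 2) (by positivity) L0
    (fun p hp q hq hne hb L hL => hL0 L hL p hp q hq hne hb) J hJ N hN1 hN2
  rw [← hA, Real.sqrt_sq (by positivity)] at hcore
  rw [dist_zero_right, norm_div, Complex.norm_natCast]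
  have e1 : Real.sqrt (2 * A) = A * Real.sqrt (2 / A) := by
    have : 2 * A = A ^ 2 * (2 / A) := by field_simp
    rw [this, Real.sqrt_mul (by positivity), Real.sqrt_sq hApos.le]
  have e2 : ‖∑ n ∈ Icc 1 N, (ArithmeticFunction.moebius n : ℂ) * a n‖ / N ≤
      Real.sqrt (2 / A) + C / A + κ / 4 := by
    rw [div_le_iff₀ hNp]
    have e3 : A * ‖∑ n ∈ Icc 1 N, ((ArithmeticFunction.moebius n : ℤ) : ℂ) * a n‖ ≤
        A * ((Real.sqrt (2 / A) + C / A + κ / 4) * N) := by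
      refine hcore.trans (le_of_eq ?_)
      rw [e1, hC]
      field_simp
      ring
    exact le_of_mul_le_mul_left e3 hApos
  have e4 : Real.sqrt (2 / A) + C / A < κ / 2 := hA1
  calc ‖∑ n ∈ Icc 1 N, (ArithmeticFunction.moebius n : ℂ) * a n‖ / N
      ≤ Real.sqrt (2 / A) + C / A + κ / 4 := e2
    _ < κ := by linarith

end Pool.Agent.Lib.H22M
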