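import Pool.Agent.Lib.PNT.PNT

/-!
# Project H22M, chunk MU: the mean value of the Möbius function is zero
-/

open Finset Filter Topology

namespace Pool.Agent.Lib.H22M

/-- `(s - 1) ζ(s)` extended by `1` to `s = 1`. -/
noncomputable def mu_H : ℂ → ℂ := DirichletCharacter.LFunctionTrivChar₁ 1

theorem mu_H_one : mu_H 1 = 1 := by
  unfold mu_H DirichletCharacter.LFunctionTrivChar₁
  simp

theorem mu_H_of_ne {s : ℂ} (hs : s ≠ 1) : mu_H s = (s - 1) * riemannZeta s := by
  unfold mu_H DirichletCharacter.LFunctionTrivChar₁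
  rw [Function.update_of_ne hs, DirichletCharacter.LFunctionTrivChar_eq_mul_riemannZeta hs]
  simp

theorem mu_H_diff : Differentiable ℂ mu_H := DirichletCharacter.differentiable_LFunctionTrivChar₁ 1

theorem mu_H_ne {s : ℂ} (hs : 1 ≤ s.re) : mu_H s ≠ 0 := by
  rcases eq_or_ne s 1 with rfl | h
  · rw [mu_H_one]
    exact one_ne_zero
  · rw [mu_H_of_ne h]
    exact mul_ne_zero (sub_ne_zero.mpr h) (riemannZeta_ne_zero_of_one_le_re hs)

/-- Proof. Apply `Pool.Agent.Lib.PNT.wiener_ikehara_nat` to `a n = 1 + μ(n) ≥ 0` (and `a 0`: the term `0`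
does not matter, take `a 0 = 0` or `a 0 = 1 + μ(0) = 1`; `LSeries` ignores it), with `A = 1` and
`G(s) = (ζ(s) - 1/(s - 1)) + 1/ζ(s)`: for `re s > 1`, `LSeries 1 s = ζ(s)` and
`LSeries μ s = 1/ζ(s)` (`LSeries_one_eq_riemannZeta`, `LSeries_zeta_mul_Lseries_moebius`), so
`LSeries a s = G(s) + 1/(s - 1)`. Continuity of `G` on `re s ≥ 1`: the function
`s ↦ ζ(s) - 1/(s - 1)` extends continuously (Mathlib: `riemannZeta_residue_one`,
`differentiableAt_riemannZeta`, or the function `ZetaAsymp`/ `riemannZeta_sub_one_div..`, or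
`Pool.Agent.Lib.PNT` for how it treats this; at `s = 1` define `G 1` as the limit, e.g. write
`(s - 1) ζ(s) = H(s)` with `H` differentiable, `H 1 = 1` and use `dslope`), and
`1/ζ(s) = (s - 1)/H(s)` is continuous since `ζ` has no zero on `re s ≥ 1`
(`riemannZeta_ne_zero_of_one_le_re`). Conclusion: `(∑_{k ≤ n} (1 + μ(k)))/n → 1`, subtract
`(∑_{k ≤ n} 1)/n → 1`. (Alternatively deduce it from `Pool.Agent.Lib.PNT.psi_tendsto` by the elementary
argument with `∑_{n ≤ x} μ(n) log n = -∑_{n ≤ x} μ(n) ψ(x/n)`.) -/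
theorem moebius_mean :
    Tendsto (fun N : ℕ => (∑ n ∈ Icc 1 N, (ArithmeticFunction.moebius n : ℂ)) / N) atTop
      (𝓝 0) := by
  let a : ℕ → ℝ := fun n => 1 + ((ArithmeticFunction.moebius n : ℤ) : ℝ)
  have ha : ∀ n, 0 ≤ a n := fun n => by
    have h := ArithmeticFunction.abs_moebius_le_one (n := n)
    have h2 := (abs_le.mp h).1
    have h3 : (-1 : ℝ) ≤ ((ArithmeticFunction.moebius n : ℤ) : ℝ) := by exact_mod_cast h2
    change 0 ≤ 1 + ((ArithmeticFunction.moebius n : ℤ) : ℝ)
    linarith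
  have hfun : (fun n => ((a n : ℝ) : ℂ)) = (1 : ℕ → ℂ) + fun n => ((ArithmeticFunction.moebius n : ℤ) : ℂ) := by
    funext n
    simp [a]
  have hS : ∀ s : ℂ, 1 < s.re → LSeriesSummable (fun n => ((a n : ℝ) : ℂ)) s := fun s hs => by
    rw [hfun]
    exact (LSeriesSummable_one_iff.mpr hs).add (ArithmeticFunction.LSeriesSummable_moebius_iff.mpr hs)
  let G : ℂ → ℂ := fun s => dslope mu_H 1 s + (s - 1) / mu_H s
  have hG : ContinuousOn G {s | 1 ≤ s.re} := by
    refine ContinuousOn.add ?_ ?_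
    · have h1 : Differentiable ℂ (dslope mu_H 1) := by
        have h2 := (Complex.differentiableOn_dslope (c := 1) (s := Set.univ)
          Filter.univ_mem).mpr mu_H_diff.differentiableOn
        exact differentiableOn_univ.mp h2
      exact h1.continuous.continuousOn
    · refine ContinuousOn.div (by fun_prop) mu_H_diff.continuous.continuousOn ?_
      intro s hs
      exact mu_H_ne hs
  have hE : ∀ s : ℂ, 1 < s.re → LSeries (fun n => ((a n : ℝ) : ℂ)) s = G s + (1 : ℝ) / (s - 1) := by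
    intro s hs
    have hs1 : s ≠ 1 := by
      rintro rfl
      simp at hs
    have hz : riemannZeta s ≠ 0 := riemannZeta_ne_zero_of_one_le_re hs.le
    have hsub : s - 1 ≠ 0 := sub_ne_zero.mpr hs1
    rw [hfun, LSeries_add (LSeriesSummable_one_iff.mpr hs)
      (ArithmeticFunction.LSeriesSummable_moebius_iff.mpr hs), LSeries_one_eq_riemannZeta hs]
    have h1 := ArithmeticFunction.LSeries_zeta_mul_Lseries_moebius hs
    rw [ArithmeticFunction.LSeries_zeta_eq_riemannZeta hs] at h1
    have h2 : LSeries (fun n => ((ArithmeticFunction.moebius n : ℤ) : ℂ)) s = 1 / riemannZeta s := by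
      rw [eq_div_iff hz, mul_comm]
      exact h1
    rw [h2]
    change _ = dslope mu_H 1 s + (s - 1) / mu_H s + (1 : ℝ) / (s - 1)
    rw [dslope_of_ne _ hs1, slope_def_field, mu_H_one, mu_H_of_ne hs1]
    push_cast
    field_simp
    ring
  have h := Pool.Agent.Lib.PNT.wiener_ikehara_nat a ha 1 G
    (fun σ hσ => hS σ (by simpa using hσ)) hG hE
  have h1 : Tendsto (fun N : ℕ => (∑ k ∈ Icc 1 N, ((ArithmeticFunction.moebius k : ℤ) : ℝ)) / N)
      atTop (𝓝 0) := by
    have h2 : Tendsto (fun N : ℕ => (∑ k ∈ Icc 1 N, a k) / N - 1) atTop (𝓝 0) := by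
      simpa using h.sub_const 1
    refine h2.congr' ?_
    filter_upwards [eventually_ge_atTop 1] with N hN
    have hN0 : (N : ℝ) ≠ 0 := by exact_mod_cast (by omega : N ≠ 0)
    have : ∑ k ∈ Icc 1 N, a k = N + ∑ k ∈ Icc 1 N, ((ArithmeticFunction.moebius k : ℤ) : ℝ) := by
      simp only [a, sum_add_distrib, sum_const, Nat.card_Icc, add_tsub_cancel_right, nsmul_eq_mul, mul_one]
    rw [this, add_div, div_self hN0]
    ring
  have h3 := (Complex.continuous_ofReal.tendsto 0).comp h1
  refine (h3.congr fun N => ?_)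
  simp

end Pool.Agent.Lib.H22M
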