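import Pool.Agent.Lib.H22M.EG

/-!
# Project H22M, chunk TE: total ergodicity
-/

open MeasureTheory Filter Topology Finset
open scoped ComplexConjugate

namespace Pool.Agent.Lib.H22M

section

variable {Y : Type*} [MeasurableSpace Y] {m : Measure Y} {R : Y → Y}

/-- Proof. Suppose `c ≠ 1`. Apply `hD` to `F = {c}`. Let `p` be a prime not dividing `n`. There are
`s` and `t` with `s p = 1 + t n` (natural numbers), so `c = (c^s)^p` and `c^s` is an eigenvalue
(`IsEigenvalue.pow`). So `goodPrimes m R {c}` is contained in the set of divisors of `n`, which is finite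
(`n ≥ 1`), and the indicator function is summable (`summable_of_finite_support` or
`summable_of_hasFiniteSupport`). Contradiction. -/
theorem eq_one_of_root (hD : ManyGoodPrimes m R) (c : ℂ) (hc : IsEigenvalue m R c) (n : ℕ)
    (hn : 1 ≤ n) (h : c ^ n = 1) : c = 1 := by
  by_contra hc1
  apply hD {c} (by simp only [Finset.mem_singleton]; exact fun h' => hc1 h'.symm)
  have hsub : goodPrimes m R {c} ⊆ (n.divisors : Set ℕ) := by
    intro p hp
    obtain ⟨hp1, hp2⟩ := hp
    by_contra hpn
    have hpn' : ¬ p ∣ n := fun hd => hpn (by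
      simp only [Finset.mem_coe, Nat.mem_divisors]
      exact ⟨hd, by omega⟩)
    have hcop : Nat.Coprime p n := (Nat.Prime.coprime_iff_not_dvd hp1).mpr hpn'
    obtain ⟨s, t, hst⟩ : ∃ s t : ℕ, s * p = 1 + t * n := by
      rcases Nat.lt_or_ge 1 n with h1 | h1
      · obtain ⟨s, _, hs⟩ := Nat.exists_mul_mod_eq_one_of_coprime hcop h1
        refine ⟨s, p * s / n, ?_⟩
        have := Nat.div_add_mod (p * s) n
        rw [hs] at this
        rw [Nat.mul_comm s p, Nat.mul_comm (p * s / n) n]
        omega
      · have : n = 1 := by omega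
        subst this
        exact ⟨1, p - 1, by have := hp1.one_lt; omega⟩
    have := hp2 c (Finset.mem_singleton_self c) (c ^ s) (hc.pow s)
    apply this
    rw [← pow_mul, hst, pow_add, pow_one, Nat.mul_comm, pow_mul, h, one_pow, mul_one]
  exact summable_of_hasFiniteSupport ((n.divisors.finite_toSet).subset
    (Set.support_indicator_subset.trans hsub))

/-- Proof. `R^[n]` preserves `m`. Let `s` be measurable with `(R^[n]) ⁻¹' s = s` and let `f` be its
indicator function with values in `ℂ`: `f (R^[n] y) = f y` for all `y`. Let `ζ = exp(2πi/n)`, a primitive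
`n`-th root of unity, and for `j < n` put `f_j y = ∑_{i < n} ζ^(-i j) f (R^[i] y)`. Then
`f_j (R y) = ζ^j f_j y` for all `y` (shift the index, using `R^[n]`-invariance of `f` and `ζ^(-n j) = 1`).
For `0 < j < n`, `ζ^j ≠ 1` and `(ζ^j)^n = 1`, so `ζ^j` is not an eigenvalue (`hroot`) and
`isEigenvalue_of_eigen` gives `f_j = 0` almost everywhere. Since `∑_{j < n} f_j = n f`
(orthogonality: `∑_{j < n} ζ^(-i j) = 0` for `0 < i < n`), `f = f_0 / n` almost everywhere, and `f_0` is
invariant under `R`, so constant almost everywhere (`const_of_invariant`). Hence `f` is almost everywhere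
constant, i.e. `s` has measure `0` or full measure: `EventuallyConst s (ae m)`. -/
theorem ergodic_iterate [IsProbabilityMeasure m] (hR : Ergodic R m)
    (hroot : ∀ c : ℂ, IsEigenvalue m R c → ∀ n : ℕ, 1 ≤ n → c ^ n = 1 → c = 1) (n : ℕ)
    (hn : 1 ≤ n) : Ergodic (R^[n]) m := by
  refine ⟨hR.toMeasurePreserving.iterate n, ⟨fun s hs hinv => ?_⟩⟩
  have hRm : Measurable R := hR.measurable
  set f : Y → ℂ := s.indicator (fun _ => 1) with hf
  have hfm : Measurable f := measurable_const.indicator hs
  have hfinv : ∀ y, f (R^[n] y) = f y := by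
    intro y
    have hy : R^[n] y ∈ s ↔ y ∈ s := by
      conv_rhs => rw [← hinv]
      rfl
    by_cases h1 : y ∈ s
    · simp [hf, h1, hy.mpr h1]
    · have h2 : R^[n] y ∉ s := fun h2 => h1 (hy.mp h2)
      rw [hf, Set.indicator_of_notMem h1, Set.indicator_of_notMem h2]
  have hζ := Complex.isPrimitiveRoot_exp n (by omega)
  set ζ : ℂ := Complex.exp (2 * Real.pi * Complex.I / n) with hζdef
  have hζ0 : ζ ≠ 0 := hζ.ne_zero (by omega)
  have hζn : ‖ζ‖ = 1 := Complex.norm_eq_one_of_pow_eq_one hζ.pow_eq_one (by omega)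
  set F : ℕ → Y → ℂ := fun j y => ∑ i ∈ range n, ((ζ ^ j)⁻¹) ^ i * f (R^[i] y) with hF
  have hFm : ∀ j, Measurable (F j) := by
    intro j
    apply Finset.measurable_sum
    intro i _
    exact (hfm.comp (hRm.iterate i)).const_mul _
  have hFR : ∀ j y, F j (R y) = ζ ^ j * F j y := by
    intro j y
    have hw0 : ζ ^ j ≠ 0 := pow_ne_zero _ hζ0
    set g : ℕ → ℂ := fun i => ((ζ ^ j)⁻¹) ^ i * f (R^[i] y) with hg
    have hgn : g n = g 0 := by
      simp only [hg, pow_zero, Function.iterate_zero, id, hfinv]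
      rw [inv_pow, ← pow_mul, Nat.mul_comm, pow_mul, hζ.pow_eq_one, one_pow, inv_one]
    have h1 : F j (R y) = ζ ^ j * ∑ i ∈ range n, g (i + 1) := by
      simp only [hF, hg]
      rw [Finset.mul_sum]
      apply Finset.sum_congr rfl
      intro i _
      rw [Function.iterate_succ_apply, pow_succ]
      field_simp
    have h2 : ∑ i ∈ range n, g (i + 1) = ∑ i ∈ range n, g i := by
      have h3 := Finset.sum_range_succ g n
      have h4 := Finset.sum_range_succ' g n
      rw [h3, hgn] at h4
      exact (add_right_cancel h4).symm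
    rw [h1, h2]
  have hzero : ∀ j, 0 < j → j < n → ∀ᵐ y ∂m, F j y = 0 := by
    intro j hj0 hjn
    by_contra hne
    have hE := isEigenvalue_of_eigen hR (F j) (hFm j) (ζ ^ j) (by rw [norm_pow, hζn, one_pow])
      (Eventually.of_forall (hFR j)) hne
    have h1 := hroot _ hE n hn (by rw [← pow_mul, Nat.mul_comm, pow_mul, hζ.pow_eq_one, one_pow])
    exact hζ.pow_ne_one_of_pos_of_lt (by omega) hjn h1
  have hsum : ∀ y, ∑ j ∈ range n, F j y = n * f y := by
    intro y
    simp only [hF]
    rw [Finset.sum_comm]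
    have h1 : ∀ i ∈ range n, ∑ j ∈ range n, ((ζ ^ j)⁻¹) ^ i * f (R^[i] y)
        = if i = 0 then (n : ℂ) * f y else 0 := by
      intro i hi
      rw [← Finset.sum_mul]
      by_cases hi0 : i = 0
      · subst hi0
        simp
      · rw [if_neg hi0]
        have hx : ζ⁻¹ ^ i ≠ 1 := by
          intro h2
          rw [inv_pow, inv_eq_one] at h2
          exact hζ.pow_ne_one_of_pos_of_lt hi0 (Finset.mem_range.mp hi) h2
        have h3 : ∑ j ∈ range n, ((ζ ^ j)⁻¹) ^ i = ∑ j ∈ range n, (ζ⁻¹ ^ i) ^ j := by
          apply Finset.sum_congr rfl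
          intro j _
          rw [← inv_pow, ← pow_mul, ← pow_mul, Nat.mul_comm]
        rw [h3, geom_sum_eq hx, ← pow_mul, Nat.mul_comm, pow_mul, inv_pow, hζ.pow_eq_one]
        simp
    rw [Finset.sum_congr rfl h1, Finset.sum_ite_eq' (range n) 0]
    simp [show 0 < n by omega]
  obtain ⟨c, hc⟩ := const_of_invariant hR (F 0) (hFm 0)
    (Eventually.of_forall fun y => by rw [hFR 0 y, pow_zero, one_mul])
  have hall : ∀ᵐ y ∂m, ∀ j ∈ range n, 0 < j → F j y = 0 := by
    refine (ae_ball_iff (S := ((range n : Finset ℕ) : Set ℕ)) (Finset.countable_toSet _)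
      (p := fun y j _ => 0 < j → F j y = 0)).mpr ?_
    intro j hj
    rw [Finset.mem_coe] at hj
    by_cases hj0 : 0 < j
    · filter_upwards [hzero j hj0 (Finset.mem_range.mp hj)] with y hy _
      exact hy
    · exact Eventually.of_forall fun y h => absurd h hj0
  have hn0 : (n : ℂ) ≠ 0 := by exact_mod_cast (by omega : n ≠ 0)
  have hval : ∀ᵐ y ∂m, f y = c / n := by
    filter_upwards [hc, hall] with y hy hy2
    have h1 := hsum y
    rw [Finset.sum_eq_single_of_mem 0 (Finset.mem_range.mpr (by omega))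
      (fun j hj hj0 => hy2 j hj (Nat.pos_of_ne_zero hj0)), hy] at h1
    rw [h1]
    field_simp
  rw [Filter.eventuallyConst_set]
  by_cases hc1 : c / n = 1
  · left
    filter_upwards [hval] with y hy
    by_contra hys
    rw [hc1] at hy
    simp [hf, hys] at hy
  · right
    filter_upwards [hval] with y hy hys
    apply hc1
    rw [← hy]
    simp [hf, hys]

end

end Pool.Agent.Lib.H22M
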