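import Pool.Agent.Lib.H22M.Defs

/-!
# Project H22M, chunk TO2: measures invariant under a power of a uniquely ergodic map
-/

open MeasureTheory Filter Topology Finset

namespace Pool.Agent.Lib.H22M

/-- Proof. `T` is measurable (`h.inv.measurable`). Let `κ = (1/p) ∑_{i < p} ν'.map (T^[i])`, a
probability measure. `κ.map T = (1/p) ∑_{i < p} ν'.map (T^[i+1]) = κ` because
`ν'.map (T^[p]) = ν' = ν'.map (T^[0])`. By unique ergodicity `κ = ν`. The term `i = 0` gives
`ν' ≤ p κ = p ν`, so `ν' ≪ ν`. For `ν`-almost every `x`, `θ (T^[p] x) = R^[p] (θ x)` (induction on the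
exponent with `h.equiv` and the invariance of `ν` under `T`), hence also for `ν'`-almost every `x`. Let
`m' = ν'.map θ`: then `m' ≪ ν.map θ = m` (`AbsolutelyContinuous.map`), `m'` is a probability measure and
`m'.map (R^[p]) = ν'.map (R^[p] ∘ θ) = ν'.map (θ ∘ T^[p]) = (ν'.map T^[p]).map θ = m'`
(`Measure.map_congr`). As `R^[p]` is ergodic for `m` (a probability measure),
`Ergodic.eq_of_absolutelyContinuous` gives `m' = m`. Finally `ψ (θ x) = x` for `ν`-a.e., hence
`ν'`-a.e. `x`, so `ν' = ν'.map (ψ ∘ θ) = m'.map ψ = m.map ψ = ν`. -/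
theorem eq_of_iterate_invariant {X Y : Type*} [MeasurableSpace X] [MeasurableSpace Y]
    {T : X → X} {ν : Measure X} {m : Measure Y} {R : Y → Y} {θ : X → Y} {ψ : Y → X}
    (h : IsUEModel T ν m R θ ψ) (hR : Measurable R) (p : ℕ) (hp : 1 ≤ p)
    (herg : Ergodic (R^[p]) m) (ν' : Measure X) (hν' : IsProbabilityMeasure ν')
    (hinv : MeasurePreserving (T^[p]) ν' ν') : ν' = ν := by
  classical
  haveI := h.prob
  have hT : Measurable T := h.inv.measurable
  have hTi : ∀ i, Measurable (T^[i]) := fun i => hT.iterate i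
  have hp0 : (p : ENNReal) ≠ 0 := by exact_mod_cast (by omega : p ≠ 0)
  have hpT : (p : ENNReal) ≠ ⊤ := ENNReal.natCast_ne_top p
  have hmapS : ∀ i, (ν'.map (T^[i])).map T = ν'.map (T^[i + 1]) := fun i => by
    rw [Measure.map_map hT (hTi i)]
    congr 1
    rw [Function.iterate_succ']
  let κ : Measure X := (p : ENNReal)⁻¹ • ∑ i ∈ range p, ν'.map (T^[i])
  have hκP : IsProbabilityMeasure κ := ⟨by
    change ((p : ENNReal)⁻¹ • ∑ i ∈ range p, ν'.map (T^[i])) Set.univ = 1
    rw [Measure.smul_apply, Measure.finset_sum_apply]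
    have : ∀ i ∈ range p, (ν'.map (T^[i])) Set.univ = 1 := fun i _ => by
      rw [Measure.map_apply (hTi i) MeasurableSet.univ]
      simp
    rw [sum_congr rfl this]
    simp [ENNReal.inv_mul_cancel hp0 hpT]⟩
  have hκT : κ.map T = κ := by
    change ((p : ENNReal)⁻¹ • ∑ i ∈ range p, ν'.map (T^[i])).map T =
      (p : ENNReal)⁻¹ • ∑ i ∈ range p, ν'.map (T^[i])
    rw [Measure.map_smul, ← Measure.mapₗ_apply_of_measurable hT, map_sum]
    congr 1
    have : ∀ i ∈ range p, Measure.mapₗ T (ν'.map (T^[i])) = ν'.map (T^[i + 1]) := fun i _ => by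
      rw [Measure.mapₗ_apply_of_measurable hT, hmapS]
    rw [sum_congr rfl this]
    have h1 := Finset.sum_range_succ' (fun i => ν'.map (T^[i])) p
    have h2 := Finset.sum_range_succ (fun i => ν'.map (T^[i])) p
    have h3 : ν'.map (T^[p]) = ν'.map (T^[0]) := by
      rw [hinv.map_eq]
      simp
    rw [h2, h3] at h1
    obtain ⟨q, rfl⟩ : ∃ q, p = q + 1 := ⟨p - 1, by omega⟩
    rw [Finset.sum_range_succ, Finset.sum_range_succ']
    rw [h3]
  have hκν : κ = ν := h.unique κ hκP ⟨hT, hκT⟩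
  have hac : ν' ≪ ν := by
    refine Measure.AbsolutelyContinuous.mk fun s hs h0 => ?_
    rw [← hκν] at h0
    change ((p : ENNReal)⁻¹ • ∑ i ∈ range p, ν'.map (T^[i])) s = 0 at h0
    rw [Measure.smul_apply, Measure.finset_sum_apply, smul_eq_mul, mul_eq_zero] at h0
    rcases h0 with h0 | h0
    · exact absurd h0 (ENNReal.inv_ne_zero.mpr hpT)
    · have := (Finset.sum_eq_zero_iff.mp h0) 0 (mem_range.mpr (by omega))
      simpa using this
  have hiter : ∀ n : ℕ, ∀ᵐ x ∂ν, θ (T^[n] x) = R^[n] (θ x) := by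
    intro n
    induction n with
    | zero => simp
    | succ n ih =>
      have h1 : ∀ᵐ x ∂ν, θ (T (T^[n] x)) = R (θ (T^[n] x)) :=
        (h.inv.iterate n).quasiMeasurePreserving.ae h.equiv
      filter_upwards [ih, h1] with x hx1 hx2
      rw [Function.iterate_succ_apply', Function.iterate_succ_apply', hx2, hx1]
  have hit' : ∀ᵐ x ∂ν', θ (T^[p] x) = R^[p] (θ x) := hac.ae_le (hiter p)
  haveI hm'P : IsProbabilityMeasure (ν'.map θ) :=
    Measure.isProbabilityMeasure_map h.meas_theta.aemeasurable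
  haveI hmP : IsProbabilityMeasure m := by
    rw [← h.map_theta]
    exact Measure.isProbabilityMeasure_map h.meas_theta.aemeasurable
  have hm'ac : ν'.map θ ≪ m := by
    rw [← h.map_theta]
    exact hac.map h.meas_theta
  have hm'inv : MeasurePreserving (R^[p]) (ν'.map θ) (ν'.map θ) := by
    refine ⟨hR.iterate p, ?_⟩
    rw [Measure.map_map (hR.iterate p) h.meas_theta]
    have h1 : ν'.map (R^[p] ∘ θ) = ν'.map (θ ∘ T^[p]) := by
      refine Measure.map_congr ?_
      filter_upwards [hit'] with x hx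
      simp [hx]
    rw [h1, ← Measure.map_map h.meas_theta (hTi p), hinv.map_eq]
  have hm'm : ν'.map θ = m := herg.eq_of_absolutelyContinuous hm'inv hm'ac
  have hlin : ∀ᵐ x ∂ν', ψ (θ x) = x := hac.ae_le h.left_inv
  have h2 : ν'.map (ψ ∘ θ) = ν' := by
    have : ν'.map (ψ ∘ θ) = ν'.map id := Measure.map_congr (by
      filter_upwards [hlin] with x hx
      simpa using hx)
    rw [this, Measure.map_id]
  rw [← h2, ← Measure.map_map h.meas_psi h.meas_theta, hm'm, h.map_psi]

end Pool.Agent.Lib.H22M
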