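import Pool.Agent.Lib.H22M.TO1
import Pool.Agent.Lib.H22M.TO2

/-!
# Project H22M, chunk TO3: correlations along an orbit and joinings of the powers
-/

open MeasureTheory Filter Topology Finset
open scoped ComplexConjugate

namespace Pool.Agent.Lib.H22M

/-- Proof. Suppose not: then frequently `ε' N ≤ ‖∑_{n ≤ N} g(T^{pn} x) conj g(T^{qn} x)‖`. Apply
`exists_invariant_measure` to `W = X × X`, `S = Prod.map (T^[p]) (T^[q])`, `w = (x, x)` and the
continuous function `(u, v) ↦ g u conj (g v)`; note `S^[n] (x, x) = (T^[p * n] x, T^[q * n] x)`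
(`Function.iterate_mul`). It gives an `S`-invariant probability measure `ρ` on `X × X` with
`ε' ≤ ‖∫ g(u) conj g(v) dρ‖`. Its marginals are invariant under `T^[p]` and `T^[q]`, so they are `ν`
by `eq_of_iterate_invariant`. Let `ρ' = ρ.map (Prod.map θ θ)`. Its marginals are `ν.map θ = m`. For
`ρ`-almost every `(u, v)` one has `θ (T^[p] u) = R^[p] (θ u)` and `θ (T^[q] v) = R^[q] (θ v)` (marginals
`ν`; induction from `h.equiv`), so `ρ'.map (Prod.map R^[p] R^[q]) = ρ.map (Prod.map θ θ ∘ S) = ρ'`.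
Hence `IsJoin m R p q ρ'`. As `ψ (θ u) = u`, `ψ (θ v) = v` for `ρ`-almost every `(u, v)`,
`∫ g(ψ y) conj g(ψ y') dρ' = ∫ g(u) conj g(v) dρ`, whose norm is at least `ε' > ε`; this contradicts
`hb`. -/
theorem eventually_le_of_join {X Y : Type*} [MetricSpace X] [CompactSpace X] [MeasurableSpace X]
    [BorelSpace X] [MeasurableSpace Y] {T : X → X} (hT : Continuous T) {ν : Measure X}
    {m : Measure Y} {R : Y → Y} (hR : Measurable R) {θ : X → Y} {ψ : Y → X}
    (h : IsUEModel T ν m R θ ψ) (herg : ∀ n : ℕ, 1 ≤ n → Ergodic (R^[n]) m) (p q : ℕ)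
    (hp : 1 ≤ p) (hq : 1 ≤ q) (g : C(X, ℂ)) (x : X) (ε ε' : ℝ) (hε : ε < ε')
    (hb : ∀ ρ : Measure (Y × Y), IsJoin m R p q ρ →
      ‖∫ z, g (ψ z.1) * conj (g (ψ z.2)) ∂ρ‖ ≤ ε) :
    ∀ᶠ N : ℕ in atTop, ‖∑ n ∈ Icc 1 N, g (T^[p * n] x) * conj (g (T^[q * n] x))‖ ≤ ε' * N := by
  haveI : SecondCountableTopology X := inferInstance
  haveI := h.prob
  by_contra hcon
  rw [Filter.not_eventually] at hcon
  let F : C(X × X, ℂ) := ⟨fun z => g z.1 * conj (g z.2), by fun_prop⟩
  have hS : Continuous (Prod.map (T^[p]) (T^[q])) := (hT.iterate p).prodMap (hT.iterate q)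
  have hfreq : ∃ᶠ N : ℕ in atTop,
      ε' * N ≤ ‖∑ n ∈ Icc 1 N, F ((Prod.map (T^[p]) (T^[q]))^[n] (x, x))‖ := by
    refine hcon.mono fun N hN => ?_
    have h1 : ∀ n, F ((Prod.map (T^[p]) (T^[q]))^[n] (x, x))
        = g (T^[p * n] x) * conj (g (T^[q * n] x)) := by
      intro n
      rw [Prod.map_iterate, Function.iterate_mul, Function.iterate_mul]
      rfl
    simp only [h1]
    exact (not_le.1 hN).le
  obtain ⟨ρ, hρ, hinv, hge⟩ := exists_invariant_measure _ hS (x, x) F ε' hfreq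
  haveI := hρ
  have hTm : Measurable T := hT.measurable
  -- the marginals
  have hfst : ρ.map Prod.fst = ν := by
    refine eq_of_iterate_invariant h hR p hp (herg p hp) _
      (Measure.isProbabilityMeasure_map measurable_fst.aemeasurable) ⟨hTm.iterate p, ?_⟩
    rw [Measure.map_map (hTm.iterate p) measurable_fst]
    have h1 : T^[p] ∘ Prod.fst = (Prod.fst : X × X → X) ∘ Prod.map (T^[p]) (T^[q]) := rfl
    rw [h1, ← Measure.map_map measurable_fst hS.measurable, hinv.map_eq]
  have hsnd : ρ.map Prod.snd = ν := by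
    refine eq_of_iterate_invariant h hR q hq (herg q hq) _
      (Measure.isProbabilityMeasure_map measurable_snd.aemeasurable) ⟨hTm.iterate q, ?_⟩
    rw [Measure.map_map (hTm.iterate q) measurable_snd]
    have h1 : T^[q] ∘ Prod.snd = (Prod.snd : X × X → X) ∘ Prod.map (T^[p]) (T^[q]) := rfl
    rw [h1, ← Measure.map_map measurable_snd hS.measurable, hinv.map_eq]
  have hae1 : ∀ {P : X → Prop}, (∀ᵐ u ∂ν, P u) → ∀ᵐ z ∂ρ, P z.1 := by
    intro P hP
    rw [← hfst] at hP
    exact ae_of_ae_map measurable_fst.aemeasurable hP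
  have hae2 : ∀ {P : X → Prop}, (∀ᵐ u ∂ν, P u) → ∀ᵐ z ∂ρ, P z.2 := by
    intro P hP
    rw [← hsnd] at hP
    exact ae_of_ae_map measurable_snd.aemeasurable hP
  -- the orbits
  have horb : ∀ᵐ u ∂ν, ∀ n : ℕ, θ (T^[n] u) = R^[n] (θ u) := by
    have h1 : ∀ᵐ u ∂ν, ∀ n : ℕ, θ (T (T^[n] u)) = R (θ (T^[n] u)) := by
      rw [ae_all_iff]
      intro n
      exact (h.inv.iterate n).quasiMeasurePreserving.ae h.equiv
    filter_upwards [h1] with u hu n
    induction n with
    | zero => rfl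
    | succ n ih =>
      rw [Function.iterate_succ_apply', Function.iterate_succ_apply', hu n, ih]
  have hθθ : Measurable (Prod.map θ θ) := h.meas_theta.prodMap h.meas_theta
  have hjoin : IsJoin m R p q (ρ.map (Prod.map θ θ)) := by
    refine ⟨Measure.isProbabilityMeasure_map hθθ.aemeasurable, ?_, ?_,
      ⟨(hR.iterate p).prodMap (hR.iterate q), ?_⟩⟩
    · rw [Measure.map_map measurable_fst hθθ]
      have h1 : Prod.fst ∘ Prod.map θ θ = θ ∘ (Prod.fst : X × X → X) := rfl
      rw [h1, ← Measure.map_map h.meas_theta measurable_fst, hfst, h.map_theta]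
    · rw [Measure.map_map measurable_snd hθθ]
      have h1 : Prod.snd ∘ Prod.map θ θ = θ ∘ (Prod.snd : X × X → X) := rfl
      rw [h1, ← Measure.map_map h.meas_theta measurable_snd, hsnd, h.map_theta]
    · rw [Measure.map_map ((hR.iterate p).prodMap (hR.iterate q)) hθθ]
      have h1 : (Prod.map (R^[p]) (R^[q]) ∘ Prod.map θ θ) =ᵐ[ρ]
          (Prod.map θ θ ∘ Prod.map (T^[p]) (T^[q])) := by
        filter_upwards [hae1 horb, hae2 horb] with z hz1 hz2
        show ((R^[p] (θ z.1), R^[q] (θ z.2)) : Y × Y) = (θ (T^[p] z.1), θ (T^[q] z.2))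
        rw [hz1, hz2]
      rw [Measure.map_congr h1, ← Measure.map_map hθθ hS.measurable, hinv.map_eq]
  have hle := hb _ hjoin
  have hint : ∫ z, g (ψ z.1) * conj (g (ψ z.2)) ∂(ρ.map (Prod.map θ θ)) = ∫ z, F z ∂ρ := by
    have hgm : Measurable fun u => g u := g.continuous.measurable
    have hm : Measurable fun z : Y × Y => g (ψ z.1) * conj (g (ψ z.2)) :=
      (hgm.comp (h.meas_psi.comp measurable_fst)).mul
        (Complex.continuous_conj.measurable.comp (hgm.comp (h.meas_psi.comp measurable_snd)))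
    rw [integral_map hθθ.aemeasurable hm.aestronglyMeasurable]
    refine integral_congr_ae ?_
    filter_upwards [hae1 h.left_inv, hae2 h.left_inv] with z hz1 hz2
    show g (ψ (θ z.1)) * conj (g (ψ (θ z.2))) = g z.1 * conj (g z.2)
    rw [hz1, hz2]
  rw [hint] at hle
  linarith

end Pool.Agent.Lib.H22M
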