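import Pool.Agent.Lib.H22M.CB
import Pool.Agent.Lib.H22M.KA3
import Pool.Agent.Lib.H22M.MU
import Pool.Agent.Lib.H22M.TO3
import Pool.Agent.Lib.H22M.TE

/-!
# Project H22M, chunk FIN: Möbius disjointness
-/

open MeasureTheory Filter Topology Finset
open scoped ComplexConjugate

namespace Pool.Agent.Lib.H22M

section

variable {Z K M : Type*} [CommGroup Z] [TopologicalSpace Z] [IsTopologicalGroup Z]
  [CompactSpace Z] [T2Space Z] [SecondCountableTopology Z] [MeasurableSpace Z] [BorelSpace Z]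
  [Group K] [TopologicalSpace K] [IsTopologicalGroup K] [CompactSpace K] [T2Space K]
  [SecondCountableTopology K] [MeasurableSpace K] [BorelSpace K]
  [TopologicalSpace M] [CompactSpace M] [T2Space M] [SecondCountableTopology M]
  [MeasurableSpace M] [BorelSpace M] [MulAction K M] [ContinuousSMul K M]
  [MulAction.IsPretransitive K M]

/-- Proof. Let `m = lam.prod muM`, `R = skew α φ` (measurable, `herg.measurable`). By `eq_one_of_root` and
`ergodic_iterate` all `R^[n]`, `n ≥ 1`, are ergodic. Let `c₀ = ∫ f dν`, `L = 2 ‖f‖ + 1`,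
`g = L⁻¹ (f - c₀)` in `C(X, ℂ)`, `‖g‖ ≤ 1` pointwise, and `F = g ∘ ψ`, measurable, `‖F‖ ≤ 1`,
`∫ F dm = ∫ g d(m.map ψ) = ∫ g dν = 0`. Apply `katai_average` to `a n = g (T^[n] x)`: given `ε > 0`, take
`F0, m0` from `bad_bound` with `ε₀ = ε/2` and `P = goodPrimes m R F0`, all of whose elements are prime,
with divergent sum of reciprocals by `hD`. For `p ∈ P` and `Q` as required there is `q ∈ Q` with
`‖∫ F(z.1) conj F(z.2) dρ‖ ≤ ε/2` for all `ρ` with `IsJoin m R p q ρ`, and `eventually_le_of_join`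
(with `ε/2 < ε`) gives the condition of `katai_average`. So `(1/N) ∑_{n ≤ N} μ(n) g(T^n x) → 0`, and
`(1/N) ∑ μ(n) f(T^n x) = L (1/N) ∑ μ(n) g(T^n x) + c₀ (1/N) ∑ μ(n) → 0` with `moebius_mean`. -/
theorem main (lam : Measure Z) [lam.IsHaarMeasure] [IsProbabilityMeasure lam] (muM : Measure M)
    [IsProbabilityMeasure muM] [SMulInvariantMeasure K M muM] (α : Z) (φ : Z → K)
    (hφ : Measurable φ) (herg : Ergodic (skew (M := M) α φ) (lam.prod muM))
    (hD : ManyGoodPrimes (lam.prod muM) (skew (M := M) α φ))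
    {X : Type*} [MetricSpace X] [CompactSpace X] [MeasurableSpace X] [BorelSpace X]
    (T : X ≃ₜ X) (ν : Measure X) (θ : X → Z × M) (ψ : Z × M → X)
    (hmodel : IsUEModel T ν (lam.prod muM) (skew α φ) θ ψ) (f : C(X, ℂ)) (x : X) :
    Tendsto (fun N : ℕ => (1 / (N : ℂ)) *
      ∑ n ∈ Icc 1 N, f ((⇑T)^[n] x) * (ArithmeticFunction.moebius n : ℂ)) atTop (𝓝 0) := by
  have hergn : ∀ n : ℕ, 1 ≤ n → Ergodic ((skew (M := M) α φ)^[n]) (lam.prod muM) :=
    ergodic_iterate herg fun c hc n hn h => eq_one_of_root hD c hc n hn h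
  have hνp : IsProbabilityMeasure ν := hmodel.prob
  set c₀ : ℂ := ∫ x, f x ∂ν with hc₀
  set L : ℝ := 2 * ‖f‖ + 1 with hL
  have hL0 : 0 < L := by positivity
  have hLC : (L : ℂ) ≠ 0 := by exact_mod_cast hL0.ne'
  set g : C(X, ℂ) := (L : ℂ)⁻¹ • (f - ContinuousMap.const X c₀) with hg
  have hgx : ∀ x, g x = (L : ℂ)⁻¹ * (f x - c₀) := fun x => rfl
  have hc₀n : ‖c₀‖ ≤ ‖f‖ := by
    have h1 := norm_integral_le_of_norm_le_const (μ := ν) (f := fun x => f x) (C := ‖f‖)
      (Eventually.of_forall fun x => f.norm_coe_le_norm x)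
    simpa using h1
  have hg1 : ∀ x, ‖g x‖ ≤ 1 := by
    intro x
    rw [hgx, norm_mul, norm_inv, Complex.norm_real, Real.norm_of_nonneg hL0.le,
      inv_mul_le_iff₀ hL0, mul_one]
    calc ‖f x - c₀‖ ≤ ‖f x‖ + ‖c₀‖ := norm_sub_le _ _
      _ ≤ ‖f‖ + ‖f‖ := add_le_add (f.norm_coe_le_norm x) hc₀n
      _ ≤ L := by rw [hL]; linarith
  have hF0 : ∫ y, g (ψ y) ∂(lam.prod muM) = 0 := by
    have h1 : ∫ y, g (ψ y) ∂(lam.prod muM) = ∫ x, g x ∂ν := by
      rw [← hmodel.map_psi, integral_map hmodel.meas_psi.aemeasurable]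
      exact g.continuous.measurable.aestronglyMeasurable
    have hfi : Integrable (fun x => f x) ν :=
      Integrable.of_bound f.continuous.measurable.aestronglyMeasurable ‖f‖
        (Eventually.of_forall fun x => f.norm_coe_le_norm x)
    rw [h1]
    simp_rw [hgx]
    rw [integral_const_mul, integral_sub hfi (integrable_const _), integral_const]
    simp [hc₀]
  have hmain : Tendsto (fun N : ℕ =>
      (∑ n ∈ Icc 1 N, (ArithmeticFunction.moebius n : ℂ) * g ((⇑T)^[n] x)) / N) atTop (𝓝 0) := by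
    apply katai_average (fun n => g ((⇑T)^[n] x)) (fun n => hg1 _)
    intro ε hε
    obtain ⟨F0, h1, m0, hm0⟩ := bad_bound lam muM α φ hφ hergn (fun y => g (ψ y))
      (g.continuous.measurable.comp hmodel.meas_psi) (fun y => hg1 _) hF0 (ε / 2) (by positivity)
    refine ⟨goodPrimes (lam.prod muM) (skew α φ) F0, fun p hp => hp.1, hD F0 h1, m0,
      fun p hp Q hQ hcard => ?_⟩
    obtain ⟨q, hq, hbound⟩ := hm0 p hp Q hQ hcard
    refine ⟨q, hq, ?_⟩
    exact eventually_le_of_join T.continuous herg.measurable hmodel hergn p q hp.1.one_le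
      (hQ q hq).1.one_le g x (ε / 2) ε (by linarith) hbound
  have h2 := (hmain.const_mul (L : ℂ)).add (moebius_mean.const_mul c₀)
  rw [mul_zero, mul_zero, add_zero] at h2
  refine h2.congr fun N => ?_
  have h3 : ∀ n, f ((⇑T)^[n] x) = (L : ℂ) * g ((⇑T)^[n] x) + c₀ := by
    intro n
    rw [hgx]
    field_simp
    ring
  simp_rw [h3, div_eq_mul_inv, one_mul]
  rw [Finset.sum_mul, Finset.mul_sum, Finset.sum_mul, Finset.mul_sum, Finset.mul_sum,
    ← Finset.sum_add_distrib]
  refine Finset.sum_congr rfl fun n _ => ?_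
  ring

end

end Pool.Agent.Lib.H22M
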