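import Pool.Agent.Lib.H22M.SQ
import Pool.Agent.Lib.H22M.CE

/-!
# Project H22M, chunk JA: marginals and invariance of the relative square
-/

open MeasureTheory Filter Topology Finset
open scoped ComplexConjugate

namespace Pool.Agent.Lib.H22M

theorem ja_ext {Y : Type*} [MeasurableSpace Y] {τ τ' : Measure Y} [IsProbabilityMeasure τ]
    [IsProbabilityMeasure τ'] (h : ∀ f : Y → ℂ, BM f → ∫ y, f y ∂τ = ∫ y, f y ∂τ') : τ = τ' := by
  ext A hA
  have key : ∀ μ : Measure Y, IsProbabilityMeasure μ →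
      ∫ y, A.indicator (fun _ => (1 : ℂ)) y ∂μ = ((μ A).toReal : ℂ) := by
    intro μ hμ
    rw [integral_indicator hA]
    simp [Measure.real]
  have h1 := h _ (sq_bm_indicator hA)
  rw [key τ inferInstance, key τ' inferInstance] at h1
  have h2 : (τ A).toReal = (τ' A).toReal := by exact_mod_cast h1
  exact (ENNReal.toReal_eq_toReal_iff' (measure_ne_top _ _) (measure_ne_top _ _)).1 h2

/-- Proof. Take `g = 1` in `hσ`: `ρ[1|𝒢] = 1` and `integral_condExp` give
`∫ f(z.1) dσ = ∫ f(z.2) dρ = ∫ f dm` for `f` in `BM` (`hρ.snd`, `integral_map`); with indicator functions,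
`σ.map fst = m`. The same for the second coordinate. -/
theorem relSq_marginals {Y : Type*} [MeasurableSpace Y] {m : Measure Y} (R : Y → Y) {p q : ℕ}
    {ρ σ : Measure (Y × Y)} (hρ : IsJoin m R p q ρ) [IsProbabilityMeasure σ]
    (hσ : ∀ f g : Y → ℂ, BM f → BM g → ∫ z, f z.1 * g z.2 ∂σ =
      ∫ w, (ρ[fun z => f z.2|GG R p q ρ]) w * (ρ[fun z => g z.2|GG R p q ρ]) w ∂ρ) :
    σ.map Prod.fst = m ∧ σ.map Prod.snd = m := by
  haveI := hρ.prob
  haveI hm : IsProbabilityMeasure m := by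
    rw [← hρ.snd]
    exact Measure.isProbabilityMeasure_map measurable_snd.aemeasurable
  haveI : IsProbabilityMeasure (σ.map Prod.fst) :=
    Measure.isProbabilityMeasure_map measurable_fst.aemeasurable
  haveI : IsProbabilityMeasure (σ.map Prod.snd) :=
    Measure.isProbabilityMeasure_map measurable_snd.aemeasurable
  have h1 : ρ[fun _ : Y × Y => (1 : ℂ)|GG R p q ρ] = fun _ => 1 := condExp_const (GG_le R p q ρ) 1
  have h2 : ∀ f : Y → ℂ, BM f → ∫ w, (ρ[fun z => f z.2|GG R p q ρ]) w ∂ρ = ∫ y, f y ∂m := by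
    intro f hf
    rw [integral_condExp (GG_le R p q ρ), ← hρ.snd,
      integral_map measurable_snd.aemeasurable hf.1.aestronglyMeasurable]
  constructor
  · apply ja_ext
    intro f hf
    rw [integral_map measurable_fst.aemeasurable hf.1.aestronglyMeasurable]
    have h3 := hσ f (fun _ => 1) hf (BM.const 1)
    rw [h1] at h3
    simp only [mul_one] at h3
    rw [h3, h2 f hf]
  · apply ja_ext
    intro f hf
    rw [integral_map measurable_snd.aemeasurable hf.1.aestronglyMeasurable]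
    have h3 := hσ (fun _ => 1) f (BM.const 1) hf
    rw [h1] at h3
    simp only [one_mul] at h3
    rw [h3, h2 f hf]


/-- Proof. Let `S = pairE R p q` (its underlying function is `Prod.map R^[p] R^[q]`), which preserves `ρ`.
For `f` in `BM`: `f (R^[q] z.2) = f ((S z).2)`, so by `condExp_comp_equiv` (with `GG_le` and the two parts
of `GG_preimage`) `ρ[f (R^[q] z.2)|𝒢] = ρ[f z.2|𝒢] ∘ S` almost everywhere. By `hσ` and the invariance of
`ρ` under `S` (`MeasurePreserving.integral_comp'` for a measurable equivalence),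
`∫ f(R^[q] z.1) g(R^[q] z.2) dσ = ∫ f(z.1) g(z.2) dσ`, i.e. `σ.map (Prod.map R^[q] R^[q])` and `σ` have
the same integrals of products; conclude with `prod_ext_of_BM`. -/
theorem relSq_invariant {Y : Type*} [MeasurableSpace Y] {m : Measure Y} (R : Y ≃ᵐ Y) {p q : ℕ}
    {ρ σ : Measure (Y × Y)} (hρ : IsJoin m R p q ρ) [IsProbabilityMeasure σ]
    (hσ : ∀ f g : Y → ℂ, BM f → BM g → ∫ z, f z.1 * g z.2 ∂σ =
      ∫ w, (ρ[fun z => f z.2|GG R p q ρ]) w * (ρ[fun z => g z.2|GG R p q ρ]) w ∂ρ) :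
    MeasurePreserving (Prod.map ((⇑R)^[q]) ((⇑R)^[q])) σ σ := by
  haveI := hρ.prob
  have hRq : Measurable ((⇑R)^[q]) := R.measurable.iterate q
  have hmeas : Measurable (Prod.map ((⇑R)^[q]) ((⇑R)^[q])) := hRq.prodMap hRq
  haveI : IsProbabilityMeasure (σ.map (Prod.map ((⇑R)^[q]) ((⇑R)^[q]))) :=
    Measure.isProbabilityMeasure_map hmeas.aemeasurable
  refine ⟨hmeas, ?_⟩
  apply prod_ext_of_BM
  intro f g hf hg
  have hfg : BM fun z : Y × Y => f z.1 * g z.2 :=
    (hf.comp measurable_fst).mul (hg.comp measurable_snd)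
  rw [integral_map hmeas.aemeasurable hfg.1.aestronglyMeasurable]
  have hS : MeasurePreserving (pairE R p q) ρ ρ := hρ.inv
  have hce : ∀ f : Y → ℂ, BM f → ρ[fun z => f ((⇑R)^[q] z.2)|GG R p q ρ] =ᵐ[ρ]
      fun ω => (ρ[fun z => f z.2|GG R p q ρ]) (pairE R p q ω) := fun f hf =>
    condExp_comp_equiv (GG R p q ρ) ρ (GG_le R p q ρ) (pairE R p q) hS
      (fun s hs => (GG_preimage R p q ρ hρ.inv s hs).1)
      (fun s hs => (GG_preimage R p q ρ hρ.inv s hs).2)
      (fun z => f z.2) (hf.comp measurable_snd).integrable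
  have h1 := hσ (fun y => f ((⇑R)^[q] y)) (fun y => g ((⇑R)^[q] y)) (hf.comp hRq) (hg.comp hRq)
  have h2 : ∫ w, (ρ[fun z => f ((⇑R)^[q] z.2)|GG R p q ρ]) w *
      (ρ[fun z => g ((⇑R)^[q] z.2)|GG R p q ρ]) w ∂ρ =
      ∫ w, (ρ[fun z => f z.2|GG R p q ρ]) w * (ρ[fun z => g z.2|GG R p q ρ]) w ∂ρ := by
    rw [← hS.integral_comp' (fun w => (ρ[fun z => f z.2|GG R p q ρ]) w *
      (ρ[fun z => g z.2|GG R p q ρ]) w)]
    refine integral_congr_ae ?_
    filter_upwards [hce f hf, hce g hg] with w h3 h4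
    rw [h3, h4]
  have h3 : ∫ z, f (Prod.map ((⇑R)^[q]) ((⇑R)^[q]) z).1 *
      g (Prod.map ((⇑R)^[q]) ((⇑R)^[q]) z).2 ∂σ =
      ∫ z, f ((⇑R)^[q] z.1) * g ((⇑R)^[q] z.2) ∂σ := rfl
  rw [h3]
  exact (h1.trans h2).trans (hσ f g hf hg).symm


end Pool.Agent.Lib.H22M
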