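import Pool.Agent.Lib.H22M.Defs

/-!
# Project H22M, chunk KA1: the Turán–Kubilius inequality for a finite set of primes
-/

open Finset

namespace Pool.Agent.Lib.H22M

theorem ka1_count (N d : ℕ) :
    ∑ n ∈ Icc 1 N, (if d ∣ n then (1 : ℝ) else 0) = ((N / d : ℕ) : ℝ) := by
  rw [← Nat.Ioc_filter_dvd_card_eq_div N d, Finset.sum_boole]
  congr 2

theorem ka1_le (N d : ℕ) :
    ∑ n ∈ Icc 1 N, (if d ∣ n then (1 : ℝ) else 0) ≤ N * (1 / (d : ℝ)) := by
  rw [ka1_count, mul_one_div]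
  exact Nat.cast_div_le

theorem ka1_ge (N d : ℕ) :
    N * (1 / (d : ℝ)) - 1 ≤ ∑ n ∈ Icc 1 N, (if d ∣ n then (1 : ℝ) else 0) := by
  rw [ka1_count, mul_one_div, ← Nat.floor_div_eq_div (K := ℝ)]
  exact (Nat.sub_one_lt_floor _).le

/-- Proof. Let `A = ∑_{p ∈ P} 1/p` and `ω(n) = #{p ∈ P : p ∣ n}`. The number of `n ∈ [1, N]` divisible
by `d ≥ 1` is the floor of `N / d` (`Nat.card_multiples`, or `Nat.Ioc_filter_dvd_card_eq_div`), which is
at most `N/d` and at least `N/d - 1`. Hence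
`∑_n ω(n) ≥ ∑_p (N/p - 1) = N A - |P|`, and, two different primes being coprime,
`∑_n ω(n)² = ∑_{p ≠ q} #{n : p q ∣ n} + ∑_p #{n : p ∣ n} ≤ N ∑_{p ≠ q} 1/(p q) + N A ≤ N A² + N A`.
Expand the square: `∑_n (ω(n) - A)² = ∑ ω² - 2 A ∑ ω + N A² ≤ (N A² + N A) - 2 A (N A - |P|) + N A²
= N A + 2 |P| A`. -/
theorem turan_kubilius (P : Finset ℕ) (hP : ∀ p ∈ P, p.Prime) (N : ℕ) :
    ∑ n ∈ Icc 1 N, ((∑ p ∈ P, if p ∣ n then (1 : ℝ) else 0) - ∑ p ∈ P, 1 / (p : ℝ)) ^ 2 ≤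
      N * (∑ p ∈ P, 1 / (p : ℝ)) + 2 * P.card * (∑ p ∈ P, 1 / (p : ℝ)) := by
  set A : ℝ := ∑ p ∈ P, 1 / (p : ℝ) with hA
  have hA0 : 0 ≤ A := Finset.sum_nonneg fun p _ => by positivity
  have h1 : N * A - P.card ≤ ∑ n ∈ Icc 1 N, ∑ p ∈ P, (if p ∣ n then (1 : ℝ) else 0) := by
    rw [Finset.sum_comm]
    have h2 : ∑ p ∈ P, (N * (1 / (p : ℝ)) - 1) = N * A - P.card := by
      rw [Finset.sum_sub_distrib, ← Finset.mul_sum, ← hA, Finset.sum_const, nsmul_eq_mul, mul_one]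
    rw [← h2]
    exact Finset.sum_le_sum fun p _ => ka1_ge N p
  have h3 : ∑ n ∈ Icc 1 N, (∑ p ∈ P, (if p ∣ n then (1 : ℝ) else 0)) ^ 2 ≤ N * A ^ 2 + N * A := by
    have h4 : ∀ n, (∑ p ∈ P, (if p ∣ n then (1 : ℝ) else 0)) ^ 2
        = ∑ p ∈ P, ∑ q ∈ P, (if p ∣ n then (1 : ℝ) else 0) * (if q ∣ n then (1 : ℝ) else 0) := by
      intro n
      rw [sq, Finset.sum_mul_sum]
    simp only [h4]
    rw [Finset.sum_comm]
    have h5 : ∀ p ∈ P, ∀ q ∈ P, ∑ n ∈ Icc 1 N,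
        (if p ∣ n then (1 : ℝ) else 0) * (if q ∣ n then (1 : ℝ) else 0)
        ≤ N * ((1 / (p : ℝ)) * (1 / (q : ℝ))) + (if p = q then N * (1 / (p : ℝ)) else 0) := by
      intro p hp q hq
      by_cases hpq : p = q
      · subst hpq
        rw [if_pos rfl]
        have h6 : ∀ n, (if p ∣ n then (1 : ℝ) else 0) * (if p ∣ n then (1 : ℝ) else 0)
            = if p ∣ n then (1 : ℝ) else 0 := by
          intro n
          split_ifs <;> simp
        simp only [h6]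
        have h7 := ka1_le N p
        have h8 : (0 : ℝ) ≤ N * ((1 / (p : ℝ)) * (1 / (p : ℝ))) := by positivity
        linarith
      · rw [if_neg hpq, add_zero]
        have hcop : Nat.Coprime p q := (Nat.coprime_primes (hP p hp) (hP q hq)).2 hpq
        have h6 : ∀ n, (if p ∣ n then (1 : ℝ) else 0) * (if q ∣ n then (1 : ℝ) else 0)
            = if p * q ∣ n then (1 : ℝ) else 0 := by
          intro n
          by_cases hp' : p ∣ n
          · by_cases hq' : q ∣ n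
            · rw [if_pos hp', if_pos hq', if_pos (hcop.mul_dvd_of_dvd_of_dvd hp' hq'), one_mul]
            · rw [if_neg hq', if_neg fun h => hq' (dvd_trans (dvd_mul_left q p) h), mul_zero]
          · rw [if_neg hp', if_neg fun h => hp' (dvd_trans (dvd_mul_right p q) h), zero_mul]
        simp only [h6]
        refine (ka1_le N (p * q)).trans (le_of_eq ?_)
        push_cast
        rw [one_div_mul_one_div]
    have h9 : ∑ p ∈ P, ∑ q ∈ P,
        (N * ((1 / (p : ℝ)) * (1 / (q : ℝ))) + (if p = q then N * (1 / (p : ℝ)) else 0))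
        = N * A ^ 2 + N * A := by
      have h10 : ∀ p ∈ P, ∑ q ∈ P,
          (N * ((1 / (p : ℝ)) * (1 / (q : ℝ))) + (if p = q then N * (1 / (p : ℝ)) else 0))
          = N * A * (1 / (p : ℝ)) + N * (1 / (p : ℝ)) := by
        intro p hp
        rw [Finset.sum_add_distrib, Finset.sum_ite_eq, if_pos hp, ← Finset.mul_sum,
          ← Finset.mul_sum, ← hA]
        ring
      rw [Finset.sum_congr rfl h10, Finset.sum_add_distrib, ← Finset.mul_sum, ← Finset.mul_sum,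
        ← hA]
      ring
    rw [← h9]
    refine Finset.sum_le_sum fun p hp => ?_
    rw [Finset.sum_comm]
    exact Finset.sum_le_sum fun q hq => h5 p hp q hq
  have h11 : ∑ n ∈ Icc 1 N, ((∑ p ∈ P, if p ∣ n then (1 : ℝ) else 0) - A) ^ 2
      = ∑ n ∈ Icc 1 N, (∑ p ∈ P, (if p ∣ n then (1 : ℝ) else 0)) ^ 2
        - 2 * A * ∑ n ∈ Icc 1 N, ∑ p ∈ P, (if p ∣ n then (1 : ℝ) else 0) + N * A ^ 2 := by
    have h12 : ∀ n ∈ Icc 1 N, ((∑ p ∈ P, if p ∣ n then (1 : ℝ) else 0) - A) ^ 2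
        = (∑ p ∈ P, (if p ∣ n then (1 : ℝ) else 0)) ^ 2
          - 2 * A * ∑ p ∈ P, (if p ∣ n then (1 : ℝ) else 0) + A ^ 2 := fun n _ => by ring
    rw [Finset.sum_congr rfl h12, Finset.sum_add_distrib, Finset.sum_sub_distrib, ← Finset.mul_sum,
      Finset.sum_const, Nat.card_Icc, nsmul_eq_mul]
    simp
  rw [h11]
  nlinarith [mul_le_mul_of_nonneg_left h1 hA0]

end Pool.Agent.Lib.H22M
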