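import Pool.Agent.Lib.H22M.Defs

/-!
# Project H22M, chunk P1: invariant kernels on a homogeneous space
-/

open MeasureTheory Filter Topology Finset
open scoped ComplexConjugate

namespace Pool.Agent.Lib.H22M

section

variable {K M : Type*}
  [Group K] [TopologicalSpace K] [IsTopologicalGroup K] [CompactSpace K] [T2Space K]
  [SecondCountableTopology K] [MeasurableSpace K] [BorelSpace K]
  [TopologicalSpace M] [CompactSpace M] [T2Space M] [SecondCountableTopology M]
  [MeasurableSpace M] [BorelSpace M] [MulAction K M] [ContinuousSMul K M]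

variable (K) in
/-- the largest distance of the values of `f` at `g u`, `g v` -/
noncomputable def p1_D (f : C(M, ℂ)) (u v : M) : ℝ :=
  sSup ((fun g : K => ‖f (g • u) - f (g • v)‖) '' Set.univ)

variable (K) in
omit [T2Space K] [SecondCountableTopology K] [IsTopologicalGroup K] [MeasurableSpace K]
  [BorelSpace K] [CompactSpace M] [T2Space M] [SecondCountableTopology M]
  [MeasurableSpace M] [BorelSpace M] in
theorem p1_cont (f : C(M, ℂ)) : Continuous fun x : M × M => p1_D K f x.1 x.2 := by
  have hf : Continuous (Function.uncurry fun (x : M × M) (g : K) =>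
      ‖f (g • x.1) - f (g • x.2)‖) := by
    have h1 : Continuous fun y : (M × M) × K => y.2 • y.1.1 :=
      continuous_snd.smul (continuous_fst.comp continuous_fst)
    have h2 : Continuous fun y : (M × M) × K => y.2 • y.1.2 :=
      continuous_snd.smul (continuous_snd.comp continuous_fst)
    exact ((f.continuous.comp h1).sub (f.continuous.comp h2)).norm
  exact IsCompact.continuous_sSup (f := fun (x : M × M) (g : K) =>
      ‖f (g • x.1) - f (g • x.2)‖) isCompact_univ hf

variable (K) in
/-- Proof. `O = {(u, v) : ‖f u - f v‖ < δ}` is an open symmetric set containing the diagonal, and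
`O' = {(u, v) : ∀ g : K, (g u, g v) ∈ O}` is open (`K` is compact: the complement is the image of the
closed set `{(g, u, v) : (g u, g v) ∉ O}` under the projection along `K`, `isClosedMap_snd_of_compactSpace`),
symmetric, invariant under `K`, and contains the diagonal. The diagonal and the complement of `O'` are
disjoint closed sets of the compact Hausdorff space `M × M`; let `h : C(M × M, ℝ)` with values in
`[0, 1]`, `h = 1` on the diagonal and `h = 0` outside `O'` (`exists_continuous_zero_one_of_isClosed`).
Put `k u v = ∫ g, (h (g u, g v) + h (g v, g u)) dHaar(g)` with the Haar probability measure of `K` (or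
`Measure.haar`, finite since `K` is compact, positive). It is continuous (compactness; e.g.
`continuous_parametric_integral_of_continuous`), nonnegative, symmetric, invariant (`k (g₀ u) (g₀ v)`:
substitute `g ↦ g g₀`; a Haar measure of a compact group is right invariant: unimodular,
`MeasureTheory.Measure.IsHaarMeasure` + `IsMulRightInvariant` instance for compact groups; or replace the
integral by the supremum over `g ∈ K`, which is also continuous and clearly invariant: `k u v =
⨆ g, max (h (g u, g v)) (h (g v, g u))`), positive on the diagonal, and `k u v ≠ 0` implies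
`(g u, g v) ∈ O'` or `(g v, g u) ∈ O'` for some `g`, so `(u, v) ∈ O' ⊆ O`. -/
theorem exists_inv_kernel (f : C(M, ℂ)) (δ : ℝ) (hδ : 0 < δ) :
    ∃ k : M → M → ℝ, Continuous (Function.uncurry k) ∧ (∀ u v, 0 ≤ k u v) ∧
      (∀ u v, k u v = k v u) ∧ (∀ (g : K) (u v : M), k (g • u) (g • v) = k u v) ∧
      (∀ u, 0 < k u u) ∧ ∀ u v, k u v ≠ 0 → ‖f u - f v‖ ≤ δ := by
  refine ⟨fun u v => max (δ - p1_D K f u v) 0, ?_, fun u v => le_max_right _ _, ?_, ?_, ?_, ?_⟩
  · exact (continuous_const.sub (p1_cont K f)).max continuous_const
  · intro u v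
    have : p1_D K f u v = p1_D K f v u := by
      unfold p1_D
      simp only [norm_sub_rev]
    simp only [this]
  · intro g u v
    have : p1_D K f (g • u) (g • v) = p1_D K f u v := by
      unfold p1_D
      rw [Set.image_univ, Set.image_univ]
      congr 1
      simp only [smul_smul]
      exact (Group.mulRight_bijective g).surjective.range_comp
        (fun g : K => ‖f (g • u) - f (g • v)‖)
    simp only [this]
  · intro u
    have : p1_D K f u u = 0 := by
      unfold p1_D
      simp only [sub_self, norm_zero]
      rw [Set.Nonempty.image_const Set.univ_nonempty, csSup_singleton]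
    simp only [this, sub_zero]
    exact lt_max_of_lt_left hδ
  · intro u v h
    have h1 : p1_D K f u v < δ := by
      by_contra h2
      rw [not_lt] at h2
      exact h (max_eq_right (by linarith))
    refine le_trans ?_ h1.le
    have hb : BddAbove ((fun g : K => ‖f (g • u) - f (g • v)‖) '' Set.univ) := by
      refine (isCompact_univ.image ?_).bddAbove
      have h3 : ∀ w : M, Continuous fun g : K => f (g • w) := fun w =>
        f.continuous.comp (continuous_id.smul continuous_const)
      exact ((h3 u).sub (h3 v)).norm
    have h4 : ‖f u - f v‖ ∈ ((fun g : K => ‖f (g • u) - f (g • v)‖) '' Set.univ) :=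
      ⟨1, Set.mem_univ _, by simp⟩
    exact le_csSup hb h4

variable (K) in
/-- An invariant probability measure on a homogeneous space has full support. Proof: let `O` be open,
nonempty, `u₀ ∈ O`. The sets `g O` (`g ∈ K`) are open and cover `M` (transitivity), so finitely many cover
`M`, and they have the same measure as `O`. So `muM O ≠ 0`. -/
theorem isOpenPosMeasure_of_invariant [MulAction.IsPretransitive K M] (muM : Measure M)
    [IsProbabilityMeasure muM] [SMulInvariantMeasure K M muM] : muM.IsOpenPosMeasure := by
  have : MulAction.IsMinimal K M := inferInstance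
  refine ⟨fun U hU hne => ?_⟩
  refine (measure_isOpen_pos_of_smulInvariant_of_compact_ne_zero K isCompact_univ ?_ hU hne).ne'
  rw [measure_univ]
  exact one_ne_zero

variable (K) in
/-- Proof. `u ↦ ∫ k u v dmuM(v)` is constant: for `u' = g u`,
`∫ k (g u) v dv = ∫ k (g u) (g v) dv = ∫ k u v dv` (invariance of `muM`). It is positive as
`k u u > 0`, `k` is continuous and `muM` has full support (`isOpenPosMeasure_of_invariant`). The second
claim: `|∫ k u v (f v - f u) dv| ≤ δ ∫ k u v dv`. -/
theorem kernel_approx [MulAction.IsPretransitive K M] (muM : Measure M)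
    [IsProbabilityMeasure muM] [SMulInvariantMeasure K M muM] [Nonempty M] (f : C(M, ℂ)) (δ : ℝ)
    (hδ : 0 < δ) (k : M → M → ℝ) (hk : Continuous (Function.uncurry k))
    (h0 : ∀ u v, 0 ≤ k u v)
    (hinv : ∀ (g : K) (u v : M), k (g • u) (g • v) = k u v) (hpos : ∀ u, 0 < k u u)
    (hsupp : ∀ u v, k u v ≠ 0 → ‖f u - f v‖ ≤ δ) :
    ∃ c : ℝ, 0 < c ∧ (∀ u, ∫ v, k u v ∂muM = c) ∧
      ∀ u, ‖(∫ v, (k u v : ℂ) * f v ∂muM) - c * f u‖ ≤ c * δ := by
  have := isOpenPosMeasure_of_invariant K muM
  obtain ⟨u0⟩ := ‹Nonempty M›
  have hku : ∀ u, Continuous (k u) := fun u => hk.comp (Continuous.prodMk_right u)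
  have hconst : ∀ u, ∫ v, k u v ∂muM = ∫ v, k u0 v ∂muM := by
    intro u
    obtain ⟨g, rfl⟩ := MulAction.exists_smul_eq K u0 u
    rw [← integral_smul_eq_self (fun v => k (g • u0) v) (g := g)]
    simp only [hinv]
  have hint : ∀ u, Integrable (k u) muM := fun u =>
    (hku u).integrable_of_hasCompactSupport (HasCompactSupport.of_compactSpace _)
  refine ⟨∫ v, k u0 v ∂muM, ?_, hconst, ?_⟩
  · exact (hku u0).integral_pos_of_hasCompactSupport_nonneg_nonzero
      (HasCompactSupport.of_compactSpace _) (fun v => h0 u0 v) (hpos u0).ne'
  · intro u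
    have hi1 : Integrable (fun v => (k u v : ℂ) * f v) muM :=
      ((Complex.continuous_ofReal.comp (hku u)).mul f.continuous).integrable_of_hasCompactSupport
        (HasCompactSupport.of_compactSpace _)
    have hi2 : Integrable (fun v => (k u v : ℂ) * f u) muM :=
      ((Complex.continuous_ofReal.comp (hku u)).mul continuous_const).integrable_of_hasCompactSupport
        (HasCompactSupport.of_compactSpace _)
    have h1 : ((∫ v, k u0 v ∂muM : ℝ) : ℂ) * f u = ∫ v, (k u v : ℂ) * f u ∂muM := by
      rw [integral_mul_const, ← hconst u, ← integral_complex_ofReal]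
    rw [h1, ← integral_sub hi1 hi2, ← hconst u, ← integral_mul_const]
    refine norm_integral_le_of_norm_le ((hint u).mul_const δ) (Eventually.of_forall fun v => ?_)
    rw [← mul_sub, norm_mul, Complex.norm_real, Real.norm_eq_abs, abs_of_nonneg (h0 u v)]
    by_cases hkv : k u v = 0
    · rw [hkv, zero_mul, zero_mul]
    · rw [norm_sub_rev]
      exact mul_le_mul_of_nonneg_left (hsupp u v hkv) (h0 u v)

end

end Pool.Agent.Lib.H22M
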