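import Pool.Agent.Lib.H22M.W1

/-!
# Project H22M, chunk P3: the range of a compact symmetric operator
-/

open Filter Topology Finset
open scoped ComplexConjugate InnerProductSpace

namespace Pool.Agent.Lib.H22M

/-- Proof. The span of the eigenspaces of `T` is dense
(`ContinuousLinearMap.orthogonalComplement_iSup_eigenspaces_eq_bot` and
`Submodule.topologicalClosure_eq_top_iff`). Choose `x'` in the span with `‖T‖ ‖x - x'‖ ≤ δ`,
`x' = ∑_{β ∈ s'} x_β` with `x_β` in the eigenspace of `β`. Then `T x' = ∑_{β ∈ s'} β x_β`, and the term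
`β = 0` vanishes: take `s = s' \ {0}` and `y = T x'`. -/
theorem compact_range_approx {H : Type*} [NormedAddCommGroup H] [InnerProductSpace ℂ H]
    [CompleteSpace H] (T : H →L[ℂ] H) (hT : IsCompactOperator T)
    (hsym : (T : H →ₗ[ℂ] H).IsSymmetric) (x : H) (δ : ℝ) (hδ : 0 < δ) :
    ∃ (s : Finset ℂ) (y : ℂ → H), 0 ∉ s ∧ (∀ β ∈ s, T (y β) = β • y β) ∧
      ‖T x - ∑ β ∈ s, y β‖ ≤ δ := by
  have h1 := ContinuousLinearMap.orthogonalComplement_iSup_eigenspaces_eq_bot hT hsym
  have h2 := Submodule.topologicalClosure_eq_top_iff.mpr h1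
  have h3 : x ∈ closure ((⨆ μ, Module.End.eigenspace (T : H →ₗ[ℂ] H) μ : Submodule ℂ H) : Set H) := by
    have : x ∈ (⨆ μ, Module.End.eigenspace (T : H →ₗ[ℂ] H) μ).topologicalClosure := by
      rw [h2]; trivial
    exact this
  obtain ⟨x', hx', hd⟩ := Metric.mem_closure_iff.mp h3 (δ / (‖T‖ + 1)) (by positivity)
  obtain ⟨f, hf, hs⟩ := (Submodule.mem_iSup_iff_exists_finsupp _ _).mp hx'
  refine ⟨f.support.erase 0, fun β => β • f β, by simp, ?_, ?_⟩
  · intro β _
    have := Module.End.mem_eigenspace_iff.mp (hf β)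
    have h4 : T (f β) = β • f β := this
    rw [map_smul, h4]
  · have h5 : T x' = ∑ β ∈ f.support.erase 0, β • f β := by
      rw [← hs, Finsupp.sum, map_sum]
      rw [← Finset.sum_erase (a := (0 : ℂ)) f.support]
      · refine Finset.sum_congr rfl fun β _ => ?_
        exact Module.End.mem_eigenspace_iff.mp (hf β)
      · have : T (f 0) = (0 : ℂ) • f 0 := Module.End.mem_eigenspace_iff.mp (hf 0)
        rw [this, zero_smul]
    rw [← h5, ← map_sub]
    have h6 : ‖x - x'‖ ≤ δ / (‖T‖ + 1) := by rw [← dist_eq_norm]; exact hd.le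
    calc ‖T (x - x')‖ ≤ ‖T‖ * ‖x - x'‖ := T.le_opNorm _
      _ ≤ (‖T‖ + 1) * (δ / (‖T‖ + 1)) := by
        refine mul_le_mul (by linarith) h6 (norm_nonneg _) (by positivity)
      _ = δ := by field_simp

end Pool.Agent.Lib.H22M
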