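import Pool.Agent.Lib.H22M.P1
import Pool.Agent.Lib.H22M.P3
import Pool.Agent.Lib.Maass.CompactKernel

/-!
# Project H22M, chunk P4: finite dimensional invariant spaces of continuous functions
-/

open MeasureTheory Filter Topology Finset
open scoped ComplexConjugate

namespace Pool.Agent.Lib.H22M

section

variable {K M : Type*}
  [Group K] [TopologicalSpace K] [IsTopologicalGroup K] [CompactSpace K] [T2Space K]
  [SecondCountableTopology K] [MeasurableSpace K] [BorelSpace K]
  [TopologicalSpace M] [CompactSpace M] [T2Space M] [SecondCountableTopology M]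
  [MeasurableSpace M] [BorelSpace M] [MulAction K M] [ContinuousSMul K M]

omit [T2Space M] in
theorem p4_int {muM : Measure M} [IsProbabilityMeasure muM] {F : M → ℂ} (hF : Continuous F) :
    Integrable F muM :=
  hF.integrable_of_hasCompactSupport (HasCompactSupport.of_compactSpace _)

omit [CompactSpace M] [T2Space M] [SecondCountableTopology M] [MeasurableSpace M] [BorelSpace M] in
theorem p4_cont {k : M → M → ℝ} (hk : Continuous (Function.uncurry k)) (u : M) :
    Continuous fun v => (k u v : ℂ) := by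
  have : Continuous fun v => k u v := hk.comp (Continuous.prodMk_right u)
  exact Complex.continuous_ofReal.comp this

omit [CompactSpace M] [T2Space M] [SecondCountableTopology M] [MeasurableSpace M] [BorelSpace M] in
theorem p4_cont' {k : M → M → ℝ} (hk : Continuous (Function.uncurry k)) (v : M) :
    Continuous fun u => (k u v : ℂ) := by
  have : Continuous fun u => k u v := hk.comp (Continuous.prodMk_left v)
  exact Complex.continuous_ofReal.comp this

/-- The eigenspace of continuous functions. -/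
def p4V (muM : Measure M) [IsProbabilityMeasure muM] {k : M → M → ℝ}
    (hk : Continuous (Function.uncurry k)) (β : ℂ) : Submodule ℂ C(M, ℂ) where
  carrier := {h | ∀ u, ∫ v, (k u v : ℂ) * h v ∂muM = β * h u}
  zero_mem' := by
    intro u
    simp
  add_mem' := by
    intro f g hf hg u
    have h1 := integral_add (p4_int (muM := muM) ((p4_cont hk u).mul f.continuous))
      (p4_int (muM := muM) ((p4_cont hk u).mul g.continuous))
    simp only [Pi.mul_apply] at h1
    have hf' : ∫ v, (k u v : ℂ) * f v ∂muM = β * f u := hf u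
    have hg' : ∫ v, (k u v : ℂ) * g v ∂muM = β * g u := hg u
    rw [ContinuousMap.add_apply, mul_add, ← hf', ← hg']
    refine Eq.trans (integral_congr_ae (Eventually.of_forall fun v => ?_)) h1
    simp only [ContinuousMap.add_apply]
    ring
  smul_mem' := by
    intro c f hf u
    rw [ContinuousMap.smul_apply, smul_eq_mul, mul_left_comm, ← hf u, ← integral_const_mul]
    refine integral_congr_ae (Eventually.of_forall fun v => ?_)
    simp only [ContinuousMap.smul_apply, smul_eq_mul]
    ring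

omit [CompactSpace M] [T2Space M] in
theorem p4_continuous [CompactSpace M] {muM : Measure M} [IsProbabilityMeasure muM] {k : M → M → ℝ}
    (hk : Continuous (Function.uncurry k)) {C : ℝ} (hC : ∀ x y, |k x y| ≤ C) {y : M → ℂ}
    (hy : Integrable y muM) : Continuous fun u => ∫ v, (k u v : ℂ) * y v ∂muM := by
  refine continuous_of_dominated (bound := fun v => C * ‖y v‖) ?_ ?_ (hy.norm.const_mul C) ?_
  · intro u
    exact (p4_cont hk u).aestronglyMeasurable.mul hy.aestronglyMeasurable
  · intro u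
    refine Eventually.of_forall fun v => ?_
    rw [norm_mul, Complex.norm_real, Real.norm_eq_abs]
    exact mul_le_mul_of_nonneg_right (hC u v) (norm_nonneg _)
  · exact Eventually.of_forall fun v => (p4_cont' hk v).mul continuous_const

omit [T2Space M] in
theorem p4_l2 {muM : Measure M} [IsProbabilityMeasure muM] (φ : C(M, ℂ)) :
    l2 muM (fun u => φ u) = ‖ContinuousMap.toLp 2 muM ℂ φ‖ := by
  have h := Lp.norm_def (ContinuousMap.toLp 2 muM ℂ φ)
  have h1 : eLpNorm (ContinuousMap.toLp 2 muM ℂ φ) 2 muM = eLpNorm φ 2 muM :=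
    eLpNorm_congr_ae (ContinuousMap.coeFn_toLp muM φ)
  have hm : MemLp φ 2 muM := (memLp_congr_ae (ContinuousMap.coeFn_toLp muM φ)).mp
    (Lp.memLp (ContinuousMap.toLp 2 muM ℂ φ))
  rw [h, h1, hm.eLpNorm_eq_integral_rpow_norm (by norm_num) (by norm_num)]
  have h0 : 0 ≤ ∫ a, ‖φ a‖ ^ (2 : ℝ) ∂muM := integral_nonneg fun a => by positivity
  rw [ENNReal.toReal_ofNat, ENNReal.toReal_ofReal (Real.rpow_nonneg h0 _), l2, Real.sqrt_eq_rpow]
  norm_num

variable (K) in
/-- Proof. Let `k` be the kernel of `exists_inv_kernel` for `f` and `δ/2`, `c` from `kernel_approx`. Let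
`T` be the compact symmetric operator on `Lp ℂ 2 muM` with kernel `k`
(`exists_kernel_operator` of `Pool/Agent/Lib/Maass/CompactKernel.lean`). By `compact_range_approx`, applied
to the class of `c⁻¹ f`, there are finitely many `β ≠ 0` and eigenvectors `y_β`, `T y_β = β y_β`, with
`‖T (c⁻¹ f) - ∑ y_β‖ ≤ δ/2`; and `T (c⁻¹ f)` is within `δ/2` of `f` uniformly, hence in `L²`. For
`β ≠ 0` let `V_β = {h ∈ C(M, ℂ) : ∀ u, ∫ k u v h v dmuM(v) = β h u}`, a linear subspace of `C(M, ℂ)`.
(a) The class of `h ∈ V_β` lies in `eigenspace T β`, and the map is injective (`muM` has full support), so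
`V_β` is finite dimensional (`finiteDimensional_eigenspace` of chunk W1).
(b) `V_β` is invariant: for `g : K`, `h' u = h (g u)` satisfies
`∫ k u v h (g v) dv = ∫ k (g u) (g v) h (g v) dv = ∫ k (g u) v h v dv = β h (g u)`.
(c) Every eigenvector `y` of `T` for `β ≠ 0` is the class of an element of `V_β`: `h u = β⁻¹ ∫ k u v y v dv`
is continuous in `u` (`k` is uniformly continuous, `y` integrable), equal to `y` almost everywhere, so
`∫ k u v h v dv = ∫ k u v y v dv = β h u` for all `u`.
Let `V` be the sum of the `V_β` over the finitely many `β`, and `h` the sum of the representatives of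
`y_β`. -/
theorem exists_invariant_subspace [MulAction.IsPretransitive K M] (muM : Measure M)
    [IsProbabilityMeasure muM] [SMulInvariantMeasure K M muM] (f : C(M, ℂ)) (δ : ℝ)
    (hδ : 0 < δ) :
    ∃ V : Submodule ℂ C(M, ℂ), FiniteDimensional ℂ V ∧
      (∀ (g : K), ∀ h ∈ V, ∃ h' ∈ V, ∀ u, h' u = h (g • u)) ∧
      ∃ h ∈ V, l2 muM (fun u => f u - h u) ≤ δ := by
  classical
  haveI : Nonempty M := nonempty_of_isProbabilityMeasure muM
  haveI := isOpenPosMeasure_of_invariant K muM
  have hδ2 : 0 < δ / 2 := by positivity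
  obtain ⟨k, hk, k0, ksymm, kinv, kpos, ksupp⟩ := exists_inv_kernel K f (δ / 2) hδ2
  obtain ⟨c, hc, -, hc2⟩ := kernel_approx K muM f (δ / 2) hδ2 k hk k0 kinv kpos ksupp
  obtain ⟨C, hC⟩ : ∃ C, ∀ x y, |k x y| ≤ C := by
    obtain ⟨C, hC⟩ := isCompact_univ.exists_bound_of_continuousOn (f := Function.uncurry k)
      hk.continuousOn
    exact ⟨C, fun x y => hC (x, y) (Set.mem_univ _)⟩
  obtain ⟨T, hTc, hT, hTs⟩ := Pool.Agent.Lib.Maass.exists_kernel_operator muM k hk.measurable C hC
  have hsym := hTs ksymm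
  set L : C(M, ℂ) →L[ℂ] Lp ℂ 2 muM := ContinuousMap.toLp 2 muM ℂ with hL
  have hLc : ∀ h : C(M, ℂ), (L h : M → ℂ) =ᵐ[muM] h := fun h => ContinuousMap.coeFn_toLp muM h
  have hLinj : Function.Injective L := ContinuousMap.toLp_injective muM
  obtain ⟨s, y, hs0, hy, hyn⟩ := compact_range_approx T hTc hsym (L ((c : ℂ)⁻¹ • f)) (δ / 2) hδ2
  -- the operator on classes of continuous functions
  have hTL : ∀ h : C(M, ℂ), T (L h) =ᵐ[muM] fun x => ∫ v, (k x v : ℂ) * h v ∂muM := by
    intro h
    filter_upwards [hT (L h)] with x hx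
    rw [hx]
    refine integral_congr_ae ?_
    filter_upwards [hLc h] with v hv
    rw [hv]
  -- (a)
  have ha : ∀ β : ℂ, β ≠ 0 → FiniteDimensional ℂ (p4V muM hk β) := by
    intro β hβ
    haveI := finiteDimensional_eigenspace T hTc β hβ
    have hmem : ∀ h : p4V muM hk β,
        (L : C(M, ℂ) →ₗ[ℂ] Lp ℂ 2 muM).domRestrict (p4V muM hk β) h ∈
          Module.End.eigenspace (T : Lp ℂ 2 muM →ₗ[ℂ] Lp ℂ 2 muM) β := by
      intro h
      rw [Module.End.mem_eigenspace_iff]
      show T (L h.1) = β • L h.1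
      apply Lp.ext
      filter_upwards [hTL h.1, Lp.coeFn_smul β (L h.1), hLc h.1] with x h1 h2 h3
      rw [h1, h2, Pi.smul_apply, h3, smul_eq_mul]
      exact h.2 x
    refine FiniteDimensional.of_injective (LinearMap.codRestrict _
      ((L : C(M, ℂ) →ₗ[ℂ] Lp ℂ 2 muM).domRestrict (p4V muM hk β)) hmem) ?_
    intro h1 h2 h12
    have h3 : L h1.1 = L h2.1 := congrArg Subtype.val h12
    exact Subtype.ext (hLinj h3)
  -- (b)
  have hb : ∀ (g : K) (β : ℂ), ∀ h ∈ p4V muM hk β,
      (h.comp ⟨fun u => g • u, continuous_const_smul g⟩) ∈ p4V muM hk β := by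
    intro g β h hh u
    have h1 := hh (g • u)
    rw [← integral_smul_eq_self (μ := muM) (fun v => (k (g • u) v : ℂ) * h v) (g := g)] at h1
    simp only [kinv] at h1
    simpa using h1
  -- (c)
  have hcc : ∀ β ∈ s, ∃ h ∈ p4V muM hk β, L h = y β := by
    intro β hβs
    have hβ : β ≠ 0 := fun h0 => hs0 (h0 ▸ hβs)
    have hyi : Integrable (y β) muM := Pool.Agent.Lib.Maass.integrable_Lp (y β)
    set h : C(M, ℂ) := ⟨fun u => β⁻¹ * ∫ v, (k u v : ℂ) * (y β) v ∂muM,
      continuous_const.mul (p4_continuous hk hC hyi)⟩ with hh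
    have hae : (h : M → ℂ) =ᵐ[muM] y β := by
      filter_upwards [hT (y β), Lp.coeFn_smul β (y β)] with u h1 h2
      show β⁻¹ * ∫ v, (k u v : ℂ) * (y β) v ∂muM = (y β) u
      rw [← h1, hy β hβs, h2, Pi.smul_apply, smul_eq_mul]
      field_simp
    refine ⟨h, fun u => ?_, ?_⟩
    · have h1 : ∫ v, (k u v : ℂ) * h v ∂muM = ∫ v, (k u v : ℂ) * (y β) v ∂muM := by
        refine integral_congr_ae ?_
        filter_upwards [hae] with v hv
        rw [hv]
      rw [h1]
      show _ = β * (β⁻¹ * ∫ v, (k u v : ℂ) * (y β) v ∂muM)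
      field_simp
    · apply Lp.ext
      exact (hLc h).trans hae
  choose H hHV hHL using hcc
  haveI : ∀ β : s, FiniteDimensional ℂ (p4V muM hk β.1) := fun β =>
    ha β.1 fun h0 => hs0 (h0 ▸ β.2)
  refine ⟨⨆ β : s, p4V muM hk β.1, Submodule.finiteDimensional_iSup _, ?_, ?_⟩
  · intro g h hh
    let Lg : C(M, ℂ) →ₗ[ℂ] C(M, ℂ) :=
      { toFun := fun h => h.comp ⟨fun u => g • u, continuous_const_smul g⟩
        map_add' := fun _ _ => rfl
        map_smul' := fun _ _ => rfl }
    have hle : (⨆ β : s, p4V muM hk β.1) ≤ (⨆ β : s, p4V muM hk β.1).comap Lg := by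
      refine iSup_le fun β => ?_
      intro h' hh'
      exact (le_iSup (fun β : s => p4V muM hk β.1) β) (hb g β.1 h' hh')
    exact ⟨Lg h, hle hh, fun u => rfl⟩
  · refine ⟨∑ β ∈ s.attach, H β.1 β.2, ?_, ?_⟩
    · refine Submodule.sum_mem _ fun β _ => ?_
      exact (le_iSup (fun β : s => p4V muM hk β.1) β) (hHV β.1 β.2)
    · have e1 : (fun u => f u - (∑ β ∈ s.attach, H β.1 β.2 : C(M, ℂ)) u) =
          fun u => (f - ∑ β ∈ s.attach, H β.1 β.2 : C(M, ℂ)) u := by
        funext u
        rfl
      rw [e1, p4_l2]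
      have e2 : ContinuousMap.toLp 2 muM ℂ (f - ∑ β ∈ s.attach, H β.1 β.2) =
          (L f - T (L ((c : ℂ)⁻¹ • f))) + (T (L ((c : ℂ)⁻¹ • f)) - ∑ β ∈ s, y β) := by
        rw [← hL, map_sub, map_sum, ← Finset.sum_attach s]
        rw [Finset.sum_congr rfl fun β _ => hHL β.1 β.2]
        abel
      rw [e2]
      have e3 : ‖L f - T (L ((c : ℂ)⁻¹ • f))‖ ≤ δ / 2 := by
        have hae : ∀ᵐ u ∂muM, ‖(L f - T (L ((c : ℂ)⁻¹ • f)) : Lp ℂ 2 muM) u‖ ≤ δ / 2 := by
          filter_upwards [Lp.coeFn_sub (L f) (T (L ((c : ℂ)⁻¹ • f))), hTL ((c : ℂ)⁻¹ • f), hLc f]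
            with u h1 h2 h3
          rw [h1, Pi.sub_apply, h2, h3]
          have h4 : ∫ v, (k u v : ℂ) * ((c : ℂ)⁻¹ • f : C(M, ℂ)) v ∂muM =
              (c : ℂ)⁻¹ * ∫ v, (k u v : ℂ) * f v ∂muM := by
            rw [← integral_const_mul]
            refine integral_congr_ae (Eventually.of_forall fun v => ?_)
            simp only [ContinuousMap.smul_apply, smul_eq_mul]
            ring
          have hcne : (c : ℂ) ≠ 0 := by exact_mod_cast hc.ne'
          have h5 : f u - (c : ℂ)⁻¹ * ∫ v, (k u v : ℂ) * f v ∂muM =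
              -((c : ℂ)⁻¹ * ((∫ v, (k u v : ℂ) * f v ∂muM) - c * f u)) := by
            field_simp
            ring
          rw [h4, h5, norm_neg, norm_mul, norm_inv, Complex.norm_real, Real.norm_of_nonneg hc.le]
          calc c⁻¹ * ‖(∫ v, (k u v : ℂ) * f v ∂muM) - c * f u‖ ≤ c⁻¹ * (c * (δ / 2)) :=
                mul_le_mul_of_nonneg_left (hc2 u) (by positivity)
            _ = δ / 2 := by field_simp
        have h6 := Lp.norm_le_of_ae_bound hδ2.le hae
        have h7 : measureUnivNNReal muM = 1 := by simp [measureUnivNNReal]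
        rw [h7] at h6
        simpa using h6
      calc _ ≤ δ / 2 + δ / 2 := (norm_add_le _ _).trans (add_le_add e3 hyn)
        _ = δ := by ring

end

end Pool.Agent.Lib.H22M
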