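import Pool.Agent.Lib.H22M.Defs

/-!
# Project H22M, chunk SQ: the relatively independent self-product
-/

open MeasureTheory Filter Topology ProbabilityTheory
open scoped ComplexConjugate

namespace Pool.Agent.Lib.H22M

/-- Proof. Let `κ = condExpKernel ρ 𝒢 : Kernel[𝒢] Ω Ω` (`Mathlib/Probability/Kernel/Condexp.lean`), `κ'`
its image under `π` (`Kernel.map`), a Markov kernel from `(Ω, 𝒢)` to `Y`, and `κ' ×ₖ κ'` (`Kernel.prod`)
the Markov kernel `ω ↦ κ'(ω) ⊗ κ'(ω)`. Let `σ` be the composition of this kernel with `ρ.trim h𝒢`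
(`Measure.bind`). For bounded measurable `f, g`:
`∫ f(z.1) g(z.2) dσ = ∫ (∫ f dκ'(ω)) (∫ g dκ'(ω)) dρ(ω)` (`Measure.integral_bind` or
`Measure.integral_compProd` style lemma, then `integral_prod_mul`), and
`∫ f dκ'(ω) = ∫ f ∘ π dκ(ω) = ρ[f ∘ π | 𝒢](ω)` for `ρ`-almost every `ω`
(`condExp_ae_eq_integral_condExpKernel`, or the `trim` version). -/
theorem exists_relSquare {Ω Y : Type*} (𝒢 : MeasurableSpace Ω) [mΩ : MeasurableSpace Ω]
    [StandardBorelSpace Ω] [MeasurableSpace Y] (ρ : Measure Ω) [IsProbabilityMeasure ρ]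
    (h𝒢 : 𝒢 ≤ mΩ) (π : Ω → Y) (hπ : Measurable π) :
    ∃ σ : Measure (Y × Y), IsProbabilityMeasure σ ∧ ∀ f g : Y → ℂ, BM f → BM g →
      ∫ z, f z.1 * g z.2 ∂σ =
        ∫ ω, (ρ[fun ω => f (π ω)|𝒢]) ω * (ρ[fun ω => g (π ω)|𝒢]) ω ∂ρ := by
  let K0 : Kernel Ω Ω := (condExpKernel ρ 𝒢).comap id (measurable_id'' h𝒢)
  have hK0 : IsMarkovKernel K0 := inferInstance
  have hK1 : IsMarkovKernel (K0.map π) := Kernel.IsMarkovKernel.map _ hπ
  let K2 : Kernel Ω (Y × Y) := (K0.map π) ×ₖ (K0.map π)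
  have hK2 : IsMarkovKernel K2 := inferInstance
  refine ⟨(ρ ⊗ₘ K2).map Prod.snd,
    Measure.isProbabilityMeasure_map measurable_snd.aemeasurable, fun f g hf hg => ?_⟩
  have hfg : BM (fun z : Y × Y => f z.1 * g z.2) :=
    (hf.comp measurable_fst).mul (hg.comp measurable_snd)
  rw [integral_map measurable_snd.aemeasurable hfg.1.aestronglyMeasurable,
    Measure.integral_compProd ((hfg.comp measurable_snd).integrable)]
  refine integral_congr_ae ?_
  have hfe := condExp_ae_eq_integral_condExpKernel (μ := ρ) h𝒢 ((hf.comp hπ).integrable (m := ρ))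
  have hge := condExp_ae_eq_integral_condExpKernel (μ := ρ) h𝒢 ((hg.comp hπ).integrable (m := ρ))
  filter_upwards [hfe, hge] with ω h1 h2
  rw [h1, h2]
  have h3 : K2 ω = ((K0 ω).map π).prod ((K0 ω).map π) := by
    show ((K0.map π) ×ₖ (K0.map π)) ω = _
    rw [Kernel.prod_apply, Kernel.map_apply _ hπ]
  show ∫ z, f z.1 * g z.2 ∂(K2 ω) = _
  have hpm : IsProbabilityMeasure ((K0 ω).map π) :=
    Measure.isProbabilityMeasure_map hπ.aemeasurable
  rw [h3, integral_prod_mul, integral_map hπ.aemeasurable hf.1.aestronglyMeasurable,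
    integral_map hπ.aemeasurable hg.1.aestronglyMeasurable]
  rfl

theorem sq_bm_indicator {X : Type*} [MeasurableSpace X] {S : Set X} (hS : MeasurableSet S) :
    BM (S.indicator (fun _ : X => (1 : ℂ))) := by
  refine ⟨measurable_const.indicator hS, 1, fun y => ?_⟩
  by_cases hy : y ∈ S <;> simp [hy]

/-- Two probability measures on a product with the same integrals of the products of bounded measurable
functions are equal. Proof: take indicator functions of measurable sets; the measurable rectangles form a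
generating π-system (`MeasureTheory.Measure.prod_ext`-like; `generateFrom_prod`, `isPiSystem_prod`,
`ext_of_generate_finite`). -/
theorem prod_ext_of_BM {Y Y' : Type*} [MeasurableSpace Y] [MeasurableSpace Y']
    (σ σ' : Measure (Y × Y')) [IsProbabilityMeasure σ] [IsProbabilityMeasure σ']
    (h : ∀ (f : Y → ℂ) (g : Y' → ℂ), BM f → BM g →
      ∫ z, f z.1 * g z.2 ∂σ = ∫ z, f z.1 * g z.2 ∂σ') : σ = σ' := by
  refine MeasureTheory.ext_of_generate_finite _ generateFrom_prod.symm isPiSystem_prod ?_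
    (by rw [measure_univ, measure_univ])
  rintro _ ⟨A, hA, B, hB, rfl⟩
  have key : ∀ τ : Measure (Y × Y'), IsProbabilityMeasure τ →
      ∫ z, A.indicator (fun _ => (1 : ℂ)) z.1 * B.indicator (fun _ => (1 : ℂ)) z.2 ∂τ =
        ((τ (A ×ˢ B)).toReal : ℂ) := by
    intro τ hτ
    have e1 : (fun z : Y × Y' => A.indicator (fun _ => (1 : ℂ)) z.1 *
        B.indicator (fun _ => (1 : ℂ)) z.2) = (A ×ˢ B).indicator (fun _ => (1 : ℂ)) := by
      funext z
      by_cases h1 : z.1 ∈ A <;> by_cases h2 : z.2 ∈ B <;> simp [h1, h2, Set.indicator]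
    rw [e1, integral_indicator (hA.prod hB)]
    simp [Measure.real]
  have h1 := h _ _ (sq_bm_indicator hA) (sq_bm_indicator hB)
  rw [key σ inferInstance, key σ' inferInstance] at h1
  have h2 : (σ (A ×ˢ B)).toReal = (σ' (A ×ˢ B)).toReal := by exact_mod_cast h1
  exact (ENNReal.toReal_eq_toReal_iff' (measure_ne_top _ _) (measure_ne_top _ _)).1 h2

end Pool.Agent.Lib.H22M
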