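import Pool.Agent.Lib.H22M.Defs

/-!
# Project H22M, chunk TO1: invariant measures from orbit averages
-/

open MeasureTheory Filter Topology Finset

namespace Pool.Agent.Lib.H22M

/-- The averages of the point masses along an orbit. -/
noncomputable def to1_mu {W : Type*} [MeasurableSpace W] (S : W → W) (w : W) (N : ℕ) : Measure W :=
  ((N + 1 : ℕ) : ENNReal)⁻¹ • ∑ n ∈ Icc 1 (N + 1), Measure.dirac (S^[n] w)

theorem to1_prob {W : Type*} [MeasurableSpace W] (S : W → W) (w : W) (N : ℕ) :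
    IsProbabilityMeasure (to1_mu S w N) := by
  refine ⟨?_⟩
  unfold to1_mu
  rw [Measure.smul_apply, Measure.finsetSum_apply]
  have : ∀ i ∈ Icc 1 (N + 1), (Measure.dirac (S^[i] w)) Set.univ = 1 := fun i _ => by simp
  rw [sum_congr rfl this]
  simp only [sum_const, Nat.card_Icc, add_tsub_cancel_right, nsmul_eq_mul, mul_one, smul_eq_mul]
  exact ENNReal.inv_mul_cancel (by exact_mod_cast (by omega : N + 1 ≠ 0)) (ENNReal.natCast_ne_top _)

theorem to1_integral {W E : Type*} [TopologicalSpace W] [MeasurableSpace W] [BorelSpace W]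
    [T2Space W] [SecondCountableTopology W]
    [NormedAddCommGroup E] [NormedSpace ℝ E] [CompleteSpace E] (S : W → W) (w : W) (N : ℕ)
    (F : W → E) :
    ∫ z, F z ∂(to1_mu S w N) = ((N + 1 : ℕ) : ℝ)⁻¹ • ∑ n ∈ Icc 1 (N + 1), F (S^[n] w) := by
  unfold to1_mu
  rw [integral_smul_measure, integral_finsetSum_measure]
  · simp only [integral_dirac]
    congr 1
    rw [ENNReal.toReal_inv, ENNReal.toReal_natCast]
  · intro i _
    exact integrable_dirac (by simp)

/-- Proof. For `N ≥ 1` let `μ_N = (1/N) ∑_{n=1}^{N} δ_{S^n w}`, a Borel probability measure on `W`, as an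
element of `ProbabilityMeasure W` (which is compact: instance in
`Mathlib/MeasureTheory/Measure/Prokhorov.lean`). The filter `atTop ⊓ 𝓟 {N | ε N ≤ ‖∑_{n ≤ N} F(S^n w)‖}`
is `NeBot` by `h`; let `𝒰` be an ultrafilter below it. By compactness `μ_N → ρ` along `𝒰` for some
`ρ` (`Ultrafilter.le_nhds_lim` or `IsCompact.ultrafilter_le_nhds` for `𝒰.map μ_`). For real bounded
continuous `g`: `∫ g dμ_N → ∫ g dρ` along `𝒰`
(`ProbabilityMeasure.tendsto_iff_forall_integral_tendsto`), hence also for the complex continuous `F`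
(real and imaginary part; `ProbabilityMeasure.tendsto_iff_forall_integral_rclike_tendsto` exists), and
`∫ F dμ_N = (1/N) ∑_{n ≤ N} F(S^n w)` has modulus at least `ε` on the set above (for `N ≥ 1`). So
`ε ≤ ‖∫ F dρ‖`. Invariance: for real continuous `g`,
`|∫ g ∘ S dμ_N - ∫ g dμ_N| = |g(S^(N+1) w) - g(S w)| / N ≤ 2 ‖g‖ / N → 0`, so
`∫ g d(ρ.map S) = ∫ g ∘ S dρ = ∫ g dρ`, and finite measures with the same integrals of bounded
continuous functions are equal (`ext_of_forall_integral_eq_of_IsFiniteMeasure`). -/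
theorem exists_invariant_measure {W : Type*} [MetricSpace W] [CompactSpace W] [MeasurableSpace W]
    [BorelSpace W] (S : W → W) (hS : Continuous S) (w : W) (F : C(W, ℂ)) (ε : ℝ)
    (h : ∃ᶠ N : ℕ in atTop, ε * N ≤ ‖∑ n ∈ Icc 1 N, F (S^[n] w)‖) :
    ∃ ρ : Measure W, IsProbabilityMeasure ρ ∧ MeasurePreserving S ρ ρ ∧ ε ≤ ‖∫ z, F z ∂ρ‖ := by
  classical
  have h' : ∃ᶠ N : ℕ in atTop, ε * ((N + 1 : ℕ) : ℝ) ≤ ‖∑ n ∈ Icc 1 (N + 1), F (S^[n] w)‖ := by
    rw [frequently_atTop] at h ⊢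
    intro a
    obtain ⟨b, hb, hb'⟩ := h (a + 1)
    exact ⟨b - 1, by omega, by rw [show b - 1 + 1 = b by omega]; exact hb'⟩
  set A : Set ℕ := {N | ε * ((N + 1 : ℕ) : ℝ) ≤ ‖∑ n ∈ Icc 1 (N + 1), F (S^[n] w)‖} with hA
  have hne : (atTop ⊓ 𝓟 A : Filter ℕ).NeBot := by
    rw [← frequently_mem_iff_neBot]
    exact h'
  let U : Ultrafilter ℕ := @Ultrafilter.of ℕ (atTop ⊓ 𝓟 A) hne
  have hU : (U : Filter ℕ) ≤ atTop ⊓ 𝓟 A := @Ultrafilter.of_le ℕ (atTop ⊓ 𝓟 A) hne
  have hU1 : (U : Filter ℕ) ≤ atTop := hU.trans inf_le_left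
  have hU2 : A ∈ (U : Filter ℕ) := (hU.trans inf_le_right) (mem_principal_self A)
  let μ : ℕ → ProbabilityMeasure W := fun N => ⟨to1_mu S w N, to1_prob S w N⟩
  obtain ⟨ρ, -, hρ⟩ := isCompact_univ.ultrafilter_le_nhds (U.map μ) (by simp)
  have hρ' : Tendsto μ (U : Filter ℕ) (𝓝 ρ) := hρ
  refine ⟨(ρ : Measure W), inferInstance, ⟨hS.measurable, ?_⟩, ?_⟩
  · haveI : IsProbabilityMeasure ((ρ : Measure W).map S) :=
      Measure.isProbabilityMeasure_map hS.aemeasurable
    refine ext_of_forall_integral_eq_of_IsFiniteMeasure fun g => ?_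
    rw [integral_map hS.aemeasurable g.continuous.aestronglyMeasurable]
    have h1 := (ProbabilityMeasure.tendsto_iff_forall_integral_tendsto.mp hρ') g
    have h2 := (ProbabilityMeasure.tendsto_iff_forall_integral_tendsto.mp hρ')
      (g.compContinuous ⟨S, hS⟩)
    have h3 := h2.sub h1
    have h4 : Tendsto (fun N => ∫ z, (g.compContinuous ⟨S, hS⟩) z ∂(μ N : Measure W) -
        ∫ z, g z ∂(μ N : Measure W)) (U : Filter ℕ) (𝓝 0) := by
      refine Tendsto.mono_left ?_ hU1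
      have hb : ∀ N : ℕ, ‖∫ z, (g.compContinuous ⟨S, hS⟩) z ∂(μ N : Measure W) -
          ∫ z, g z ∂(μ N : Measure W)‖ ≤ 2 * ‖g‖ * (((N + 1 : ℕ) : ℝ))⁻¹ := by
        intro N
        change ‖∫ z, (g.compContinuous ⟨S, hS⟩) z ∂(to1_mu S w N) -
          ∫ z, g z ∂(to1_mu S w N)‖ ≤ _
        rw [to1_integral, to1_integral, ← smul_sub, ← sum_sub_distrib]
        have e1 : ∑ n ∈ Icc 1 (N + 1), ((g.compContinuous ⟨S, hS⟩) (S^[n] w) - g (S^[n] w)) =
            g (S^[N + 2] w) - g (S^[1] w) := by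
          have e2 : ∀ n, (g.compContinuous ⟨S, hS⟩) (S^[n] w) = g (S^[n + 1] w) := fun n => by
            rw [Function.iterate_succ_apply']
            rfl
          simp_rw [e2]
          rw [← Finset.Ico_add_one_right_eq_Icc, Finset.sum_Ico_sub (fun n => g (S^[n] w)) (by omega)]
          exact rfl
        rw [e1, norm_smul, norm_inv, Real.norm_natCast, mul_comm]
        have e4 := norm_sub_le (g (S^[N + 2] w)) (g (S^[1] w))
        have e5 := g.norm_coe_le_norm (S^[N + 2] w)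
        have e6 := g.norm_coe_le_norm (S^[1] w)
        gcongr
        linarith
      refine squeeze_zero_norm hb ?_
      have : Tendsto (fun N : ℕ => (((N + 1 : ℕ) : ℝ))⁻¹) atTop (𝓝 0) :=
        (tendsto_inv_atTop_nhds_zero_nat (𝕜 := ℝ)).comp (tendsto_add_atTop_nat 1)
      simpa using this.const_mul (2 * ‖g‖)
    have h5 := tendsto_nhds_unique h3 h4
    have h6 : ∫ z, g (S z) ∂(ρ : Measure W) = ∫ z, g z ∂(ρ : Measure W) := sub_eq_zero.mp h5
    exact h6
  · let F' : BoundedContinuousFunction W ℂ := BoundedContinuousFunction.mkOfCompact F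
    have h1 := (ProbabilityMeasure.tendsto_iff_forall_integral_rclike_tendsto ℂ).mp hρ' F'
    have h2 := h1.norm
    refine ge_of_tendsto h2 ?_
    filter_upwards [hU2] with N hN
    change ε ≤ ‖∫ z, F z ∂(to1_mu S w N)‖
    rw [to1_integral, norm_smul, norm_inv, Real.norm_natCast]
    have hN' : ε * ((N + 1 : ℕ) : ℝ) ≤ ‖∑ n ∈ Icc 1 (N + 1), F (S^[n] w)‖ := hN
    have hpos : (0 : ℝ) < ((N + 1 : ℕ) : ℝ) := by positivity
    rw [← div_eq_inv_mul, le_div_iff₀ hpos]
    exact hN'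

end Pool.Agent.Lib.H22M
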