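import Pool.Agent.Lib.H22M.Defs

/-!
# Project H22M, chunk TW: twisted translation operators
-/

open MeasureTheory Filter Topology Finset
open scoped ComplexConjugate

namespace Pool.Agent.Lib.H22M

/-- the twisted vector -/
noncomputable def twF {κ : Type*} [Fintype κ] (W : κ → κ → ℂ) (v : EuclideanSpace ℂ κ) :
    EuclideanSpace ℂ κ := WithLp.toLp 2 fun l => ∑ k, W k l * v k

theorem twF_apply {κ : Type*} [Fintype κ] (W : κ → κ → ℂ) (v : EuclideanSpace ℂ κ) (l : κ) :
    twF W v l = ∑ k, W k l * v k := rfl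

theorem twF_norm {κ : Type*} [Fintype κ] [DecidableEq κ] (W : κ → κ → ℂ)
    (hW : ∀ k k', ∑ l, W k l * conj (W k' l) = if k = k' then 1 else 0)
    (v : EuclideanSpace ℂ κ) : ‖twF W v‖ = ‖v‖ := by
  rw [EuclideanSpace.norm_eq, EuclideanSpace.norm_eq]
  congr 1
  have h1 : ∀ z : ℂ, ((‖z‖ ^ 2 : ℝ) : ℂ) = z * conj z := fun z => by
    rw [Complex.mul_conj, Complex.normSq_eq_norm_sq]
  have h2 : ((∑ l, ‖twF W v l‖ ^ 2 : ℝ) : ℂ) = ((∑ k, ‖v k‖ ^ 2 : ℝ) : ℂ) := by
    rw [Complex.ofReal_sum, Complex.ofReal_sum]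
    simp_rw [h1, twF_apply, map_sum, Finset.sum_mul_sum, map_mul]
    rw [Finset.sum_comm]
    refine Finset.sum_congr rfl fun k _ => ?_
    rw [Finset.sum_comm]
    have h3 : ∀ k' : κ, ∑ l, W k l * v k * (conj (W k' l) * conj (v k')) =
        v k * conj (v k') * (if k = k' then 1 else 0) := by
      intro k'
      rw [← hW, Finset.mul_sum]
      exact Finset.sum_congr rfl fun l _ => by ring
    simp_rw [h3]
    simp
  exact_mod_cast h2

theorem twF_add {κ : Type*} [Fintype κ] (W : κ → κ → ℂ) (v w : EuclideanSpace ℂ κ) :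
    twF W (v + w) = twF W v + twF W w := by
  ext l
  rw [PiLp.add_apply, twF_apply, twF_apply, twF_apply, ← Finset.sum_add_distrib]
  exact Finset.sum_congr rfl fun k _ => by rw [PiLp.add_apply, mul_add]

theorem twF_smul {κ : Type*} [Fintype κ] (W : κ → κ → ℂ) (a : ℂ) (v : EuclideanSpace ℂ κ) :
    twF W (a • v) = a • twF W v := by
  ext l
  rw [PiLp.smul_apply, twF_apply, twF_apply, smul_eq_mul, Finset.mul_sum]
  exact Finset.sum_congr rfl fun k _ => by rw [PiLp.smul_apply, smul_eq_mul]; ring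

/-- Proof. For `c` in `Lp (EuclideanSpace ℂ κ) 2 ν` let `(U c) x = (∑ k, W x k l * c (τ x) k)_l`. It is
strongly measurable (a.e.): `c ∘ τ` is a.e. strongly measurable (`τ` measure preserving), its coordinates
too, finite sums and products, and `EuclideanSpace` valued functions are measurable when the coordinates
are. Pointwise norm: `∑_l |∑_k W x k l v_k|² = ∑_{k,k'} v_k conj(v_k') ∑_l W x k l conj(W x k' l)
= ∑_k |v_k|²` by `hW`. So `‖(U c) x‖ = ‖c (τ x)‖` and `‖U c‖ = ‖c ∘ τ‖ = ‖c‖` in `L²`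
(`Lp.norm_compMeasurePreserving`, `eLpNorm` computation). Linearity holds almost everywhere. Well
definedness: classes. Build it as `LinearIsometry` with `toFun c = MemLp.toLp _ _`. -/
theorem exists_twist {X κ : Type*} [MeasurableSpace X] [Fintype κ] [DecidableEq κ]
    (ν : Measure X) [IsProbabilityMeasure ν] (τ : X → X) (hτ : MeasurePreserving τ ν ν)
    (W : X → κ → κ → ℂ) (hWm : ∀ k l, Measurable fun x => W x k l)
    (hW : ∀ x k k', ∑ l, W x k l * conj (W x k' l) = if k = k' then 1 else 0) :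
    ∃ U : Lp (EuclideanSpace ℂ κ) 2 ν →ₗᵢ[ℂ] Lp (EuclideanSpace ℂ κ) 2 ν,
      IsTwist ν τ W U := by
  have hmeas : ∀ c : X → EuclideanSpace ℂ κ, AEStronglyMeasurable c ν →
      AEStronglyMeasurable (fun x => twF (W x) (c (τ x))) ν := by
    intro c hc
    have h1 : AEStronglyMeasurable (fun x => c (τ x)) ν := hc.comp_measurePreserving hτ
    have h2 : ∀ k : κ, AEStronglyMeasurable (fun x => c (τ x) k) ν := fun k =>
      (EuclideanSpace.proj (𝕜 := ℂ) k).continuous.comp_aestronglyMeasurable h1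
    have h3 : ∀ l : κ, AEStronglyMeasurable (fun x => ∑ k, W x k l * c (τ x) k) ν := fun l =>
      Finset.aestronglyMeasurable_fun_sum _ fun k _ =>
        ((hWm k l).aestronglyMeasurable).mul (h2 k)
    have h4 : (fun x => twF (W x) (c (τ x))) = fun x => ∑ l, (∑ k, W x k l * c (τ x) k) •
        EuclideanSpace.single l (1 : ℂ) := by
      funext x
      ext l
      rw [twF_apply]
      simp [WithLp.ofLp_sum, Finset.sum_apply, Pi.single_apply]
    rw [h4]
    exact Finset.aestronglyMeasurable_fun_sum _ fun l _ => (h3 l).smul_const _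
  have hmem : ∀ c : Lp (EuclideanSpace ℂ κ) 2 ν, MemLp (fun x => twF (W x) (c (τ x))) 2 ν := by
    intro c
    refine ((Lp.memLp c).comp_measurePreserving hτ).congr_norm (hmeas _ (Lp.aestronglyMeasurable c))
      (Eventually.of_forall fun x => ?_)
    rw [twF_norm _ (hW x)]
    rfl
  have hco : ∀ c : Lp (EuclideanSpace ℂ κ) 2 ν,
      ((hmem c).toLp _ : X → EuclideanSpace ℂ κ) =ᵐ[ν] fun x => twF (W x) (c (τ x)) :=
    fun c => (hmem c).coeFn_toLp
  let U₀ : Lp (EuclideanSpace ℂ κ) 2 ν →ₗ[ℂ] Lp (EuclideanSpace ℂ κ) 2 ν :=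
    { toFun := fun c => (hmem c).toLp _
      map_add' := by
        intro c d
        apply Lp.ext
        have h1 := hτ.quasiMeasurePreserving.ae (Lp.coeFn_add c d)
        filter_upwards [hco (c + d), hco c, hco d, h1,
          Lp.coeFn_add ((hmem c).toLp _) ((hmem d).toLp _)] with x h2 h3 h4 h5 h6
        rw [h2, h6, Pi.add_apply, h3, h4, h5, Pi.add_apply, twF_add]
      map_smul' := by
        intro a c
        apply Lp.ext
        have h1 := hτ.quasiMeasurePreserving.ae (Lp.coeFn_smul a c)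
        filter_upwards [hco (a • c), hco c, h1, Lp.coeFn_smul a ((hmem c).toLp _)]
          with x h2 h3 h4 h5
        simp only [RingHom.id_apply]
        rw [h2, h5, Pi.smul_apply, h3, h4, Pi.smul_apply, twF_smul] }
  refine ⟨⟨U₀, ?_⟩, ?_⟩
  · intro c
    show ‖(hmem c).toLp _‖ = ‖c‖
    rw [Lp.norm_toLp, Lp.norm_def]
    congr 1
    have h5 : eLpNorm (fun x => twF (W x) (c (τ x))) 2 ν =
        eLpNorm ((c : X → EuclideanSpace ℂ κ) ∘ τ) 2 ν :=
      eLpNorm_congr_norm_ae (Eventually.of_forall fun x => twF_norm _ (hW x) _)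
    rw [h5]
    exact eLpNorm_comp_measurePreserving (Lp.aestronglyMeasurable c) hτ
  · intro c
    filter_upwards [hco c] with x hx
    intro l
    show ((hmem c).toLp _ : X → EuclideanSpace ℂ κ) x l = _
    rw [hx, twF_apply]

end Pool.Agent.Lib.H22M
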