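import Pool.Agent.Lib.H22M.Defs

/-!
# Project H22M, chunk W1: positive operators of finite trace are compact
-/

open Filter Topology Finset
open scoped ComplexConjugate InnerProductSpace

namespace Pool.Agent.Lib.H22M

theorem w1_cs {H : Type*} [NormedAddCommGroup H] [InnerProductSpace ℂ H]
    (B : H →L[ℂ] H) (hsym : (B : H →ₗ[ℂ] H).IsSymmetric)
    (hpos : ∀ x, 0 ≤ (⟪B x, x⟫_ℂ).re) (x y : H) :
    ‖⟪B x, y⟫_ℂ‖ ^ 2 ≤ (⟪B x, x⟫_ℂ).re * (⟪B y, y⟫_ℂ).re := by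
  let c : PreInnerProductSpace.Core ℂ H :=
    { inner := fun x y => ⟪B x, y⟫_ℂ
      conj_inner_symm := fun x y => by
        rw [inner_conj_symm]
        exact (hsym x y).symm
      re_inner_nonneg := fun x => hpos x
      add_left := fun x y z => by
        rw [map_add, inner_add_left]
      smul_left := fun x y r => by
        rw [map_smul, inner_smul_left] }
  have h := @InnerProductSpace.Core.inner_mul_inner_self_le ℂ H _ _ _ c x y
  have h1 : ‖⟪B x, y⟫_ℂ‖ * ‖⟪B y, x⟫_ℂ‖ ≤ (⟪B x, x⟫_ℂ).re * (⟪B y, y⟫_ℂ).re := h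
  have h2 : ‖⟪B y, x⟫_ℂ‖ = ‖⟪B x, y⟫_ℂ‖ := by
    have h3 : ⟪B y, x⟫_ℂ = ⟪y, B x⟫_ℂ := hsym y x
    rw [h3, norm_inner_symm]
  rw [h2] at h1
  rw [sq]
  exact h1

theorem w1_sq {H : Type*} [NormedAddCommGroup H] [InnerProductSpace ℂ H]
    (B : H →L[ℂ] H) (hsym : (B : H →ₗ[ℂ] H).IsSymmetric)
    (hpos : ∀ x, 0 ≤ (⟪B x, x⟫_ℂ).re) (v : H) :
    ‖B v‖ ^ 2 ≤ ‖B‖ * (⟪B v, v⟫_ℂ).re := by
  have h1 := w1_cs B hsym hpos v (B v)
  have h2 : (⟪B (B v), B v⟫_ℂ).re ≤ ‖B‖ * ‖B v‖ ^ 2 := by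
    calc (⟪B (B v), B v⟫_ℂ).re ≤ ‖⟪B (B v), B v⟫_ℂ‖ := Complex.re_le_norm _
      _ ≤ ‖B (B v)‖ * ‖B v‖ := norm_inner_le_norm _ _
      _ ≤ (‖B‖ * ‖B v‖) * ‖B v‖ := by gcongr; exact B.le_opNorm _
      _ = _ := by ring
  have h3 := hpos v
  have h4 : ‖⟪B v, B v⟫_ℂ‖ = ‖B v‖ ^ 2 := by
    rw [inner_self_eq_norm_sq_to_K]
    simp
  rw [h4] at h1
  set a := ‖B v‖ with ha
  have ha0 : 0 ≤ a := norm_nonneg _
  rcases ha0.eq_or_lt with h | h
  · rw [← h, zero_pow two_ne_zero]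
    positivity
  · have h5 : (a ^ 2) ^ 2 ≤ (⟪B v, v⟫_ℂ).re * (‖B‖ * a ^ 2) :=
      h1.trans (mul_le_mul_of_nonneg_left h2 h3)
    have h6 : a ^ 2 * a ^ 2 ≤ (‖B‖ * (⟪B v, v⟫_ℂ).re) * a ^ 2 := by nlinarith
    exact le_of_mul_le_mul_right h6 (by positivity)

theorem w1_smul {H : Type*} [NormedAddCommGroup H] [InnerProductSpace ℂ H]
    (B : H →L[ℂ] H) (c : ℂ) (v : H) :
    (⟪B (c • v), c • v⟫_ℂ).re = ‖c‖ ^ 2 * (⟪B v, v⟫_ℂ).re := by
  rw [map_smul, inner_smul_left, inner_smul_right, ← mul_assoc, mul_comm (conj c) c, Complex.mul_conj,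
    Complex.normSq_eq_norm_sq, Complex.re_ofReal_mul]

theorem w1_small {H : Type*} [NormedAddCommGroup H] [InnerProductSpace ℂ H]
    (B : H →L[ℂ] H) (C : ℝ)
    (htr : ∀ (k : ℕ) (e : Fin k → H), Orthonormal ℂ e → ∑ i, (⟪B (e i), e i⟫_ℂ).re ≤ C)
    {ε : ℝ} (hε : 0 < ε) :
    ∃ (k : ℕ) (e : Fin k → H), ∀ v ∈ (Submodule.span ℂ (Set.range e))ᗮ,
      (⟪B v, v⟫_ℂ).re ≤ ε * ‖v‖ ^ 2 := by
  set T : Set ℝ := {r | ∃ (k : ℕ) (e : Fin k → H), Orthonormal ℂ e ∧
    r = ∑ i, (⟪B (e i), e i⟫_ℂ).re} with hT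
  have hne : T.Nonempty := by
    refine ⟨0, 0, Fin.elim0, ?_, by simp⟩
    constructor
    · intro i; exact i.elim0
    · intro i; exact i.elim0
  have hbdd : BddAbove T := by
    refine ⟨C, ?_⟩
    rintro r ⟨k, e, he, rfl⟩
    exact htr k e he
  obtain ⟨r, ⟨k, e, he, rfl⟩, hlt⟩ := exists_lt_of_lt_csSup hne (sub_lt_self (sSup T) hε)
  refine ⟨k, e, fun v hv => ?_⟩
  rcases eq_or_ne v 0 with rfl | hv0
  · simp
  set u : H := ((‖v‖⁻¹ : ℝ) : ℂ) • v with hu
  have hnv : ‖v‖ ≠ 0 := norm_ne_zero_iff.2 hv0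
  have hun : ‖u‖ = 1 := by
    rw [hu, norm_smul, Complex.norm_real, norm_inv, norm_norm, inv_mul_cancel₀ hnv]
  have huort : ∀ i, ⟪u, e i⟫_ℂ = 0 := by
    intro i
    have h1 : ⟪e i, v⟫_ℂ = 0 := (Submodule.mem_orthogonal _ _).1 hv _ (Submodule.subset_span ⟨i, rfl⟩)
    rw [hu, inner_smul_left, ← inner_conj_symm, h1, map_zero, mul_zero]
  have hins : Orthonormal ℂ (Matrix.vecCons u e) := by
    rw [orthonormal_vecCons_iff]
    exact ⟨hun, huort, he⟩
  have hle : ∑ i, (⟪B (Matrix.vecCons u e i), Matrix.vecCons u e i⟫_ℂ).re ≤ sSup T :=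
    le_csSup hbdd ⟨_, _, hins, rfl⟩
  rw [Fin.sum_univ_succ] at hle
  simp only [Matrix.cons_val_zero, Matrix.cons_val_succ] at hle
  have h1 : (⟪B u, u⟫_ℂ).re ≤ ε := by linarith
  have h2 : v = ((‖v‖ : ℝ) : ℂ) • u := by
    rw [hu, smul_smul, ← Complex.ofReal_mul, mul_inv_cancel₀ hnv, Complex.ofReal_one, one_smul]
  have h3 : (⟪B v, v⟫_ℂ).re = ‖v‖ ^ 2 * (⟪B u, u⟫_ℂ).re := by
    conv_lhs => rw [h2]
    rw [w1_smul]
    simp
  rw [h3, mul_comm]
  exact mul_le_mul_of_nonneg_right h1 (by positivity)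

/-- Proof (compare `trace_le`, `exists_finite_small`, `Bop_compact` in
`Pool/Agent/Lib/Helper4/Sumset/WM.lean`, which treat a similar operator; copy what is useful). For
`κ > 0` choose a finite orthonormal family `e` with `∑ re ⟪B e_i, e_i⟫` larger than the supremum (over
all finite orthonormal families) minus `κ`; let `W` be its span. For a unit vector `x ⟂ W` the family
`e, x` is orthonormal, so `re ⟪B x, x⟫ ≤ κ`. Since `B` is positive, `|⟪B x, y⟫|² ≤ ⟪B x, x⟫ ⟪B y, y⟫`,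
so `‖B x‖² ≤ ‖B‖ re ⟪B x, x⟫ ≤ ‖B‖ κ` for unit `x ⟂ W`. Hence `‖B (1 - P_W)‖ ≤ √(‖B‖ κ)` and `B` is
the norm limit of the finite rank (hence compact) operators `B P_W`
(`isCompactOperator_of_tendsto` / `isClosed_setOf_isCompactOperator`). -/
theorem isCompactOperator_of_trace {H : Type*} [NormedAddCommGroup H] [InnerProductSpace ℂ H]
    [CompleteSpace H] (B : H →L[ℂ] H) (hsym : (B : H →ₗ[ℂ] H).IsSymmetric)
    (hpos : ∀ x, 0 ≤ (⟪B x, x⟫_ℂ).re) (C : ℝ)
    (htr : ∀ (k : ℕ) (e : Fin k → H), Orthonormal ℂ e → ∑ i, (⟪B (e i), e i⟫_ℂ).re ≤ C) :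
    IsCompactOperator B := by
  have hcl := isClosed_setOfPred_isCompactOperator (σ₁₂ := RingHom.id ℂ) (M₁ := H) (M₂ := H)
  refine hcl.closure_subset (Metric.mem_closure_iff.2 fun ε hε => ?_)
  obtain ⟨δ, hδ0, hδ⟩ : ∃ δ : ℝ, 0 < δ ∧ Real.sqrt (‖B‖ * δ) < ε := by
    refine ⟨ε ^ 2 / (‖B‖ + 1), by positivity, ?_⟩
    rw [Real.sqrt_lt' hε, mul_div_assoc', div_lt_iff₀ (by positivity)]
    nlinarith [norm_nonneg B, sq_pos_of_pos hε]
  obtain ⟨k, e, hs⟩ := w1_small B C htr hδ0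
  set W := Submodule.span ℂ (Set.range e) with hW
  have : FiniteDimensional ℂ W := FiniteDimensional.span_of_finite ℂ (Set.finite_range e)
  refine ⟨(B ∘L W.subtypeL) ∘L W.orthogonalProjectionOnto, ?_, ?_⟩
  · exact (isCompactOperator_of_locallyCompactSpace_rng (B ∘L W.subtypeL)).comp_clm _
  · rw [dist_eq_norm]
    refine lt_of_le_of_lt (ContinuousLinearMap.opNorm_le_bound _ (by positivity) fun v => ?_) hδ
    have h1 : (B - (B ∘L W.subtypeL) ∘L W.orthogonalProjectionOnto) v =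
        B (v - W.starProjection v) := by
      rw [map_sub]; rfl
    rw [h1]
    have h2 := w1_sq B hsym hpos (v - W.starProjection v)
    have h3 := hs _ (W.sub_starProjection_mem_orthogonal v)
    have h4 : ‖v - W.starProjection v‖ ≤ ‖v‖ := by
      have := Wᗮ.norm_starProjection_apply_le v
      rwa [Submodule.starProjection_orthogonal_val] at this
    have h5 : ‖B (v - W.starProjection v)‖ ^ 2 ≤ (Real.sqrt (‖B‖ * δ) * ‖v‖) ^ 2 := by
      rw [mul_pow, Real.sq_sqrt (by positivity)]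
      calc _ ≤ ‖B‖ * (⟪B (v - W.starProjection v), v - W.starProjection v⟫_ℂ).re := h2
        _ ≤ ‖B‖ * (δ * ‖v - W.starProjection v‖ ^ 2) := by gcongr
        _ ≤ ‖B‖ * (δ * ‖v‖ ^ 2) := by gcongr
        _ = _ := by ring
    exact (sq_le_sq₀ (norm_nonneg _) (by positivity)).1 h5

/-- An isometry of a nonzero finite dimensional complex inner product space has an eigenvector in every
nonzero invariant finite dimensional subspace. Proof: `Module.End.exists_eigenvalue` for the restriction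
of `U` to `W`. The eigenvalue has modulus one since `U` is an isometry. -/
theorem exists_eigenvector {H : Type*} [NormedAddCommGroup H] [InnerProductSpace ℂ H]
    (U : H →ₗᵢ[ℂ] H) (W : Submodule ℂ H) [FiniteDimensional ℂ W] (hW : W ≠ ⊥)
    (hU : ∀ x ∈ W, U x ∈ W) : ∃ (c : ℂ) (x : H), x ∈ W ∧ x ≠ 0 ∧ ‖c‖ = 1 ∧ U x = c • x := by
  have hnt : Nontrivial W := (Submodule.nontrivial_iff_ne_bot).2 hW
  set f : W →ₗ[ℂ] W := U.toLinearMap.restrict hU with hf
  obtain ⟨c, hc⟩ := Module.End.exists_eigenvalue f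
  obtain ⟨y, hy⟩ := hc.exists_hasEigenvector
  have hy0 : (y : H) ≠ 0 := fun h => hy.2 (Subtype.ext h)
  have hyc : U (y : H) = c • (y : H) := by
    have := congrArg Subtype.val (hy.apply_eq_smul)
    exact this
  refine ⟨c, y, y.2, hy0, ?_, hyc⟩
  have h1 := U.norm_map (y : H)
  rw [hyc, norm_smul] at h1
  have h2 : ‖(y : H)‖ ≠ 0 := norm_ne_zero_iff.2 hy0
  field_simp at h1
  exact h1

/-- The eigenspaces of a compact operator for nonzero eigenvalues are finite dimensional. Proof: the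
closed unit ball of `eigenspace B β` is contained in `β⁻¹ B(closed unit ball)`, whose closure is compact,
and the eigenspace is closed, so its closed unit ball is compact; Riesz
(`FiniteDimensional.of_isCompact_closedBall₀` or similar). (Search Mathlib first: it may be there.) -/
theorem finiteDimensional_eigenspace {H : Type*} [NormedAddCommGroup H] [InnerProductSpace ℂ H]
    [CompleteSpace H] (B : H →L[ℂ] H) (hB : IsCompactOperator B) (β : ℂ) (hβ : β ≠ 0) :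
    FiniteDimensional ℂ (Module.End.eigenspace (B : H →ₗ[ℂ] H) β) :=
  ContinuousLinearMap.finite_dimensional_eigenspace hB β hβ

/-- A compact symmetric operator without nonzero eigenvalues is zero. Proof: the orthogonal complement of
the span of the eigenspaces is zero (`ContinuousLinearMap.orthogonalComplement_iSup_eigenspaces_eq_bot`);
if only the eigenspace for `0` is nonzero, then `ker B` is dense and closed. -/
theorem exists_eigenvalue_ne_zero {H : Type*} [NormedAddCommGroup H] [InnerProductSpace ℂ H]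
    [CompleteSpace H] (B : H →L[ℂ] H) (hB : IsCompactOperator B)
    (hsym : (B : H →ₗ[ℂ] H).IsSymmetric) (hne : B ≠ 0) :
    ∃ β : ℂ, β ≠ 0 ∧ Module.End.eigenspace (B : H →ₗ[ℂ] H) β ≠ ⊥ := by
  have h1 := mt (ContinuousLinearMap.eq_zero_of_forall_hasEigenvalue_eq_zero hB hsym).1 hne
  push Not at h1
  obtain ⟨lam, hlam, hlam0⟩ := h1
  exact ⟨lam, hlam0, hlam⟩

end Pool.Agent.Lib.H22M
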