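import Pool.Agent.Lib.H22M.W1

/-!
# Project H22M, chunk W2: Wiener's lemma for vectors orthogonal to the eigenvectors
-/

open Filter Topology Finset
open scoped ComplexConjugate InnerProductSpace

namespace Pool.Agent.Lib.H22M

section w2

variable {H : Type*} [NormedAddCommGroup H] [InnerProductSpace ℂ H]

/-- The averages. -/
noncomputable def w2S (U : H →ₗᵢ[ℂ] H) (x : H) (N : ℕ) (a b : H) : ℂ :=
  (N : ℂ)⁻¹ * ∑ n ∈ range N, ⟪a, (⇑U)^[n] x⟫_ℂ * ⟪(⇑U)^[n] x, b⟫_ℂ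

theorem w2_norm (U : H →ₗᵢ[ℂ] H) (x : H) (n : ℕ) : ‖(⇑U)^[n] x‖ = ‖x‖ := by
  induction n with
  | zero => rfl
  | succ n ih => rw [Function.iterate_succ_apply', U.norm_map, ih]

theorem w2_term (U : H →ₗᵢ[ℂ] H) (x : H) (n : ℕ) (a b : H) :
    ‖⟪a, (⇑U)^[n] x⟫_ℂ * ⟪(⇑U)^[n] x, b⟫_ℂ‖ ≤ ‖x‖ * ‖x‖ * ‖a‖ * ‖b‖ := by
  rw [norm_mul]
  calc ‖⟪a, (⇑U)^[n] x⟫_ℂ‖ * ‖⟪(⇑U)^[n] x, b⟫_ℂ‖ ≤ (‖a‖ * ‖x‖) * (‖x‖ * ‖b‖) := by
        have h1 := norm_inner_le_norm (𝕜 := ℂ) a ((⇑U)^[n] x)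
        have h2 := norm_inner_le_norm (𝕜 := ℂ) ((⇑U)^[n] x) b
        rw [w2_norm] at h1 h2
        gcongr
    _ = ‖x‖ * ‖x‖ * ‖a‖ * ‖b‖ := by ring

theorem w2_bound (U : H →ₗᵢ[ℂ] H) (x : H) (N : ℕ) (a b : H) :
    ‖w2S U x N a b‖ ≤ ‖x‖ * ‖x‖ * ‖a‖ * ‖b‖ := by
  unfold w2S
  rw [norm_mul, norm_inv, Complex.norm_natCast]
  have h1 : ‖∑ n ∈ range N, ⟪a, (⇑U)^[n] x⟫_ℂ * ⟪(⇑U)^[n] x, b⟫_ℂ‖ ≤ N * (‖x‖ * ‖x‖ * ‖a‖ * ‖b‖) := by
    refine (norm_sum_le _ _).trans ?_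
    refine (Finset.sum_le_sum fun n _ => w2_term U x n a b).trans ?_
    simp
  rcases Nat.eq_zero_or_pos N with rfl | hN
  · simp
    positivity
  · have hN' : (0 : ℝ) < N := by exact_mod_cast hN
    rw [inv_mul_le_iff₀ hN']
    exact h1

theorem w2_lim (f : ℕ → ℂ) (C : ℝ) (hf : ∀ n, ‖f n‖ ≤ C) : ∃ z, Tendsto f (hyperfilter ℕ) (𝓝 z) := by
  have hc : IsCompact (Metric.closedBall (0 : ℂ) C) := isCompact_closedBall 0 C
  have h := hc.ultrafilter_le_nhds ((hyperfilter ℕ).map f) (by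
    rw [le_principal_iff]
    exact Filter.mem_map.2 (Eventually.of_forall fun n => by
      rw [Metric.mem_closedBall, dist_zero_right]
      exact hf n))
  obtain ⟨z, _, hz⟩ := h
  exact ⟨z, hz⟩

/-- The limit of the averages. -/
noncomputable def w2L (U : H →ₗᵢ[ℂ] H) (x : H) (a b : H) : ℂ :=
  (w2_lim (fun N => w2S U x N a b) _ (fun N => w2_bound U x N a b)).choose

theorem w2L_spec (U : H →ₗᵢ[ℂ] H) (x : H) (a b : H) :
    Tendsto (fun N => w2S U x N a b) (hyperfilter ℕ) (𝓝 (w2L U x a b)) :=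
  (w2_lim (fun N => w2S U x N a b) _ (fun N => w2_bound U x N a b)).choose_spec

theorem w2L_eq (U : H →ₗᵢ[ℂ] H) (x : H) (a b : H) {z : ℂ}
    (h : Tendsto (fun N => w2S U x N a b) (hyperfilter ℕ) (𝓝 z)) : w2L U x a b = z :=
  tendsto_nhds_unique (w2L_spec U x a b) h

theorem w2L_bound (U : H →ₗᵢ[ℂ] H) (x : H) (a b : H) :
    ‖w2L U x a b‖ ≤ ‖x‖ * ‖x‖ * ‖a‖ * ‖b‖ :=
  le_of_tendsto (w2L_spec U x a b).norm (Eventually.of_forall fun N => w2_bound U x N a b)

theorem w2L_conj (U : H →ₗᵢ[ℂ] H) (x : H) (a b : H) : conj (w2L U x b a) = w2L U x a b := by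
  symm
  apply w2L_eq
  have h := (Complex.continuous_conj.tendsto _).comp (w2L_spec U x b a)
  refine h.congr fun N => ?_
  simp only [Function.comp, w2S, map_mul, map_sum, map_inv₀, Complex.conj_natCast, inner_conj_symm]
  congr 1
  exact Finset.sum_congr rfl fun n _ => mul_comm _ _

/-- The form. -/
noncomputable def w2F (U : H →ₗᵢ[ℂ] H) (x : H) : H →L⋆[ℂ] H →L[ℂ] ℂ :=
  LinearMap.mkContinuous₂
    (LinearMap.mk₂'ₛₗ (starRingEnd ℂ) (RingHom.id ℂ) (fun v w => w2L U x v w)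
      (fun v v' w => by
        apply w2L_eq
        refine ((w2L_spec U x v w).add (w2L_spec U x v' w)).congr fun N => ?_
        simp only [w2S, ← mul_add, ← Finset.sum_add_distrib]
        congr 1
        refine Finset.sum_congr rfl fun n _ => ?_
        rw [inner_add_left, add_mul])
      (fun c v w => by
        apply w2L_eq
        rw [smul_eq_mul]
        refine ((w2L_spec U x v w).const_mul (conj c)).congr fun N => ?_
        simp only [w2S]
        rw [mul_left_comm, Finset.mul_sum]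
        congr 1
        refine Finset.sum_congr rfl fun n _ => ?_
        rw [inner_smul_left, mul_assoc])
      (fun v w w' => by
        apply w2L_eq
        refine ((w2L_spec U x v w).add (w2L_spec U x v w')).congr fun N => ?_
        simp only [w2S, ← mul_add, ← Finset.sum_add_distrib]
        congr 1
        refine Finset.sum_congr rfl fun n _ => ?_
        rw [inner_add_right, mul_add])
      (fun c v w => by
        apply w2L_eq
        rw [smul_eq_mul, RingHom.id_apply]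
        refine ((w2L_spec U x v w).const_mul c).congr fun N => ?_
        simp only [w2S]
        rw [mul_left_comm, Finset.mul_sum]
        congr 1
        refine Finset.sum_congr rfl fun n _ => ?_
        rw [inner_smul_right, mul_left_comm]))
    (‖x‖ * ‖x‖) (fun v w => by
      rw [LinearMap.mk₂'ₛₗ_apply]
      exact w2L_bound U x v w)

variable [CompleteSpace H]

/-- The average operator. -/
noncomputable def w2B (U : H →ₗᵢ[ℂ] H) (x : H) : H →L[ℂ] H :=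
  InnerProductSpace.continuousLinearMapOfBilin (w2F U x)

theorem w2B_left (U : H →ₗᵢ[ℂ] H) (x : H) (v w : H) : ⟪w2B U x v, w⟫_ℂ = w2L U x v w := by
  rw [w2B, InnerProductSpace.continuousLinearMapOfBilin_apply]
  rfl

theorem w2B_right (U : H →ₗᵢ[ℂ] H) (x : H) (v w : H) : ⟪v, w2B U x w⟫_ℂ = w2L U x v w := by
  rw [← inner_conj_symm, w2B_left, w2L_conj]

omit [CompleteSpace H] in
theorem w2S_self (U : H →ₗᵢ[ℂ] H) (x : H) (N : ℕ) (a : H) :
    w2S U x N a a = (((N : ℝ)⁻¹ * ∑ n ∈ range N, ‖⟪a, (⇑U)^[n] x⟫_ℂ‖ ^ 2 : ℝ) : ℂ) := by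
  unfold w2S
  push_cast
  congr 1
  refine Finset.sum_congr rfl fun n _ => ?_
  rw [← inner_conj_symm ((⇑U)^[n] x) a, Complex.mul_conj, Complex.normSq_eq_norm_sq]
  push_cast
  rfl

/-- Existence of the average operator. Proof. Let `𝒰` be an ultrafilter finer than `atTop` on `ℕ`
(`Ultrafilter.of atTop`, or `hyperfilter`). For `a, b ∈ H` the numbers
`s_N(a, b) = (1/N) ∑_{n < N} ⟪a, U^n x⟫ ⟪U^n x, b⟫` are bounded by `‖x‖² ‖a‖ ‖b‖`, so they converge along
`𝒰` to some `s(a, b)` (compactness of closed balls in `ℂ`). `s` is additive and conjugate linear in `a`,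
linear in `b`, `|s(a, b)| ≤ ‖x‖² ‖a‖ ‖b‖`; let `B` be the operator with `⟪a, B b⟫ = s(a, b)`
(`LinearMap.mkContinuous₂`, `InnerProductSpace.continuousLinearMapOfBilin` or as in `Bop` in
`Pool/Agent/Lib/Helper4/Sumset/WM.lean`). Then:
* symmetric and positive: `s(a, a) = lim (1/N) ∑ |⟪a, U^n x⟫|² ≥ 0`;
* trace: `∑_i s_N(e_i, e_i) ≤ ‖x‖²` for orthonormal `e` by Bessel's inequality, so `∑_i s(e_i, e_i) ≤ ‖x‖²`;
* `s(U a, U b) = s(a, b)`: `⟪U a, U^n x⟫ = ⟪a, U^(n-1) x⟫` for `n ≥ 1`, so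
  `s_N(U a, U b) = s_N(a, b) + O(1/N)`;
* if `a ⟂ U^n x` for all `n ≥ k` then `s(a, b) = 0` for all `b`;
* `s(x, x)` is the limit of `(1/N) ∑_{n < N} |⟪x, U^n x⟫|²`.

`B U = U B`: by the fourth property for every `k` and `a ⟂ range U^k`, `⟪a, B b⟫ = 0`, so `B b` lies in
the range of `U` (closed since `U` is an isometry of a complete space), say; for all `a`:
`⟪U a, B U b⟫ = s(U a, U b) = s(a, b) = ⟪a, B b⟫ = ⟪U a, U B b⟫`; so `B U b - U B b` is orthogonal to the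
range of `U`, and belongs to the range of `U`; so it is `0`. -/
theorem exists_average_operator {H : Type*} [NormedAddCommGroup H] [InnerProductSpace ℂ H]
    [CompleteSpace H] (U : H →ₗᵢ[ℂ] H) (x : H) :
    ∃ B : H →L[ℂ] H, (B : H →ₗ[ℂ] H).IsSymmetric ∧ (∀ y, 0 ≤ (⟪B y, y⟫_ℂ).re) ∧
      (∀ (k : ℕ) (e : Fin k → H), Orthonormal ℂ e →
        ∑ i, (⟪B (e i), e i⟫_ℂ).re ≤ ‖x‖ ^ 2) ∧
      (∀ y, B (U y) = U (B y)) ∧
      (∀ a, (∀ n : ℕ, ⟪a, (⇑U)^[n] x⟫_ℂ = 0) → ∀ b, ⟪a, B b⟫_ℂ = 0) ∧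
      (B = 0 → ∀ δ : ℝ, 0 < δ → ∃ᶠ N : ℕ in atTop,
        ∑ n ∈ range N, ‖⟪(⇑U)^[n] x, x⟫_ℂ‖ ^ 2 ≤ δ * N) := by
  have hre : ∀ a, Tendsto (fun N : ℕ => (N : ℝ)⁻¹ * ∑ n ∈ range N, ‖⟪a, (⇑U)^[n] x⟫_ℂ‖ ^ 2)
      (hyperfilter ℕ) (𝓝 (⟪w2B U x a, a⟫_ℂ).re) := by
    intro a
    have h1 := (Complex.continuous_re.tendsto _).comp (w2L_spec U x a a)
    rw [w2B_left]
    refine h1.congr fun N => ?_
    rw [Function.comp, w2S_self, Complex.ofReal_re]
  have hinvN : Tendsto (fun N : ℕ => (N : ℝ)⁻¹) (hyperfilter ℕ) (𝓝 0) :=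
    tendsto_inv_atTop_nhds_zero_nat.mono_left Nat.hyperfilter_le_atTop
  have hzero : ∀ a b, (∀ n : ℕ, 1 ≤ n → ⟪a, (⇑U)^[n] x⟫_ℂ = 0) → w2L U x a b = 0 := by
    intro a b h
    apply w2L_eq
    refine squeeze_zero_norm (a := fun N : ℕ => (N : ℝ)⁻¹ * (‖x‖ * ‖x‖ * ‖a‖ * ‖b‖)) (fun N => ?_) ?_
    · unfold w2S
      rw [norm_mul, norm_inv, Complex.norm_natCast]
      refine mul_le_mul_of_nonneg_left ?_ (by positivity)
      rcases Nat.eq_zero_or_pos N with rfl | hN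
      · simp
        positivity
      · rw [Finset.sum_eq_single_of_mem 0 (Finset.mem_range.2 hN)]
        · exact w2_term U x 0 a b
        · intro n _ hn
          rw [h n (Nat.one_le_iff_ne_zero.2 hn), zero_mul]
    · simpa using hinvN.mul_const (‖x‖ * ‖x‖ * ‖a‖ * ‖b‖)
  have hUU : ∀ a b, w2L U x (U a) (U b) = w2L U x a b := by
    intro a b
    apply w2L_eq
    have h1 : Tendsto (fun N : ℕ => w2S U x N (U a) (U b) - w2S U x N a b) (hyperfilter ℕ) (𝓝 0) := by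
      refine squeeze_zero_norm (a := fun N : ℕ => (N : ℝ)⁻¹ * (2 * (‖x‖ * ‖x‖ * ‖a‖ * ‖b‖)))
        (fun N => ?_) ?_
      · unfold w2S
        rw [← mul_sub, norm_mul, norm_inv, Complex.norm_natCast]
        refine mul_le_mul_of_nonneg_left ?_ (by positivity)
        rcases Nat.eq_zero_or_pos N with rfl | hN
        · simp
          positivity
        · obtain ⟨M, rfl⟩ : ∃ M, N = M + 1 := ⟨N - 1, by omega⟩
          rw [Finset.sum_range_succ', Finset.sum_range_succ]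
          have h2 : ∀ n ∈ range M, ⟪U a, (⇑U)^[n + 1] x⟫_ℂ * ⟪(⇑U)^[n + 1] x, U b⟫_ℂ =
              ⟪a, (⇑U)^[n] x⟫_ℂ * ⟪(⇑U)^[n] x, b⟫_ℂ := by
            intro n _
            rw [Function.iterate_succ_apply', U.inner_map_map, U.inner_map_map]
          rw [Finset.sum_congr rfl h2, add_sub_add_left_eq_sub]
          refine (norm_sub_le _ _).trans ?_
          have h3 := w2_term U x 0 (U a) (U b)
          have h4 := w2_term U x M a b
          rw [U.norm_map, U.norm_map] at h3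
          linarith
      · simpa using hinvN.mul_const (2 * (‖x‖ * ‖x‖ * ‖a‖ * ‖b‖))
    have h2 := h1.add (w2L_spec U x a b)
    simpa using h2
  refine ⟨w2B U x, ?_, ?_, ?_, ?_, ?_, ?_⟩
  · intro v w
    exact (w2B_left U x v w).trans (w2B_right U x v w).symm
  · intro y
    exact ge_of_tendsto (hre y) (Eventually.of_forall fun N => by positivity)
  · intro k e he
    have h1 : Tendsto (fun N : ℕ => ∑ i, (N : ℝ)⁻¹ * ∑ n ∈ range N, ‖⟪e i, (⇑U)^[n] x⟫_ℂ‖ ^ 2)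
        (hyperfilter ℕ) (𝓝 (∑ i, (⟪w2B U x (e i), e i⟫_ℂ).re)) :=
      tendsto_finsetSum _ fun i _ => hre (e i)
    refine le_of_tendsto h1 (Eventually.of_forall fun N => ?_)
    rw [← Finset.mul_sum, Finset.sum_comm]
    have h2 : ∀ n ∈ range N, ∑ i, ‖⟪e i, (⇑U)^[n] x⟫_ℂ‖ ^ 2 ≤ ‖x‖ ^ 2 := by
      intro n _
      have := he.sum_inner_products_le ((⇑U)^[n] x) (s := Finset.univ)
      rwa [w2_norm] at this
    have h3 := Finset.sum_le_sum h2
    rw [Finset.sum_const, Finset.card_range, nsmul_eq_mul] at h3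
    rcases Nat.eq_zero_or_pos N with rfl | hN
    · simp
    · have hN' : (0 : ℝ) < N := by exact_mod_cast hN
      rw [inv_mul_le_iff₀ hN']
      exact h3
  · intro b
    rw [← sub_eq_zero]
    set d := w2B U x (U b) - U (w2B U x b) with hd
    have h1 : ∀ a, ⟪U a, d⟫_ℂ = 0 := by
      intro a
      rw [hd, inner_sub_right, w2B_right, hUU, U.inner_map_map, w2B_right, sub_self]
    have h2 : ∀ n : ℕ, 1 ≤ n → ⟪d, (⇑U)^[n] x⟫_ℂ = 0 := by
      intro n hn
      obtain ⟨m, rfl⟩ : ∃ m, n = m + 1 := ⟨n - 1, by omega⟩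
      rw [Function.iterate_succ_apply', ← inner_conj_symm, h1, map_zero]
    have h3 : ⟪d, d⟫_ℂ = 0 := by
      conv_lhs => rw [hd]
      rw [← hd, inner_sub_right, w2B_right, hzero d _ h2, ← inner_conj_symm d (U _), h1, map_zero,
        sub_zero]
    exact inner_self_eq_zero.1 h3
  · intro a h b
    rw [w2B_right]
    exact hzero a b fun n _ => h n
  · intro hB δ hδ
    have h1 := hre x
    rw [hB] at h1
    simp only [zero_apply, inner_zero_left, Complex.zero_re] at h1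
    have h2 : ∀ᶠ N : ℕ in (hyperfilter ℕ : Filter ℕ),
        (N : ℝ)⁻¹ * ∑ n ∈ range N, ‖⟪x, (⇑U)^[n] x⟫_ℂ‖ ^ 2 < δ := h1.eventually_lt_const hδ
    refine Frequently.filter_mono (Eventually.frequently ?_) Nat.hyperfilter_le_atTop
    have h3 : ∀ᶠ N : ℕ in (hyperfilter ℕ : Filter ℕ), 1 ≤ N :=
      (eventually_ge_atTop 1).filter_mono Nat.hyperfilter_le_atTop
    filter_upwards [h2, h3] with N hN1 hN2
    have hN' : (0 : ℝ) < N := by exact_mod_cast hN2
    rw [inv_mul_lt_iff₀ hN'] at hN1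
    have h4 : ∀ n ∈ range N, ‖⟪(⇑U)^[n] x, x⟫_ℂ‖ ^ 2 = ‖⟪x, (⇑U)^[n] x⟫_ℂ‖ ^ 2 := by
      intro n _
      rw [norm_inner_symm]
    rw [Finset.sum_congr rfl h4]
    linarith

end w2

/-- Proof. Take `B` from `exists_average_operator`. Suppose `B ≠ 0`. It is compact
(`isCompactOperator_of_trace`) and symmetric, so it has an eigenvalue `β ≠ 0`
(`exists_eigenvalue_ne_zero`) with finite dimensional eigenspace `E` (`finiteDimensional_eigenspace`),
which is invariant under `U` since `B U = U B`. So `E` contains an eigenvector `w ≠ 0` of `U`, `U w = c w`,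
`|c| = 1` (`exists_eigenvector`). `w` is orthogonal to all `U^n x`:
`⟪w, x⟫ = ⟪U^n w, U^n x⟫ = conj(c)^n ⟪w, U^n x⟫`, and `⟪w, x⟫ = 0` by `hx`. So `⟪w, B b⟫ = 0` for all `b`, but `B w = β w`, so `β ‖w‖² = 0`. Contradiction. So `B = 0` and the
last property of `B` gives the claim (a frequently true statement in `atTop` has an instance `N ≥ 1`). -/
theorem wiener_aux {H : Type*} [NormedAddCommGroup H] [InnerProductSpace ℂ H] [CompleteSpace H]
    (U : H →ₗᵢ[ℂ] H) (x : H) (hx : ∀ (c : ℂ) (w : H), U w = c • w → ⟪w, x⟫_ℂ = 0) (δ : ℝ)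
    (hδ : 0 < δ) :
    ∃ N : ℕ, 1 ≤ N ∧ ∑ n ∈ range N, ‖⟪(⇑U)^[n] x, x⟫_ℂ‖ ^ 2 ≤ δ * N := by
  obtain ⟨B, hsym, hpos, htr, hcomm, hort, hlast⟩ := exists_average_operator U x
  have hB0 : B = 0 := by
    by_contra hne
    have hcpt := isCompactOperator_of_trace B hsym hpos _ htr
    obtain ⟨β, hβ, hE⟩ := exists_eigenvalue_ne_zero B hcpt hsym hne
    have hfin := finiteDimensional_eigenspace B hcpt β hβ
    have hmem : ∀ v, v ∈ Module.End.eigenspace (B : H →ₗ[ℂ] H) β ↔ B v = β • v :=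
      fun v => Module.End.mem_eigenspace_iff
    obtain ⟨c, w, hw, hw0, hc, hUw⟩ := exists_eigenvector U _ hE (by
      intro v hv
      rw [hmem] at hv ⊢
      rw [hcomm, hv, map_smul])
    have h1 : ∀ n : ℕ, (⇑U)^[n] w = c ^ n • w := by
      intro n
      induction n with
      | zero => simp
      | succ n ih => rw [Function.iterate_succ_apply', ih, map_smul, hUw, smul_smul, pow_succ]
    have h2 : ∀ n : ℕ, ⟪(⇑U)^[n] w, (⇑U)^[n] x⟫_ℂ = ⟪w, x⟫_ℂ := by
      intro n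
      induction n with
      | zero => rfl
      | succ n ih => rw [Function.iterate_succ_apply', Function.iterate_succ_apply', U.inner_map_map, ih]
    have hc0 : c ≠ 0 := by
      rintro rfl
      simp at hc
    have h3 : ∀ n : ℕ, ⟪w, (⇑U)^[n] x⟫_ℂ = 0 := by
      intro n
      have h4 := h2 n
      rw [h1, hx c w hUw, inner_smul_left] at h4
      rcases mul_eq_zero.1 h4 with h5 | h5
      · exfalso
        rw [map_eq_zero] at h5
        exact pow_ne_zero n hc0 h5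
      · exact h5
    have h4 := hort w h3 w
    rw [hmem] at hw
    rw [hw, inner_smul_right] at h4
    rcases mul_eq_zero.1 h4 with h5 | h5
    · exact hβ h5
    · exact hw0 (inner_self_eq_zero.1 h5)
  obtain ⟨N, hN, hN1⟩ := ((hlast hB0 δ hδ).and_eventually (eventually_ge_atTop 1)).exists
  exact ⟨N, hN1, hN⟩

end Pool.Agent.Lib.H22M
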